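import Pool.Agent.Lib.MP_7ed9c3_nt.Tw.SpecD

/-!
# MP_7ed9c3_nt, part Tw, module D1: sums of a smooth function over a fine lattice
-/

set_option autoImplicit false

namespace MP7ed9c3.Tw

namespace D1

open MeasureTheory Filter Topology

variable {E : Type} [NormedAddCommGroup E] [NormedSpace ℝ E]
variable {ι : Type}

/-- the sum over the translated lattice -/
noncomputable def P (b : Module.Basis ι ℝ E) (f : E → ℝ) (h : ℝ) (x : E) : ℝ :=
  ∑' a : Submodule.span ℤ (Set.range b), f (h • ((a : E) + x))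

section basic

variable [FiniteDimensional ℝ E] [Fintype ι]

lemma finite_ball (b : Module.Basis ι ℝ E) (r : ℝ) :
    {a : Submodule.span ℤ (Set.range b) | ‖(a : E)‖ ≤ r}.Finite := by
  have h := ZSpan.setFinite_inter b (Metric.isBounded_closedBall (x := (0 : E)) (r := r))
  refine (h.preimage (f := fun a : Submodule.span ℤ (Set.range b) => (a : E))
    Subtype.val_injective.injOn).subset ?_
  intro a ha
  refine ⟨?_, a.2⟩
  rw [Metric.mem_closedBall, dist_zero_right]
  exact ha

lemma exists_supp (b : Module.Basis ι ℝ E) (h R r : ℝ) (hh : 0 < h) :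
    ∃ T : Finset (Submodule.span ℤ (Set.range b)), ∀ f : E → ℝ, (∀ x, R < ‖x‖ → f x = 0) →
      ∀ x, ‖x‖ ≤ r → ∀ a, a ∉ T → f (h • ((a : E) + x)) = 0 := by
  refine ⟨(finite_ball b (R / h + r)).toFinset, fun f hf x hx a ha => hf _ ?_⟩
  rw [Set.Finite.mem_toFinset] at ha
  have ha' : R / h + r < ‖(a : E)‖ := not_le.1 ha
  rw [norm_smul, Real.norm_of_nonneg hh.le]
  have h1 : ‖(a : E)‖ ≤ ‖(a : E) + x‖ + ‖x‖ := by
    have h3 := norm_sub_le ((a : E) + x) x
    rwa [add_sub_cancel_right] at h3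
  have h2 : R / h < ‖(a : E) + x‖ := by linarith
  rwa [div_lt_iff₀' hh] at h2

lemma P_continuous (b : Module.Basis ι ℝ E) {h R : ℝ} (hh : 0 < h) {f : E → ℝ}
    (hf : Continuous f) (hR : ∀ x, R < ‖x‖ → f x = 0) : Continuous (P b f h) := by
  rw [continuous_iff_continuousAt]
  intro x
  obtain ⟨T, hT⟩ := exists_supp b h R (‖x‖ + 1) hh
  have h1 : P b f h =ᶠ[𝓝 x] fun y => ∑ a ∈ T, f (h • ((a : E) + y)) := by
    filter_upwards [Metric.ball_mem_nhds x one_pos] with y hy
    refine tsum_eq_sum (hT f hR y ?_)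
    rw [Metric.mem_ball, dist_eq_norm] at hy
    have h3 := norm_sub_norm_le y x
    linarith
  refine ContinuousAt.congr ?_ h1.symm
  exact Continuous.continuousAt (by fun_prop)

omit [FiniteDimensional ℝ E] in
lemma fderiv_vanish {f : E → ℝ} {R : ℝ} (hR : ∀ x, R < ‖x‖ → f x = 0) (v : E) :
    ∀ x, R < ‖x‖ → fderiv ℝ f x v = 0 := by
  intro x hx
  have h1 : f =ᶠ[𝓝 x] fun _ => (0 : ℝ) := by
    filter_upwards [(isOpen_lt continuous_const continuous_norm).mem_nhds hx] with y hy
    exact hR y hy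
  rw [h1.fderiv_eq]
  simp

lemma P_hasDerivAt (b : Module.Basis ι ℝ E) {h R : ℝ} (hh : 0 < h) {f : E → ℝ}
    (hf : ContDiff ℝ 1 f) (hR : ∀ x, R < ‖x‖ → f x = 0) (x v : E) (t : ℝ) :
    HasDerivAt (fun s : ℝ => P b f h (x + s • v))
      (h * P b (fun y => fderiv ℝ f y v) h (x + t • v)) t := by
  obtain ⟨T, hT⟩ := exists_supp b h R (‖x + t • v‖ + 1) hh
  have h1 : (fun s : ℝ => P b f h (x + s • v)) =ᶠ[𝓝 t]
      fun s => ∑ a ∈ T, f (h • ((a : E) + (x + s • v))) := by
    have hc : Continuous fun s : ℝ => x + s • v := by fun_prop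
    filter_upwards [hc.continuousAt (Metric.ball_mem_nhds (x + t • v) one_pos)] with s hs
    refine tsum_eq_sum (hT f hR _ ?_)
    have hs' : dist (x + s • v) (x + t • v) < 1 := hs
    rw [dist_eq_norm] at hs'
    have h3 := norm_sub_norm_le (x + s • v) (x + t • v)
    linarith
  have h2 : P b (fun y => fderiv ℝ f y v) h (x + t • v) =
      ∑ a ∈ T, fderiv ℝ f (h • ((a : E) + (x + t • v))) v :=
    tsum_eq_sum (hT _ (fderiv_vanish hR v) _ (by linarith))
  rw [h2, Finset.mul_sum]
  refine HasDerivAt.congr_of_eventuallyEq ?_ h1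
  refine HasDerivAt.fun_sum fun a _ => ?_
  have h3 : HasDerivAt (fun s : ℝ => h • ((a : E) + (x + s • v))) (h • v) t := by
    have h4 : HasDerivAt (fun s : ℝ => s • v) v t := by
      simpa using (hasDerivAt_id t).smul_const v
    exact ((h4.const_add x).const_add (a : E)).const_smul h
  have h5 := ((hf.differentiable one_ne_zero) (h • ((a : E) + (x + t • v)))).hasFDerivAt.comp_hasDerivAt
    t h3
  rw [map_smul, smul_eq_mul] at h5
  exact h5

omit [FiniteDimensional ℝ E] [Fintype ι] in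
lemma P_period (b : Module.Basis ι ℝ E) (f : E → ℝ) (h : ℝ) (x : E) (i : ι) :
    P b f h (x + b i) = P b f h x := by
  have h1 := (Equiv.addRight (⟨b i, Submodule.subset_span ⟨i, rfl⟩⟩ :
    Submodule.span ℤ (Set.range b))).tsum_eq (fun a => f (h • ((a : E) + x)))
  unfold P
  rw [← h1]
  refine tsum_congr fun a => ?_
  congr 2
  show (a : E) + (x + b i) = (a : E) + b i + x
  abel

/-- the number of lattice points -/
lemma card_le (b : Module.Basis ι ℝ E) (R : ℝ) : ∃ C : ℝ, 0 ≤ C ∧ ∀ h : ℝ, 0 < h → h ≤ 1 →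
    ∀ (x : E) (T : Finset (Submodule.span ℤ (Set.range b))),
      (∀ a ∈ T, ‖h • ((a : E) + x)‖ ≤ R) → (T.card : ℝ) ≤ C / h ^ Module.finrank ℝ E := by
  classical
  -- the coordinates are bounded
  obtain ⟨c, hc0, hc⟩ : ∃ c : ℝ, 0 ≤ c ∧ ∀ (y : E) (i : ι), |b.repr y i| ≤ c * ‖y‖ := by
    refine ⟨∑ i, ‖(LinearMap.toContinuousLinearMap (b.coord i))‖,
      Finset.sum_nonneg fun i _ => norm_nonneg _, fun y i => ?_⟩
    have h1 := (LinearMap.toContinuousLinearMap (b.coord i)).le_opNorm y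
    have h2 : ‖(LinearMap.toContinuousLinearMap (b.coord i))‖ ≤
        ∑ i, ‖(LinearMap.toContinuousLinearMap (b.coord i))‖ :=
      Finset.single_le_sum (f := fun i => ‖(LinearMap.toContinuousLinearMap (b.coord i))‖)
        (fun i _ => norm_nonneg _) (Finset.mem_univ i)
    exact h1.trans (mul_le_mul_of_nonneg_right h2 (norm_nonneg _))
  refine ⟨(2 * (c * |R|) + 1) ^ Module.finrank ℝ E, by positivity, ?_⟩
  intro h hh hh1 x T hT
  set r : ℝ := c * (|R| / h) with hr
  have hr0 : 0 ≤ r := by positivity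
  let z : Submodule.span ℤ (Set.range b) → ι → ℤ := fun a => (b.restrictScalars ℤ).repr a
  have hz : ∀ a i, (z a i : ℝ) = b.repr (a : E) i := fun a i =>
    b.restrictScalars_repr_apply ℤ a i
  have hzinj : Function.Injective z := by
    intro a a' haa
    apply (b.restrictScalars ℤ).repr.injective
    exact DFunLike.coe_injective haa
  have hmem : ∀ a ∈ T, z a ∈ Fintype.piFinset fun i : ι =>
      Finset.Icc ⌈-(b.repr x i) - r⌉ ⌊-(b.repr x i) + r⌋ := by
    intro a ha
    rw [Fintype.mem_piFinset]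
    intro i
    have h1 := hc ((a : E) + x) i
    have h2 : ‖(a : E) + x‖ ≤ |R| / h := by
      rw [le_div_iff₀' hh]
      have h3 := hT a ha
      rw [norm_smul, Real.norm_of_nonneg hh.le] at h3
      exact h3.trans (le_abs_self R)
    have h4 : |b.repr ((a : E) + x) i| ≤ r := h1.trans (mul_le_mul_of_nonneg_left h2 hc0)
    rw [map_add, Finsupp.add_apply, ← hz, abs_le] at h4
    rw [Finset.mem_Icc, Int.ceil_le, Int.le_floor]
    constructor <;> linarith [h4.1, h4.2]
  have h1 : T.card ≤ (Fintype.piFinset fun i : ι =>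
      Finset.Icc ⌈-(b.repr x i) - r⌉ ⌊-(b.repr x i) + r⌋).card :=
    Finset.card_le_card_of_injOn z hmem hzinj.injOn
  rw [Fintype.card_piFinset] at h1
  have h2 : (T.card : ℝ) ≤ ∏ i : ι, ((2 * (c * |R|) + 1) / h) := by
    refine le_trans (by exact_mod_cast h1 : (T.card : ℝ) ≤ ((∏ i : ι,
      (Finset.Icc ⌈-(b.repr x i) - r⌉ ⌊-(b.repr x i) + r⌋).card : ℕ) : ℝ)) ?_
    rw [Nat.cast_prod]
    refine Finset.prod_le_prod (fun i _ => Nat.cast_nonneg _) fun i _ => ?_
    rw [Int.card_Icc]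
    have h3 : (((⌊-(b.repr x i) + r⌋ + 1 - ⌈-(b.repr x i) - r⌉).toNat : ℕ) : ℝ) ≤ 2 * r + 1 := by
      rcases le_total 0 (⌊-(b.repr x i) + r⌋ + 1 - ⌈-(b.repr x i) - r⌉) with h4 | h4
      · have h5 : (((⌊-(b.repr x i) + r⌋ + 1 - ⌈-(b.repr x i) - r⌉).toNat : ℕ) : ℝ) =
            ((⌊-(b.repr x i) + r⌋ + 1 - ⌈-(b.repr x i) - r⌉ : ℤ) : ℝ) := by
          exact_mod_cast congrArg (Int.cast : ℤ → ℝ) (Int.toNat_of_nonneg h4)
        rw [h5]
        push_cast
        have h6 := Int.floor_le (-(b.repr x i) + r)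
        have h7 := Int.le_ceil (-(b.repr x i) - r)
        linarith
      · rw [Int.toNat_of_nonpos h4, Nat.cast_zero]
        positivity
    refine h3.trans ?_
    rw [le_div_iff₀ hh, hr]
    have h8 : (2 * (c * (|R| / h)) + 1) * h = 2 * (c * |R|) + h := by
      field_simp
    rw [h8]
    linarith
  refine h2.trans (le_of_eq ?_)
  rw [Finset.prod_const, Finset.card_univ, div_pow, Module.finrank_eq_card_basis b]

lemma P_bound (b : Module.Basis ι ℝ E) {C h R : ℝ} (hh : 0 < h)
    (hC : ∀ (x : E) (T : Finset (Submodule.span ℤ (Set.range b))),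
      (∀ a ∈ T, ‖h • ((a : E) + x)‖ ≤ R) → (T.card : ℝ) ≤ C) {f : E → ℝ} {M : ℝ}
    (hR : ∀ x, R < ‖x‖ → f x = 0) (hM : ∀ x, |f x| ≤ M) (x : E) : |P b f h x| ≤ C * M := by
  classical
  obtain ⟨T, hT⟩ := exists_supp b h R ‖x‖ hh
  let T' : Finset (Submodule.span ℤ (Set.range b)) :=
    T.filter (fun a : Submodule.span ℤ (Set.range b) => ‖h • ((a : E) + x)‖ ≤ R)
  have hT' : ∀ a : Submodule.span ℤ (Set.range b), a ∈ T' ↔ a ∈ T ∧ ‖h • ((a : E) + x)‖ ≤ R :=
    fun a => Finset.mem_filter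
  have h1 : P b f h x = ∑ a ∈ T', f (h • ((a : E) + x)) := by
    refine tsum_eq_sum fun a ha => ?_
    by_cases h2 : a ∈ T
    · refine hR _ (not_le.1 fun h3 => ha ?_)
      exact (hT' a).2 ⟨h2, h3⟩
    · exact hT f hR x le_rfl a h2
  have hM0 : 0 ≤ M := (abs_nonneg _).trans (hM 0)
  rw [h1]
  calc |∑ a ∈ T', f (h • ((a : E) + x))|
      ≤ ∑ a ∈ T', |f (h • ((a : E) + x))| := Finset.abs_sum_le_sum_abs _ _
    _ ≤ ∑ _a ∈ T', M := Finset.sum_le_sum fun a _ => hM _
    _ = (T'.card : ℝ) * M := by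
        rw [Finset.sum_const, nsmul_eq_mul]
    _ ≤ C * M := mul_le_mul_of_nonneg_right (hC x _ fun a ha => ((hT' a).1 ha).2) hM0

/-- mean value bound -/
lemma P_lip (b : Module.Basis ι ℝ E) {h R : ℝ} (hh : 0 < h) {f : E → ℝ}
    (hf : ContDiff ℝ 1 f) (hR : ∀ x, R < ‖x‖ → f x = 0) (v : E) {M : ℝ}
    (hM : ∀ y, |P b (fun y => fderiv ℝ f y v) h y| ≤ M) (x : E) (s : ℝ) :
    |P b f h (x + s • v) - P b f h x| ≤ h * M * |s| := by
  have h1 := Convex.norm_image_sub_le_of_norm_hasDerivWithin_le (𝕜 := ℝ)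
    (f := fun s : ℝ => P b f h (x + s • v))
    (f' := fun t => h * P b (fun y => fderiv ℝ f y v) h (x + t • v)) (C := h * M)
    (s := Set.univ) (x := 0) (y := s)
    (fun t _ => (P_hasDerivAt b hh hf hR x v t).hasDerivWithinAt)
    (fun t _ => by
      rw [norm_mul, Real.norm_of_nonneg hh.le]
      exact mul_le_mul_of_nonneg_left (hM _) hh.le) convex_univ (Set.mem_univ _) (Set.mem_univ _)
  simpa using h1

/-- a derivative in the direction of the lattice has mean zero -/
lemma P_deriv_bound (b : Module.Basis ι ℝ E) {h R : ℝ} (hh : 0 < h) {f : E → ℝ}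
    (hf : ContDiff ℝ 2 f) (hR : ∀ x, R < ‖x‖ → f x = 0) (i : ι) {M : ℝ}
    (hM : ∀ y, |P b (fun z => fderiv ℝ (fun y => fderiv ℝ f y (b i)) z (b i)) h y| ≤ M) (x : E) :
    |P b (fun y => fderiv ℝ f y (b i)) h x| ≤ h * M := by
  set g : E → ℝ := fun y => fderiv ℝ f y (b i) with hg
  have hg1 : ContDiff ℝ 1 g := by
    have h1 : ContDiff ℝ 1 (fderiv ℝ f) := hf.fderiv_right (by norm_num)
    exact h1.clm_apply contDiff_const
  have hgR : ∀ x, R < ‖x‖ → g x = 0 := fderiv_vanish hR (b i)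
  have hM0 : 0 ≤ M := (abs_nonneg _).trans (hM 0)
  have hcont : Continuous fun s : ℝ => P b g h (x + s • b i) :=
    (P_continuous b hh hg1.continuous hgR).comp (by fun_prop)
  have h1 : ∫ s in (0 : ℝ)..1, h * P b g h (x + s • b i) = 0 := by
    rw [intervalIntegral.integral_eq_sub_of_hasDerivAt
      (fun s _ => P_hasDerivAt b hh (hf.of_le (by norm_num)) hR x (b i) s)
      ((hcont.const_mul h).intervalIntegrable 0 1)]
    rw [one_smul, zero_smul, add_zero, P_period, sub_self]
  rw [intervalIntegral.integral_const_mul] at h1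
  have h2 : ∫ s in (0 : ℝ)..1, P b g h (x + s • b i) = 0 := by
    rcases mul_eq_zero.1 h1 with h3 | h3
    · exact absurd h3 hh.ne'
    · exact h3
  have h4 : P b g h x = ∫ s in (0 : ℝ)..1, (P b g h x - P b g h (x + s • b i)) := by
    rw [intervalIntegral.integral_sub (by simp) (hcont.intervalIntegrable 0 1), h2]
    simp
  rw [h4]
  have h5 := intervalIntegral.norm_integral_le_of_norm_le_const (a := (0 : ℝ)) (b := 1)
    (f := fun s => P b g h x - P b g h (x + s • b i)) (C := h * M) (by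
      intro s hs
      rw [Set.uIoc_of_le zero_le_one] at hs
      rw [Real.norm_eq_abs, abs_sub_comm]
      refine (P_lip b hh hg1 hgR (b i) hM x s).trans ?_
      rw [abs_of_pos hs.1]
      exact mul_le_of_le_one_right (mul_nonneg hh.le hM0) hs.2)
  rw [Real.norm_eq_abs] at h5
  simpa using h5

/-- the main bound -/
lemma main_bound (b : Module.Basis ι ℝ E) {C h R : ℝ} (hh : 0 < h)
    (hC : ∀ (x : E) (T : Finset (Submodule.span ℤ (Set.range b))),
      (∀ a ∈ T, ‖h • ((a : E) + x)‖ ≤ R) → (T.card : ℝ) ≤ C) (i : ι) (k : ℕ) :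
    ∀ (f : E → ℝ) (B : ℝ), ContDiff ℝ (k + 1) f → (∀ x, R < ‖x‖ → f x = 0) →
      (∀ x, ‖iteratedFDeriv ℝ (k + 1) f x‖ ≤ B) → ∀ x,
        |P b (fun y => fderiv ℝ f y (b i)) h x| ≤ C * (h ^ k * (‖b i‖ ^ (k + 1) * B)) := by
  induction k with
  | zero =>
    intro f B hf hR hB x
    refine (P_bound b hh hC (fderiv_vanish hR (b i)) (M := ‖b i‖ * B) (fun y => ?_) x).trans
      (le_of_eq (by ring))
    have h1 := (fderiv ℝ f y).le_opNorm (b i)
    have h2 : ‖fderiv ℝ f y‖ ≤ B := by
      have h3 := hB y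
      rw [← norm_iteratedFDeriv_fderiv, norm_iteratedFDeriv_zero] at h3
      exact h3
    rw [← Real.norm_eq_abs]
    refine h1.trans ?_
    rw [mul_comm]
    exact mul_le_mul_of_nonneg_left h2 (norm_nonneg _)
  | succ k ih =>
    intro f B hf hR hB x
    have hf2 : ContDiff ℝ 2 f := hf.of_le (by
      push_cast
      have h0 : (1 : WithTop ℕ∞) ≤ ((k : WithTop ℕ∞) + 1) := le_add_self
      calc (2 : WithTop ℕ∞) = 1 + 1 := by norm_num
        _ ≤ (k : WithTop ℕ∞) + 1 + 1 := by gcongr)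
    have hfd : ContDiff ℝ (k + 1) (fderiv ℝ f) := hf.fderiv_right (by push_cast; exact le_rfl)
    have hg : ContDiff ℝ (k + 1) (fun y => fderiv ℝ f y (b i)) := hfd.clm_apply contDiff_const
    have h1 := ih (fun y => fderiv ℝ f y (b i)) (‖b i‖ * B) hg (fderiv_vanish hR (b i)) (by
      intro y
      refine (norm_iteratedFDeriv_clm_apply_const (N := (k + 1 : ℕ)) (n := k + 1)
        (by exact_mod_cast hfd.contDiffAt) le_rfl).trans ?_
      rw [norm_iteratedFDeriv_fderiv]
      exact mul_le_mul_of_nonneg_left (hB y) (norm_nonneg _))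
    refine (P_deriv_bound b hh hf2 hR i h1 x).trans (le_of_eq (by ring))

end basic

end D1

open D1 MeasureTheory in
theorem latticeSum : S_LatticeSum := by
  intro E _ _ _ _ _ μ _ ι _ b k R
  obtain ⟨C₁, hC₁, hcard⟩ := card_le b R
  refine ⟨C₁ * ∑ i, ‖b i‖ ^ (k + 1), ?_⟩
  intro f B h hf hR hB hh hh1
  set n := Module.finrank ℝ E with hn
  have hcard' := hcard h hh hh1
  have hf1 : ContDiff ℝ 1 f := hf.of_le le_add_self
  have hB0 : 0 ≤ B := (norm_nonneg _).trans (hB 0)
  -- the bound in every direction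
  set M : ι → ℝ := fun i => C₁ / h ^ n * (h ^ k * (‖b i‖ ^ (k + 1) * B)) with hMdef
  have hM0 : ∀ i, 0 ≤ M i := fun i => by positivity
  have hM : ∀ i y, |P b (fun y => fderiv ℝ f y (b i)) h y| ≤ M i := fun i y =>
    main_bound b hh hcard' i k f B hf hR hB y
  set K : ℝ := ∑ i, h * M i with hK
  have hosc : ∀ x ∈ ZSpan.fundamentalDomain b, |P b f h x - P b f h 0| ≤ K := by
    classical
    intro x hx
    have key : ∀ s : Finset ι, |P b f h (∑ i ∈ s, b.repr x i • b i) - P b f h 0| ≤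
        ∑ i ∈ s, h * M i := by
      intro s
      induction s using Finset.induction_on with
      | empty => simp
      | insert i s his ih =>
        rw [Finset.sum_insert his, Finset.sum_insert his, add_comm (b.repr x i • b i)]
        have h1 := P_lip b hh hf1 hR (b i) (hM i) (∑ i ∈ s, b.repr x i • b i) (b.repr x i)
        have h2 : |b.repr x i| ≤ 1 := by
          have h3 := hx i
          rw [abs_of_nonneg h3.1]
          exact h3.2.le
        have h4 : h * M i * |b.repr x i| ≤ h * M i :=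
          mul_le_of_le_one_right (mul_nonneg hh.le (hM0 i)) h2
        have h5 := abs_sub_le (P b f h (∑ i ∈ s, b.repr x i • b i + b.repr x i • b i))
          (P b f h (∑ i ∈ s, b.repr x i • b i)) (P b f h 0)
        linarith
    have h1 := key Finset.univ
    rwa [b.sum_repr] at h1
  -- integration over the fundamental domain
  set D := ZSpan.fundamentalDomain b with hD
  have hDm : MeasurableSet D := ZSpan.fundamentalDomain_measurableSet b
  have hDb : Bornology.IsBounded D := ZSpan.fundamentalDomain_isBounded b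
  have hDfin : μ D ≠ ⊤ := hDb.measure_lt_top.ne
  have hDpos : 0 < μ.real D :=
    ENNReal.toReal_pos (ZSpan.measure_fundamentalDomain_ne_zero b) hDfin
  have hfc : Continuous f := hf.continuous
  have hFc : Continuous fun x : E => f (h • x) := hfc.comp (continuous_const_smul h)
  have hFsupp : HasCompactSupport fun x : E => f (h • x) := by
    refine HasCompactSupport.intro (isCompact_closedBall (0 : E) (R / h)) fun x hx => hR _ ?_
    rw [Metric.mem_closedBall, dist_zero_right, not_le, div_lt_iff₀' hh] at hx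
    rwa [norm_smul, Real.norm_of_nonneg hh.le]
  have hint : ∫ x in D, P b f h x ∂μ = (∫ x, f x ∂μ) / h ^ n := by
    have h1 : ∫ x, f (h • x) ∂μ = (∫ x, f x ∂μ) / h ^ n := by
      rw [Measure.integral_comp_smul, smul_eq_mul, abs_of_pos (by positivity), ← hn]
      field_simp
    have : VAddInvariantMeasure (Submodule.span ℤ (Set.range b)) E μ :=
      inferInstanceAs (VAddInvariantMeasure (Submodule.span ℤ (Set.range b)).toAddSubgroup E μ)
    rw [← h1, (ZSpan.isAddFundamentalDomain b μ).integral_eq_tsum''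
      (fun x => f (h • x)) (hFc.integrable_of_hasCompactSupport hFsupp)]
    obtain ⟨r, hr⟩ := hDb.exists_norm_le
    obtain ⟨T, hT⟩ := exists_supp b h R r hh
    have h2 : ∀ a : Submodule.span ℤ (Set.range b), a ∉ T →
        ∫ x in D, f (h • (a +ᵥ x)) ∂μ = 0 := by
      intro a ha
      rw [← integral_zero E ℝ (μ := μ.restrict D)]
      refine setIntegral_congr_fun hDm fun x hx => ?_
      exact hT f hR x (hr x hx) a ha
    rw [tsum_eq_sum (s := T) h2]
    rw [← integral_finsetSum]
    · refine setIntegral_congr_fun hDm fun x hx => ?_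
      exact tsum_eq_sum (hT f hR x (hr x hx))
    · intro a _
      have h3 : Continuous fun x : E => f (h • ((a : E) + x)) := by fun_prop
      exact (h3.continuousOn.integrableOn_compact (isCompact_closedBall (0 : E) r)).mono_set
        (fun x hx => by
          rw [Metric.mem_closedBall, dist_zero_right]
          exact hr x hx)
  have hPc : Continuous (P b f h) := P_continuous b hh hfc hR
  have hPint : IntegrableOn (P b f h) D μ := by
    obtain ⟨r, hr⟩ := hDb.exists_norm_le
    exact (hPc.continuousOn.integrableOn_compact (isCompact_closedBall (0 : E) r)).mono_set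
      (fun x hx => by
        rw [Metric.mem_closedBall, dist_zero_right]
        exact hr x hx)
  have hdiff : |(∫ x, f x ∂μ) / h ^ n - μ.real D * P b f h 0| ≤ K * μ.real D := by
    have h1 : (∫ x, f x ∂μ) / h ^ n - μ.real D * P b f h 0 =
        ∫ x in D, (P b f h x - P b f h 0) ∂μ := by
      rw [integral_sub hPint (integrableOn_const hDfin), hint, setIntegral_const, smul_eq_mul]
    rw [h1, ← Real.norm_eq_abs]
    exact norm_setIntegral_le_of_norm_le_const hDfin.lt_top fun x hx => hosc x hx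
  have hP0 : P b f h 0 = ∑' a : Submodule.span ℤ (Set.range b), f (h • (a : E)) := by
    unfold P
    simp only [add_zero]
  rw [← hP0]
  have h1 : P b f h 0 - (∫ x, f x ∂μ) / (h ^ n * μ.real D) =
      -(((∫ x, f x ∂μ) / h ^ n - μ.real D * P b f h 0) / μ.real D) := by
    field_simp
    ring
  rw [h1, abs_neg, abs_div, abs_of_pos hDpos, div_le_iff₀ hDpos]
  refine hdiff.trans (mul_le_mul_of_nonneg_right (le_of_eq ?_) hDpos.le)
  rw [hK, hMdef, Finset.mul_sum, Finset.sum_mul, Finset.sum_mul, Finset.sum_div]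
  refine Finset.sum_congr rfl fun i _ => ?_
  ring

end MP7ed9c3.Tw
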