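import Mathlib

/-!
# MP_7ed9c3_nt, part Tw: the Dedekind zeta function (statements D)

Analytic continuation of the Dedekind zeta function of every number field to the whole plane (minus
the pole at 1), in the form needed for boundary values.  Method: smoothed counting of ideals
`∑_I g(log N(I) - T) = c e^T + O(e^(-A T))` for every smooth compactly supported `g`: average lattice
sums of smooth functions over the unit torus (no boundary of a fundamental domain is needed).

Every statement is a separate module; the complete proof is in the docstring.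
-/

set_option autoImplicit false

namespace MP7ed9c3.Tw

open NumberField NumberField.mixedEmbedding NumberField.Units MeasureTheory Filter Topology
open NumberField.Units.dirichletUnitTheorem
open NumberField.mixedEmbedding.fundamentalCone IsDedekindDomain
open scoped nonZeroDivisors ContDiff

/-- **D1, sums of a smooth function over a fine lattice.**  The sum over the lattice `h Λ` is the
integral up to `O(h^(k+1-n))`, with a constant depending only on the lattice, on the radius of the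
support and on `k`.

Proof.  `Λ = span ℤ (range b)`, `n = dim E`.  If `B < 0` the hypothesis on `B` is absurd (norms are
nonnegative).  For `x : E` put `P x = ∑' a : Λ, f (h • (a + x))`; locally in `x` only finitely many
terms are nonzero.  Counting: for `‖x‖ ≤ ρ₀ := ∑ ‖b i‖ + 1` the number of `a ∈ Λ` with
`‖h • (a + x)‖ ≤ R` is at most `C₁ h^(-n)` for `0 < h ≤ 1`: the coordinates of `a` are integers, bounded
by `c (R/h + ρ₀) ≤ c' / h` (the coordinate functions of `b` are continuous linear maps), so there are at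
most `(2c'/h + 1)^n ≤ C₁ h^(-n)` of them.
Fix `i` and `x`, and let `g t = P (x + t • b i)`, a function of `t : ℝ` of period 1 (translation of
`a`), of class `C^(k+1)`, with `g^(j)(t) = h^j ∑_a (D^j f)(h (a + x + t b i)) (b i, …, b i)`.  So
`|g^(k+1)| ≤ h^(k+1) ‖b i‖^(k+1) B C₁ h^(-n)` (for `t ∈ [0,1]`, hence all `t`; here
`‖x + t b i‖ ≤ ρ₀` when `x` is in the closed fundamental parallelepiped; by periodicity of `P` this is no
restriction).  For `1 ≤ j ≤ k` the function `g^(j)` is continuous, 1-periodic, with mean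
`∫_0^1 g^(j) = g^(j-1)(1) - g^(j-1)(0) = 0`, so it vanishes somewhere and `sup |g^(j)| ≤ sup |g^(j+1)|`
(mean value theorem on an interval of length 1).  Hence `sup |g'| ≤ sup |g^(k+1)|`.
So `|P(x) - P(0)| ≤ ∑_i sup |∂_i P| ≤ C₂ B h^(k+1-n)` for `x = ∑ x_i b_i`, `x_i ∈ [0,1)`
(change the coordinates one by one).  Integrate over the fundamental domain `D` of `b`:
`∫_D P = ∫_E f(h x) dx = h^(-n) ∫ f` (`ZSpan.isAddFundamentalDomain`, `integral_eq_tsum`,
`Measure.integral_comp_smul`), so `|h^(-n) ∫ f - μ(D) P(0)| ≤ μ(D) C₂ B h^(k+1-n)`; divide by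
`μ(D) > 0`. -/
def S_LatticeSum : Prop :=
  ∀ (E : Type) [NormedAddCommGroup E] [NormedSpace ℝ E] [FiniteDimensional ℝ E]
    [MeasurableSpace E] [BorelSpace E] (μ : Measure E) [μ.IsAddHaarMeasure] (ι : Type) [Fintype ι]
    (b : Module.Basis ι ℝ E) (k : ℕ) (R : ℝ),
    ∃ C : ℝ, ∀ (f : E → ℝ) (B h : ℝ), ContDiff ℝ (k + 1) f → (∀ x, R < ‖x‖ → f x = 0) →
      (∀ x, ‖iteratedFDeriv ℝ (k + 1) f x‖ ≤ B) → 0 < h → h ≤ 1 →
      |∑' a : Submodule.span ℤ (Set.range b), f (h • (a : E)) -
          (∫ x, f x ∂μ) / (h ^ Module.finrank ℝ E * μ.real (ZSpan.fundamentalDomain b))| ≤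
        C * B * h ^ (k + 1) / h ^ Module.finrank ℝ E

open Classical in
/-- The function `x ↦ G(logMap x - p) g(log N(x))` on the mixed space, extended by `0` to the set of
elements of norm `0`. -/
noncomputable def fam (K : Type) [Field K] [NumberField K] (G : logSpace K → ℝ) (g : ℝ → ℝ)
    (p : logSpace K) (x : mixedSpace K) : ℝ :=
  if mixedEmbedding.norm x = 0 then 0
  else G (logMap x - p) * g (Real.log (mixedEmbedding.norm x))

open Classical in
/-- **D2, the family is smooth, with uniform bounds.**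

Proof.  Let `G` vanish outside the ball of radius `r`, `g` outside `[-r, r]`.  If `fam K G g p x ≠ 0`
and `‖p‖ ≤ ρ` then `‖logMap x‖ ≤ r + ρ` and `|log N(x)| ≤ r`; `logMap x w = mult w (log |x|_w -
log N(x) / n)` for `w ≠ w₀`, so `|log |x|_w| ≤ c₀` for `w ≠ w₀`, and then also for `w₀`, because
`log N(x) = ∑_w mult w * log |x|_w` (`mixedEmbedding.norm_apply`).  So `e^(-c) ≤ |x|_w ≤ e^c` for all
`w`, `c = c(r, ρ)`: this gives `R` (`mixedEmbedding.norm_eq_sup'_normAtPlace`).
Joint smoothness of `Φ(p, x) = fam K G g p x` on `logSpace K × mixedSpace K`: at `(p₀, x₀)` with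
`N(x₀) ≠ 0` the functions `normAtPlace w` are smooth and nonzero near `x₀` (absolute value of a real
coordinate, norm of a complex coordinate), hence so are `log N`, `logMap` and `Φ`.  At `(p₀, x₀)` with
`N(x₀) = 0` some `normAtPlace w x₀ = 0`, so `normAtPlace w x < e^(-c)` near `x₀` and `Φ = 0` near
`(p₀, x₀)` (`c = c(r, ‖p₀‖ + 1)`).  So `Φ` is `C^∞`; in particular it is continuous and every
`Φ(p, ·)` is `C^∞`.
Uniform bounds: `Φ(p, ·) = Φ ∘ (x ↦ (p, 0) + inr x)`, so
`iteratedFDeriv ℝ k (Φ(p,·)) x` is `iteratedFDeriv ℝ k Φ (p, x)` composed with `inr` (norm ≤ 1 in each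
variable): its norm is at most `‖iteratedFDeriv ℝ k Φ (p, x)‖`, a continuous function of `(p, x)`, bounded
on the compact set `closure D × closedBall 0 (R + 1)`; for `‖x‖ > R` the derivative is `0` (the function
vanishes near `x`). -/
def S_Fam : Prop :=
  ∀ (K : Type) [Field K] [NumberField K] (G : logSpace K → ℝ) (g : ℝ → ℝ),
    ContDiff ℝ ∞ G → HasCompactSupport G → ContDiff ℝ ∞ g → HasCompactSupport g →
    Continuous (fun z : logSpace K × mixedSpace K => fam K G g z.1 z.2) ∧
    (∀ p, ContDiff ℝ ∞ (fam K G g p)) ∧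
    ∀ D : Set (logSpace K), Bornology.IsBounded D →
      (∃ R : ℝ, ∀ p ∈ D, ∀ x, R < ‖x‖ → fam K G g p x = 0) ∧
      ∀ k : ℕ, ∃ B : ℝ, ∀ p ∈ D, ∀ x, ‖iteratedFDeriv ℝ k (fam K G g p) x‖ ≤ B

open Classical in
/-- The fundamental domain of the unit lattice in `logSpace K` used in the definition of the
fundamental cone. -/
noncomputable def domK (K : Type) [Field K] [NumberField K] : Set (logSpace K) :=
  ZSpan.fundamentalDomain ((basisUnitLattice K).ofZLatticeBasis ℝ (unitLattice K))

open Classical in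
/-- **D3, unfolding over the units.**

Proof.  Write `σ = mixedEmbedding K`.  For `a ∈ J`, `a ≠ 0` there is exactly one `γ ∈ unitLattice K`
with `logMap (σ a) - γ ∈ domK K` (`ZSpan.exist_unique_vadd_mem_fundamentalDomain`,
`Module.Basis.ofZLatticeBasis_span`).  Choose for every `γ ∈ unitLattice K` a unit `u_γ` with
`logEmbedding K (u_γ) = γ`.  Then `(γ, y) ↦ u_γ · y` is a bijection from `unitLattice K × idealSet K J` to
`{σ a | a ∈ J, a ≠ 0}` (`y = σ(u_γ⁻¹ a)` is in the fundamental cone, see `exists_unit_smul_mem` and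
`mem_idealSet`; `mixedEmbedding K` is injective; elements of `idealSet` have nonzero norm), and
`logMap (u_γ • y) = γ + logMap y`, `N(u_γ • y) = N(y)` (`logMap_unit_smul`, `norm_unit_smul`).  So
the inner sum is `∑'_{y ∈ idealSet} Φ(N y) ∑'_γ G(γ + logMap y - p)`.  Only finitely many `y` have
`N y ≤ Y` (`card_isPrincipal_dvd_norm_le`, or `idealSet ∩ {N ≤ Y}` is a discrete subset of the bounded
set `Y^(1/n) • normLeOne K`), and for every `y` and `p` in the bounded set `domK K` only finitely many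
`γ` contribute (`G` has compact support, `unitLattice K` is discrete); so sums and integrals may be
interchanged.  Finally `∫_{p ∈ domK} ∑'_γ G(γ + logMap y - p) dp = ∫ G(logMap y - p) dp = ∫ G`
(`IsAddFundamentalDomain.integral_eq_tsum` for `ZSpan.isAddFundamentalDomain`, applied to the integrable
function `p ↦ G(logMap y - p)`; `integral_sub_left_eq_self`). -/
def S_Unfold : Prop :=
  ∀ (K : Type) [Field K] [NumberField K] (J : (Ideal (𝓞 K))⁰) (G : logSpace K → ℝ) (Φ : ℝ → ℝ)
    (Y : ℝ), Continuous G → HasCompactSupport G → (∀ y, Y < y → Φ y = 0) →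
    ∫ p in domK K, (∑' a : {a : 𝓞 K // a ∈ (J : Ideal (𝓞 K)) ∧ a ≠ 0},
        G (logMap (mixedEmbedding K (a.1 : K)) - p) *
          Φ (mixedEmbedding.norm (mixedEmbedding K (a.1 : K)))) =
      (∫ p, G p) * ∑' y : idealSet K J, Φ (mixedEmbedding.norm (y : mixedSpace K))

/-- **D4, ideals in a class.**

Proof.  As in `NumberField.Ideal.tendsto_norm_le_and_mk_eq_div_atTop_aux₁` (Mathlib, file
`NumberTheory/NumberField/Ideal/Asymptotics.lean`) `I ↦ J I` is a bijection from the ideals `I` of class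
`Cl` to the principal nonzero ideals divisible by `J` (because `[J] = Cl⁻¹`), and
`absNorm (J I) = absNorm I * absNorm J`.  By `idealSetEquivNorm K J m` for every natural number `m`
the number of `y ∈ idealSet K J` with `N y = m` is `torsionOrder K` times the number of principal ideals
divisible by `J` with norm `m`; `N y` is always a natural number (`intNorm_coe`).  Both sides are finite
sums over the `m ≤ Y` (finitely many ideals of norm `m`: `Ideal.finite_setOf_absNorm_eq` or
`finite_setOfPred_absNorm_eq`) of `Φ m` times these numbers. -/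
def S_IdealSum : Prop :=
  ∀ (K : Type) [Field K] [NumberField K] (Cl : ClassGroup (𝓞 K)) (J : (Ideal (𝓞 K))⁰)
    (Φ : ℝ → ℝ) (Y : ℝ), ClassGroup.mk0 J = Cl⁻¹ → (∀ y, Y < y → Φ y = 0) →
    (torsionOrder K : ℝ) * ∑' I : {I : (Ideal (𝓞 K))⁰ // ClassGroup.mk0 I = Cl},
        Φ ((Ideal.absNorm (I.1 : Ideal (𝓞 K)) : ℝ) * (Ideal.absNorm (J : Ideal (𝓞 K)) : ℝ)) =
      ∑' y : idealSet K J, Φ (mixedEmbedding.norm (y : mixedSpace K))

/-- **D5a, smooth counting in the fundamental cone** (from D1, D2, D3).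

Proof.  Let `n = finrank ℚ K = finrank ℝ (mixedSpace K)`, `G : logSpace K → ℝ` smooth, compactly
supported with `∫ G = 1` (a normed bump function, `ContDiffBump`), `Λ` the lattice
`span ℤ (range (fractionalIdealLatticeBasis K (FractionalIdeal.mk0 K J)))`, that is
`{σ a | a ∈ J}` (`mem_span_fractionalIdealLatticeBasis`).  For `T ≥ 0` put `h = exp(-T/n) ≤ 1`.  For
`x ≠ 0` in `Λ`: `N(x) ≠ 0`, `logMap (h x) = logMap x` (`logMap_real_smul`), `N(h x) = h^n N(x) =
e^(-T) N(x)`.  So for `p ∈ domK K`: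
`∑'_{x ∈ Λ} fam K G g p (h x) = ∑'_{a ∈ J, a ≠ 0} G(logMap σa - p) g(log N(σ a) - T)`.
D1 (for `E = mixedSpace K`, `μ = volume`, the basis `fractionalIdealLatticeBasis …`, `k + 1 = n (A + 1)`
or larger, and `R`, `B` from D2 for the bounded set `domK K`) gives, uniformly in `p ∈ domK K`:
`|∑'_{x ∈ Λ} fam K G g p (h x) - e^T (∫ fam K G g p) / μ(D_Λ)| ≤ C B h^(k+1-n) ≤ C B e^(-A T)`.
Integrate over `p ∈ domK K` (bounded, finite volume; the integrands are continuous in `p`, locally finite
sums; or measurable and bounded): by D3 with `Φ(y) = g(log y - T)` for `y > 0` and `Φ(y) = 0` for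
`y ≤ 0` (zero for large `y`) the integral of the left hand sum is
`∑'_{y ∈ idealSet K J} g(log N(y) - T)`.  So `c = (∫_{p ∈ domK} ∫ fam K G g p) / μ(D_Λ)`. -/
def S_ConeSum : Prop :=
  ∀ (K : Type) [Field K] [NumberField K] (J : (Ideal (𝓞 K))⁰) (g : ℝ → ℝ), ContDiff ℝ ∞ g →
    HasCompactSupport g → ∀ A : ℕ, ∃ c C : ℝ, ∀ T : ℝ, 0 ≤ T →
      |∑' y : idealSet K J, g (Real.log (mixedEmbedding.norm (y : mixedSpace K)) - T) -
        c * Real.exp T| ≤ C * Real.exp (-A * T)

/-- **D5b, smooth counting of ideals** (from D4, D5a).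

Proof.  For every class `Cl` choose `J` with `mk0 J = Cl⁻¹` (`ClassGroup.mk0_surjective`).  D4 with
`Φ(y) = g(log y - T')`, `T' = T + log (absNorm J) ≥ 0` (and `Φ(y) = 0` for `y ≤ 0`) gives
`w ∑'_{[I] = Cl} g(log N(I) - T) = ∑'_{y ∈ idealSet K J} g(log N(y) - T')`, and D5a applies:
`c e^(T') = (c absNorm J) e^T`, `e^(-A T') ≤ e^(-A T)`.  Divide by `w = torsionOrder K > 0` and sum over
the finitely many classes (only finitely many ideals contribute to each sum). -/
def S_SmoothCount : Prop :=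
  ∀ (K : Type) [Field K] [NumberField K] (g : ℝ → ℝ), ContDiff ℝ ∞ g → HasCompactSupport g →
    ∀ A : ℕ, ∃ c C : ℝ, ∀ T : ℝ, 0 ≤ T →
      |∑' I : (Ideal (𝓞 K))⁰, g (Real.log (Ideal.absNorm (I : Ideal (𝓞 K)) : ℝ) - T) -
        c * Real.exp T| ≤ C * Real.exp (-A * T)

/-- **D6a, the Dedekind zeta function as a sum over ideals and as an Euler product.**

Proof.  `dedekindZeta K s = ∑' m, a_m m^(-s)`, `a_m` the number of ideals of norm `m`
(`LSeries`; the term `m = 0` is `0`).  The abscissa of absolute convergence is `≤ 1` by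
`Ideal.tendsto_norm_le_div_atTop` (partial sums `O(m)`; see `LSeriesSummable_of_sum_norm_bigO` or the
proof of `NumberField.tendsto_sub_one_mul_dedekindZeta_nhdsGT`).  Group the ideals by their norm
(fibres are finite).  Euler product: unique factorization of ideals; one may use
`exp_tsum_primes_log_eq_tsum`-type results for a completely multiplicative function on the monoid of
ideals, or do it by hand: for a finite set `S` of primes the product of the geometric series is the sum
over the ideals supported on `S` (injective into all ideals), and let `S` grow; see also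
`Pool/Agent/Lib/MP_706923_co/Zeta.lean` (`prod_le`) for similar arguments.  `∑_v N(v)^(-σ)` is at most the
sum over all ideals.  Then `∏' (1 - N(v)^(-s))⁻¹ = exp(∑' -log(1 - N(v)^(-s)))`
(`Complex.log`, `Re (1 - N^(-s)) > 0`). -/
def S_ZetaSum : Prop :=
  ∀ (K : Type) [Field K] [NumberField K],
    (∀ σ : ℝ, 1 < σ → Summable fun I : (Ideal (𝓞 K))⁰ =>
      (Ideal.absNorm (I : Ideal (𝓞 K)) : ℝ) ^ (-σ)) ∧
    (∀ σ : ℝ, 1 < σ → Summable fun v : HeightOneSpectrum (𝓞 K) =>
      (Ideal.absNorm v.asIdeal : ℝ) ^ (-σ)) ∧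
    ∀ s : ℂ, 1 < s.re →
      dedekindZeta K s = ∑' I : (Ideal (𝓞 K))⁰, (Ideal.absNorm (I : Ideal (𝓞 K)) : ℂ) ^ (-s) ∧
      dedekindZeta K s = Complex.exp (∑' v : HeightOneSpectrum (𝓞 K),
        -Complex.log (1 - (Ideal.absNorm v.asIdeal : ℂ) ^ (-s)))

/-- **D6b, analytic continuation of the Dedekind zeta function** (from D5b, D6a).

Proof.  Let `g` be a smooth nonnegative bump function supported in `[-δ, δ]`, `g(0) > 0`, `δ (R+1) ≤ 1`.
`γ(s) = ∫ g(y) e^(s y) dy` is entire and `Re γ(s) > 0` for `|Im s| < R + 1` (`|Im s · y| ≤ 1 < π/2`).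
`S(T) = ∑'_I g(log N(I) - T)` is a locally finite sum, continuous, `0 ≤ S`, zero for `T < -δ`, and
`S(T) = c e^T + O(e^(-A' T))` for `T ≥ 0`, `A' ≥ A` (D5b).  For `Re s > 1` (Fubini/Tonelli, absolute
convergence from D6a) `∫ e^(-s T) S(T) dT = ∑'_I ∫ e^(-sT) g(log N(I) - T) dT = ∑'_I N(I)^(-s) γ(s)`
`= ζ_K(s) γ(s)`, and `∫ e^(-sT) S(T) dT = ∫_{-δ}^0 e^(-sT) S(T) dT + ∫_0^∞ e^(-sT) (S(T) - c e^T) dT +
c/(s-1)`.  The first two integrals are holomorphic in `Re s > -A'` (e.g. by
`mellin_differentiableAt_of_isBigO_rpow` after the substitution `T = log X`, or by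
`hasDerivAt_integral_of_dominated_loc_of_deriv_le`).  So
`Z(s) = (s - 1) (first + second) / γ(s) + c / γ(s)`. -/
def S_Cont : Prop :=
  ∀ (K : Type) [Field K] [NumberField K] (A R : ℝ), ∃ Z : ℂ → ℂ,
    DifferentiableOn ℂ Z {s : ℂ | -A < s.re ∧ |s.im| < R} ∧
    ∀ s : ℂ, 1 < s.re → |s.im| < R → Z s = (s - 1) * dedekindZeta K s

/-- `∑_v N(v)^(-1-x) cos(u log N(v))` over the primes of `K`. -/
noncomputable def primeSum (K : Type) [Field K] [NumberField K] (x u : ℝ) : ℝ :=
  ∑' v : HeightOneSpectrum (𝓞 K), (Ideal.absNorm v.asIdeal : ℝ) ^ (-(1 + x)) *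
    Real.cos (u * Real.log (Ideal.absNorm v.asIdeal : ℝ))

/-- **D7, sums over primes near the line `Re s = 1`** (from D6a, D6b).

Proof.  `log ‖dedekindZeta K (1+x+iu)‖ = ∑'_v Re(-log(1 - N(v)^(-s)))` (D6a) and
`|-log(1-z) - z| ≤ |z|²` for `|z| ≤ 1/2` (`Complex.norm_log_one_sub_inv_sub_self_le` or
`Complex.norm_log_one_add_sub_self_le`), `∑_v N(v)^(-2) < ∞`, so (*) `|log ‖ζ_K(1+x+iu)‖ - primeSum K x u| ≤ C`
for `0 < x ≤ 1`, `C` independent of `x, u`.
`u = 0`: `x ζ_K(1+x)` tends to the positive residue (`tendsto_sub_one_mul_dedekindZeta_nhdsGT`,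
`dedekindZeta_residue_pos`) and is continuous and nonzero on `(0, 1]` (it is `Z(1+x)`, D6b, and an
exponential), so `log ‖ζ_K(1+x)‖ = log(1/x) + O(1)`.
`u ≠ 0`: let `Z` be from D6b with `A = 1`, `R = 2|u| + 1`.  `‖ζ_K(1+x+iu')‖ ≤ C` for `u' = u, 2u`
(`Z` is bounded on the compact segment, `|s - 1| ≥ |u'|`), so `primeSum K x u ≤ C`,
`primeSum K x (2u) ≤ C`.  Suppose `Z(1+iu) = 0`: then `|Z(1+x+iu)| ≤ C x` and by (*)
`primeSum K x u ≤ log x + C`; `3 + 4 cos θ + cos 2θ = 2 (1 + cos θ)² ≥ 0` gives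
`0 ≤ 3 primeSum K x 0 + 4 primeSum K x u + primeSum K x (2u) ≤ 3 log(1/x) + 4 log x + C = log x + C`,
impossible for small `x`.  So `Z(1+iu) ≠ 0`; `Z(1+x+iu) ≠ 0` also for `0 < x ≤ 1` (D6a), so
`‖ζ_K(1+x+iu)‖` is bounded below on `(0, 1]`, and (*) gives the lower bound. -/
def S_ZetaCosK : Prop :=
  ∀ (K : Type) [Field K] [NumberField K],
    (∃ C : ℝ, ∀ x : ℝ, 0 < x → x ≤ 1 → |primeSum K x 0 - Real.log (1 / x)| ≤ C) ∧
    ∀ u : ℝ, u ≠ 0 → ∃ C : ℝ, ∀ x : ℝ, 0 < x → x ≤ 1 → |primeSum K x u| ≤ C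

end MP7ed9c3.Tw
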