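import Mathlib
import Pool.Agent.Lib.MP_7ed9c3_nt.Tw.SpecD

/-!
# MP_7ed9c3_nt, part Tw, D2: the family `fam K G g` is smooth, with uniform bounds
-/

set_option autoImplicit false

namespace MP7ed9c3.Tw

open NumberField NumberField.mixedEmbedding NumberField.Units MeasureTheory Filter Topology
open NumberField.Units.dirichletUnitTheorem NumberField.InfinitePlace
open NumberField.mixedEmbedding.fundamentalCone IsDedekindDomain
open scoped nonZeroDivisors ContDiff

namespace D2

open Classical in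
/-- The place of a point of the support of the family are bounded away from `0` and `∞`. -/
lemma place_bound (K : Type) [Field K] [NumberField K] (r ρ : ℝ) (hr : 0 ≤ r) (hρ : 0 ≤ ρ) :
    ∃ c : ℝ, ∀ (p : logSpace K) (x : mixedSpace K), ‖p‖ ≤ ρ → ‖logMap x - p‖ ≤ r →
      mixedEmbedding.norm x ≠ 0 → |Real.log (mixedEmbedding.norm x)| ≤ r →
      ∀ w : InfinitePlace K, Real.exp (-c) ≤ normAtPlace w x ∧ normAtPlace w x ≤ Real.exp c := by
  set n : ℝ := (Module.finrank ℚ K : ℝ) with hn
  have hn1 : (1 : ℝ) ≤ n := by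
    have : 0 < Module.finrank ℚ K := Module.finrank_pos
    rw [hn]; exact_mod_cast this
  set c₀ : ℝ := 2 * r + ρ with hc₀
  have hc₀0 : 0 ≤ c₀ := by positivity
  set M : ℝ := ∑ w : InfinitePlace K, (mult w : ℝ) with hM
  have hM0 : 0 ≤ M := Finset.sum_nonneg fun w _ => Nat.cast_nonneg _
  refine ⟨r + c₀ + M * c₀, ?_⟩
  intro p x hp hlog hx hL
  have hpl : ∀ w : InfinitePlace K, 0 < normAtPlace w x := fun w =>
    lt_of_le_of_ne (normAtPlace_nonneg w x) (Ne.symm (mixedEmbedding.norm_ne_zero_iff.mp hx w))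
  have hlm : ‖logMap x‖ ≤ r + ρ := by
    calc ‖logMap x‖ = ‖(logMap x - p) + p‖ := by rw [sub_add_cancel]
      _ ≤ ‖logMap x - p‖ + ‖p‖ := norm_add_le _ _
      _ ≤ r + ρ := add_le_add hlog hp
  have hmult1 : ∀ w : InfinitePlace K, (1 : ℝ) ≤ (mult w : ℝ) := fun w => by
    exact_mod_cast one_le_mult
  have hw1 : ∀ w : InfinitePlace K, w ≠ w₀ → |Real.log (normAtPlace w x)| ≤ c₀ := by
    intro w hw
    have h1 : |logMap x ⟨w, hw⟩| ≤ r + ρ := by
      rw [← Real.norm_eq_abs]
      exact (norm_le_pi_norm (logMap x) ⟨w, hw⟩).trans hlm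
    rw [logMap_apply, abs_mul, abs_of_nonneg (Nat.cast_nonneg _ : (0 : ℝ) ≤ (mult w : ℝ))] at h1
    have h2 : |Real.log (normAtPlace w x) - Real.log (mixedEmbedding.norm x) * n⁻¹| ≤ r + ρ := by
      refine le_trans ?_ h1
      exact le_mul_of_one_le_left (abs_nonneg _) (hmult1 w)
    have h3 : |Real.log (mixedEmbedding.norm x) * n⁻¹| ≤ r := by
      rw [abs_mul]
      have : |n⁻¹| ≤ 1 := by
        rw [abs_of_nonneg (by positivity)]
        exact inv_le_one_of_one_le₀ hn1
      calc |Real.log (mixedEmbedding.norm x)| * |n⁻¹| ≤ r * 1 :=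
            mul_le_mul hL this (abs_nonneg _) hr
        _ = r := mul_one r
    calc |Real.log (normAtPlace w x)|
        = |(Real.log (normAtPlace w x) - Real.log (mixedEmbedding.norm x) * n⁻¹) +
            Real.log (mixedEmbedding.norm x) * n⁻¹| := by rw [sub_add_cancel]
      _ ≤ |Real.log (normAtPlace w x) - Real.log (mixedEmbedding.norm x) * n⁻¹| +
            |Real.log (mixedEmbedding.norm x) * n⁻¹| := abs_add_le _ _
      _ ≤ (r + ρ) + r := add_le_add h2 h3
      _ = c₀ := by rw [hc₀]; ring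
  have hsum : Real.log (mixedEmbedding.norm x) =
      ∑ w : InfinitePlace K, (mult w : ℝ) * Real.log (normAtPlace w x) := by
    rw [mixedEmbedding.norm_apply, Real.log_prod]
    · exact Finset.sum_congr rfl fun w _ => Real.log_pow _ _
    · exact fun w _ => pow_ne_zero _ (hpl w).ne'
  have hw0 : |Real.log (normAtPlace (w₀ : InfinitePlace K) x)| ≤ r + M * c₀ := by
    have h1 : (mult (w₀ : InfinitePlace K) : ℝ) * Real.log (normAtPlace (w₀ : InfinitePlace K) x) =
        Real.log (mixedEmbedding.norm x) -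
          ∑ w ∈ Finset.univ.erase (w₀ : InfinitePlace K),
            (mult w : ℝ) * Real.log (normAtPlace w x) := by
      rw [hsum, ← Finset.add_sum_erase _ _ (Finset.mem_univ (w₀ : InfinitePlace K))]
      ring
    have h2 : |∑ w ∈ Finset.univ.erase (w₀ : InfinitePlace K),
            (mult w : ℝ) * Real.log (normAtPlace w x)| ≤ M * c₀ := by
      refine (Finset.abs_sum_le_sum_abs _ _).trans ?_
      rw [hM, Finset.sum_mul]
      refine le_trans (Finset.sum_le_sum (g := fun w => (mult w : ℝ) * c₀) ?_) ?_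
      · intro w hw
        rw [abs_mul, abs_of_nonneg (Nat.cast_nonneg _ : (0 : ℝ) ≤ (mult w : ℝ))]
        exact mul_le_mul_of_nonneg_left (hw1 w (Finset.ne_of_mem_erase hw)) (Nat.cast_nonneg _)
      · exact Finset.sum_le_sum_of_subset_of_nonneg (Finset.erase_subset _ _)
          fun w _ _ => mul_nonneg (Nat.cast_nonneg _) hc₀0
    have h3 : |(mult (w₀ : InfinitePlace K) : ℝ) *
        Real.log (normAtPlace (w₀ : InfinitePlace K) x)| ≤ r + M * c₀ := by
      rw [h1]
      exact (abs_sub _ _).trans (add_le_add hL h2)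
    rw [abs_mul, abs_of_nonneg (Nat.cast_nonneg _ : (0 : ℝ) ≤ (mult (w₀ : InfinitePlace K) : ℝ))]
      at h3
    exact le_trans (le_mul_of_one_le_left (abs_nonneg _) (hmult1 _)) h3
  intro w
  have hall : |Real.log (normAtPlace w x)| ≤ r + c₀ + M * c₀ := by
    by_cases hw : w = w₀
    · subst hw
      linarith
    · have := hw1 w hw
      have := mul_nonneg hM0 hc₀0
      linarith
  rw [abs_le] at hall
  constructor
  · rw [← Real.le_log_iff_exp_le (hpl w)]
    exact hall.1
  · rw [← Real.log_le_iff_le_exp (hpl w)]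
    exact hall.2

open Classical in
/-- The support of the family. -/
lemma supp_bound (K : Type) [Field K] [NumberField K] (G : logSpace K → ℝ) (g : ℝ → ℝ)
    (hG : HasCompactSupport G) (hg : HasCompactSupport g) (ρ : ℝ) (hρ : 0 ≤ ρ) :
    ∃ c : ℝ, ∀ (p : logSpace K) (x : mixedSpace K), ‖p‖ ≤ ρ → fam K G g p x ≠ 0 →
      ∀ w : InfinitePlace K, Real.exp (-c) ≤ normAtPlace w x ∧ normAtPlace w x ≤ Real.exp c := by
  obtain ⟨r₁, hr₁⟩ := hG.isCompact.isBounded.exists_norm_le
  obtain ⟨r₂, hr₂⟩ := hg.isCompact.isBounded.exists_norm_le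
  obtain ⟨c, hc⟩ := place_bound K (max 0 (max r₁ r₂)) ρ (le_max_left _ _) hρ
  refine ⟨c, fun p x hp hne => ?_⟩
  unfold fam at hne
  by_cases h0 : mixedEmbedding.norm x = 0
  · rw [if_pos h0] at hne; exact absurd rfl hne
  · rw [if_neg h0] at hne
    have hG' : G (logMap x - p) ≠ 0 := left_ne_zero_of_mul hne
    have hg' : g (Real.log (mixedEmbedding.norm x)) ≠ 0 := right_ne_zero_of_mul hne
    refine hc p x hp ?_ h0 ?_
    · exact (hr₁ _ (subset_tsupport _ hG')).trans ((le_max_left _ _).trans (le_max_right _ _))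
    · rw [← Real.norm_eq_abs]
      exact (hr₂ _ (subset_tsupport _ hg')).trans ((le_max_right _ _).trans (le_max_right _ _))

open Classical in
/-- Smoothness of the absolute value at a place. -/
lemma contDiffAt_place (K : Type) [Field K] [NumberField K] (w : InfinitePlace K)
    (z₀ : logSpace K × mixedSpace K) (h : normAtPlace w z₀.2 ≠ 0) :
    ContDiffAt ℝ ∞ (fun z : logSpace K × mixedSpace K => normAtPlace w z.2) z₀ := by
  rcases InfinitePlace.isReal_or_isComplex w with hw | hw
  · simp_rw [normAtPlace_apply_of_isReal hw] at h ⊢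
    refine ContDiffAt.norm ℝ ?_ (norm_ne_zero_iff.mp h)
    have : ContDiff ℝ ∞ (fun z : logSpace K × mixedSpace K => z.2.1 ⟨w, hw⟩) :=
      (contDiff_apply ℝ ℝ (⟨w, hw⟩ : {w : InfinitePlace K // IsReal w})).comp
        (contDiff_fst.comp contDiff_snd)
    exact this.contDiffAt
  · simp_rw [normAtPlace_apply_of_isComplex hw] at h ⊢
    refine ContDiffAt.norm ℝ ?_ (norm_ne_zero_iff.mp h)
    have : ContDiff ℝ ∞ (fun z : logSpace K × mixedSpace K => z.2.2 ⟨w, hw⟩) :=
      (contDiff_apply ℝ ℂ (⟨w, hw⟩ : {w : InfinitePlace K // IsComplex w})).comp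
        (contDiff_snd.comp contDiff_snd)
    exact this.contDiffAt

open Classical in
/-- Joint smoothness of the family. -/
lemma contDiff_fam (K : Type) [Field K] [NumberField K] (G : logSpace K → ℝ) (g : ℝ → ℝ)
    (hGs : ContDiff ℝ ∞ G) (hG : HasCompactSupport G) (hgs : ContDiff ℝ ∞ g)
    (hg : HasCompactSupport g) :
    ContDiff ℝ ∞ (fun z : logSpace K × mixedSpace K => fam K G g z.1 z.2) := by
  rw [contDiff_iff_contDiffAt]
  intro z₀
  by_cases h0 : mixedEmbedding.norm z₀.2 = 0
  · obtain ⟨c, hc⟩ := supp_bound K G g hG hg (‖z₀.1‖ + 1) (by positivity)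
    obtain ⟨w, hw⟩ := mixedEmbedding.norm_eq_zero_iff.mp h0
    have h1 : ∀ᶠ z in 𝓝 z₀, normAtPlace w (Prod.snd z) < Real.exp (-c) := by
      refine (((continuous_normAtPlace w).comp continuous_snd).continuousAt).eventually_lt_const ?_
      simp only [Function.comp_apply, hw]
      exact Real.exp_pos _
    have h2 : ∀ᶠ z in 𝓝 z₀, ‖Prod.fst z‖ < ‖z₀.1‖ + 1 :=
      (continuous_fst.norm.continuousAt).eventually_lt_const (by linarith)
    refine ContDiffAt.congr_of_eventuallyEq (contDiffAt_const (c := (0 : ℝ))) ?_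
    filter_upwards [h1, h2] with z hz1 hz2
    by_contra hne
    exact absurd (hc z.1 z.2 hz2.le hne w).1 (not_le.mpr hz1)
  · have hpl : ∀ w : InfinitePlace K, normAtPlace w z₀.2 ≠ 0 :=
      mixedEmbedding.norm_ne_zero_iff.mp h0
    have hnorm : ContDiffAt ℝ ∞ (fun z : logSpace K × mixedSpace K => mixedEmbedding.norm z.2) z₀ := by
      simp_rw [mixedEmbedding.norm_apply]
      exact contDiffAt_prod fun w _ => (contDiffAt_place K w z₀ (hpl w)).pow _
    have hlogn := hnorm.log h0
    have hlm : ContDiffAt ℝ ∞ (fun z : logSpace K × mixedSpace K => logMap z.2) z₀ := by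
      rw [contDiffAt_pi]
      intro w
      simp_rw [logMap_apply]
      exact contDiffAt_const.mul
        (((contDiffAt_place K w.1 z₀ (hpl w.1)).log (hpl w.1)).sub (hlogn.mul contDiffAt_const))
    have hmain : ContDiffAt ℝ ∞ (fun z : logSpace K × mixedSpace K =>
        G (logMap z.2 - z.1) * g (Real.log (mixedEmbedding.norm z.2))) z₀ := by
      refine ContDiffAt.mul ?_ ?_
      · exact hGs.contDiffAt.comp z₀ (hlm.sub contDiffAt_fst)
      · exact hgs.contDiffAt.comp z₀ hlogn
    refine hmain.congr_of_eventuallyEq ?_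
    have : ∀ᶠ z in 𝓝 z₀, mixedEmbedding.norm (Prod.snd z) ≠ 0 :=
      hnorm.continuousAt.eventually_ne h0
    filter_upwards [this] with z hz
    unfold fam
    rw [if_neg hz]

open Classical in
/-- Norm bound from the bound of places. -/
lemma norm_le_of_place (K : Type) [Field K] [NumberField K] (x : mixedSpace K) (R : ℝ)
    (h : ∀ w : InfinitePlace K, normAtPlace w x ≤ R) : ‖x‖ ≤ R := by
  rw [norm_eq_sup'_normAtPlace]
  exact Finset.sup'_le _ _ fun w _ => h w

end D2

open D2 in
/-- **D2.** -/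
theorem famSmooth : S_Fam := by
  classical
  intro K _ _ G g hGs hG hgs hg
  have hΦ := contDiff_fam K G g hGs hG hgs hg
  refine ⟨hΦ.continuous, fun p => hΦ.comp (contDiff_prodMk_right p), ?_⟩
  intro D hD
  obtain ⟨ρ₁, hρ₁⟩ := hD.exists_norm_le
  set ρ : ℝ := max 0 ρ₁ with hρ
  have hρ0 : 0 ≤ ρ := le_max_left _ _
  have hDρ : ∀ p ∈ D, ‖p‖ ≤ ρ := fun p hp => (hρ₁ p hp).trans (le_max_right _ _)
  obtain ⟨c, hc⟩ := supp_bound K G g hG hg ρ hρ0
  have hzero : ∀ p ∈ D, ∀ x, Real.exp c < ‖x‖ → fam K G g p x = 0 := by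
    intro p hp x hx
    by_contra hne
    exact absurd (norm_le_of_place K x _ fun w => (hc p x (hDρ p hp) hne w).2) (not_le.mpr hx)
  refine ⟨⟨Real.exp c, hzero⟩, fun k => ?_⟩
  set Φ : logSpace K × mixedSpace K → ℝ := fun z => fam K G g z.1 z.2 with hΦdef
  have hk : ((k : ℕ∞) : WithTop ℕ∞) ≤ (∞ : WithTop ℕ∞) := by
    exact_mod_cast le_top
  have hcont : Continuous (iteratedFDeriv ℝ k Φ) := hΦ.continuous_iteratedFDeriv (m := k) (by exact_mod_cast le_top)
  have hcpt : IsCompact (Metric.closedBall (0 : logSpace K) ρ ×ˢ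
      Metric.closedBall (0 : mixedSpace K) (Real.exp c + 1)) :=
    (isCompact_closedBall _ _).prod (isCompact_closedBall _ _)
  obtain ⟨B, hB⟩ := hcpt.exists_bound_of_continuousOn hcont.continuousOn
  refine ⟨max 0 B, fun p hp x => ?_⟩
  by_cases hx : ‖x‖ ≤ Real.exp c + 1
  · have h1 : fam K G g p = (fun z => Φ ((p, (0 : mixedSpace K)) + z)) ∘
        (ContinuousLinearMap.inr ℝ (logSpace K) (mixedSpace K)) := by
      ext y
      simp [hΦdef]
    have hΦp : ContDiff ℝ ∞ (fun z => Φ ((p, (0 : mixedSpace K)) + z)) :=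
      hΦ.comp (contDiff_const.add contDiff_id)
    rw [h1, ContinuousLinearMap.iteratedFDeriv_comp_right _ hΦp x (i := k) (by exact_mod_cast le_top),
      iteratedFDeriv_comp_add_left]
    refine (ContinuousMultilinearMap.norm_compContinuousLinearMap_le _ _).trans ?_
    have h2 : ∏ _i : Fin k, ‖ContinuousLinearMap.inr ℝ (logSpace K) (mixedSpace K)‖ ≤ 1 := by
      refine Finset.prod_le_one (fun _ _ => norm_nonneg _) fun _ _ => ?_
      exact ContinuousLinearMap.norm_inr_le_one ℝ (logSpace K) (mixedSpace K)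
    have h3 : (p, (0 : mixedSpace K)) + (ContinuousLinearMap.inr ℝ (logSpace K) (mixedSpace K)) x =
        (p, x) := by simp
    rw [h3]
    have h4 : ‖iteratedFDeriv ℝ k Φ (p, x)‖ ≤ B := by
      refine hB (p, x) ?_
      rw [Set.mem_prod, mem_closedBall_zero_iff, mem_closedBall_zero_iff]
      exact ⟨hDρ p hp, hx⟩
    calc ‖iteratedFDeriv ℝ k Φ (p, x)‖ *
        ∏ _i : Fin k, ‖ContinuousLinearMap.inr ℝ (logSpace K) (mixedSpace K)‖
        ≤ ‖iteratedFDeriv ℝ k Φ (p, x)‖ * 1 := mul_le_mul_of_nonneg_left h2 (norm_nonneg _)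
      _ ≤ B := by rw [mul_one]; exact h4
      _ ≤ max 0 B := le_max_right _ _
  · have h1 : fam K G g p =ᶠ[𝓝 x] fun _ => (0 : ℝ) := by
      have : ∀ᶠ y in 𝓝 x, Real.exp c < ‖y‖ :=
        continuous_norm.continuousAt.eventually_const_lt (by linarith [not_le.mp hx])
      filter_upwards [this] with y hy
      exact hzero p hp y hy
    have h2 := (h1.iteratedFDeriv ℝ k).eq_of_nhds
    rw [h2, iteratedFDeriv_fun_zero]
    simp

end MP7ed9c3.Tw
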