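import Pool.Agent.Lib.MP_7ed9c3_nt.Tw.SpecD

/-!
# MP_7ed9c3_nt, part Tw, D3: unfolding over the units
-/

set_option autoImplicit false

namespace MP7ed9c3.Tw

open NumberField NumberField.mixedEmbedding NumberField.Units MeasureTheory Filter Topology
open NumberField.Units.dirichletUnitTheorem
open NumberField.mixedEmbedding.fundamentalCone IsDedekindDomain
open scoped nonZeroDivisors ContDiff

namespace D3

variable (K : Type) [Field K] [NumberField K]

theorem exists_unit (γ : unitLattice K) :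
    ∃ u : (𝓞 K)ˣ, logEmbedding K (Additive.ofMul u) = γ.1 := by
  obtain ⟨γ, hγ⟩ := γ
  obtain ⟨u, -, hu⟩ := hγ
  exact ⟨Additive.toMul u, hu⟩

/-- a unit with the given logarithmic embedding -/
noncomputable def un (γ : unitLattice K) : (𝓞 K)ˣ := (exists_unit K γ).choose

theorem un_spec (γ : unitLattice K) :
    logEmbedding K (Additive.ofMul (un K γ)) = γ.1 := (exists_unit K γ).choose_spec

theorem existsUnique_add (x : logSpace K) :
    ∃! γ : unitLattice K, γ.1 + x ∈ domK K := by
  classical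
  obtain ⟨v, hv, hu⟩ := ZSpan.exist_unique_vadd_mem_fundamentalDomain
    ((basisUnitLattice K).ofZLatticeBasis ℝ (unitLattice K)) x
  have hs := Module.Basis.ofZLatticeBasis_span ℝ (unitLattice K) (basisUnitLattice K)
  refine ⟨⟨v.1, (SetLike.ext_iff.1 hs v.1).1 v.2⟩, hv, fun γ hγ => ?_⟩
  have h1 := hu ⟨γ.1, (SetLike.ext_iff.1 hs γ.1).2 γ.2⟩ hγ
  have h2 : γ.1 = v.1 := Subtype.ext_iff.1 h1
  exact Subtype.ext h2

theorem eq_of_add_mem {x y : logSpace K} {γ γ' : unitLattice K} (hx : x ∈ domK K)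
    (hy : y ∈ domK K) (h : γ.1 + x = γ'.1 + y) : γ = γ' := by
  obtain ⟨v, hv, hu⟩ := existsUnique_add K y
  have h0 : (0 : unitLattice K) = v := hu 0 (by
    show (0 : logSpace K) + y ∈ domK K
    rw [zero_add]
    exact hy)
  have h1 : γ' - γ = v := hu (γ' - γ) (by
    show (γ'.1 - γ.1) + y ∈ domK K
    have : (γ'.1 - γ.1) + y = x := by
      rw [sub_add_eq_add_sub, ← h]
      abel
    rw [this]
    exact hx)
  rw [← h0] at h1
  exact (sub_eq_zero.1 h1).symm

variable (J : (Ideal (𝓞 K))⁰)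

/-- the nonzero elements of `J` -/
abbrev NZ : Type := {a : 𝓞 K // a ∈ (J : Ideal (𝓞 K)) ∧ a ≠ 0}

theorem norm_ne_zero_of (y : idealSet K J) : mixedEmbedding.norm (y : mixedSpace K) ≠ 0 :=
  (norm_pos_of_mem (mem_idealSet.mp y.2).1).ne'

theorem logMap_mem (y : idealSet K J) : logMap (y : mixedSpace K) ∈ domK K :=
  (mem_idealSet.mp y.2).1.1

/-- the preimage -/
noncomputable def pre (y : idealSet K J) : 𝓞 K := (mem_idealSet.mp y.2).2.choose

theorem pre_mem (y : idealSet K J) : pre K J y ∈ (J : Ideal (𝓞 K)) :=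
  (mem_idealSet.mp y.2).2.choose_spec.1

theorem pre_spec (y : idealSet K J) : mixedEmbedding K (pre K J y : K) = y :=
  (mem_idealSet.mp y.2).2.choose_spec.2

theorem pre_ne (y : idealSet K J) : pre K J y ≠ 0 := by
  intro h
  apply norm_ne_zero_of K J y
  rw [← pre_spec K J y, h]
  simp

/-- the parametrization -/
noncomputable def e (z : unitLattice K × idealSet K J) : NZ K J :=
  ⟨(un K z.1 : 𝓞 K) * pre K J z.2, Ideal.mul_mem_left _ _ (pre_mem K J z.2),
    mul_ne_zero (un K z.1).ne_zero (pre_ne K J z.2)⟩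

theorem emb_e (z : unitLattice K × idealSet K J) :
    mixedEmbedding K ((e K J z).1 : K) = un K z.1 • (z.2 : mixedSpace K) := by
  rw [unitSMul_smul, ← pre_spec K J z.2, ← map_mul]
  rfl

theorem norm_e (z : unitLattice K × idealSet K J) :
    mixedEmbedding.norm (mixedEmbedding K ((e K J z).1 : K)) =
      mixedEmbedding.norm (z.2 : mixedSpace K) := by
  rw [emb_e, norm_unit_smul]

theorem log_e (z : unitLattice K × idealSet K J) :
    logMap (mixedEmbedding K ((e K J z).1 : K)) = z.1.1 + logMap (z.2 : mixedSpace K) := by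
  rw [emb_e, logMap_unit_smul _ (norm_ne_zero_of K J z.2), un_spec]

theorem e_inj : Function.Injective (e K J) := by
  intro z z' h
  have h1 : mixedEmbedding K ((e K J z).1 : K) = mixedEmbedding K ((e K J z').1 : K) := by rw [h]
  have h2 := congrArg logMap h1
  rw [log_e, log_e] at h2
  have h3 : z.1 = z'.1 := eq_of_add_mem K (logMap_mem K J z.2) (logMap_mem K J z'.2) h2
  rw [emb_e, emb_e, h3] at h1
  have h4 : (z.2 : mixedSpace K) = z'.2 := by
    have h5 : (un K z'.1)⁻¹ • (un K z'.1 • (z.2 : mixedSpace K)) =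
        (un K z'.1)⁻¹ • (un K z'.1 • (z'.2 : mixedSpace K)) :=
      congrArg (fun x => (un K z'.1)⁻¹ • x) h1
    rwa [inv_smul_smul, inv_smul_smul] at h5
  exact Prod.ext h3 (Subtype.ext h4)

theorem e_surj : Function.Surjective (e K J) := by
  intro a
  have ha0 : mixedEmbedding.norm (mixedEmbedding K (a.1 : K)) ≠ 0 := by
    rw [norm_eq_norm]
    have h1 : (a.1 : K) ≠ 0 := by
      simpa using a.2.2
    simpa using h1
  obtain ⟨γ, hγ, -⟩ := existsUnique_add K (logMap (mixedEmbedding K (a.1 : K)))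
  have hdom : (γ : logSpace K) + logMap (mixedEmbedding K (a.1 : K)) ∈ domK K := hγ
  set u := un K (-γ) with hu
  have h1 : logMap (u⁻¹ • mixedEmbedding K (a.1 : K)) =
      (γ : logSpace K) + logMap (mixedEmbedding K (a.1 : K)) := by
    rw [logMap_unit_smul _ ha0, ofMul_inv, map_neg, hu, un_spec]
    show -(-γ.1) + _ = _
    rw [neg_neg]
  have hcone : u⁻¹ • mixedEmbedding K (a.1 : K) ∈ fundamentalCone K := by
    refine ⟨?_, ?_⟩
    · show logMap (u⁻¹ • mixedEmbedding K (a.1 : K)) ∈ domK K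
      rw [h1]
      exact hdom
    · show ¬ mixedEmbedding.norm (u⁻¹ • mixedEmbedding K (a.1 : K)) = 0
      rw [norm_unit_smul]
      exact ha0
  have hmem : u⁻¹ • mixedEmbedding K (a.1 : K) ∈ idealSet K J := by
    refine mem_idealSet.mpr ⟨hcone, ((u⁻¹ : (𝓞 K)ˣ) : 𝓞 K) * a.1,
      Ideal.mul_mem_left _ _ a.2.1, ?_⟩
    rw [unitSMul_smul, ← map_mul]
    rfl
  refine ⟨(-γ, ⟨_, hmem⟩), ?_⟩
  apply Subtype.ext
  have h2 := emb_e K J (-γ, ⟨_, hmem⟩)
  have h3 : un K (-γ) • (u⁻¹ • mixedEmbedding K (a.1 : K)) = mixedEmbedding K (a.1 : K) := by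
    rw [← hu, smul_inv_smul]
  have h4 : mixedEmbedding K ((e K J (-γ, ⟨_, hmem⟩)).1 : K) = mixedEmbedding K (a.1 : K) :=
    h2.trans h3
  exact RingOfIntegers.coe_injective (mixedEmbedding_injective K h4)

theorem fin_norm (Y : ℝ) : {y : idealSet K J | mixedEmbedding.norm (y : mixedSpace K) ≤ Y}.Finite := by
  have h1 : {y : idealSet K J | mixedEmbedding.norm (y : mixedSpace K) ≤ Y} ⊆
      ⋃ n ∈ Finset.range (⌊Y⌋₊ + 1),
        {y : idealSet K J | mixedEmbedding.norm (y : mixedSpace K) = n} := by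
    intro y hy
    have hy' : mixedEmbedding.norm (y : mixedSpace K) ≤ Y := hy
    rw [← intNorm_idealSetEquiv_apply] at hy'
    simp only [Set.mem_iUnion]
    refine ⟨intNorm (idealSetEquiv K J y).1, ?_, ?_⟩
    · rw [Finset.mem_range]
      exact Nat.lt_succ_of_le (Nat.le_floor hy')
    · exact (intNorm_idealSetEquiv_apply y).symm
  refine Set.Finite.subset (Set.Finite.biUnion (Finset.finite_toSet _) ?_) h1
  intro n _
  have h2 : Finite {I : (Ideal (𝓞 K))⁰ // (J : Ideal (𝓞 K)) ∣ I ∧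
      Submodule.IsPrincipal (I : Ideal (𝓞 K)) ∧ Ideal.absNorm (I : Ideal (𝓞 K)) = n} := by
    by_cases hn : n = 0
    · have : IsEmpty {I : (Ideal (𝓞 K))⁰ // (J : Ideal (𝓞 K)) ∣ I ∧
          Submodule.IsPrincipal (I : Ideal (𝓞 K)) ∧ Ideal.absNorm (I : Ideal (𝓞 K)) = n} := by
        refine ⟨fun I => ?_⟩
        have h3 := I.2.2.2.trans hn
        rw [Ideal.absNorm_eq_zero_iff] at h3
        exact nonZeroDivisors.coe_ne_zero I.1 h3
      infer_instance
    · have h3 : {I : Ideal (𝓞 K) | Ideal.absNorm I = n}.Finite :=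
        Ideal.finite_setOfPred_absNorm_eq n
      have : Finite {I : Ideal (𝓞 K) | Ideal.absNorm I = n} := h3
      refine Finite.of_injective (β := {I : Ideal (𝓞 K) | Ideal.absNorm I = n})
        (fun I => ⟨I.1, I.2.2.2⟩) ?_
      intro I I' h
      have h4' := Subtype.ext_iff.1 h
      have h4 : (I.1 : Ideal (𝓞 K)) = I'.1 := h4'
      exact Subtype.ext (Subtype.ext h4)
  have h3 : Finite {a : idealSet K J // mixedEmbedding.norm (a : mixedSpace K) = n} :=
    Finite.of_equiv _ (idealSetEquivNorm K J n).symm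
  exact h3

open Classical in
theorem fin_lattice (r : ℝ) : {γ : unitLattice K | ‖γ.1‖ ≤ r}.Finite := by
  have h1 := unitLattice_inter_ball_finite K r
  refine Set.Finite.of_finite_image (f := Subtype.val) (h1.subset ?_)
    Subtype.val_injective.injOn
  rintro _ ⟨γ, hγ, rfl⟩
  exact ⟨γ.2, by simpa using hγ⟩

open Classical in
theorem dom_bdd : ∃ ρ : ℝ, ∀ x ∈ domK K, ‖x‖ ≤ ρ := by
  have h := ZSpan.fundamentalDomain_isBounded
    ((basisUnitLattice K).ofZLatticeBasis ℝ (unitLattice K))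
  obtain ⟨ρ, hρ⟩ := isBounded_iff_forall_norm_le.1 h
  exact ⟨ρ, hρ⟩

open Classical in
theorem supp_bdd (G : logSpace K → ℝ) (hG : HasCompactSupport G) :
    ∃ r : ℝ, ∀ x, r < ‖x‖ → G x = 0 := by
  obtain ⟨r, hr⟩ := isBounded_iff_forall_norm_le.1 hG.isBounded
  refine ⟨r, fun x hx => ?_⟩
  by_contra h
  exact absurd (hr x (subset_tsupport _ h)) (not_le.2 hx)

open Classical in
theorem integral_unfold (G : logSpace K → ℝ) (hG : Continuous G) (hGc : HasCompactSupport G)
    (c : logSpace K) :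
    ∫ p, G p = ∑' γ : unitLattice K, ∫ p in domK K, G (γ.1 + c - p) := by
  have hfd : IsAddFundamentalDomain (unitLattice K).toAddSubgroup (domK K)
      (volume : Measure (logSpace K)) :=
    ZLattice.isAddFundamentalDomain (basisUnitLattice K) volume
  have hct : Countable (unitLattice K).toAddSubgroup :=
    inferInstanceAs (Countable (unitLattice K))
  have hint : Integrable (fun p => G (c - p)) (volume : Measure (logSpace K)) :=
    (hG.integrable_of_hasCompactSupport hGc).comp_sub_left c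
  have h1 := hfd.integral_eq_tsum' (fun p => G (c - p)) hint
  rw [integral_sub_left_eq_self G volume c] at h1
  rw [h1]
  let eqv : (unitLattice K).toAddSubgroup ≃ unitLattice K :=
    ⟨fun x => ⟨x.1, x.2⟩, fun x => ⟨x.1, x.2⟩, fun _ => rfl, fun _ => rfl⟩
  rw [← eqv.tsum_eq]
  refine tsum_congr fun γ => ?_
  congr 1
  funext p
  show G (c - (-γ.1 + p)) = G (γ.1 + c - p)
  congr 1
  abel

end D3

open D3 in
open Classical in
theorem unfold : S_Unfold := by
  intro K _ _ J G Φ Y hG hGc hΦ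
  obtain ⟨ρ, hρ⟩ := dom_bdd K
  obtain ⟨r, hr⟩ := supp_bdd K G hGc
  set F : Finset (unitLattice K) := (fin_lattice K (r + 2 * ρ)).toFinset with hF
  set Y₀ : Finset (idealSet K J) := (fin_norm K J Y).toFinset with hY₀
  have hFz : ∀ γ : unitLattice K, γ ∉ F → ∀ p ∈ domK K, ∀ y : idealSet K J,
      G (γ.1 + logMap (y : mixedSpace K) - p) = 0 := by
    intro γ hγ p hp y
    apply hr
    have h1 : r + 2 * ρ < ‖γ.1‖ := by
      by_contra h
      apply hγ
      rw [hF, Set.Finite.mem_toFinset]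
      exact not_lt.1 h
    have h2 := hρ p hp
    have h3 := hρ _ (logMap_mem K J y)
    have h4 : ‖γ.1‖ ≤ ‖γ.1 + logMap (y : mixedSpace K) - p‖ + ‖logMap (y : mixedSpace K)‖ + ‖p‖ := by
      have h5 : γ.1 = (γ.1 + logMap (y : mixedSpace K) - p) - logMap (y : mixedSpace K) + p := by
        abel
      calc ‖γ.1‖ = ‖(γ.1 + logMap (y : mixedSpace K) - p) - logMap (y : mixedSpace K) + p‖ := by
            rw [← h5]
        _ ≤ ‖(γ.1 + logMap (y : mixedSpace K) - p) - logMap (y : mixedSpace K)‖ + ‖p‖ :=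
            norm_add_le _ _
        _ ≤ _ := by
            gcongr
            exact norm_sub_le _ _
    linarith
  have hYz : ∀ y : idealSet K J, y ∉ Y₀ → Φ (mixedEmbedding.norm (y : mixedSpace K)) = 0 := by
    intro y hy
    apply hΦ
    by_contra h
    apply hy
    rw [hY₀, Set.Finite.mem_toFinset]
    exact not_lt.1 h
  -- the integrand
  have hsum : ∀ p ∈ domK K, (∑' a : {a : 𝓞 K // a ∈ (J : Ideal (𝓞 K)) ∧ a ≠ 0},
        G (logMap (mixedEmbedding K (a.1 : K)) - p) *
          Φ (mixedEmbedding.norm (mixedEmbedding K (a.1 : K)))) =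
      ∑ y ∈ Y₀, ∑ γ ∈ F, G (γ.1 + logMap (y : mixedSpace K) - p) *
        Φ (mixedEmbedding.norm (y : mixedSpace K)) := by
    intro p hp
    rw [← (Equiv.ofBijective (e K J) ⟨e_inj K J, e_surj K J⟩).tsum_eq]
    rw [tsum_eq_sum (s := F ×ˢ Y₀), Finset.sum_product_right]
    · refine Finset.sum_congr rfl fun y _ => Finset.sum_congr rfl fun γ _ => ?_
      rw [Equiv.ofBijective_apply, log_e, norm_e]
    · rintro ⟨γ, y⟩ hz
      rw [Equiv.ofBijective_apply, log_e, norm_e]
      rw [Finset.mem_product, not_and_or] at hz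
      rcases hz with hz | hz
      · rw [hFz γ hz p hp y, zero_mul]
      · rw [hYz y hz, mul_zero]
  have hdm : MeasurableSet (domK K) := ZSpan.fundamentalDomain_measurableSet _
  rw [setIntegral_congr_fun hdm hsum]
  have hint : ∀ (c : logSpace K), IntegrableOn (fun p => G (c - p)) (domK K) volume := fun c =>
    ((hG.integrable_of_hasCompactSupport hGc).comp_sub_left c).integrableOn
  rw [integral_finsetSum Y₀ (fun y _ => integrable_finsetSum F (fun γ _ =>
    (hint (γ.1 + logMap (y : mixedSpace K))).mul_const _))]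
  rw [tsum_eq_sum (s := Y₀) (fun y hy => hYz y hy), Finset.mul_sum]
  refine Finset.sum_congr rfl fun y _ => ?_
  rw [integral_finsetSum F (fun γ _ => (hint (γ.1 + logMap (y : mixedSpace K))).mul_const _)]
  rw [integral_unfold K G hG hGc (logMap (y : mixedSpace K)), tsum_eq_sum (s := F)]
  · rw [Finset.sum_mul]
    refine Finset.sum_congr rfl fun γ _ => ?_
    rw [integral_mul_const]
  · intro γ hγ
    exact setIntegral_eq_zero_of_forall_eq_zero fun p hp => hFz γ hγ p hp y

end MP7ed9c3.Tw
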