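import Pool.Agent.Lib.MP_7ed9c3_nt.Tw.SpecD

/-!
# MP_7ed9c3_nt, part Tw, module D4: ideals in a class
-/

set_option autoImplicit false

namespace MP7ed9c3.Tw

open NumberField NumberField.mixedEmbedding NumberField.Units
open NumberField.mixedEmbedding.fundamentalCone
open scoped nonZeroDivisors

namespace D4

variable (K : Type) [Field K] [NumberField K] (J : (Ideal (𝓞 K))⁰)

/-- principal ideals divisible by `J` -/
abbrev PJ : Type :=
  {I : (Ideal (𝓞 K))⁰ // (J : Ideal (𝓞 K)) ∣ I ∧ Submodule.IsPrincipal (I : Ideal (𝓞 K))}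

/-- the norm as a natural number -/
noncomputable def nn (a : idealSet K J) : ℕ := intNorm (idealSetEquiv K J a).1

theorem nn_eq (a : idealSet K J) : (nn K J a : ℝ) = mixedEmbedding.norm (a : mixedSpace K) :=
  intNorm_idealSetEquiv_apply a

/-- the norm of a pair -/
noncomputable def np (x : PJ K J × torsion K) : ℕ := Ideal.absNorm (x.1.1 : Ideal (𝓞 K))

/-- the equivalence of the fibres -/
noncomputable def fib (c : ℕ) : {a : idealSet K J // nn K J a = c} ≃
    {x : PJ K J × torsion K // np K J x = c} :=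
  calc {a : idealSet K J // nn K J a = c}
      ≃ {a : idealSet K J // mixedEmbedding.norm (a : mixedSpace K) = c} :=
        Equiv.subtypeEquivRight fun a => by rw [← nn_eq, Nat.cast_inj]
    _ ≃ {I : (Ideal (𝓞 K))⁰ // (J : Ideal (𝓞 K)) ∣ I ∧
          Submodule.IsPrincipal (I : Ideal (𝓞 K)) ∧ Ideal.absNorm (I : Ideal (𝓞 K)) = c} ×
          (torsion K) := idealSetEquivNorm K J c
    _ ≃ {I : (Ideal (𝓞 K))⁰ // ((J : Ideal (𝓞 K)) ∣ I ∧
          Submodule.IsPrincipal (I : Ideal (𝓞 K))) ∧ Ideal.absNorm (I : Ideal (𝓞 K)) = c} ×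
          (torsion K) := Equiv.prodCongrLeft fun _ => Equiv.subtypeEquivRight fun _ => by
            rw [and_assoc]
    _ ≃ {I : PJ K J // Ideal.absNorm (I.1 : Ideal (𝓞 K)) = c} × (torsion K) :=
          Equiv.prodCongrLeft fun _ => (Equiv.subtypeSubtypeEquivSubtypeInter
            (fun I : (Ideal (𝓞 K))⁰ => (J : Ideal (𝓞 K)) ∣ I ∧
              Submodule.IsPrincipal (I : Ideal (𝓞 K)))
            (fun I => Ideal.absNorm (I : Ideal (𝓞 K)) = c)).symm
    _ ≃ {x : PJ K J × torsion K // np K J x = c} :=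
          (Equiv.prodSubtypeFstEquivSubtypeProd
            (p := fun I : PJ K J => Ideal.absNorm (I.1 : Ideal (𝓞 K)) = c)).symm

/-- the equivalence -/
noncomputable def eqv : idealSet K J ≃ PJ K J × torsion K := Equiv.ofFiberEquiv (fib K J)

theorem np_eqv (a : idealSet K J) : np K J (eqv K J a) = nn K J a :=
  Equiv.ofFiberEquiv_map (fib K J) a

/-- multiplication by `J` -/
noncomputable def mulJ {Cl : ClassGroup (𝓞 K)} (hJ : ClassGroup.mk0 J = Cl⁻¹) :
    {I : (Ideal (𝓞 K))⁰ // ClassGroup.mk0 I = Cl} → PJ K J := fun I =>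
  ⟨J * I.1, by
    refine ⟨?_, ?_⟩
    · rw [Submonoid.coe_mul]
      exact dvd_mul_right _ _
    · rw [← ClassGroup.mk0_eq_one_iff (SetLike.coe_mem _)]
      change ClassGroup.mk0 (J * I.1) = 1
      rw [map_mul, hJ, I.2, inv_mul_cancel]⟩

theorem mulJ_bij {Cl : ClassGroup (𝓞 K)} (hJ : ClassGroup.mk0 J = Cl⁻¹) :
    Function.Bijective (mulJ K J hJ) := by
  constructor
  · intro a b hab
    have h1 : J * a.1 = J * b.1 := congrArg Subtype.val hab
    exact Subtype.ext (mul_left_cancel h1)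
  · rintro ⟨I, h1, h2⟩
    obtain ⟨I', rfl⟩ := nonZeroDivisors_dvd_iff_dvd_coe.2 h1
    have h3 : ClassGroup.mk0 (J * I') = 1 := (ClassGroup.mk0_eq_one_iff (SetLike.coe_mem _)).2 h2
    rw [map_mul, hJ, inv_mul_eq_one] at h3
    exact ⟨⟨I', h3.symm⟩, rfl⟩

theorem fin_PJ (Y : ℝ) : {I : PJ K J | (Ideal.absNorm (I.1 : Ideal (𝓞 K)) : ℝ) ≤ Y}.Finite := by
  have h1 := Ideal.finite_setOfPred_absNorm_le₀ (S := 𝓞 K) ⌊Y⌋₊
  have h2 : Set.Finite {I : (Ideal (𝓞 K))⁰ | Ideal.absNorm (I : Ideal (𝓞 K)) ≤ ⌊Y⌋₊} := by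
    exact h1
  have h3 : Set.Finite {I : PJ K J | Ideal.absNorm (I.1 : Ideal (𝓞 K)) ≤ ⌊Y⌋₊} :=
    h2.preimage (f := fun I : PJ K J => I.1) (Subtype.val_injective.injOn)
  refine h3.subset fun I hI => ?_
  exact Nat.le_floor hI

end D4

open D4 in
theorem idealSum : S_IdealSum := by
  intro K _ _ Cl J Φ Y hJ hΦ
  have hfinT : Finite (torsion K) := inferInstance
  -- the right side
  have h1 : ∑' y : idealSet K J, Φ (mixedEmbedding.norm (y : mixedSpace K)) =
      ∑' x : PJ K J × torsion K, Φ (np K J x : ℝ) := by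
    rw [← (eqv K J).tsum_eq]
    refine tsum_congr fun y => ?_
    rw [np_eqv, nn_eq]
  have hsum : Summable fun x : PJ K J × torsion K => Φ (np K J x : ℝ) := by
    refine summable_of_finite_support ?_
    have h2 : (({I : PJ K J | (Ideal.absNorm (I.1 : Ideal (𝓞 K)) : ℝ) ≤ Y}) ×ˢ
        (Set.univ : Set (torsion K))).Finite := (fin_PJ K J Y).prod Set.finite_univ
    refine h2.subset fun x hx => ?_
    refine ⟨?_, Set.mem_univ _⟩
    by_contra hcon
    have hlt : Y < (Ideal.absNorm (x.1.1 : Ideal (𝓞 K)) : ℝ) := not_le.1 hcon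
    exact hx (hΦ _ hlt)
  have h2 : ∑' x : PJ K J × torsion K, Φ (np K J x : ℝ) =
      (torsionOrder K : ℝ) * ∑' I : PJ K J, Φ (Ideal.absNorm (I.1 : Ideal (𝓞 K)) : ℝ) := by
    rw [hsum.tsum_prod, ← tsum_mul_left]
    refine tsum_congr fun I => ?_
    change ∑' _ : torsion K, Φ (Ideal.absNorm (I.1 : Ideal (𝓞 K)) : ℝ) = _
    rw [tsum_const, nsmul_eq_mul]
    rfl
  rw [h1, h2]
  congr 1
  rw [← (Equiv.ofBijective _ (mulJ_bij K J hJ)).tsum_eq]
  refine tsum_congr fun I => ?_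
  change Φ _ = Φ (Ideal.absNorm (((J * I.1 : (Ideal (𝓞 K))⁰)) : Ideal (𝓞 K)) : ℝ)
  rw [Submonoid.coe_mul, map_mul, Nat.cast_mul, mul_comm]

end MP7ed9c3.Tw
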