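import Pool.Agent.Lib.MP_7ed9c3_nt.Tw.SpecD

/-!
# MP_7ed9c3_nt, part Tw, D5a: smooth counting in the fundamental cone
-/

set_option autoImplicit false

namespace MP7ed9c3.Tw

open NumberField NumberField.mixedEmbedding NumberField.Units MeasureTheory Filter Topology
open NumberField.Units.dirichletUnitTheorem
open NumberField.mixedEmbedding.fundamentalCone IsDedekindDomain
open scoped nonZeroDivisors ContDiff

namespace D5a

variable {K : Type} [Field K] [NumberField K]

open Classical in
/-- A smooth compactly supported function with integral 1. -/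
theorem bump (K : Type) [Field K] [NumberField K] : ∃ G : logSpace K → ℝ, ContDiff ℝ ∞ G ∧
    HasCompactSupport G ∧ ∫ p, G p = 1 := by
  let f : ContDiffBump (0 : logSpace K) := ⟨1, 2, one_pos, by norm_num⟩
  exact ⟨f.normed volume, f.contDiff_normed, f.hasCompactSupport_normed, f.integral_normed⟩

/-- The function Φ. -/
noncomputable def Phi (g : ℝ → ℝ) (T : ℝ) (y : ℝ) : ℝ := if 0 < y then g (Real.log y - T) else 0

theorem Phi_zero {g : ℝ → ℝ} (hg : HasCompactSupport g) : ∃ r : ℝ, ∀ T y : ℝ,
    Real.exp (T + r) < y → Phi g T y = 0 := by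
  obtain ⟨r, hr⟩ := hg.isCompact.isBounded.subset_closedBall 0
  refine ⟨r, fun T y hy => ?_⟩
  have hy0 : 0 < y := lt_trans (Real.exp_pos _) hy
  rw [Phi, if_pos hy0]
  have h1 : T + r < Real.log y := by
    rw [Real.lt_log_iff_exp_lt hy0]
    exact hy
  by_contra hne
  have h2 := hr (subset_tsupport _ (Function.mem_support.2 hne))
  rw [Metric.mem_closedBall, dist_zero_right, Real.norm_eq_abs] at h2
  have h3 := le_trans (le_abs_self _) h2
  linarith

open Classical in
theorem domK_bdd (K : Type) [Field K] [NumberField K] : Bornology.IsBounded (domK K) :=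
  ZSpan.fundamentalDomain_isBounded _

open Classical in
theorem domK_meas (K : Type) [Field K] [NumberField K] : MeasurableSet (domK K) :=
  ZSpan.fundamentalDomain_measurableSet _

open Classical in
/-- The scaled family at a lattice point. -/
theorem fam_smul (G : logSpace K → ℝ) (g : ℝ → ℝ) (p : logSpace K) (T : ℝ) {x : mixedSpace K}
    (hx : mixedEmbedding.norm x ≠ 0) :
    fam K G g p (Real.exp (-T / Module.finrank ℚ K) • x) =
      G (logMap x - p) * Phi g T (mixedEmbedding.norm x) := by
  have hn : (Module.finrank ℚ K : ℝ) ≠ 0 := by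
    have : 0 < Module.finrank ℚ K := Module.finrank_pos
    positivity
  have h1 : mixedEmbedding.norm (Real.exp (-T / Module.finrank ℚ K) • x) =
      Real.exp (-T) * mixedEmbedding.norm x := by
    rw [mixedEmbedding.norm_smul, abs_of_pos (Real.exp_pos _), ← Real.exp_nat_mul]
    congr 2
    field_simp
  have hpos : 0 < mixedEmbedding.norm x :=
    lt_of_le_of_ne (mixedEmbedding.norm_nonneg x) (Ne.symm hx)
  have h2 : mixedEmbedding.norm (Real.exp (-T / Module.finrank ℚ K) • x) ≠ 0 := by
    rw [h1]
    positivity
  rw [fam, if_neg h2, logMap_real_smul hx (Real.exp_pos _).ne', h1, Phi, if_pos hpos,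
    Real.log_mul (Real.exp_pos _).ne' hx, Real.log_exp]
  congr 2
  ring

open Classical in
/-- Continuous functions are integrable on the domain. -/
theorem intOn {f : logSpace K → ℝ} (hf : Continuous f) : IntegrableOn f (domK K) :=
  (hf.continuousOn.integrableOn_compact (domK_bdd K).isCompact_closure).mono_set subset_closure

end D5a

open D5a

open Classical in
theorem coneSum (h1 : S_LatticeSum) (h2 : S_Fam) (h3 : S_Unfold) : S_ConeSum := by
  intro K _ _ J g hg hgc A
  obtain ⟨G, hG, hGc, hG1⟩ := bump K
  obtain ⟨hcont, hsm, hbd⟩ := h2 K G g hG hGc hg hgc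
  obtain ⟨⟨R, hR⟩, hB⟩ := hbd (domK K) (domK_bdd K)
  set n := Module.finrank ℝ (mixedSpace K) with hn
  have hnQ : n = Module.finrank ℚ K := mixedEmbedding.finrank K
  have hnpos : 0 < n := by
    rw [hnQ]
    exact Module.finrank_pos
  set k := n * (A + 1) with hk
  obtain ⟨B, hB⟩ := hB (k + 1)
  let b := fractionalIdealLatticeBasis K (FractionalIdeal.mk0 K J)
  obtain ⟨C, hC⟩ := h1 (mixedSpace K) volume _ b k R
  set V := (volume : Measure (mixedSpace K)).real (ZSpan.fundamentalDomain b) with hV
  obtain ⟨r, hr⟩ := Phi_zero hgc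
  let I : logSpace K → ℝ := fun p => ∫ x, fam K G g p x
  refine ⟨(∫ p in domK K, I p) / V, |C * B| * (volume : Measure (logSpace K)).real (domK K),
    fun T hT => ?_⟩
  set h := Real.exp (-T / Module.finrank ℚ K) with hh
  have hh0 : 0 < h := Real.exp_pos _
  have hh1 : h ≤ 1 := by
    rw [hh, Real.exp_le_one_iff]
    exact div_nonpos_of_nonpos_of_nonneg (by linarith) (Nat.cast_nonneg _)
  have hnR : (n : ℝ) ≠ 0 := by positivity
  have hhn : h ^ n = Real.exp (-T) := by
    rw [hh, ← Real.exp_nat_mul, ← hnQ]
    congr 1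
    field_simp
  let F : logSpace K → ℝ := fun p =>
    ∑' a : Submodule.span ℤ (Set.range b), fam K G g p (h • (a : mixedSpace K))
  -- the bound for every p
  have hpt : ∀ p ∈ domK K, ‖F p - I p / V * Real.exp T‖ ≤ |C * B| * Real.exp (-A * T) := by
    intro p hp
    have e1 := hC (fam K G g p) B h ((hsm p).of_le (by exact_mod_cast le_top)) (hR p hp)
      (fun x => hB p hp x) hh0 hh1
    rw [Real.norm_eq_abs]
    have e2 : I p / V * Real.exp T = (∫ x, fam K G g p x) / (h ^ n * V) := by
      rw [hhn, Real.exp_neg]
      have := Real.exp_pos T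
      by_cases hV0 : V = 0
      · rw [hV0]
        simp
      · field_simp
        rfl
    have e3 : C * B * h ^ (k + 1) / h ^ n ≤ |C * B| * Real.exp (-A * T) := by
      have e4 : h ^ (k + 1) / h ^ n ≤ Real.exp (-A * T) := by
        have e5 : h ^ (k + 1) = h ^ n * (h ^ n) ^ A * h := by
          rw [← pow_mul, ← pow_add, ← pow_succ, hk]
          congr 1
          ring
        rw [e5, mul_assoc, mul_div_assoc, mul_div_cancel₀ _ (pow_pos hh0 n).ne', hhn,
          ← Real.exp_nat_mul]
        have e6 : (A : ℝ) * -T = -A * T := by ring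
        rw [e6]
        exact mul_le_of_le_one_right (Real.exp_pos _).le hh1
      rw [mul_div_assoc]
      have e7 : 0 ≤ h ^ (k + 1) / h ^ n := by positivity
      exact mul_le_mul (le_abs_self _) e4 e7 (abs_nonneg _)
    rw [e2]
    exact e1.trans e3
  -- F on domK is a finite sum of continuous functions
  have hfin : {a : Submodule.span ℤ (Set.range b) | ‖h • (a : mixedSpace K)‖ ≤ R}.Finite := by
    have e1 := ZSpan.setFinite_inter b (s := Metric.closedBall (0 : mixedSpace K) (R / h))
      Metric.isBounded_closedBall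
    refine Set.Finite.of_finite_image (f := fun a : Submodule.span ℤ (Set.range b) =>
      (a : mixedSpace K)) (e1.subset ?_) Subtype.val_injective.injOn
    rintro _ ⟨a, ha, rfl⟩
    refine ⟨?_, a.2⟩
    rw [Metric.mem_closedBall, dist_zero_right, le_div_iff₀ hh0]
    have e2 : ‖h • (a : mixedSpace K)‖ ≤ R := ha
    rw [_root_.norm_smul, Real.norm_eq_abs, abs_of_pos hh0] at e2
    rw [mul_comm]
    exact e2
  have hFsum : ∀ p ∈ domK K, F p = ∑ a ∈ hfin.toFinset, fam K G g p (h • (a : mixedSpace K)) := by
    intro p hp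
    refine tsum_eq_sum fun a ha => hR p hp _ ?_
    rw [Set.Finite.mem_toFinset] at ha
    exact not_le.1 ha
  have hFint : IntegrableOn F (domK K) := by
    have e1 : Continuous fun p : logSpace K =>
        ∑ a ∈ hfin.toFinset, fam K G g p (h • (a : mixedSpace K)) :=
      continuous_finsetSum _ fun a _ => hcont.comp (Continuous.prodMk continuous_id continuous_const)
    exact (intOn e1).congr_fun (fun p hp => (hFsum p hp).symm) (domK_meas K)
  have hIint : IntegrableOn I (domK K) := by
    have e1 : Continuous fun p : logSpace K =>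
        ∫ x in Metric.closedBall (0 : mixedSpace K) R, fam K G g p x :=
      continuous_parametric_integral_of_continuous hcont (isCompact_closedBall _ _)
    refine (intOn e1).congr_fun (fun p hp => ?_) (domK_meas K)
    refine setIntegral_eq_integral_of_forall_compl_eq_zero fun x hx => hR p hp x ?_
    rw [Metric.mem_closedBall, dist_zero_right, not_le] at hx
    exact hx
  -- the sum over the lattice is the sum over the ideal
  have hFJ : ∀ p, F p = ∑' a : {a : 𝓞 K // a ∈ (J : Ideal (𝓞 K)) ∧ a ≠ 0},
      G (logMap (mixedEmbedding K (a.1 : K)) - p) *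
        Phi g T (mixedEmbedding.norm (mixedEmbedding K (a.1 : K))) := by
    intro p
    have hmem : ∀ a : {a : 𝓞 K // a ∈ (J : Ideal (𝓞 K)) ∧ a ≠ 0},
        mixedEmbedding K (a.1 : K) ∈ Submodule.span ℤ (Set.range b) := by
      intro a
      rw [mem_span_fractionalIdealLatticeBasis]
      refine ⟨(a.1 : K), ?_, rfl⟩
      rw [FractionalIdeal.coe_mk0]
      exact FractionalIdeal.mem_coeIdeal_of_mem _ a.2.1
    have hinj : Function.Injective fun a : {a : 𝓞 K // a ∈ (J : Ideal (𝓞 K)) ∧ a ≠ 0} =>
        (⟨mixedEmbedding K (a.1 : K), hmem a⟩ : Submodule.span ℤ (Set.range b)) := by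
      intro a a' haa
      have e1 := congrArg Subtype.val haa
      apply Subtype.ext
      exact RingOfIntegers.ext (mixedEmbedding_injective K e1)
    have hsupp : Function.support (fun a : Submodule.span ℤ (Set.range b) =>
        fam K G g p (h • (a : mixedSpace K))) ⊆ Set.range
          (fun a : {a : 𝓞 K // a ∈ (J : Ideal (𝓞 K)) ∧ a ≠ 0} =>
            (⟨mixedEmbedding K (a.1 : K), hmem a⟩ : Submodule.span ℤ (Set.range b))) := by
      intro a ha
      have e1 := a.2
      rw [mem_span_fractionalIdealLatticeBasis] at e1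
      obtain ⟨y, hy, hya⟩ := e1
      rw [FractionalIdeal.coe_mk0] at hy
      obtain ⟨z, hz, hzy⟩ := (FractionalIdeal.mem_coeIdeal _).1 hy
      refine ⟨⟨z, hz, ?_⟩, ?_⟩
      · rintro rfl
        rw [Function.mem_support] at ha
        apply ha
        rw [map_zero] at hzy
        rw [← hya, ← hzy, map_zero, smul_zero, fam, if_pos (map_zero _)]
      · apply Subtype.ext
        change mixedEmbedding K (algebraMap (𝓞 K) K z) = (a : mixedSpace K)
        rw [hzy, hya]
    have e2 := hinj.tsum_eq hsupp
    change ∑' a : Submodule.span ℤ (Set.range b), fam K G g p (h • (a : mixedSpace K)) = _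
    rw [← e2]
    refine tsum_congr fun a => ?_
    have hx : mixedEmbedding.norm (mixedEmbedding K (a.1 : K)) ≠ 0 := by
      intro h0
      rw [norm_eq_zero_iff' ⟨_, rfl⟩, map_eq_zero] at h0
      exact a.2.2 (RingOfIntegers.ext h0)
    exact fam_smul G g p T hx
  have hmain : ∫ p in domK K, F p =
      ∑' y : idealSet K J, g (Real.log (mixedEmbedding.norm (y : mixedSpace K)) - T) := by
    have e1 := h3 K J G (Phi g T) (Real.exp (T + r)) hG.continuous hGc (fun y hy => hr T y hy)
    rw [hG1, one_mul] at e1
    rw [show (∫ p in domK K, F p) = _ from (congrArg (fun f : logSpace K → ℝ => ∫ p in domK K, f p)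
      (funext hFJ)).trans e1]
    refine tsum_congr fun y => ?_
    have hy : 0 < mixedEmbedding.norm (y : mixedSpace K) := norm_pos_of_mem y.2.1
    rw [Phi, if_pos hy]
  have hsub : (∫ p in domK K, (F p - I p / V * Real.exp T)) =
      (∫ p in domK K, F p) - (∫ p in domK K, I p) / V * Real.exp T := by
    rw [integral_sub hFint ((hIint.div_const V).mul_const _), integral_mul_const,
      integral_div]
  have hvol : (volume : Measure (logSpace K)) (domK K) < ⊤ := (domK_bdd K).measure_lt_top
  have hfinal := norm_setIntegral_le_of_norm_le_const hvol hpt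
  rw [hsub, hmain, Real.norm_eq_abs] at hfinal
  refine hfinal.trans (le_of_eq ?_)
  ring

end MP7ed9c3.Tw
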