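import Pool.Agent.Lib.MP_7ed9c3_nt.Tw.SpecD

/-!
# MP_7ed9c3_nt, part Tw, D5b: smooth counting of ideals

Proof of `S_SmoothCount` from `S_IdealSum` and `S_ConeSum`: sum the counting results over the ideal
classes.
-/

set_option autoImplicit false

namespace MP7ed9c3.Tw

open NumberField NumberField.mixedEmbedding NumberField.Units MeasureTheory Filter Topology
open NumberField.Units.dirichletUnitTheorem
open NumberField.mixedEmbedding.fundamentalCone IsDedekindDomain
open scoped nonZeroDivisors ContDiff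

namespace D5b

/-- A compactly supported function on the line vanishes far to the right. -/
theorem exists_bound (g : ℝ → ℝ) (hg : HasCompactSupport g) : ∃ R : ℝ, ∀ x, R < x → g x = 0 := by
  obtain ⟨R, hR⟩ := hg.isCompact.isBounded.bddAbove
  refine ⟨R, fun x hx => ?_⟩
  by_contra h
  exact absurd (hR (subset_tsupport g h)) (not_le.mpr hx)

/-- Norms of nonzero ideals are positive. -/
theorem norm_pos (K : Type) [Field K] [NumberField K] (I : (Ideal (𝓞 K))⁰) :
    1 ≤ (Ideal.absNorm (I : Ideal (𝓞 K)) : ℝ) := by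
  have h : Ideal.absNorm (I : Ideal (𝓞 K)) ≠ 0 := by
    rw [Ne, Ideal.absNorm_eq_zero_iff]
    exact nonZeroDivisors.coe_ne_zero I
  exact_mod_cast Nat.one_le_iff_ne_zero.mpr h

/-- The sum over all ideals is a finite sum. -/
theorem summ (K : Type) [Field K] [NumberField K] (g : ℝ → ℝ) (R T : ℝ)
    (hR : ∀ x, R < x → g x = 0) :
    Summable fun I : (Ideal (𝓞 K))⁰ =>
      g (Real.log (Ideal.absNorm (I : Ideal (𝓞 K)) : ℝ) - T) := by
  apply summable_of_hasFiniteSupport
  have hfin : {I : (Ideal (𝓞 K))⁰ | Ideal.absNorm (I : Ideal (𝓞 K)) ≤ ⌊Real.exp (R + T)⌋₊}.Finite := by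
    have h := Ideal.finite_setOfPred_absNorm_le (S := 𝓞 K) ⌊Real.exp (R + T)⌋₊
    exact h.preimage (Subtype.val_injective.injOn)
  refine hfin.subset ?_
  intro I hI
  simp only [Set.mem_ofPred_eq]
  by_contra hlt
  apply hI
  apply hR
  have h1 : Real.exp (R + T) < (Ideal.absNorm (I : Ideal (𝓞 K)) : ℝ) := by
    have := Nat.lt_of_floor_lt (not_le.mp hlt)
    exact this
  have h2 := (Real.lt_log_iff_exp_lt (lt_of_lt_of_le one_pos (norm_pos K I))).mpr h1
  linarith

open Classical in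
/-- The count in one class. -/
theorem one_class (h4 : S_IdealSum) (h5 : S_ConeSum) (K : Type) [Field K] [NumberField K]
    (g : ℝ → ℝ) (hg : ContDiff ℝ ∞ g) (hs : HasCompactSupport g) (A : ℕ)
    (Cl : ClassGroup (𝓞 K)) : ∃ c C : ℝ, ∀ T : ℝ, 0 ≤ T →
      |∑' I : {I : (Ideal (𝓞 K))⁰ // ClassGroup.mk0 I = Cl},
          g (Real.log (Ideal.absNorm (I.1 : Ideal (𝓞 K)) : ℝ) - T) -
        c * Real.exp T| ≤ C * Real.exp (-A * T) := by
  obtain ⟨R, hR⟩ := exists_bound g hs
  obtain ⟨J, hJ⟩ := ClassGroup.mk0_surjective Cl⁻¹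
  obtain ⟨c, C, hc⟩ := h5 K J g hg hs A
  have hw : (0 : ℝ) < (torsionOrder K : ℝ) := by
    exact_mod_cast torsionOrder_pos K
  have hN := norm_pos K J
  have hN0 : (0 : ℝ) < (Ideal.absNorm (J : Ideal (𝓞 K)) : ℝ) := by linarith
  refine ⟨c * (Ideal.absNorm (J : Ideal (𝓞 K)) : ℝ) / torsionOrder K, |C| / torsionOrder K,
    fun T hT => ?_⟩
  set L : ℝ := Real.log (Ideal.absNorm (J : Ideal (𝓞 K)) : ℝ) with hL
  have hL0 : 0 ≤ L := Real.log_nonneg hN
  have key := h4 K Cl J (fun y => if 0 < y then g (Real.log y - (T + L)) else 0)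
    (Real.exp (R + (T + L))) hJ (by
      intro y hy
      have hy0 : 0 < y := lt_trans (Real.exp_pos _) hy
      simp only [if_pos hy0]
      apply hR
      have := (Real.lt_log_iff_exp_lt hy0).mpr hy
      linarith)
  have e1 : ∀ I : {I : (Ideal (𝓞 K))⁰ // ClassGroup.mk0 I = Cl},
      (if 0 < (Ideal.absNorm (I.1 : Ideal (𝓞 K)) : ℝ) * (Ideal.absNorm (J : Ideal (𝓞 K)) : ℝ) then
        g (Real.log ((Ideal.absNorm (I.1 : Ideal (𝓞 K)) : ℝ) *
          (Ideal.absNorm (J : Ideal (𝓞 K)) : ℝ)) - (T + L)) else 0) =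
      g (Real.log (Ideal.absNorm (I.1 : Ideal (𝓞 K)) : ℝ) - T) := by
    intro I
    have hI := norm_pos K I.1
    have hI0 : (0 : ℝ) < (Ideal.absNorm (I.1 : Ideal (𝓞 K)) : ℝ) := by linarith
    rw [if_pos (mul_pos hI0 hN0), Real.log_mul hI0.ne' hN0.ne']
    congr 1
    rw [hL]
    ring
  have e2 : ∀ y : idealSet K J,
      (if 0 < mixedEmbedding.norm (y : mixedSpace K) then
        g (Real.log (mixedEmbedding.norm (y : mixedSpace K)) - (T + L)) else 0) =
      g (Real.log (mixedEmbedding.norm (y : mixedSpace K)) - (T + L)) := by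
    intro y
    rw [if_pos]
    exact norm_pos_of_mem (mem_idealSet.mp y.2).1
  rw [tsum_congr e1, tsum_congr e2] at key
  have hT' : 0 ≤ T + L := by linarith
  have hb := hc (T + L) hT'
  rw [← key] at hb
  set S : ℝ := ∑' I : {I : (Ideal (𝓞 K))⁰ // ClassGroup.mk0 I = Cl},
          g (Real.log (Ideal.absNorm (I.1 : Ideal (𝓞 K)) : ℝ) - T) with hS
  have hexp : Real.exp (T + L) = Real.exp T * (Ideal.absNorm (J : Ideal (𝓞 K)) : ℝ) := by
    rw [Real.exp_add, hL, Real.exp_log hN0]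
  have h3 : C * Real.exp (-A * (T + L)) ≤ |C| * Real.exp (-A * T) := by
    refine mul_le_mul (le_abs_self C) ?_ (Real.exp_pos _).le (abs_nonneg C)
    apply Real.exp_le_exp.mpr
    have : (0 : ℝ) ≤ (A : ℝ) * L := mul_nonneg (Nat.cast_nonneg A) hL0
    nlinarith
  have h6 : S - c * (Ideal.absNorm (J : Ideal (𝓞 K)) : ℝ) / torsionOrder K * Real.exp T =
      ((torsionOrder K : ℝ) * S - c * Real.exp (T + L)) / torsionOrder K := by
    rw [hexp]
    field_simp
  rw [h6, abs_div, abs_of_pos hw, div_mul_eq_mul_div]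
  exact div_le_div_of_nonneg_right (hb.trans h3) hw.le

end D5b

open D5b in
/-- **D5b, smooth counting of ideals**: proof of `S_SmoothCount`. -/
theorem smoothCount (h4 : S_IdealSum) (h5 : S_ConeSum) : S_SmoothCount := by
  classical
  intro K _ _ g hg hs A
  obtain ⟨R, hR⟩ := exists_bound g hs
  choose c C hc using one_class h4 h5 K g hg hs A
  refine ⟨∑ Cl, c Cl, ∑ Cl, C Cl, fun T hT => ?_⟩
  have hsum := summ K g R T hR
  have h1 : ∑' I : (Ideal (𝓞 K))⁰, g (Real.log (Ideal.absNorm (I : Ideal (𝓞 K)) : ℝ) - T) =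
      ∑ Cl : ClassGroup (𝓞 K), ∑' I : {I : (Ideal (𝓞 K))⁰ // ClassGroup.mk0 I = Cl},
        g (Real.log (Ideal.absNorm (I.1 : Ideal (𝓞 K)) : ℝ) - T) := by
    rw [← (Equiv.sigmaFiberEquiv (ClassGroup.mk0 (R := 𝓞 K))).tsum_eq]
    rw [Summable.tsum_sigma]
    · rw [tsum_fintype]
      rfl
    · exact (Equiv.summable_iff _).mpr hsum
  rw [h1, Finset.sum_mul, Finset.sum_mul, ← Finset.sum_sub_distrib]
  exact (Finset.abs_sum_le_sum_abs _ _).trans (Finset.sum_le_sum fun Cl _ => hc Cl T hT)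

end MP7ed9c3.Tw
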