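import Pool.Agent.Lib.MP_7ed9c3_nt.Tw.SpecD

/-!
# MP_7ed9c3_nt, part Tw, D6a: the Dedekind zeta function as a sum over ideals and as an Euler product
-/

set_option autoImplicit false

namespace MP7ed9c3.Tw

open NumberField Filter Topology IsDedekindDomain
open scoped nonZeroDivisors

namespace D6a

variable {K : Type} [Field K] [NumberField K]

/-- the norm of a nonzero ideal -/
noncomputable def nm (I : (Ideal (𝓞 K))⁰) : ℕ := Ideal.absNorm (I : Ideal (𝓞 K))

theorem nm_pos (I : (Ideal (𝓞 K))⁰) : 0 < nm I := Ideal.absNorm_pos_of_nonZeroDivisors I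

theorem nm_mul (I J : (Ideal (𝓞 K))⁰) : nm (I * J) = nm I * nm J := by
  unfold nm
  rw [Submonoid.coe_mul, map_mul]

theorem nm_one : nm (1 : (Ideal (𝓞 K))⁰) = 1 := by
  unfold nm
  rw [Submonoid.coe_one, map_one]

instance finite_fibre (n : ℕ) : Finite {I : (Ideal (𝓞 K))⁰ // nm I = n} := by
  have h := Ideal.finite_setOfPred_absNorm_eq (S := 𝓞 K) n
  haveI : Finite {I : Ideal (𝓞 K) // Ideal.absNorm I = n} := h
  refine Finite.of_injective (fun I : {I : (Ideal (𝓞 K))⁰ // nm I = n} =>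
    (⟨I.1.1, I.2⟩ : {I : Ideal (𝓞 K) // Ideal.absNorm I = n})) ?_
  intro I J hIJ
  apply Subtype.ext
  apply Subtype.ext
  exact Subtype.mk.inj hIJ

theorem card_fibre {n : ℕ} (hn : n ≠ 0) : Nat.card {I : (Ideal (𝓞 K))⁰ // nm I = n} =
    Nat.card {I : Ideal (𝓞 K) // Ideal.absNorm I = n} := by
  refine Nat.card_congr
    { toFun := fun I => ⟨I.1.1, I.2⟩
      invFun := fun I => ⟨⟨I.1, ?_⟩, I.2⟩
      left_inv := fun I => rfl
      right_inv := fun I => rfl }
  rw [mem_nonZeroDivisors_iff_ne_zero]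
  intro h0
  have := I.2
  rw [h0, Submodule.zero_eq_bot, Ideal.absNorm_bot] at this
  exact hn this.symm

theorem summable_coeff {s : ℂ} (hs : 1 < s.re) :
    LSeriesSummable (fun n => (Nat.card {I : Ideal (𝓞 K) // Ideal.absNorm I = n} : ℂ)) s := by
  have h0 := LSeriesSummable_of_sum_norm_bigO_and_nonneg (r := 1) (s := s)
    (f := fun n => (Nat.card {I : Ideal (𝓞 K) // Ideal.absNorm I = n} : ℝ)) ?_
    (fun _ => Nat.cast_nonneg _) zero_le_one hs
  · simpa using h0
  · have h1 : Tendsto (fun n : ℕ => (∑ k ∈ Finset.Icc 1 n,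
        (Nat.card {I : Ideal (𝓞 K) // Ideal.absNorm I = k} : ℝ)) / n) atTop
        (𝓝 (dedekindZeta_residue K)) := by
      refine ((NumberField.Ideal.tendsto_norm_le_div_atTop₀ K).comp
        tendsto_natCast_atTop_atTop).congr fun n => ?_
      simp only [Function.comp_apply, Nat.cast_le, ← Nat.cast_sum]
      congr
      rw [← add_left_inj 1, ← Ideal.card_norm_le_eq_card_norm_le_add_one,
        show Finset.Icc 1 n = Finset.Ioc 0 n from Finset.Icc_succ_left_eq_Ioc _ _,
        show 1 = Nat.card {I : Ideal (𝓞 K) // Ideal.absNorm I = 0} by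
          simp [Ideal.absNorm_eq_zero_iff],
        Finset.sum_Ioc_add_eq_sum_Icc (n.zero_le),
        ← Finset.card_preimage_eq_sum_card_image_eq
          (fun k _ => Ideal.finite_setOfPred_absNorm_eq k)]
      simp [Set.coe_eq_subtype]
    have h2 := h1.isBigO_one ℝ
    have h3 : (fun n : ℕ => ∑ k ∈ Finset.Icc 1 n,
        (Nat.card {I : Ideal (𝓞 K) // Ideal.absNorm I = k} : ℝ)) =ᶠ[atTop]
        fun n : ℕ => ((∑ k ∈ Finset.Icc 1 n,
          (Nat.card {I : Ideal (𝓞 K) // Ideal.absNorm I = k} : ℝ)) / n) * n := by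
      filter_upwards [eventually_ne_atTop 0] with n hn
      rw [div_mul_cancel₀]
      exact_mod_cast hn
    have h4 := h2.mul (Asymptotics.isBigO_refl (fun n : ℕ => (n : ℝ)) atTop)
    refine (h4.congr' h3.symm ?_)
    filter_upwards with n
    rw [one_mul, Real.rpow_one]

theorem norm_nm (s : ℂ) (I : (Ideal (𝓞 K))⁰) : ‖(nm I : ℂ) ^ (-s)‖ = (nm I : ℝ) ^ (-s.re) := by
  rw [Complex.norm_natCast_cpow_of_pos (nm_pos I), Complex.neg_re]

/-- summability over the ideals -/
theorem summable_nm {σ : ℝ} (hσ : 1 < σ) :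
    Summable fun I : (Ideal (𝓞 K))⁰ => (nm I : ℝ) ^ (-σ) := by
  rw [← (Equiv.sigmaFiberEquiv (nm (K := K))).summable_iff, summable_sigma_of_nonneg]
  · refine ⟨fun n => ?_, ?_⟩
    · exact Summable.of_finite
    · have h1 := (summable_coeff (K := K) (s := (σ : ℂ)) (by simpa using hσ)).norm
      refine h1.congr fun n => ?_
      have h2 : ∀ y : {I : (Ideal (𝓞 K))⁰ // nm I = n},
          ((fun I : (Ideal (𝓞 K))⁰ => (nm I : ℝ) ^ (-σ)) ∘ (Equiv.sigmaFiberEquiv nm)) ⟨n, y⟩ =
            (n : ℝ) ^ (-σ) := by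
        intro y
        have : (Equiv.sigmaFiberEquiv nm) ⟨n, y⟩ = y.1 := rfl
        rw [Function.comp_apply, this, y.2]
      rw [tsum_congr h2, tsum_const, LSeries.term_def]
      by_cases hn : n = 0
      · subst hn
        haveI : IsEmpty {I : (Ideal (𝓞 K))⁰ // nm I = 0} := ⟨fun I => (nm_pos I.1).ne' I.2⟩
        rw [if_pos rfl, norm_zero, Nat.card_of_isEmpty, zero_smul]
      · rw [if_neg hn, norm_div, card_fibre hn, nsmul_eq_mul, Complex.norm_natCast,
          Complex.norm_natCast_cpow_of_pos (Nat.pos_of_ne_zero hn), Complex.ofReal_re,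
          Real.rpow_neg (Nat.cast_nonneg _), div_eq_mul_inv]
  · intro x
    exact Real.rpow_nonneg (Nat.cast_nonneg _) _

theorem summable_g {s : ℂ} (hs : 1 < s.re) :
    Summable fun I : (Ideal (𝓞 K))⁰ => (nm I : ℂ) ^ (-s) := by
  apply Summable.of_norm
  simp only [norm_nm]
  exact summable_nm hs

/-- the zeta function as a sum over ideals -/
theorem zeta_eq {s : ℂ} (hs : 1 < s.re) :
    dedekindZeta K s = ∑' I : (Ideal (𝓞 K))⁰, (nm I : ℂ) ^ (-s) := by
  have h0 : Summable ((fun I : (Ideal (𝓞 K))⁰ => (nm I : ℂ) ^ (-s)) ∘ (Equiv.sigmaFiberEquiv nm)) :=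
    (Equiv.sigmaFiberEquiv (nm (K := K))).summable_iff.2 (summable_g hs)
  rw [← (Equiv.sigmaFiberEquiv (nm (K := K))).tsum_eq]
  have h1 := h0.tsum_sigma' (fun n => Summable.of_finite)
  simp only [Function.comp_def] at h1
  rw [h1]
  unfold dedekindZeta LSeries
  refine tsum_congr fun n => ?_
  have h2 : ∀ y : {I : (Ideal (𝓞 K))⁰ // nm I = n},
      (nm ((Equiv.sigmaFiberEquiv nm) ⟨n, y⟩) : ℂ) ^ (-s) = (n : ℂ) ^ (-s) := by
    intro y
    have : (Equiv.sigmaFiberEquiv nm) ⟨n, y⟩ = y.1 := rfl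
    rw [this, y.2]
  rw [tsum_congr h2, tsum_const, LSeries.term_def]
  by_cases hn : n = 0
  · subst hn
    haveI : IsEmpty {I : (Ideal (𝓞 K))⁰ // nm I = 0} := ⟨fun I => (nm_pos I.1).ne' I.2⟩
    rw [if_pos rfl, Nat.card_of_isEmpty, zero_smul]
  · rw [if_neg hn, card_fibre hn, nsmul_eq_mul, Complex.cpow_neg, div_eq_mul_inv]

/-- a prime as a nonzero ideal -/
def pr (v : HeightOneSpectrum (𝓞 K)) : (Ideal (𝓞 K))⁰ :=
  ⟨v.asIdeal, mem_nonZeroDivisors_iff_ne_zero.2 v.ne_bot⟩

theorem pr_inj : Function.Injective (pr (K := K)) := by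
  intro v w h
  exact HeightOneSpectrum.ext (congrArg Subtype.val h)

theorem dvd_iff {I J : (Ideal (𝓞 K))⁰} : I ∣ J ↔ (I : Ideal (𝓞 K)) ∣ J := by
  constructor
  · rintro ⟨c, rfl⟩
    exact ⟨c.1, rfl⟩
  · rintro ⟨c, hc⟩
    have hc0 : c ≠ 0 := by
      rintro rfl
      rw [mul_zero] at hc
      exact nonZeroDivisors.coe_ne_zero J hc
    exact ⟨⟨c, mem_nonZeroDivisors_iff_ne_zero.2 hc0⟩, Subtype.ext hc⟩

theorem pr_not_dvd_one (v : HeightOneSpectrum (𝓞 K)) : ¬ pr v ∣ 1 := by
  rw [dvd_iff]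
  intro h
  exact v.prime.not_unit (isUnit_of_dvd_one h)

theorem pr_dvd_mul {v : HeightOneSpectrum (𝓞 K)} {I J : (Ideal (𝓞 K))⁰} :
    pr v ∣ I * J ↔ pr v ∣ I ∨ pr v ∣ J := by
  rw [dvd_iff, dvd_iff, dvd_iff, Submonoid.coe_mul]
  exact v.prime.dvd_mul

theorem pr_dvd_pr {v w : HeightOneSpectrum (𝓞 K)} (h : pr v ∣ pr w) : v = w := by
  rw [dvd_iff] at h
  apply HeightOneSpectrum.ext
  have h1 := (v.prime.dvd_prime_iff_associated w.prime).1 h
  exact associated_iff_eq.1 h1

theorem exists_pr {I : (Ideal (𝓞 K))⁰} (hI : I ≠ 1) : ∃ v, pr v ∣ I := by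
  have h1 : (I : Ideal (𝓞 K)) ≠ ⊤ := by
    intro h
    apply hI
    apply Subtype.ext
    rw [h, Submonoid.coe_one, Ideal.one_eq_top]
  obtain ⟨M, hM, hle⟩ := Ideal.exists_le_maximal _ h1
  have hM0 : M ≠ ⊥ := by
    rintro rfl
    exact nonZeroDivisors.coe_ne_zero I (le_bot_iff.1 hle)
  refine ⟨⟨M, hM.isPrime, hM0⟩, ?_⟩
  rw [dvd_iff]
  exact Ideal.dvd_iff_le.2 hle

section sieve

open Classical in
/-- the sum over the ideals prime to `S` -/
noncomputable def hh (g : (Ideal (𝓞 K))⁰ → ℂ) (S : Finset (HeightOneSpectrum (𝓞 K)))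
    (I : (Ideal (𝓞 K))⁰) : ℂ := if ∀ v ∈ S, ¬ pr v ∣ I then g I else 0

theorem norm_hh_le (g : (Ideal (𝓞 K))⁰ → ℂ) (S : Finset (HeightOneSpectrum (𝓞 K)))
    (I : (Ideal (𝓞 K))⁰) : ‖hh g S I‖ ≤ ‖g I‖ := by
  unfold hh
  split_ifs
  · exact le_rfl
  · rw [norm_zero]
    exact norm_nonneg _

theorem summable_hh {g : (Ideal (𝓞 K))⁰ → ℂ} (hg : Summable fun I => ‖g I‖)
    (S : Finset (HeightOneSpectrum (𝓞 K))) : Summable (hh g S) :=
  Summable.of_norm (Summable.of_nonneg_of_le (fun _ => norm_nonneg _) (norm_hh_le g S) hg)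

theorem sieve {g : (Ideal (𝓞 K))⁰ → ℂ} (hg : Summable fun I => ‖g I‖)
    (hmul : ∀ I J, g (I * J) = g I * g J) (S : Finset (HeightOneSpectrum (𝓞 K))) :
    (∏ v ∈ S, (1 - g (pr v))) * ∑' I, g I = ∑' I, hh g S I := by
  classical
  induction S using Finset.induction_on with
  | empty =>
    rw [Finset.prod_empty, one_mul]
    refine tsum_congr fun I => ?_
    simp [hh]
  | insert v S hv ih =>
    rw [Finset.prod_insert hv, mul_assoc, ih, sub_mul, one_mul, ← tsum_mul_left]
    have hinj : Function.Injective (fun I : (Ideal (𝓞 K))⁰ => pr v * I) := by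
      intro I J hIJ
      apply Subtype.ext
      have h1 := congrArg Subtype.val hIJ
      simp only [Submonoid.coe_mul] at h1
      exact mul_left_cancel₀ v.prime.ne_zero h1
    have h1 : ∀ I, g (pr v) * hh g S I =
        (fun J => if pr v ∣ J then hh g S J else 0) (pr v * I) := by
      intro I
      have h2 : (∀ w ∈ S, ¬ pr w ∣ pr v * I) ↔ ∀ w ∈ S, ¬ pr w ∣ I := by
        refine forall₂_congr fun w hw => ?_
        rw [pr_dvd_mul, not_or]
        constructor
        · exact fun h => h.2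
        · intro h
          refine ⟨fun h' => ?_, h⟩
          rw [← pr_dvd_pr h'] at hv
          exact hv hw
      simp only [dvd_mul_right, if_true]
      unfold hh
      by_cases h : ∀ w ∈ S, ¬ pr w ∣ I
      · rw [if_pos h, if_pos (h2.2 h), hmul]
      · rw [if_neg h, if_neg (fun h' => h (h2.1 h')), mul_zero]
    have hsupp : Function.support (fun J => if pr v ∣ J then hh g S J else 0) ⊆
        Set.range (fun I : (Ideal (𝓞 K))⁰ => pr v * I) := by
      intro J hJ
      rw [Function.mem_support] at hJ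
      by_cases hd : pr v ∣ J
      · obtain ⟨I, hI⟩ := hd
        exact ⟨I, hI.symm⟩
      · rw [if_neg hd] at hJ
        exact absurd rfl hJ
    rw [tsum_congr h1, hinj.tsum_eq hsupp, ← (summable_hh hg S).tsum_sub]
    · refine tsum_congr fun J => ?_
      unfold hh
      by_cases hd : pr v ∣ J
      · rw [if_pos hd, sub_self, if_neg]
        intro h
        exact h v (Finset.mem_insert_self _ _) hd
      · rw [if_neg hd, sub_zero]
        have : (∀ w ∈ S, ¬ pr w ∣ J) ↔ ∀ w ∈ insert v S, ¬ pr w ∣ J := by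
          rw [Finset.forall_mem_insert]
          exact ⟨fun h => ⟨hd, h⟩, fun h => h.2⟩
        simp only [this]
    · refine Summable.of_norm (Summable.of_nonneg_of_le (fun _ => norm_nonneg _) (fun J => ?_) hg)
      split_ifs
      · exact norm_hh_le g S J
      · rw [norm_zero]
        exact norm_nonneg _

theorem sieve_lim {g : (Ideal (𝓞 K))⁰ → ℂ} (hg : Summable fun I => ‖g I‖) (h1 : g 1 = 1) :
    Tendsto (fun S : Finset (HeightOneSpectrum (𝓞 K)) => ∑' I, hh g S I) atTop (𝓝 1) := by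
  classical
  have h2 : ∑' I : (Ideal (𝓞 K))⁰, (if I = 1 then (1 : ℂ) else 0) = 1 := by
    rw [tsum_ite_eq]
  rw [← h2]
  refine tendsto_tsum_of_dominated_convergence hg (fun I => ?_)
    (Eventually.of_forall fun S I => norm_hh_le g S I)
  by_cases hI : I = 1
  · subst hI
    rw [if_pos rfl]
    have : ∀ S : Finset (HeightOneSpectrum (𝓞 K)), hh g S 1 = 1 := by
      intro S
      unfold hh
      rw [if_pos (fun v _ => pr_not_dvd_one v), h1]
    simp only [this]
    exact tendsto_const_nhds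
  · rw [if_neg hI]
    obtain ⟨v, hv⟩ := exists_pr hI
    refine tendsto_const_nhds.congr' ?_
    filter_upwards [eventually_ge_atTop ({v} : Finset (HeightOneSpectrum (𝓞 K)))] with S hS
    unfold hh
    rw [if_neg]
    intro h
    exact h v (hS (Finset.mem_singleton_self v)) hv

theorem euler {g : (Ideal (𝓞 K))⁰ → ℂ} (hg : Summable fun I => ‖g I‖) (h1 : g 1 = 1)
    (hmul : ∀ I J, g (I * J) = g I * g J) (hlt : ∀ v, ‖g (pr v)‖ < 1) :
    ∑' I, g I = Complex.exp (∑' v, -Complex.log (1 - g (pr v))) := by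
  have hs : Summable fun v => Complex.log (1 - g (pr v)) := by
    have h2 : Summable fun v => - g (pr v) :=
      (Summable.of_norm (hg.comp_injective pr_inj)).neg
    simpa [sub_eq_add_neg] using Complex.summable_log_one_add_of_summable h2
  have hprod : ∀ S : Finset (HeightOneSpectrum (𝓞 K)), ∏ v ∈ S, (1 - g (pr v)) =
      Complex.exp (∑ v ∈ S, Complex.log (1 - g (pr v))) := by
    intro S
    rw [Complex.exp_sum]
    refine Finset.prod_congr rfl fun v _ => ?_
    rw [Complex.exp_log]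
    intro h0
    have h3 : g (pr v) = 1 := (sub_eq_zero.1 h0).symm
    have h4 := hlt v
    rw [h3, norm_one] at h4
    exact lt_irrefl _ h4
  have h2 : Tendsto (fun S : Finset (HeightOneSpectrum (𝓞 K)) => (∏ v ∈ S, (1 - g (pr v))) *
      ∑' I, g I) atTop (𝓝 (Complex.exp (∑' v, Complex.log (1 - g (pr v))) * ∑' I, g I)) := by
    simp only [hprod]
    exact ((Complex.continuous_exp.tendsto _).comp hs.hasSum).mul_const _
  simp only [sieve hg hmul] at h2
  have h3 := tendsto_nhds_unique h2 (sieve_lim hg h1)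
  rw [tsum_neg, Complex.exp_neg]
  exact eq_inv_of_mul_eq_one_right h3

end sieve

end D6a

theorem zetaSum : S_ZetaSum := by
  intro K _ _
  have key : ∀ s : ℂ, 1 < s.re → dedekindZeta K s = Complex.exp (∑' v : HeightOneSpectrum (𝓞 K),
      -Complex.log (1 - (D6a.nm (D6a.pr v) : ℂ) ^ (-s))) := by
    intro s hs
    rw [D6a.zeta_eq hs]
    refine D6a.euler (g := fun I => (D6a.nm I : ℂ) ^ (-s)) ?_ ?_ ?_ ?_
    · simp only [D6a.norm_nm]
      exact D6a.summable_nm hs
    · simp only [D6a.nm_one, Nat.cast_one, Complex.one_cpow]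
    · intro I J
      simp only [D6a.nm_mul, Nat.cast_mul]
      exact Complex.natCast_mul_natCast_cpow _ _ _
    · intro v
      rw [D6a.norm_nm]
      apply Real.rpow_lt_one_of_one_lt_of_neg
      · have h1 := D6a.nm_pos (D6a.pr v)
        have h2 : D6a.nm (D6a.pr v) ≠ 1 := by
          intro h
          have h3 : Ideal.absNorm v.asIdeal = 1 := h
          exact v.isPrime.ne_top (Ideal.absNorm_eq_one_iff.1 h3)
        have h3 : 1 < D6a.nm (D6a.pr v) := by omega
        exact_mod_cast h3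
      · linarith
  have e1 : ∀ I : (Ideal (𝓞 K))⁰, D6a.nm I = Ideal.absNorm (I : Ideal (𝓞 K)) := fun I => rfl
  have e2 : ∀ v : HeightOneSpectrum (𝓞 K), D6a.nm (D6a.pr v) = Ideal.absNorm v.asIdeal :=
    fun v => rfl
  refine ⟨fun σ hσ => ?_, fun σ hσ => ?_, fun s hs => ⟨?_, ?_⟩⟩
  · have h := D6a.summable_nm (K := K) hσ
    simp only [e1] at h
    exact h
  · have h := (D6a.summable_nm (K := K) hσ).comp_injective D6a.pr_inj
    simp only [Function.comp_def, e2] at h
    exact h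
  · have h := D6a.zeta_eq (K := K) hs
    simp only [e1] at h
    exact h
  · have h := key s hs
    simp only [e2] at h
    exact h

end MP7ed9c3.Tw
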