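import Mathlib
import Pool.Agent.Lib.MP_7ed9c3_nt.Tw.SpecD

/-!
# MP_7ed9c3_nt, Tw: D6b, analytic continuation of the Dedekind zeta function

From the smooth count of ideals (D5b) and the representation of the zeta function as a sum over the
ideals (D6a), by Mellin transforms: `mellin` of the smooth count minus its main term.
-/

set_option autoImplicit false

namespace MP7ed9c3.Tw

namespace D6b

open MeasureTheory Set Filter Topology

variable {ι : Type*} {N : ι → ℝ}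

lemma finite_le (h1 : ∀ i, 1 ≤ N i) (hs : Summable fun i => N i ^ (-(2 : ℝ))) (M : ℝ) :
    {i | N i ≤ M}.Finite := by
  have ht := hs.tendsto_cofinite_zero
  have hM : (0 : ℝ) < (max M 1) ^ (-(2 : ℝ)) := Real.rpow_pos_of_pos (by positivity) _
  have hev := ht.eventually (gt_mem_nhds hM)
  rw [Filter.eventually_cofinite] at hev
  refine hev.subset fun i hi => ?_
  simp only [mem_ofPred_eq, not_lt] at hi ⊢
  exact Real.rpow_le_rpow_of_nonpos (lt_of_lt_of_le one_pos (h1 i)) (hi.trans (le_max_left _ _))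
    (by norm_num)

/-- the smooth count -/
noncomputable def H (N : ι → ℝ) (g : ℝ → ℝ) (T : ℝ) : ℝ := ∑' i, g (Real.log (N i) - T)

lemma H_continuous (h1 : ∀ i, 1 ≤ N i) (hs : Summable fun i => N i ^ (-(2 : ℝ)))
    {g : ℝ → ℝ} (hg : Continuous g) {δ : ℝ} (hδ : ∀ y, δ ≤ |y| → g y = 0) :
    Continuous (H N g) := by
  rw [continuous_iff_continuousAt]
  intro T0
  set F := (finite_le h1 hs (Real.exp (T0 + 1 + δ))).toFinset with hF
  have hev : H N g =ᶠ[𝓝 T0] fun T => ∑ i ∈ F, g (Real.log (N i) - T) := by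
    filter_upwards [Iio_mem_nhds (show T0 < T0 + 1 by linarith)] with T hT
    rw [H]
    refine tsum_eq_sum fun i hi => hδ _ ?_
    rw [hF, Finite.mem_toFinset, mem_ofPred_eq, not_le] at hi
    have h2 : T0 + 1 + δ < Real.log (N i) := by
      rw [Real.lt_log_iff_exp_lt (lt_of_lt_of_le one_pos (h1 i))]
      exact hi
    have hT' : T < T0 + 1 := hT
    refine le_trans ?_ (le_abs_self _)
    linarith
  refine ContinuousAt.congr ?_ hev.symm
  refine Continuous.continuousAt ?_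
  refine continuous_finsetSum _ fun i _ => hg.comp (by fun_prop)

lemma H_zero (h1 : ∀ i, 1 ≤ N i) {g : ℝ → ℝ} {δ : ℝ} (hδ : ∀ y, δ ≤ |y| → g y = 0)
    {T : ℝ} (hT : T ≤ -δ) : H N g T = 0 := by
  have : (fun i => g (Real.log (N i) - T)) = fun _ => (0 : ℝ) := by
    funext i
    refine hδ _ ?_
    have h2 : 0 ≤ Real.log (N i) := Real.log_nonneg (h1 i)
    refine le_trans ?_ (le_abs_self _)
    linarith
  rw [H, this, tsum_zero]

/-- the bump function in multiplicative form -/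
noncomputable def G (g : ℝ → ℝ) (X : ℝ) : ℂ := (g (Real.log X) : ℂ)

lemma G_cont {g : ℝ → ℝ} (hg : Continuous g) : ContinuousOn (G g) (Ioi 0) := by
  unfold G
  refine Complex.continuous_ofReal.comp_continuousOn (hg.comp_continuousOn ?_)
  exact Real.continuousOn_log.mono fun x hx => ne_of_gt hx

lemma G_top {g : ℝ → ℝ} {δ : ℝ} (hδ : ∀ y, δ ≤ |y| → g y = 0) :
    ∀ᶠ X : ℝ in atTop, G g X = 0 := by
  filter_upwards [eventually_ge_atTop (Real.exp δ)] with X hX
  rw [G, hδ, Complex.ofReal_zero]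
  refine le_trans ?_ (le_abs_self _)
  rw [Real.le_log_iff_exp_le (lt_of_lt_of_le (Real.exp_pos _) hX)]
  exact hX

lemma G_bot {g : ℝ → ℝ} {δ : ℝ} (hδ : ∀ y, δ ≤ |y| → g y = 0) :
    ∀ᶠ X : ℝ in 𝓝[>] 0, G g X = 0 := by
  have h1 : Iio (Real.exp (-δ)) ∈ 𝓝[>] (0 : ℝ) :=
    mem_nhdsWithin_of_mem_nhds (Iio_mem_nhds (Real.exp_pos _))
  filter_upwards [h1, self_mem_nhdsWithin] with X hX hX0
  rw [G, hδ, Complex.ofReal_zero]
  refine le_trans ?_ (neg_le_abs _)
  have : Real.log X < -δ := by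
    rw [Real.log_lt_iff_lt_exp hX0]
    exact hX
  linarith

lemma G_bigO_top {g : ℝ → ℝ} {δ : ℝ} (hδ : ∀ y, δ ≤ |y| → g y = 0) (a : ℝ) :
    G g =O[atTop] (fun X : ℝ => X ^ (-a)) := by
  refine Asymptotics.IsBigO.of_bound 1 ?_
  filter_upwards [G_top hδ] with X hX
  rw [hX]; simp

lemma G_bigO_bot {g : ℝ → ℝ} {δ : ℝ} (hδ : ∀ y, δ ≤ |y| → g y = 0) (b : ℝ) :
    G g =O[𝓝[>] 0] (fun X : ℝ => X ^ (-b)) := by
  refine Asymptotics.IsBigO.of_bound 1 ?_
  filter_upwards [G_bot hδ] with X hX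
  rw [hX]; simp

lemma G_conv {g : ℝ → ℝ} (hg : Continuous g) {δ : ℝ} (hδ : ∀ y, δ ≤ |y| → g y = 0) (s : ℂ) :
    MellinConvergent (G g) s :=
  mellinConvergent_of_isBigO_rpow ((G_cont hg).locallyIntegrableOn measurableSet_Ioi)
    (G_bigO_top hδ (s.re + 1)) (by linarith) (G_bigO_bot hδ (s.re - 1)) (by linarith)

lemma G_diff {g : ℝ → ℝ} (hg : Continuous g) {δ : ℝ} (hδ : ∀ y, δ ≤ |y| → g y = 0) (s : ℂ) :
    DifferentiableAt ℂ (mellin (G g)) s :=
  mellin_differentiableAt_of_isBigO_rpow ((G_cont hg).locallyIntegrableOn measurableSet_Ioi)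
    (G_bigO_top hδ (s.re + 1)) (by linarith) (G_bigO_bot hδ (s.re - 1)) (by linarith)

/-- the term of the ideal of norm `n` -/
noncomputable def f (g : ℝ → ℝ) (n X : ℝ) : ℂ := G g (n * X⁻¹)

lemma f_conv {g : ℝ → ℝ} (hg : Continuous g) {δ : ℝ} (hδ : ∀ y, δ ≤ |y| → g y = 0) {n : ℝ}
    (hn : 1 ≤ n) (s : ℂ) : MellinConvergent (f g n) s := by
  have h0 : MellinConvergent (fun t => G g (n * t)) (-s) :=
    (MellinConvergent.comp_mul_left (lt_of_lt_of_le one_pos hn)).2 (G_conv hg hδ (-s))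
  have h2 : MellinConvergent (fun t => (fun t => G g (n * t)) (t ^ (-1 : ℝ))) s := by
    rw [MellinConvergent.comp_rpow (f := fun t => G g (n * t)) (by norm_num)]
    convert h0 using 1
    push_cast
    ring
  have h3 : f g n = fun t => (fun t => G g (n * t)) (t ^ (-1 : ℝ)) := by
    funext t
    simp only [f, Real.rpow_neg_one]
  rw [h3]
  exact h2

lemma f_mellin {g : ℝ → ℝ} {n : ℝ} (hn : 1 ≤ n) (s : ℂ) :
    mellin (f g n) (-s) = (n : ℂ) ^ (-s) * mellin (G g) s := by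
  have h0 := mellin_comp_inv (fun t => G g (n * t)) (-s)
  rw [neg_neg, mellin_comp_mul_left _ _ (lt_of_lt_of_le one_pos hn), smul_eq_mul] at h0
  exact h0

lemma f_norm {g : ℝ → ℝ} (hg0 : ∀ y, 0 ≤ g y) {n : ℝ} (hn : 1 ≤ n) (s : ℂ) :
    ∫ t in Ioi (0 : ℝ), ‖(t : ℂ) ^ (-s - 1) • f g n t‖ =
      n ^ (-s.re) * (mellin (G g) (s.re : ℂ)).re := by
  have h0 := f_mellin (g := g) hn (s.re : ℂ)
  have h1 : mellin (f g n) (-(s.re : ℂ)) =
      ((∫ t in Ioi (0 : ℝ), ‖(t : ℂ) ^ (-s - 1) • f g n t‖ : ℝ) : ℂ) := by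
    rw [mellin, ← integral_complex_ofReal]
    refine setIntegral_congr_fun measurableSet_Ioi fun t ht => ?_
    have ht0 : (0 : ℝ) < t := ht
    simp only [norm_smul, f, G]
    rw [Complex.norm_cpow_eq_rpow_re_of_pos ht0, Complex.norm_real, Real.norm_of_nonneg (hg0 _),
      smul_eq_mul]
    push_cast
    rw [Complex.ofReal_cpow ht0.le]
    congr 2
    simp
  have h2 := congrArg Complex.re (h1.symm.trans h0)
  rw [Complex.ofReal_re] at h2
  rw [h2, ← Complex.ofReal_neg, ← Complex.ofReal_cpow (by linarith), Complex.re_ofReal_mul]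

lemma f_tsum {g : ℝ → ℝ} (h1 : ∀ i, 1 ≤ N i) {X : ℝ} (hX : 0 < X) :
    ∑' i, f g (N i) X = (H N g (Real.log X) : ℂ) := by
  rw [H, Complex.ofReal_tsum]
  refine tsum_congr fun i => ?_
  rw [f, G, Real.log_mul (ne_of_gt (lt_of_lt_of_le one_pos (h1 i))) (inv_ne_zero hX.ne'),
    Real.log_inv]
  rfl

lemma sum_mellin (h1 : ∀ i, 1 ≤ N i) (hs : ∀ σ : ℝ, 1 < σ → Summable fun i => N i ^ (-σ))
    {g : ℝ → ℝ} (hg : Continuous g) (hg0 : ∀ y, 0 ≤ g y) {δ : ℝ} (hδ : ∀ y, δ ≤ |y| → g y = 0)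
    {s : ℂ} (hs1 : 1 < s.re) :
    (∑' i, (N i : ℂ) ^ (-s)) * mellin (G g) s =
      mellin (fun X => (H N g (Real.log X) : ℂ)) (-s) := by
  have hcount : Countable ι := by
    have h2 := (hs 2 (by norm_num)).countable_support
    have h3 : Function.support (fun i => N i ^ (-(2 : ℝ))) = univ := by
      ext i
      simp only [Function.mem_support, mem_univ, iff_true]
      exact (Real.rpow_pos_of_pos (lt_of_lt_of_le one_pos (h1 i)) _).ne'
    rw [h3] at h2
    exact countable_univ_iff.1 h2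
  have hsum : Summable fun i => ∫ t in Ioi (0 : ℝ), ‖(t : ℂ) ^ (-s - 1) • f g (N i) t‖ := by
    simp_rw [f_norm hg0 (h1 _) s]
    exact (hs _ hs1).mul_right _
  have h2 := hasSum_integral_of_summable_integral_norm
    (F := fun i (t : ℝ) => (t : ℂ) ^ (-s - 1) • f g (N i) t)
    (fun i => f_conv hg hδ (h1 i) (-s)) hsum
  have h3 : ∀ i, (∫ t in Ioi (0 : ℝ), (t : ℂ) ^ (-s - 1) • f g (N i) t) =
      (N i : ℂ) ^ (-s) * mellin (G g) s := fun i => f_mellin (h1 i) s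
  simp_rw [h3] at h2
  rw [← tsum_mul_right, h2.tsum_eq, mellin]
  refine setIntegral_congr_fun measurableSet_Ioi fun t ht => ?_
  rw [← f_tsum h1 ht]
  exact tsum_const_smul'' _

/-- the remainder -/
noncomputable def Fr (N : ι → ℝ) (g : ℝ → ℝ) (c X : ℝ) : ℂ :=
  (H N g (Real.log X) : ℂ) - (Ioi (1 : ℝ)).indicator (fun X : ℝ => (c : ℂ) * X) X

lemma Fr_loc (h1 : ∀ i, 1 ≤ N i) (hs : Summable fun i => N i ^ (-(2 : ℝ)))
    {g : ℝ → ℝ} (hg : Continuous g) {δ : ℝ} (hδ : ∀ y, δ ≤ |y| → g y = 0) (c : ℝ) :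
    LocallyIntegrableOn (Fr N g c) (Ioi 0) := by
  have hA : LocallyIntegrableOn (fun X : ℝ => (H N g (Real.log X) : ℂ)) (Ioi 0) := by
    refine ContinuousOn.locallyIntegrableOn ?_ measurableSet_Ioi
    refine Complex.continuous_ofReal.comp_continuousOn
      ((H_continuous h1 hs hg hδ).comp_continuousOn ?_)
    exact Real.continuousOn_log.mono fun x hx => ne_of_gt hx
  have hB : LocallyIntegrable ((Ioi (1 : ℝ)).indicator (fun X : ℝ => (c : ℂ) * X)) := by
    refine LocallyIntegrable.indicator ?_ measurableSet_Ioi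
    refine Continuous.locallyIntegrable ?_
    fun_prop
  exact hA.sub (hB.locallyIntegrableOn _)

lemma Fr_top {g : ℝ → ℝ} {c C : ℝ} {A : ℕ}
    (hC : ∀ T : ℝ, 0 ≤ T → |H N g T - c * Real.exp T| ≤ C * Real.exp (-A * T)) :
    Fr N g c =O[atTop] (fun X : ℝ => X ^ (-(A : ℝ))) := by
  refine Asymptotics.IsBigO.of_bound C ?_
  filter_upwards [eventually_gt_atTop 1] with X hX
  have hX0 : 0 < X := lt_trans one_pos hX
  have h1 := hC (Real.log X) (Real.log_nonneg hX.le)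
  rw [Real.exp_log hX0] at h1
  rw [Fr, indicator_of_mem (show X ∈ Ioi (1 : ℝ) from hX), ← Complex.ofReal_mul,
    ← Complex.ofReal_sub, Complex.norm_real, Real.norm_eq_abs,
    Real.norm_of_nonneg (Real.rpow_nonneg hX0.le _)]
  refine h1.trans (le_of_eq ?_)
  rw [Real.rpow_def_of_pos hX0, mul_comm (Real.log X)]

lemma Fr_bot (h1 : ∀ i, 1 ≤ N i) {g : ℝ → ℝ} {δ : ℝ} (hδ0 : 0 < δ)
    (hδ : ∀ y, δ ≤ |y| → g y = 0) (c b : ℝ) :
    Fr N g c =O[𝓝[>] 0] (fun X : ℝ => X ^ (-b)) := by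
  refine Asymptotics.IsBigO.of_bound 1 ?_
  have h2 : Iio (Real.exp (-δ)) ∈ 𝓝[>] (0 : ℝ) :=
    mem_nhdsWithin_of_mem_nhds (Iio_mem_nhds (Real.exp_pos _))
  filter_upwards [h2, self_mem_nhdsWithin] with X hX hX0
  have h3 : Real.log X < -δ := by
    rw [Real.log_lt_iff_lt_exp hX0]
    exact hX
  have h4 : X ∉ Ioi (1 : ℝ) := by
    intro h
    have h5 : 0 < Real.log X := Real.log_pos h
    linarith
  rw [Fr, indicator_of_notMem h4, H_zero h1 hδ h3.le]
  simp

lemma Fr_conv (h1 : ∀ i, 1 ≤ N i) (hs : Summable fun i => N i ^ (-(2 : ℝ)))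
    {g : ℝ → ℝ} (hg : Continuous g) {δ : ℝ} (hδ0 : 0 < δ) (hδ : ∀ y, δ ≤ |y| → g y = 0)
    {c C : ℝ} {A : ℕ} (hC : ∀ T : ℝ, 0 ≤ T → |H N g T - c * Real.exp T| ≤ C * Real.exp (-A * T))
    {s : ℂ} (hA : -(A : ℝ) < s.re) : MellinConvergent (Fr N g c) (-s) :=
  mellinConvergent_of_isBigO_rpow (Fr_loc h1 hs hg hδ c) (Fr_top hC)
    (by rw [Complex.neg_re]; linarith) (Fr_bot h1 hδ0 hδ c ((-s).re - 1)) (by linarith)

lemma Fr_diff (h1 : ∀ i, 1 ≤ N i) (hs : Summable fun i => N i ^ (-(2 : ℝ)))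
    {g : ℝ → ℝ} (hg : Continuous g) {δ : ℝ} (hδ0 : 0 < δ) (hδ : ∀ y, δ ≤ |y| → g y = 0)
    {c C : ℝ} {A : ℕ} (hC : ∀ T : ℝ, 0 ≤ T → |H N g T - c * Real.exp T| ≤ C * Real.exp (-A * T))
    {s : ℂ} (hA : -(A : ℝ) < s.re) : DifferentiableAt ℂ (mellin (Fr N g c)) (-s) :=
  mellin_differentiableAt_of_isBigO_rpow (Fr_loc h1 hs hg hδ c) (Fr_top hC)
    (by rw [Complex.neg_re]; linarith) (Fr_bot h1 hδ0 hδ c ((-s).re - 1)) (by linarith)

lemma pole (c : ℝ) {s : ℂ} (hs1 : 1 < s.re) :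
    HasMellin ((Ioi (1 : ℝ)).indicator (fun X : ℝ => (c : ℂ) * X)) (-s) (c / (s - 1)) := by
  have aux1 : -s = (-s - 1) + 1 := by ring
  have hs0 : s - 1 ≠ 0 := by
    intro h
    have : s.re - 1 = 0 := by simpa using congrArg Complex.re h
    linarith
  have hEq : (fun t : ℝ => (t : ℂ) ^ (-s - 1) •
      (Ioi (1 : ℝ)).indicator (fun X : ℝ => (c : ℂ) * X) t) =
      (Ioi (1 : ℝ)).indicator (fun t : ℝ => (c : ℂ) * (t : ℂ) ^ (-s)) := by
    funext t
    by_cases ht : t ∈ Ioi (1 : ℝ)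
    · rw [indicator_of_mem ht, indicator_of_mem ht, smul_eq_mul]
      have ht0 : (t : ℂ) ≠ 0 := by
        have : (0 : ℝ) < t := lt_trans one_pos ht
        exact_mod_cast this.ne'
      have h2 : (t : ℂ) ^ (-s) = (t : ℂ) ^ (-s - 1) * t := by
        conv_lhs => rw [aux1]
        rw [Complex.cpow_add _ _ ht0, Complex.cpow_one]
      rw [h2]
      ring
    · rw [indicator_of_notMem ht, indicator_of_notMem ht, smul_zero]
  have hlt : (-s).re < -1 := by rw [Complex.neg_re]; linarith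
  have hsub : Ioi (0 : ℝ) ∩ Ioi (1 : ℝ) = Ioi 1 := by
    ext x
    simp only [mem_inter_iff, mem_Ioi]
    exact ⟨fun h => h.2, fun h => ⟨lt_trans one_pos h, h⟩⟩
  constructor
  · rw [MellinConvergent, hEq, IntegrableOn, integrable_indicator_iff measurableSet_Ioi,
      IntegrableOn, Measure.restrict_restrict measurableSet_Ioi, inter_comm, hsub]
    exact (integrableOn_Ioi_cpow_of_lt hlt one_pos).const_mul _
  · rw [mellin, hEq, setIntegral_indicator measurableSet_Ioi, hsub, integral_const_mul,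
      integral_Ioi_cpow_of_lt hlt one_pos, Complex.ofReal_one, Complex.one_cpow]
    have : -s + 1 ≠ 0 := by
      intro h
      apply hs0
      linear_combination -h
    field_simp
    ring

lemma key (h1 : ∀ i, 1 ≤ N i) (hs : ∀ σ : ℝ, 1 < σ → Summable fun i => N i ^ (-σ))
    {g : ℝ → ℝ} (hg : Continuous g) (hg0 : ∀ y, 0 ≤ g y) {δ : ℝ} (hδ0 : 0 < δ)
    (hδ : ∀ y, δ ≤ |y| → g y = 0)
    {c C : ℝ} {A : ℕ} (hC : ∀ T : ℝ, 0 ≤ T → |H N g T - c * Real.exp T| ≤ C * Real.exp (-A * T))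
    {s : ℂ} (hs1 : 1 < s.re) :
    (∑' i, (N i : ℂ) ^ (-s)) * mellin (G g) s = mellin (Fr N g c) (-s) + c / (s - 1) := by
  rw [sum_mellin h1 hs hg hg0 hδ hs1]
  have hA : -(A : ℝ) < s.re := by
    have : (0 : ℝ) ≤ A := Nat.cast_nonneg A
    linarith
  have h2 := hasMellin_add (Fr_conv h1 (hs 2 (by norm_num)) hg hδ0 hδ hC hA) (pole c hs1).1
  rw [(pole c hs1).2] at h2
  rw [← h2.2]
  congr 1
  funext X
  rw [Fr, sub_add_cancel]

lemma G_re_pos {g : ℝ → ℝ} (hg : Continuous g) {δ : ℝ} (hδ0 : 0 < δ)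
    (hδ : ∀ y, δ ≤ |y| → g y = 0) (hgp : ∀ y, |y| < δ → 0 < g y) {s : ℂ}
    (hs : |s.im| * δ ≤ 1) : 0 < (mellin (G g) s).re := by
  have hint : IntegrableOn (fun t : ℝ => (t : ℂ) ^ (s - 1) • G g t) (Ioi 0) := G_conv hg hδ s
  have hre : ∀ t ∈ Ioi (0 : ℝ), ((t : ℂ) ^ (s - 1) • G g t).re =
      t ^ (s.re - 1) * Real.cos (s.im * Real.log t) * g (Real.log t) := by
    intro t ht
    have ht0 : (0 : ℝ) < t := ht
    have ht1 : (t : ℂ) ≠ 0 := by exact_mod_cast ht0.ne'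
    rw [smul_eq_mul, G, Complex.re_mul_ofReal]
    congr 1
    rw [Complex.cpow_def_of_ne_zero ht1, ← Complex.ofReal_log ht0.le, Complex.exp_re,
      Real.rpow_def_of_pos ht0]
    simp [mul_comm]
  have hnn : ∀ t ∈ Ioi (0 : ℝ), |Real.log t| < δ →
      0 < t ^ (s.re - 1) * Real.cos (s.im * Real.log t) * g (Real.log t) := by
    intro t ht hl
    have ht0 : (0 : ℝ) < t := ht
    have hab : |s.im * Real.log t| ≤ 1 := by
      rw [abs_mul]
      exact le_trans (mul_le_mul_of_nonneg_left hl.le (abs_nonneg _)) hs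
    have hcos : 0 < Real.cos (s.im * Real.log t) := by
      refine Real.cos_pos_of_mem_Ioo ⟨?_, ?_⟩
      · have := (abs_le.1 hab).1
        have := Real.pi_gt_three
        linarith
      · have := (abs_le.1 hab).2
        have := Real.pi_gt_three
        linarith
    exact mul_pos (mul_pos (Real.rpow_pos_of_pos ht0 _) hcos) (hgp _ hl)
  have hnn' : ∀ t ∈ Ioi (0 : ℝ), 0 ≤ ((t : ℂ) ^ (s - 1) • G g t).re := by
    intro t ht
    rw [hre t ht]
    rcases lt_or_ge |Real.log t| δ with hl | hl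
    · exact (hnn t ht hl).le
    · rw [hδ _ hl, mul_zero]
  have h3 : (mellin (G g) s).re = ∫ t in Ioi (0 : ℝ), ((t : ℂ) ^ (s - 1) • G g t).re := by
    rw [mellin]
    exact (integral_re hint).symm
  rw [h3, setIntegral_pos_iff_support_of_nonneg_ae]
  · refine lt_of_lt_of_le ?_ (measure_mono (show Ioo (1 : ℝ) (Real.exp δ) ⊆ _ from ?_))
    · rw [Real.volume_Ioo, ENNReal.ofReal_pos, sub_pos]
      exact Real.one_lt_exp_iff.2 hδ0
    · intro t ht
      have ht0 : (0 : ℝ) < t := lt_trans one_pos ht.1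
      refine ⟨?_, ht0⟩
      rw [Function.mem_support, hre t ht0]
      refine (hnn t ht0 ?_).ne'
      rw [abs_of_pos (Real.log_pos ht.1), Real.log_lt_iff_lt_exp ht0]
      exact ht.2
  · exact (ae_restrict_iff' measurableSet_Ioi).2 (Eventually.of_forall hnn')
  · exact hint.re

end D6b

open NumberField
open scoped nonZeroDivisors ContDiff

theorem cont (h5 : S_SmoothCount) (h6 : S_ZetaSum) : S_Cont := by
  intro K _ _ A R
  set δ : ℝ := 1 / (|R| + 1) with hδdef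
  have hR : 0 < |R| + 1 := by positivity
  have hδ0 : 0 < δ := by positivity
  let φ : ContDiffBump (0 : ℝ) := ⟨δ / 2, δ, by positivity, by linarith⟩
  have hcd : ContDiff ℝ ∞ φ := φ.contDiff
  have hg : Continuous φ := φ.continuous
  have hg0 : ∀ y, 0 ≤ φ y := fun y => φ.nonneg
  have hδ : ∀ y, δ ≤ |y| → φ y = 0 := by
    intro y hy
    refine φ.zero_of_le_dist ?_
    rw [Real.dist_eq, sub_zero]
    exact hy
  have hgp : ∀ y, |y| < δ → 0 < φ y := by
    intro y hy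
    refine φ.pos_of_mem_ball ?_
    rw [Metric.mem_ball, Real.dist_eq, sub_zero]
    exact hy
  obtain ⟨c, C, hC⟩ := h5 K φ hcd φ.hasCompactSupport (⌈|A|⌉₊)
  obtain ⟨hs, -, hz⟩ := h6 K
  set N : (Ideal (𝓞 K))⁰ → ℝ := fun I => (Ideal.absNorm (I : Ideal (𝓞 K)) : ℝ) with hN
  have h1 : ∀ I, 1 ≤ N I := by
    intro I
    have h2 : (Ideal.absNorm (I : Ideal (𝓞 K))) ≠ 0 := by
      rw [Ne, Ideal.absNorm_eq_zero_iff]
      exact nonZeroDivisors.coe_ne_zero I
    simp only [hN]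
    exact_mod_cast Nat.one_le_iff_ne_zero.2 h2
  have hpos : ∀ s : ℂ, |s.im| < R → mellin (D6b.G φ) s ≠ 0 := by
    intro s hs
    have h3 : 0 < (mellin (D6b.G φ) s).re := by
      refine D6b.G_re_pos hg hδ0 hδ hgp ?_
      rw [hδdef, mul_one_div, div_le_one hR]
      linarith [le_abs_self R]
    intro h
    rw [h] at h3
    simp at h3
  refine ⟨fun s => ((s - 1) * mellin (D6b.Fr N φ c) (-s) + c) / mellin (D6b.G φ) s, ?_, ?_⟩
  · intro s hs'
    have hA : -((⌈|A|⌉₊ : ℕ) : ℝ) < s.re := by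
      have h4 := Nat.le_ceil |A|
      have h5 := le_abs_self A
      have h6 : -A < s.re := hs'.1
      linarith
    have hd1 := D6b.Fr_diff h1 (hs 2 (by norm_num)) hg hδ0 hδ hC hA
    have hd2 : DifferentiableAt ℂ (fun s => mellin (D6b.Fr N φ c) (-s)) s :=
      DifferentiableAt.comp (g := mellin (D6b.Fr N φ c)) (f := fun s : ℂ => -s) s hd1
        (by fun_prop)
    have hd3 := D6b.G_diff hg hδ s
    refine DifferentiableAt.differentiableWithinAt ?_
    refine DifferentiableAt.div ?_ hd3 (hpos s hs'.2)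
    exact ((by fun_prop : DifferentiableAt ℂ (fun s : ℂ => s - 1) s).mul hd2).add_const _
  · intro s hs1 hs2
    have hk := D6b.key h1 hs hg hg0 hδ0 hδ hC hs1
    have hs0 : s - 1 ≠ 0 := by
      intro h
      have : s.re - 1 = 0 := by simpa using congrArg Complex.re h
      linarith
    have hz1 := (hz s hs1).1
    have hz2 : (∑' i, (N i : ℂ) ^ (-s)) = dedekindZeta K s := by
      rw [hz1]
      refine tsum_congr fun I => ?_
      simp [hN]
    rw [hz2] at hk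
    simp only
    rw [div_eq_iff (hpos s hs2), mul_assoc, hk]
    field_simp

end MP7ed9c3.Tw
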