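import Pool.Agent.Lib.MP_7ed9c3_nt.Tw.SpecD

/-!
# Tw D7: sums over the primes of a number field near the line `Re s = 1`
-/

set_option autoImplicit false

namespace MP7ed9c3.Tw

open NumberField IsDedekindDomain Filter Topology

namespace D7

variable {K : Type} [Field K] [NumberField K]

/-- the norm of a prime -/
noncomputable def nm (v : HeightOneSpectrum (𝓞 K)) : ℕ := Ideal.absNorm v.asIdeal

theorem two_le_nat (v : HeightOneSpectrum (𝓞 K)) : 2 ≤ nm v := by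
  have h0 : Ideal.absNorm v.asIdeal ≠ 0 := by
    rw [Ne, Ideal.absNorm_eq_zero_iff]
    exact v.ne_bot
  have h1 : Ideal.absNorm v.asIdeal ≠ 1 := by
    rw [Ne, Ideal.absNorm_eq_one_iff]
    exact v.isPrime.ne_top
  unfold nm
  omega

theorem two_le (v : HeightOneSpectrum (𝓞 K)) : (2 : ℝ) ≤ nm v := by exact_mod_cast two_le_nat v

/-- the terms of the Euler product -/
noncomputable def z (x τ : ℝ) (v : HeightOneSpectrum (𝓞 K)) : ℂ :=
  (nm v : ℂ) ^ (-(1 + x + τ * Complex.I : ℂ))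

theorem norm_z (x τ : ℝ) (p : HeightOneSpectrum (𝓞 K)) : ‖z x τ p‖ = (nm p : ℝ) ^ (-(1 + x)) := by
  unfold z
  rw [Complex.norm_natCast_cpow_of_pos (by have := two_le_nat p; omega)]
  congr 1
  simp

theorem re_z (x τ : ℝ) (p : HeightOneSpectrum (𝓞 K)) :
    (z x τ p).re = (nm p : ℝ) ^ (-(1 + x)) * Real.cos (τ * Real.log (nm p)) := by
  have hp : (0 : ℝ) < nm p := by have := two_le p; linarith
  have hp' : (nm p : ℂ) ≠ 0 := by
    have := two_le_nat p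
    exact_mod_cast (by omega : nm p ≠ 0)
  unfold z
  rw [Complex.cpow_def_of_ne_zero hp', Complex.exp_re, Real.rpow_def_of_pos hp]
  have h : Complex.log (nm p : ℂ) = ((Real.log (nm p) : ℝ) : ℂ) := by
    rw [← Complex.ofReal_natCast, ← Complex.ofReal_log hp.le]
  rw [h]
  have e1 : (((Real.log (nm p) : ℝ) : ℂ) * (-(1 + x + τ * Complex.I))).re =
      Real.log (nm p) * (-(1 + x)) := by
    rw [Complex.re_ofReal_mul]
    simp
  have e2 : (((Real.log (nm p) : ℝ) : ℂ) * (-(1 + x + τ * Complex.I))).im =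
      -(τ * Real.log (nm p)) := by
    rw [Complex.im_ofReal_mul]
    have e3 : (-(1 + x + τ * Complex.I : ℂ)).im = -τ := by simp
    rw [e3]
    ring
  rw [e1, e2, Real.cos_neg]

theorem norm_le (x τ : ℝ) (hx : 0 < x) (p : HeightOneSpectrum (𝓞 K)) :
    ‖z x τ p‖ ≤ (nm p : ℝ) ^ (-1 : ℝ) := by
  rw [norm_z]
  exact Real.rpow_le_rpow_of_exponent_le (by have := two_le p; linarith) (by linarith)

theorem norm_le_half (x τ : ℝ) (hx : 0 < x) (p : HeightOneSpectrum (𝓞 K)) :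
    ‖z x τ p‖ ≤ 1 / 2 := by
  refine (norm_le x τ hx p).trans ?_
  rw [Real.rpow_neg_one, one_div]
  exact inv_anti₀ (by norm_num) (two_le p)

theorem norm_sq_le (x τ : ℝ) (hx : 0 < x) (p : HeightOneSpectrum (𝓞 K)) :
    ‖z x τ p‖ ^ 2 ≤ (nm p : ℝ) ^ (-2 : ℝ) := by
  have hp : (0 : ℝ) < nm p := by have := two_le p; linarith
  calc ‖z x τ p‖ ^ 2 ≤ ((nm p : ℝ) ^ (-1 : ℝ)) ^ 2 :=
        pow_le_pow_left₀ (norm_nonneg _) (norm_le x τ hx p) 2
    _ = (nm p : ℝ) ^ (-2 : ℝ) := by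
      rw [← Real.rpow_natCast, ← Real.rpow_mul hp.le]
      norm_num

theorem log_bound (x τ : ℝ) (hx : 0 < x) (p : HeightOneSpectrum (𝓞 K)) :
    ‖-Complex.log (1 - z x τ p) - z x τ p‖ ≤ (nm p : ℝ) ^ (-2 : ℝ) := by
  have h1 := norm_le_half x τ hx p
  have h2 : ‖-z x τ p‖ < 1 := by
    rw [norm_neg]
    linarith
  have h3 := Complex.norm_log_one_add_sub_self_le h2
  rw [norm_neg] at h3
  have e : -Complex.log (1 - z x τ p) - z x τ p =
      -(Complex.log (1 + -z x τ p) - -z x τ p) := by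
    rw [← sub_eq_add_neg]
    ring
  rw [e, norm_neg]
  refine (h3.trans ?_).trans (norm_sq_le x τ hx p)
  have h4 : (1 - ‖z x τ p‖)⁻¹ ≤ 2 := by
    rw [inv_le_comm₀ (by linarith) (by norm_num)]
    linarith
  have h5 : 0 ≤ ‖z x τ p‖ ^ 2 := by positivity
  nlinarith

theorem summable_sq (h6 : S_ZetaSum) :
    Summable fun p : HeightOneSpectrum (𝓞 K) => (nm p : ℝ) ^ (-2 : ℝ) :=
  (h6 K).2.1 2 (by norm_num)

theorem summable_z (h6 : S_ZetaSum) (x τ : ℝ) (hx : 0 < x) :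
    Summable (z (K := K) x τ) := by
  apply Summable.of_norm
  have h : (fun p : HeightOneSpectrum (𝓞 K) => ‖z x τ p‖) =
      fun p : HeightOneSpectrum (𝓞 K) => (nm p : ℝ) ^ (-(1 + x)) :=
    funext fun p => norm_z x τ p
  rw [h]
  exact (h6 K).2.1 (1 + x) (by linarith)

theorem re_gt (x τ : ℝ) (hx : 0 < x) : 1 < (1 + x + τ * Complex.I : ℂ).re := by simp [hx]

theorem approx (h6 : S_ZetaSum) (x τ : ℝ) (hx : 0 < x) :
    |primeSum K x τ - Real.log ‖dedekindZeta K (1 + x + τ * Complex.I)‖| ≤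
      ∑' p : HeightOneSpectrum (𝓞 K), (nm p : ℝ) ^ (-2 : ℝ) := by
  have hs := summable_z (K := K) h6 x τ hx
  have hl : Summable fun p : HeightOneSpectrum (𝓞 K) => -Complex.log (1 - z x τ p) :=
    hs.clog_one_sub.neg
  have hz := ((h6 K).2.2 _ (re_gt x τ hx)).2
  have h1 : Real.log ‖dedekindZeta K (1 + x + τ * Complex.I)‖ =
      (∑' p : HeightOneSpectrum (𝓞 K), -Complex.log (1 - z x τ p)).re := by
    rw [hz, Complex.norm_exp, Real.log_exp]
    rfl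
  have h2 : primeSum K x τ = (∑' p : HeightOneSpectrum (𝓞 K), z x τ p).re := by
    rw [Complex.re_tsum hs]
    unfold primeSum
    exact tsum_congr fun p => (re_z x τ p).symm
  rw [h1, h2, ← Complex.sub_re, ← Summable.tsum_sub hs hl]
  refine (Complex.abs_re_le_norm _).trans ?_
  refine tsum_of_norm_bounded (summable_sq h6).hasSum fun p => ?_
  rw [norm_sub_rev]
  exact log_bound x τ hx p

theorem zeta_ne_zero (h6 : S_ZetaSum) (s : ℂ) (hs : 1 < s.re) : dedekindZeta K s ≠ 0 := by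
  rw [((h6 K).2.2 s hs).2]
  exact Complex.exp_ne_zero _

theorem isOpen_strip (A R : ℝ) : IsOpen {s : ℂ | -A < s.re ∧ |s.im| < R} :=
  (isOpen_lt continuous_const Complex.continuous_re).inter
    (isOpen_lt (continuous_abs.comp Complex.continuous_im) continuous_const)

/-- the continuation is differentiable at the points `1 + x + iτ` -/
theorem diffAt {Z : ℂ → ℂ} {R : ℝ}
    (hZ : DifferentiableOn ℂ Z {s : ℂ | -1 < s.re ∧ |s.im| < R}) (x τ : ℝ) (hx : 0 ≤ x)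
    (hτ : |τ| < R) : DifferentiableAt ℂ Z (1 + x + τ * Complex.I) := by
  refine hZ.differentiableAt ((isOpen_strip 1 R).mem_nhds ?_)
  constructor
  · simp
    linarith
  · simpa using hτ

theorem contAt {Z : ℂ → ℂ} {R : ℝ}
    (hZ : DifferentiableOn ℂ Z {s : ℂ | -1 < s.re ∧ |s.im| < R}) (x τ : ℝ) (hx : 0 ≤ x)
    (hτ : |τ| < R) : ContinuousAt (fun x : ℝ => Z (1 + x + τ * Complex.I)) x := by
  have h2 : ContinuousAt (fun x : ℝ => (1 + x + τ * Complex.I : ℂ)) x := by fun_prop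
  exact ContinuousAt.comp (f := fun x : ℝ => (1 + x + τ * Complex.I : ℂ))
    (diffAt hZ x τ hx hτ).continuousAt h2

/-- `Z (1 + x + iτ) = (x + iτ) ζ_K(1 + x + iτ)` -/
theorem Z_eq {Z : ℂ → ℂ} {R : ℝ}
    (hZ : ∀ s : ℂ, 1 < s.re → |s.im| < R → Z s = (s - 1) * dedekindZeta K s) (x τ : ℝ)
    (hx : 0 < x) (hτ : |τ| < R) :
    Z (1 + x + τ * Complex.I) =
      (x + τ * Complex.I) * dedekindZeta K (1 + x + τ * Complex.I) := by
  rw [hZ _ (re_gt x τ hx) (by simpa using hτ)]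
  ring

/-- if `Z` does not vanish at `1 + iτ` then `log ‖Z‖` is bounded on the segment -/
theorem log_bdd (h6 : S_ZetaSum) {Z : ℂ → ℂ} {R : ℝ}
    (hd : DifferentiableOn ℂ Z {s : ℂ | -1 < s.re ∧ |s.im| < R})
    (hZ : ∀ s : ℂ, 1 < s.re → |s.im| < R → Z s = (s - 1) * dedekindZeta K s) (τ : ℝ)
    (hτ : |τ| < R) (h0 : Z (1 + τ * Complex.I) ≠ 0) :
    ∃ C : ℝ, ∀ x : ℝ, 0 ≤ x → x ≤ 1 → |Real.log ‖Z (1 + x + τ * Complex.I)‖| ≤ C := by
  have hne : ∀ x : ℝ, 0 ≤ x → Z (1 + x + τ * Complex.I) ≠ 0 := by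
    intro x hx
    rcases hx.eq_or_lt with rfl | hx
    · simpa using h0
    · rw [Z_eq hZ x τ hx hτ]
      refine mul_ne_zero ?_ (zeta_ne_zero h6 _ (re_gt x τ hx))
      intro h
      have := congrArg Complex.re h
      simp at this
      exact hx.ne' this
  have hc : ContinuousOn (fun x : ℝ => Real.log ‖Z (1 + x + τ * Complex.I)‖) (Set.Icc 0 1) := by
    intro x hx
    exact ((contAt hd x τ hx.1 hτ).norm.log (norm_ne_zero_iff.2 (hne x hx.1))).continuousWithinAt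
  obtain ⟨C, hC⟩ := isCompact_Icc.exists_bound_of_continuousOn hc
  exact ⟨C, fun x h0 h1 => hC x ⟨h0, h1⟩⟩

theorem norm_bdd {Z : ℂ → ℂ} {R : ℝ}
    (hd : DifferentiableOn ℂ Z {s : ℂ | -1 < s.re ∧ |s.im| < R}) (τ : ℝ) (hτ : |τ| < R) :
    ∃ C : ℝ, ∀ x : ℝ, 0 ≤ x → x ≤ 1 → ‖Z (1 + x + τ * Complex.I)‖ ≤ C := by
  have hc : ContinuousOn (fun x : ℝ => Z (1 + x + τ * Complex.I)) (Set.Icc 0 1) := fun x hx =>
    (contAt hd x τ hx.1 hτ).continuousWithinAt
  obtain ⟨C, hC⟩ := isCompact_Icc.exists_bound_of_continuousOn hc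
  exact ⟨C, fun x h0 h1 => hC x ⟨h0, h1⟩⟩

theorem abs_le_norm (x τ : ℝ) : |τ| ≤ ‖(x + τ * Complex.I : ℂ)‖ := by
  have := Complex.abs_im_le_norm (x + τ * Complex.I : ℂ)
  simpa using this

/-- the case `τ = 0` -/
theorem zero_case (h6 : S_ZetaSum) (h7 : S_Cont) :
    ∃ C : ℝ, ∀ x : ℝ, 0 < x → x ≤ 1 → |primeSum K x 0 - Real.log (1 / x)| ≤ C := by
  obtain ⟨Z, hd, hZ⟩ := h7 K 1 1
  have h01 : |(0 : ℝ)| < 1 := by simp
  have hc := contAt hd 0 0 le_rfl h01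
  have h1 : Tendsto (fun x : ℝ => Z (1 + x + (0 : ℝ) * Complex.I)) (𝓝[>] 0)
      (𝓝 (Z (1 + (0 : ℝ) + (0 : ℝ) * Complex.I))) := hc.tendsto.mono_left nhdsWithin_le_nhds
  have h2 : Tendsto (fun x : ℝ => Z (1 + x + (0 : ℝ) * Complex.I)) (𝓝[>] 0)
      (𝓝 (dedekindZeta_residue K : ℂ)) := by
    have h3 : Tendsto (fun x : ℝ => 1 + x) (𝓝[>] 0) (𝓝[>] 1) := by
      rw [tendsto_nhdsWithin_iff]
      constructor
      · have h5 : Tendsto (fun x : ℝ => 1 + x) (𝓝 0) (𝓝 (1 + 0)) := by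
          apply Continuous.tendsto
          fun_prop
        rw [add_zero] at h5
        exact h5.mono_left nhdsWithin_le_nhds
      · filter_upwards [self_mem_nhdsWithin] with y hy
        have : (0 : ℝ) < y := hy
        show (1 : ℝ) < 1 + y
        linarith
    have h4 := (tendsto_sub_one_mul_dedekindZeta_nhdsGT K).comp h3
    refine h4.congr' ?_
    filter_upwards [self_mem_nhdsWithin] with y hy
    have hy' : (0 : ℝ) < y := hy
    rw [Z_eq hZ y 0 hy' h01]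
    simp
  have h3 : Z (1 + (0 : ℝ) * Complex.I) ≠ 0 := by
    have h4 := tendsto_nhds_unique h1 h2
    have h5 : Z (1 + (0 : ℝ) * Complex.I) = Z (1 + (0 : ℝ) + (0 : ℝ) * Complex.I) := by simp
    rw [h5, h4]
    have := dedekindZeta_residue_pos K
    exact_mod_cast this.ne'
  obtain ⟨C, hC⟩ := log_bdd h6 hd hZ 0 h01 h3
  refine ⟨(∑' p : HeightOneSpectrum (𝓞 K), (nm p : ℝ) ^ (-2 : ℝ)) + C, fun x hx0 hx1 => ?_⟩
  have h4 := abs_le.1 (approx (K := K) h6 x 0 hx0)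
  have h5 := abs_le.1 (hC x hx0.le hx1)
  have h6' : Real.log ‖Z (1 + x + (0 : ℝ) * Complex.I)‖ =
      Real.log x + Real.log ‖dedekindZeta K (1 + x + (0 : ℝ) * Complex.I)‖ := by
    rw [Z_eq hZ x 0 hx0 h01, norm_mul, Real.log_mul]
    · congr 2
      simp [hx0.le]
    · simp [hx0.ne']
    · exact norm_ne_zero_iff.2 (zeta_ne_zero h6 _ (re_gt x 0 hx0))
  rw [one_div, Real.log_inv, abs_le]
  rw [h6'] at h5
  constructor <;> linarith [h4.1, h4.2, h5.1, h5.2]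

/-- an upper bound for all `τ ≠ 0` -/
theorem upper (h6 : S_ZetaSum) (h7 : S_Cont) (τ : ℝ) (hτ : τ ≠ 0) :
    ∃ C : ℝ, ∀ x : ℝ, 0 < x → x ≤ 1 → primeSum K x τ ≤ C := by
  obtain ⟨Z, hd, hZ⟩ := h7 K 1 (|τ| + 1)
  have hR : |τ| < |τ| + 1 := by linarith
  obtain ⟨C, hC⟩ := norm_bdd hd τ hR
  have hτ' : 0 < |τ| := abs_pos.2 hτ
  refine ⟨(∑' p : HeightOneSpectrum (𝓞 K), (nm p : ℝ) ^ (-2 : ℝ)) + Real.log (C / |τ|),
    fun x hx0 hx1 => ?_⟩
  have h4 := abs_le.1 (approx (K := K) h6 x τ hx0)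
  have h5 := hC x hx0.le hx1
  rw [Z_eq hZ x τ hx0 hR, norm_mul] at h5
  have h8 : 0 < ‖dedekindZeta K (1 + x + τ * Complex.I)‖ :=
    norm_pos_iff.2 (zeta_ne_zero h6 _ (re_gt x τ hx0))
  have h9 : ‖dedekindZeta K (1 + x + τ * Complex.I)‖ ≤ C / |τ| := by
    rw [le_div_iff₀ hτ']
    have := mul_le_mul_of_nonneg_right (abs_le_norm x τ) h8.le
    linarith
  have h10 := Real.log_le_log h8 h9
  linarith [h4.2]

theorem nonneg (h6 : S_ZetaSum) (x u : ℝ) (hx : 0 < x) :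
    0 ≤ 3 * primeSum K x 0 + 4 * primeSum K x u + primeSum K x (2 * u) := by
  have hs : Summable fun v : HeightOneSpectrum (𝓞 K) => (nm v : ℝ) ^ (-(1 + x)) :=
    (h6 K).2.1 (1 + x) (by linarith)
  have hsum : ∀ t : ℝ, Summable fun v : HeightOneSpectrum (𝓞 K) =>
      (nm v : ℝ) ^ (-(1 + x)) * Real.cos (t * Real.log (nm v)) := by
    intro t
    refine Summable.of_norm_bounded hs fun v => ?_
    have h0 : (0 : ℝ) ≤ (nm v : ℝ) ^ (-(1 + x)) := Real.rpow_nonneg (Nat.cast_nonneg _) _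
    rw [norm_mul, Real.norm_of_nonneg h0, Real.norm_eq_abs]
    exact mul_le_of_le_one_right h0 (Real.abs_cos_le_one _)
  have e : ∀ t : ℝ, primeSum K x t = ∑' v : HeightOneSpectrum (𝓞 K),
      (nm v : ℝ) ^ (-(1 + x)) * Real.cos (t * Real.log (nm v)) := fun _ => rfl
  rw [e, e, e, ← tsum_mul_left, ← tsum_mul_left,
    ← ((hsum 0).mul_left 3).tsum_add ((hsum u).mul_left 4),
    ← (((hsum 0).mul_left 3).add ((hsum u).mul_left 4)).tsum_add (hsum (2 * u))]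
  refine tsum_nonneg fun v => ?_
  have h0 : (0 : ℝ) ≤ (nm v : ℝ) ^ (-(1 + x)) := Real.rpow_nonneg (Nat.cast_nonneg _) _
  have h1 : Real.cos (2 * u * Real.log (nm v)) = 2 * Real.cos (u * Real.log (nm v)) ^ 2 - 1 := by
    rw [← Real.cos_two_mul]
    congr 1
    ring
  rw [h1, zero_mul, Real.cos_zero]
  nlinarith [mul_nonneg h0 (sq_nonneg (1 + Real.cos (u * Real.log (nm v))))]

/-- the continuation does not vanish at `1 + iu` -/
theorem ne_zero_line (h6 : S_ZetaSum) (h7 : S_Cont) (u : ℝ) (hu : u ≠ 0) {Z : ℂ → ℂ} {R : ℝ}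
    (hd : DifferentiableOn ℂ Z {s : ℂ | -1 < s.re ∧ |s.im| < R})
    (hZ : ∀ s : ℂ, 1 < s.re → |s.im| < R → Z s = (s - 1) * dedekindZeta K s)
    (hR : |u| < R) : Z (1 + u * Complex.I) ≠ 0 := by
  intro h0
  obtain ⟨C0, hC0⟩ := zero_case (K := K) h6 h7
  obtain ⟨C2, hC2⟩ := upper (K := K) h6 h7 (2 * u) (mul_ne_zero two_ne_zero hu)
  have hu' : 0 < |u| := abs_pos.2 hu
  have e0 : (1 + (0 : ℝ) + u * Complex.I : ℂ) = 1 + u * Complex.I := by simp
  have hdiff : DifferentiableAt ℂ Z (1 + u * Complex.I) := by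
    have := diffAt hd 0 u le_rfl hR
    rwa [e0] at this
  have hO := hdiff.isBigO_sub
  rw [Asymptotics.isBigO_iff] at hO
  obtain ⟨c, hc⟩ := hO
  have ht : Tendsto (fun x : ℝ => (1 + x + u * Complex.I : ℂ)) (𝓝[>] 0)
      (𝓝 (1 + u * Complex.I)) := by
    have h5 : Tendsto (fun x : ℝ => (1 + x + u * Complex.I : ℂ)) (𝓝 0)
        (𝓝 (1 + (0 : ℝ) + u * Complex.I)) := by
      apply Continuous.tendsto
      fun_prop
    rw [e0] at h5
    exact h5.mono_left nhdsWithin_le_nhds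
  have h1 := ht.eventually hc
  have h2 : ∀ᶠ x : ℝ in 𝓝[>] 0, x ≤ 1 := by
    have : ∀ᶠ x : ℝ in 𝓝 0, x < 1 := eventually_lt_nhds one_pos
    exact (this.filter_mono nhdsWithin_le_nhds).mono fun x hx => hx.le
  set S : ℝ := ∑' p : HeightOneSpectrum (𝓞 K), (nm p : ℝ) ^ (-2 : ℝ) with hS
  set D : ℝ := 3 * C0 + 4 * (S + Real.log ((|c| + 1) / |u|)) + C2 with hD
  have h3 : ∀ᶠ x : ℝ in 𝓝[>] 0, Real.log x < -D := by
    exact (Real.tendsto_log_nhdsGT_zero).eventually (eventually_lt_atBot (-D))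
  obtain ⟨x, hx1, hx2, hx3, hx4⟩ :=
    (h1.and (h2.and (h3.and self_mem_nhdsWithin))).exists
  have hx0 : 0 < x := hx4
  have h5 : ‖Z (1 + x + u * Complex.I)‖ ≤ (|c| + 1) * x := by
    rw [h0, sub_zero] at hx1
    have e : (1 + x + u * Complex.I - (1 + u * Complex.I) : ℂ) = x := by ring
    rw [e, Complex.norm_real, Real.norm_of_nonneg hx0.le] at hx1
    refine hx1.trans (mul_le_mul_of_nonneg_right ?_ hx0.le)
    linarith [le_abs_self c]
  rw [Z_eq hZ x u hx0 hR, norm_mul] at h5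
  have h8 : 0 < ‖dedekindZeta K (1 + x + u * Complex.I)‖ :=
    norm_pos_iff.2 (zeta_ne_zero h6 _ (re_gt x u hx0))
  have h9 : ‖dedekindZeta K (1 + x + u * Complex.I)‖ ≤ (|c| + 1) / |u| * x := by
    rw [div_mul_eq_mul_div, le_div_iff₀ hu']
    have := mul_le_mul_of_nonneg_right (abs_le_norm x u) h8.le
    linarith
  have h10 := Real.log_le_log h8 h9
  have hpos : 0 < (|c| + 1) / |u| := by positivity
  rw [Real.log_mul hpos.ne' hx0.ne'] at h10
  have h11 := abs_le.1 (approx (K := K) h6 x u hx0)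
  have h12 := abs_le.1 (hC0 x hx0 hx2)
  rw [one_div, Real.log_inv] at h12
  have h13 := hC2 x hx0 hx2
  have h14 := nonneg (K := K) h6 x u hx0
  linarith [h11.2, h12.2]

end D7

open D7 in
/-- **D7.** -/
theorem zetaCosK (h6 : S_ZetaSum) (h7 : S_Cont) : S_ZetaCosK := by
  intro K _ _
  refine ⟨zero_case h6 h7, fun u hu => ?_⟩
  obtain ⟨Z, hd, hZ⟩ := h7 K 1 (|u| + 1)
  have hR : |u| < |u| + 1 := by linarith
  obtain ⟨C, hC⟩ := log_bdd h6 hd hZ u hR (ne_zero_line h6 h7 u hu hd hZ hR)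
  have hu' : 0 < |u| := abs_pos.2 hu
  refine ⟨(∑' p : HeightOneSpectrum (𝓞 K), (nm p : ℝ) ^ (-2 : ℝ)) + C +
    (|Real.log (1 + |u|)| + |Real.log (|u|)|), fun x hx0 hx1 => ?_⟩
  have h4 := abs_le.1 (approx (K := K) h6 x u hx0)
  have h5 := abs_le.1 (hC x hx0.le hx1)
  have hn : 0 < ‖(x + u * Complex.I : ℂ)‖ := lt_of_lt_of_le hu' (abs_le_norm x u)
  have h6' : Real.log ‖Z (1 + x + u * Complex.I)‖ = Real.log ‖(x + u * Complex.I : ℂ)‖ +
      Real.log ‖dedekindZeta K (1 + x + u * Complex.I)‖ := by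
    rw [Z_eq hZ x u hx0 hR, norm_mul, Real.log_mul hn.ne']
    exact norm_ne_zero_iff.2 (zeta_ne_zero h6 _ (re_gt x u hx0))
  have h7' : Real.log |u| ≤ Real.log ‖(x + u * Complex.I : ℂ)‖ :=
    Real.log_le_log hu' (abs_le_norm x u)
  have h8 : Real.log ‖(x + u * Complex.I : ℂ)‖ ≤ Real.log (1 + |u|) := by
    refine Real.log_le_log hn ?_
    refine (norm_add_le _ _).trans ?_
    rw [norm_mul, Complex.norm_I, mul_one, Complex.norm_real, Complex.norm_real,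
      Real.norm_of_nonneg hx0.le, Real.norm_eq_abs]
    linarith
  have h9 := abs_le.1 (le_refl |Real.log (1 + |u|)|)
  have h10 := abs_le.1 (le_refl |Real.log (|u|)|)
  rw [h6'] at h5
  rw [abs_le]
  constructor <;> linarith [h4.1, h4.2, h5.1, h5.2, h9.1, h9.2, h10.1, h10.2,
    abs_nonneg (Real.log (1 + |u|)), abs_nonneg (Real.log (|u|))]

end MP7ed9c3.Tw
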