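import Pool.Agent.Lib.MP_7ed9c3_nt.SpecZ
import Pool.Agent.Lib.MP_7ed9c3_nt.Tw.SpecD

/-!
# MP_7ed9c3_nt, part Tw: quadratic twists and quadratic extensions (statements W)
-/

set_option autoImplicit false

namespace MP7ed9c3.Tw

open NumberField IsDedekindDomain Filter Topology

/-- The short Weierstrass equation `y² = x³ + A x + B`. -/
def short {R : Type} [Zero R] (A B : R) : WeierstrassCurve R := ⟨0, 0, 0, A, B⟩

open Classical in
/-- The quadratic character of `d` at the prime `v` (`v ∤ 2`): `0`, `1` or `-1`. -/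
noncomputable def chiv {K : Type} [Field K] [NumberField K] (d : 𝓞 K)
    (v : HeightOneSpectrum (𝓞 K)) : ℝ :=
  if d ∈ v.asIdeal then 0 else if IsSquare (Ideal.Quotient.mk v.asIdeal d) then 1 else -1

/-- **W1, curves with the same j-invariant.**

Proof.  Characteristic 0: by completing the square and the cube there is a change of variables with
`C • E = short a b`, `C₁ • E' = short a' b'` over `K` (see `WeierstrassCurve.toShortNF` or similar in
Mathlib, `AlgebraicGeometry/EllipticCurve/NormalForms.lean`).  `j = 1728 · 4a³/(4a³+27b²)` is the same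
for both and is not `0` or `1728`, so `a, b, a', b' ≠ 0` and `a³/b² = a'³/b'²`.  Put
`d₀ = b' a / (a' b)`; then `d₀² a = a'` and `d₀³ b = b'`.  Let `m ∈ ℤ`, `m ≠ 0`, be such that
`m a, m b, m d₀` are integral; `A = m⁴ a`, `B = m⁶ b`, `d = m² d₀` are integral.  Scaling by `u = m⁻¹`
(`⟨u, 0, 0, 0⟩`) turns `short a b` into `short A B`, and scaling by `u = m⁻²` turns `short a' b'` into
`short (m⁸ a') (m¹² b')`, and `m⁸ a' = m⁸ d₀² a = A d²`, `m¹² b' = m¹² d₀³ b = B d³`. -/
def S_TwistForm : Prop :=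
  ∀ (K : Type) [Field K] [NumberField K] (E E' : WeierstrassCurve K) [E.IsElliptic]
    [E'.IsElliptic], E.j = E'.j → E.j ≠ 0 → E.j ≠ 1728 →
    ∃ A B d : 𝓞 K, A ≠ 0 ∧ B ≠ 0 ∧ d ≠ 0 ∧ (short A B).Δ ≠ 0 ∧
      (∃ C : WeierstrassCurve.VariableChange K,
        C • E = (short A B).map (algebraMap (𝓞 K) K)) ∧
      ∃ C : WeierstrassCurve.VariableChange K,
        C • E' = (short (A * d ^ 2) (B * d ^ 3)).map (algebraMap (𝓞 K) K)

/-- **W2, twisting over a finite field.**

Proof.  The number of solutions of `y² = c` is `1 + χ(c)` (`quadraticCharFun`, odd characteristic), so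
`shortCount a b = ∑_x (1 + χ(x³ + a x + b))`, i.e. `shortCount a b - |F| = ∑_x χ(x³ + a x + b)`.  For
the twist substitute `x = d x'`: `(d x')³ + a d² (d x') + b d³ = d³ (x'³ + a x' + b)` and
`χ(d³) = χ(d)`, which is `1` if `d` is a square and `-1` if not. -/
def S_FinTwist : Prop :=
  ∀ (F : Type) [Field F] [Finite F] (a b d : F), (2 : F) ≠ 0 → d ≠ 0 →
    (IsSquare d → (shortCount (a * d ^ 2) (b * d ^ 3) : ℤ) - Nat.card F =
      shortCount a b - Nat.card F) ∧
    (¬ IsSquare d → (shortCount (a * d ^ 2) (b * d ^ 3) : ℤ) - Nat.card F =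
      -(shortCount a b - Nat.card F))

/-- **W3, traces of curves with the same j-invariant** (from W1, W2, `GoodData`, which is proved:
`goodDataAll` in AllN.lean).

Proof.  Take `A, B, d` from W1.  If `d = e²` with `e ∈ K`, then the change of variables
`⟨u, 0, 0, 0⟩`, `u = e⁻¹` turns `short A B` into `short (A e⁴) (B e⁶) = short (A d²) (B d³)` over `K`, so
`C • E = E'` for some `C` (group structure of the changes of variables).  Otherwise let `S` be the
set of the `v` with `6 d Δ(short A B) ∈ v` (finite, `finite_mem` in N5.lean).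
`Δ(short (A d²) (B d³)) = d⁶ Δ(short A B)`.  For `v ∉ S` by `GoodData` `tr M v = tr (short A B) v`,
`tr M' v = tr (short (A d²) (B d³)) v`.  The reduction of `short A B` is `short` of the reductions and
`affCount (short a b) = shortCount a b` (the equations are the same after simplification), `nm v` is the
cardinality of `𝓞 K ⧸ v` (a finite field, `2 ≠ 0`).  By W2, `tr M' v = ± tr M v` with the sign
`chiv d v`. -/
def S_TraceTwist : Prop :=
  ∀ (K : Type) [Field K] [NumberField K] (E E' : WeierstrassCurve K) [E.IsElliptic]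
    [E'.IsElliptic], E.j = E'.j → E.j ≠ 0 → E.j ≠ 1728 →
    (∃ C : WeierstrassCurve.VariableChange K, C • E = E') ∨
    ∃ d : 𝓞 K, ¬ IsSquare (d : K) ∧ ∃ S : Set (HeightOneSpectrum (𝓞 K)), S.Finite ∧
      ∀ v ∉ S, (2 * d : 𝓞 K) ∉ v.asIdeal ∧ ∀ M M' : WeierstrassCurve (𝓞 K),
        IsMinAt E v M → IsMinAt E' v M' → (tr M' v : ℝ) = chiv d v * tr M v

/-- **W4, good reduction and Hasse's bound outside a finite set** (from `ExistsModel`, `GoodData`,
`TraceBound`, all proved: `existsModel`, `goodDataAll`, `traceBoundAll`).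

Proof.  Let `W₀` be an integral model with `W₀.Δ ≠ 0`, `S = {v | 6 W₀.Δ ∈ v}` (finite, `finite_mem`).
For `v ∉ S` apply `GoodData` and `TraceBound`. -/
def S_GoodAlmost : Prop :=
  ∀ (K : Type) [Field K] [NumberField K] (E : WeierstrassCurve K), E.IsElliptic →
    ∃ S : Set (HeightOneSpectrum (𝓞 K)), S.Finite ∧ ∀ v ∉ S, ∀ M : WeierstrassCurve (𝓞 K),
      IsMinAt E v M → M.Δ ∉ v.asIdeal ∧ |(tr M v : ℝ)| ≤ 2 * √(nm v)

/-- **W5, decomposition of primes in a quadratic extension.**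

Proof.  `w` lies over `v` if `w.asIdeal.comap (algebraMap (𝓞 K) (𝓞 L)) = v.asIdeal`; every `w` lies over
exactly one `v` and over every `v` there are finitely many `w`, at least one, with
`∑ e f = [L : K] = 2` (`Ideal.sum_ramification_inertia` for `𝓞 K → 𝓞 L`) and `nm w = (nm v)^f`.
`δ` is integral (`δ² = d`), let `δ ∈ 𝓞 L`.  Let `2 d ∉ v`.
If `d ≡ r²` modulo `v` (`r ∈ 𝓞 K`), then `(δ - r)(δ + r) ∈ v 𝓞 L ⊆ w`, so `w` contains `δ - r` or
`δ + r`, not both (their difference `2r` is not in `v`: `4 r² ≡ 4 d`).  The nontrivial automorphism of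
`L` over `K` (`δ ↦ -δ`; `L = K(δ)` is a quadratic extension) maps the primes over `v` containing `δ - r`
to those containing `δ + r`.  So there are at least two primes over `v`, hence exactly two, with
`e = f = 1`.
If `d` is not a square modulo `v` and `w` lies over `v`, then the residue field of `w` contains a root
of `X² - d`, which is not in the residue field of `v`, so `f ≥ 2`; so there is exactly one `w`, with
`f = 2`, `nm w = (nm v)²`. -/
def S_SplitLocal : Prop :=
  ∀ (K L : Type) [Field K] [NumberField K] [Field L] [NumberField L] [Algebra K L] (d : 𝓞 K)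
    (δ : L), Module.finrank K L = 2 → δ ^ 2 = algebraMap K L (d : K) → ¬ IsSquare (d : K) →
    ∀ v : HeightOneSpectrum (𝓞 K),
      {w : HeightOneSpectrum (𝓞 L) |
        w.asIdeal.comap (algebraMap (𝓞 K) (𝓞 L)) = v.asIdeal}.Finite ∧
      ((2 * d : 𝓞 K) ∉ v.asIdeal →
        (chiv d v = 1 → ∃ w₁ w₂ : HeightOneSpectrum (𝓞 L), w₁ ≠ w₂ ∧
          {w : HeightOneSpectrum (𝓞 L) |
            w.asIdeal.comap (algebraMap (𝓞 K) (𝓞 L)) = v.asIdeal} = {w₁, w₂} ∧
          nm w₁ = nm v ∧ nm w₂ = nm v) ∧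
        (chiv d v = -1 → ∃ w₁ : HeightOneSpectrum (𝓞 L),
          {w : HeightOneSpectrum (𝓞 L) |
            w.asIdeal.comap (algebraMap (𝓞 K) (𝓞 L)) = v.asIdeal} = {w₁} ∧
          nm w₁ = nm v ^ 2))

/-- **W6, the zeta function of a quadratic extension** (from W5, D6a).

Proof.  `L = AdjoinRoot (X² - C d)` (a field because `d` is not a square, `[L : K] = 2`, number field).
Group the primes `w` of `L` by the prime `v` of `K` below.  Let `S₁ = {v | 2 d ∈ v}` (finite,
`finite_mem` in N5.lean).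
(1) For `v ∉ S₁` the primes over `v` contribute to `primeSum L x u` the term
`(1 + chiv d v) q^(-(1+x)) cos(u log q)`, `q = nm v`, plus, if `chiv d v = -1`, a term of absolute value
`≤ q^(-2)`, and `∑_v nm v^(-2) < ∞` (D6a).  The `v ∈ S₁` contribute `O(1)` on both sides
(finitely many primes, every term is bounded by `1`).  Everything converges absolutely for `x > 0`
(D6a), so regrouping is allowed.
(2) By D6a `ζ_L(s) = exp(∑'_w -log(1 - nm w^(-s))) = ∏'_w (1 - nm w^(-s))⁻¹`, unconditionally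
convergent; for `v ∉ S₁` the primes over `v` give `(1 - q^(-s))² ` or `1 - q^(-2s) = (1 - q^(-s))(1 + q^(-s))`,
in both cases `(1 - q^(-s))(1 - chiv d v q^(-s))`.  For finite `S ⊇ S₁` let
`e(s) = ∏_{w over S} (1 - nm w^(-s))` (a finite product, entire function of `s`). -/
def S_SplitSum : Prop :=
  ∀ (K : Type) [Field K] [NumberField K] (d : 𝓞 K), ¬ IsSquare (d : K) →
    ∃ (L : Type) (_ : Field L) (_ : NumberField L),
      (∃ C : ℝ, ∀ x u : ℝ, 0 < x → x ≤ 1 →
        |primeSum L x u - ∑' v : HeightOneSpectrum (𝓞 K), (1 + chiv d v) *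
          ((nm v : ℝ) ^ (-(1 + x)) * Real.cos (u * Real.log (nm v)))| ≤ C) ∧
      ∃ S₁ : Set (HeightOneSpectrum (𝓞 K)), S₁.Finite ∧
        ∀ S : Set (HeightOneSpectrum (𝓞 K)), S.Finite → S₁ ⊆ S →
          ∃ e : ℂ → ℂ, Differentiable ℂ e ∧ ∀ s : ℂ, 1 < s.re →
            dedekindZeta L s * e s = ∏' v : {v : HeightOneSpectrum (𝓞 K) // v ∉ S},
              ((1 - (nm v.1 : ℂ) ^ (-s)) * (1 - (chiv d v.1 : ℂ) * (nm v.1 : ℂ) ^ (-s)))⁻¹

/-- **W7, finite modifications of the Euler products** (from D6a).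

Proof.  As in W6 (2), with `e(s) = ∏_{v ∈ S} (1 - nm v^(-s))`, respectively
`e(s) = ∏_{v ∈ S} locDen (M v) v (s + 1/2)` (polynomials in `(nm v)^(-s)`, entire).  For the curve the
product over all `v` is absolutely convergent and may be split: see A5-A9, Z2
(`EulerLog`, `eulerCos`: `∏' = exp(∑' -log)`); for `v ∉ S` the discriminant is a unit and
`locDen (M v) v (s + 1/2) = 1 - a q^(-s-1/2) + q^(1-2s-1) = 1 - (a/√q) q^(-s) + q^(-2s)`. -/
def S_FinProd : Prop :=
  ∀ (K : Type) [Field K] [NumberField K] (S : Set (HeightOneSpectrum (𝓞 K))), S.Finite →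
    (∃ e : ℂ → ℂ, Differentiable ℂ e ∧ ∀ s : ℂ, 1 < s.re →
      dedekindZeta K s * e s = ∏' v : {v : HeightOneSpectrum (𝓞 K) // v ∉ S},
        (1 - (nm v.1 : ℂ) ^ (-s))⁻¹) ∧
    ∀ (E : WeierstrassCurve K), E.IsElliptic →
      ∀ M : HeightOneSpectrum (𝓞 K) → WeierstrassCurve (𝓞 K), (∀ v, IsMinAt E v (M v)) →
      (∀ v ∉ S, (M v).Δ ∉ v.asIdeal) → ∃ e : ℂ → ℂ, Differentiable ℂ e ∧ ∀ s : ℂ, 1 < s.re →
        (∏' v : HeightOneSpectrum (𝓞 K), (locDen (M v) v (s + 1 / 2))⁻¹) * e s =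
          ∏' v : {v : HeightOneSpectrum (𝓞 K) // v ∉ S},
            (1 - (((tr (M v.1) v.1 : ℝ) / √(nm v.1) : ℝ) : ℂ) * (nm v.1 : ℂ) ^ (-s) +
              (nm v.1 : ℂ) ^ (-(2 * s)))⁻¹

/-- **W8, the order of vanishing and the sum over primes** (from Z2 `EulerCos`, Z5 `trace_const`).

Proof.  As in Z5.lean (`trace_const`): for the family `M` there are `C, A` with `Sparse nm C`,
`|tr (M v) v| ≤ nm v`, `|tr (M v) v| ≤ A √(nm v)`, and `locDen = eden`; so Z2 gives
`|log ‖F(3/2 + x + i t)‖ - ∑' tr (M v) v (nm v)^(-(3/2+x)) cos(t log nm v)| ≤ C'` for `0 < x ≤ 1`.  In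
particular `F` is not identically zero near `s₀ = 3/2 + i t` (for `x > 0` `F(s₀ + x)` is the value of a
convergent product of the form `exp(…)`, nonzero: see EulerLog), so the order `m` of `F` at `s₀` is finite
and `F(s) = (s - s₀)^m g(s)` near `s₀`, `g` analytic, `g(s₀) ≠ 0`
(`AnalyticAt.analyticOrderAt_eq_natCast`).  So `log ‖F(s₀ + x)‖ = m log x + log ‖g(s₀ + x)‖`, and
`log ‖g(s₀ + x)‖` is bounded for small `x > 0`; for `x` in a compact subset of `(0, 1]`
`log ‖F(s₀+x)‖` is continuous, hence bounded. -/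
def S_Order : Prop :=
  ∀ (K : Type) [Field K] [NumberField K] (E : WeierstrassCurve K), E.IsElliptic →
    ∀ M : HeightOneSpectrum (𝓞 K) → WeierstrassCurve (𝓞 K), (∀ v, IsMinAt E v (M v)) →
    ∀ F : ℂ → ℂ, Differentiable ℂ F →
      (∀ s : ℂ, 3 / 2 < s.re → F s = ∏' v : HeightOneSpectrum (𝓞 K), (locDen (M v) v s)⁻¹) →
      ∀ t : ℝ, analyticOrderAt F (3 / 2 + t * Complex.I) ≠ ⊤ ∧
        ∃ C : ℝ, ∀ x : ℝ, 0 < x → x ≤ 1 →
          |(∑' v : HeightOneSpectrum (𝓞 K), (tr (M v) v : ℝ) * (nm v : ℝ) ^ (-(3 / 2 + x)) *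
              Real.cos (t * Real.log (nm v))) +
            (analyticOrderNatAt F (3 / 2 + t * Complex.I) : ℝ) * Real.log (1 / x)| ≤ C

end MP7ed9c3.Tw
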