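import Pool.Agent.Lib.MP_7ed9c3_nt.Tw.SpecW

/-!
# MP_7ed9c3_nt, part Tw, W2: twisting over a finite field
-/

set_option autoImplicit false

namespace MP7ed9c3.Tw

namespace W2

theorem ringChar_ne {F : Type} [Field F] (h2 : (2 : F) ≠ 0) : ringChar F ≠ 2 := by
  intro h
  apply h2
  have h1 := ringChar.Nat.cast_ringChar (R := F)
  rw [h] at h1
  exact_mod_cast h1

theorem card_sqrt {F : Type} [Field F] [Fintype F] [DecidableEq F] (h2 : (2 : F) ≠ 0) (c : F) :
    (Nat.card {y : F // y ^ 2 = c} : ℤ) = quadraticChar F c + 1 := by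
  rw [← quadraticChar_card_sqrts (ringChar_ne h2) c, Set.toFinset_card, ← Nat.card_eq_fintype_card]
  rfl

theorem count_eq {F : Type} [Field F] [Fintype F] [DecidableEq F] (h2 : (2 : F) ≠ 0) (a b : F) :
    (shortCount a b : ℤ) - Nat.card F = ∑ x : F, quadraticChar F (x ^ 3 + a * x + b) := by
  have h1 : shortCount a b = ∑ x : F, Nat.card {y : F // y ^ 2 = x ^ 3 + a * x + b} := by
    rw [shortCount, Nat.card_congr (Equiv.subtypeProdEquivSigmaSubtype
      (fun x y : F => y ^ 2 = x ^ 3 + a * x + b)), Nat.card_sigma]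
  rw [h1, Nat.cast_sum]
  rw [Finset.sum_congr rfl fun x _ => card_sqrt h2 (x ^ 3 + a * x + b), Finset.sum_add_distrib]
  rw [Finset.sum_const, Finset.card_univ, Nat.card_eq_fintype_card]
  simp

theorem twist_sum {F : Type} [Field F] [Fintype F] [DecidableEq F] (a b d : F) (hd : d ≠ 0) :
    ∑ x : F, quadraticChar F (x ^ 3 + a * d ^ 2 * x + b * d ^ 3) =
      quadraticChar F d * ∑ x : F, quadraticChar F (x ^ 3 + a * x + b) := by
  rw [← Equiv.sum_comp (Equiv.mulLeft₀ d hd), Finset.mul_sum]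
  refine Finset.sum_congr rfl fun x _ => ?_
  have h1 : (Equiv.mulLeft₀ d hd x) ^ 3 + a * d ^ 2 * (Equiv.mulLeft₀ d hd x) + b * d ^ 3 =
      d ^ 2 * (d * (x ^ 3 + a * x + b)) := by
    show (d * x) ^ 3 + a * d ^ 2 * (d * x) + b * d ^ 3 = d ^ 2 * (d * (x ^ 3 + a * x + b))
    ring
  rw [h1, map_mul, map_mul, quadraticChar_sq_one' hd, one_mul]

end W2

open W2

theorem finTwist : S_FinTwist := by
  intro F _ _ a b d h2 hd
  classical
  have : Fintype F := Fintype.ofFinite F
  rw [count_eq h2, count_eq h2, twist_sum a b d hd]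
  constructor
  · intro hs
    rw [(quadraticChar_one_iff_isSquare hd).2 hs, one_mul]
  · intro hs
    rw [quadraticChar_neg_one_iff_not_isSquare.2 hs, neg_one_mul]

end MP7ed9c3.Tw
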