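import Pool.Agent.Lib.MP_7ed9c3_nt.Tw.SpecL
import Pool.Agent.Lib.MP_7ed9c3_nt.AllN

/-!
# MP_7ed9c3_nt, part Tw, L9: two curves with the same j-invariant
-/

set_option autoImplicit false

namespace MP7ed9c3.Tw

open NumberField IsDedekindDomain Filter Topology

namespace L9

/-- the weights -/
noncomputable def wt (K : Type) [Field K] [NumberField K] (x : ℝ)
    (v : HeightOneSpectrum (𝓞 K)) : ℝ := (nm v : ℝ) ^ (-(1 + x))

variable {K : Type} [Field K] [NumberField K]

theorem wt_nonneg (x : ℝ) (v : HeightOneSpectrum (𝓞 K)) : 0 ≤ wt K x v :=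
  Real.rpow_nonneg (Nat.cast_nonneg _) _

theorem two_le_nm (v : HeightOneSpectrum (𝓞 K)) : 2 ≤ nm v := by
  obtain ⟨C, hC⟩ := countPrimes K
  exact hC.1 v

theorem wt_le_one {x : ℝ} (hx : 0 < x) (v : HeightOneSpectrum (𝓞 K)) : wt K x v ≤ 1 := by
  have h1 : (1 : ℝ) ≤ nm v := by
    have := two_le_nm v
    exact_mod_cast (by omega : 1 ≤ nm v)
  exact Real.rpow_le_one_of_one_le_of_nonpos h1 (by linarith)

theorem wt_summable (d6 : S_ZetaSum) {x : ℝ} (hx : 0 < x) : Summable (wt K x) :=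
  (d6 K).2.1 (1 + x) (by linarith)

theorem bdd_summable (d6 : S_ZetaSum) {x : ℝ} (hx : 0 < x) {g : HeightOneSpectrum (𝓞 K) → ℝ}
    (hg : Bdd g) : Summable fun v => g v * wt K x v := by
  obtain ⟨B, hB⟩ := hg
  refine Summable.of_norm_bounded ((wt_summable d6 hx).mul_left B) fun v => ?_
  rw [norm_mul, Real.norm_eq_abs, Real.norm_eq_abs, abs_of_nonneg (wt_nonneg x v)]
  exact mul_le_mul_of_nonneg_right (hB v) (wt_nonneg x v)

theorem primeSum_eq (x u : ℝ) : primeSum K x u =
    ∑' v : HeightOneSpectrum (𝓞 K), Real.cos (u * Real.log (nm v)) * wt K x v := by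
  unfold primeSum
  refine tsum_congr fun v => ?_
  rw [mul_comm]
  rfl

theorem primeSum_zero (x : ℝ) : primeSum K x 0 =
    ∑' v : HeightOneSpectrum (𝓞 K), wt K x v := by
  rw [primeSum_eq]
  refine tsum_congr fun v => ?_
  rw [zero_mul, Real.cos_zero, one_mul]

/-- changing finitely many values -/
theorem fin_mod (d6 : S_ZetaSum) {S : Set (HeightOneSpectrum (𝓞 K))} (hS : S.Finite)
    {g g' : HeightOneSpectrum (𝓞 K) → ℝ} (hg' : Bdd g') (h : ∀ v ∉ S, g v = g' v) :
    ∃ C : ℝ, ∀ x : ℝ, 0 < x → |∑' v, g v * wt K x v - ∑' v, g' v * wt K x v| ≤ C := by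
  classical
  refine ⟨∑ v ∈ hS.toFinset, |g v - g' v|, fun x hx => ?_⟩
  have h0 : ∀ v ∉ hS.toFinset, (g v - g' v) * wt K x v = 0 := by
    intro v hv
    have : v ∉ S := fun h1 => hv (hS.mem_toFinset.2 h1)
    rw [h v this, sub_self, zero_mul]
  have h1 : Summable fun v => (g v - g' v) * wt K x v := summable_of_ne_finset_zero h0
  have h2 := bdd_summable d6 hx hg'
  have h3 : ∑' v, g v * wt K x v = ∑' v, g' v * wt K x v + ∑' v, (g v - g' v) * wt K x v := by
    rw [← h2.tsum_add h1]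
    refine tsum_congr fun v => ?_
    ring
  rw [h3, add_sub_cancel_left, tsum_eq_sum h0]
  refine (Finset.abs_sum_le_sum_abs _ _).trans (Finset.sum_le_sum fun v _ => ?_)
  rw [abs_mul, abs_of_nonneg (wt_nonneg x v)]
  exact mul_le_of_le_one_right (abs_nonneg _) (wt_le_one hx v)

theorem abs_chiv (d : 𝓞 K) (v : HeightOneSpectrum (𝓞 K)) : |chiv d v| ≤ 1 := by
  unfold chiv
  split_ifs <;> norm_num

theorem chiv_pm {d : 𝓞 K} {v : HeightOneSpectrum (𝓞 K)} (h : (2 * d : 𝓞 K) ∉ v.asIdeal) :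
    chiv d v = 1 ∨ chiv d v = -1 := by
  have h1 : d ∉ v.asIdeal := fun h2 => h (v.asIdeal.mul_mem_left 2 h2)
  unfold chiv
  rw [if_neg h1]
  split_ifs
  · exact Or.inl rfl
  · exact Or.inr rfl

/-- the sums twisted by the quadratic character are bounded -/
theorem chi_sum (d6 : S_ZetaSum) (d7 : S_ZetaCosK) (w6 : S_SplitSum) {d : 𝓞 K}
    (hd : ¬ IsSquare (d : K)) (u : ℝ) : ∃ C : ℝ, ∀ x : ℝ, 0 < x → x ≤ 1 →
      |∑' v : HeightOneSpectrum (𝓞 K), (chiv d v * Real.cos (u * Real.log (nm v))) *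
        wt K x v| ≤ C := by
  obtain ⟨L, iF, iN, ⟨C, hC⟩, -⟩ := w6 K d hd
  have hpl : ∃ C' : ℝ, ∀ x : ℝ, 0 < x → x ≤ 1 → |primeSum L x u - primeSum K x u| ≤ C' := by
    by_cases hu : u = 0
    · subst hu
      obtain ⟨C1, h1⟩ := (d7 L).1
      obtain ⟨C2, h2⟩ := (d7 K).1
      refine ⟨C1 + C2, fun x hx hx1 => ?_⟩
      have a := h1 x hx hx1
      have b := h2 x hx hx1
      rw [abs_le] at *
      constructor <;> linarith [a.1, a.2, b.1, b.2]
    · obtain ⟨C1, h1⟩ := (d7 L).2 u hu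
      obtain ⟨C2, h2⟩ := (d7 K).2 u hu
      refine ⟨C1 + C2, fun x hx hx1 => ?_⟩
      have a := h1 x hx hx1
      have b := h2 x hx hx1
      rw [abs_le] at *
      constructor <;> linarith [a.1, a.2, b.1, b.2]
  obtain ⟨C', hC'⟩ := hpl
  refine ⟨C + C', fun x hx hx1 => ?_⟩
  have s1 : Summable fun v : HeightOneSpectrum (𝓞 K) =>
      Real.cos (u * Real.log (nm v)) * wt K x v :=
    bdd_summable d6 hx ⟨1, fun v => Real.abs_cos_le_one _⟩
  have s2 : Summable fun v : HeightOneSpectrum (𝓞 K) =>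
      (chiv d v * Real.cos (u * Real.log (nm v))) * wt K x v := by
    refine bdd_summable d6 hx ⟨1, fun v => ?_⟩
    rw [abs_mul]
    exact mul_le_one₀ (abs_chiv d v) (abs_nonneg _) (Real.abs_cos_le_one _)
  have e : ∑' v : HeightOneSpectrum (𝓞 K), (1 + chiv d v) *
      ((nm v : ℝ) ^ (-(1 + x)) * Real.cos (u * Real.log (nm v))) = primeSum K x u +
      ∑' v : HeightOneSpectrum (𝓞 K), (chiv d v * Real.cos (u * Real.log (nm v))) *
        wt K x v := by
    rw [primeSum_eq, ← s1.tsum_add s2]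
    refine tsum_congr fun v => ?_
    unfold wt
    ring
  have h3 := hC x u hx hx1
  rw [e] at h3
  have h4 := hC' x hx hx1
  rw [abs_le] at *
  constructor <;> linarith [h3.1, h3.2, h4.1, h4.2]

theorem cos_abs_mul (t y : ℝ) : Real.cos (|t| * y) = Real.cos (t * y) := by
  rcases abs_choice t with h | h
  · rw [h]
  · rw [h, neg_mul, Real.cos_neg]

/-- a zero of the L-function gives a mean value at most `-1` -/
theorem zero_mean (d6 : S_ZetaSum) (w8 : S_Order) {E : WeierstrassCurve K}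
    (hE : E.IsElliptic) {M : HeightOneSpectrum (𝓞 K) → WeierstrassCurve (𝓞 K)} {F : ℂ → ℂ}
    (hF : Continues E M F) {S : Set (HeightOneSpectrum (𝓞 K))} (hS : S.Finite)
    {l : HeightOneSpectrum (𝓞 K) → ℝ} (hl : ∀ v ∉ S, l v = (tr (M v) v : ℝ) / √(nm v))
    (hl2 : ∀ v, |l v| ≤ 2) {Mn : (HeightOneSpectrum (𝓞 K) → ℝ) → ℝ}
    (hval : ∀ (g : HeightOneSpectrum (𝓞 K) → ℝ) (L C : ℝ), Bdd g →
      (∀ x, 0 < x → x ≤ 1 → |∑' v, g v * wt K x v - L * Real.log (1 / x)| ≤ C) → Mn g = L)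
    (t : ℝ) (ht : F (3 / 2 + t * Complex.I) = 0) :
    Mn (fun v => l v * Real.cos (t * Real.log (nm v))) ≤ -1 := by
  obtain ⟨hfin, C₁, hC₁⟩ := w8 K E hE M hF.1 F hF.2.1 hF.2.2 t
  have hb : Bdd fun v : HeightOneSpectrum (𝓞 K) => l v * Real.cos (t * Real.log (nm v)) := by
    refine ⟨2, fun v => ?_⟩
    rw [abs_mul]
    calc |l v| * |Real.cos (t * Real.log (nm v))| ≤ 2 * 1 :=
          mul_le_mul (hl2 v) (Real.abs_cos_le_one _) (abs_nonneg _) (by norm_num)
      _ = 2 := by norm_num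
  obtain ⟨C₂, hC₂⟩ := fin_mod d6 hS
    (g := fun v => (tr (M v) v : ℝ) / √(nm v) * Real.cos (t * Real.log (nm v)))
    (g' := fun v => l v * Real.cos (t * Real.log (nm v))) hb
    (fun v hv => by show _ = l v * _; rw [hl v hv])
  have hm := hval (fun v => l v * Real.cos (t * Real.log (nm v)))
    (-(analyticOrderNatAt F (3 / 2 + t * Complex.I) : ℝ)) (C₁ + C₂) hb (by
      intro x hx hx1
      have h1 := hC₁ x hx hx1
      have h2 := hC₂ x hx
      have h3 : ∑' v : HeightOneSpectrum (𝓞 K), (tr (M v) v : ℝ) * (nm v : ℝ) ^ (-(3 / 2 + x)) *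
              Real.cos (t * Real.log (nm v)) = ∑' v : HeightOneSpectrum (𝓞 K),
              ((tr (M v) v : ℝ) / √(nm v) * Real.cos (t * Real.log (nm v))) * wt K x v := by
        refine tsum_congr fun v => ?_
        have hpos : (0 : ℝ) < nm v := by
          have := two_le_nm v
          exact_mod_cast (by omega : 0 < nm v)
        have h4 : (nm v : ℝ) ^ (-(3 / 2 + x)) = (√(nm v : ℝ))⁻¹ * wt K x v := by
          unfold wt
          rw [Real.sqrt_eq_rpow, ← Real.rpow_neg hpos.le, ← Real.rpow_add hpos]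
          congr 1
          ring
        rw [h4]
        ring
      rw [h3] at h1
      rw [abs_le] at *
      constructor <;> linarith [h1.1, h1.2, h2.1, h2.2])
  rw [hm]
  have han : AnalyticAt ℂ F (3 / 2 + t * Complex.I) := hF.2.1.analyticAt _
  have h5 : analyticOrderAt F (3 / 2 + t * Complex.I) ≠ 0 :=
    han.analyticOrderAt_ne_zero.2 ht
  have h6 : analyticOrderNatAt F (3 / 2 + t * Complex.I) ≠ 0 := by
    intro h7
    apply h5
    rw [← Nat.cast_analyticOrderNatAt hfin, h7]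
    rfl
  have h8 : (1 : ℝ) ≤ analyticOrderNatAt F (3 / 2 + t * Complex.I) := by
    exact_mod_cast Nat.one_le_iff_ne_zero.2 h6
  linarith

end L9

open L9

/-- **L9.** -/
theorem twoCurves (d6 : S_ZetaSum) (d7 : S_ZetaCosK) (w3 : S_TraceTwist) (w4 : S_GoodAlmost)
    (w6 : S_SplitSum) (w8 : S_Order) (l4 : S_NotBoth) (l5 : S_Mean) (l7 : S_CoreTwo) :
    S_TwoCurves := by
  classical
  intro K _ _ E E' iE iE' hj hj0 hj1 M M' F F' hF hF' t t' ht ht'
  rcases w3 K E E' hj hj0 hj1 with h | ⟨d, hd, S₀, hS₀, htr⟩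
  · exact h
  exfalso
  obtain ⟨S₁, hS₁, hg₁⟩ := w4 K E iE
  set S : Set (HeightOneSpectrum (𝓞 K)) := S₀ ∪ S₁ with hSdef
  have hS : S.Finite := hS₀.union hS₁
  -- the functions
  obtain ⟨l, hldef⟩ : ∃ l : HeightOneSpectrum (𝓞 K) → ℝ, ∀ v, l v =
    if v ∈ S then 0 else (tr (M v) v : ℝ) / √(nm v) := ⟨_, fun v => rfl⟩
  obtain ⟨χ, hχdef⟩ : ∃ χ : HeightOneSpectrum (𝓞 K) → ℝ, ∀ v, χ v =
    if v ∈ S then 1 else chiv d v := ⟨_, fun v => rfl⟩
  have hl : ∀ v ∉ S, l v = (tr (M v) v : ℝ) / √(nm v) := fun v hv => by rw [hldef, if_neg hv]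
  have hl2 : ∀ v, |l v| ≤ 2 := by
    intro v
    by_cases hv : v ∈ S
    · rw [hldef, if_pos hv]
      norm_num
    · rw [hl v hv, abs_div, abs_of_nonneg (Real.sqrt_nonneg _)]
      have hpos : (0 : ℝ) < √(nm v) := by
        apply Real.sqrt_pos.2
        have := two_le_nm v
        exact_mod_cast (by omega : 0 < nm v)
      rw [div_le_iff₀ hpos]
      exact (hg₁ v (fun h => hv (Or.inr h)) (M v) (hF.1 v)).2
  have hχ : ∀ v, χ v = 1 ∨ χ v = -1 := by
    intro v
    by_cases hv : v ∈ S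
    · rw [hχdef, if_pos hv]
      exact Or.inl rfl
    · rw [hχdef, if_neg hv]
      exact chiv_pm (htr v (fun h => hv (Or.inl h))).1
  have hχabs : ∀ v, |χ v| = 1 := by
    intro v
    rcases hχ v with h | h <;> rw [h] <;> norm_num
  have hχl : ∀ v ∉ S, χ v * l v = (tr (M' v) v : ℝ) / √(nm v) := by
    intro v hv
    rw [(htr v (fun h => hv (Or.inl h))).2 (M v) (M' v) (hF.1 v) (hF'.1 v), hl v hv, hχdef,
      if_neg hv]
    ring
  have hχl2 : ∀ v, |χ v * l v| ≤ 2 := by
    intro v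
    rw [abs_mul, hχabs, one_mul]
    exact hl2 v
  -- the mean
  obtain ⟨C₀, hC₀⟩ := (d7 K).1
  obtain ⟨Mn, hMn, hval⟩ := l5 (HeightOneSpectrum (𝓞 K)) (wt K) wt_nonneg
    (fun x hx _ => wt_summable d6 hx) ⟨C₀, fun x hx hx1 => by
      rw [← primeSum_zero]
      exact hC₀ x hx hx1⟩
  have hcos : ∀ u : ℝ, u ≠ 0 → Mn (fun v => Real.cos (u * Real.log (nm v))) = 0 := by
    intro u hu
    obtain ⟨C, hC⟩ := (d7 K).2 u hu
    refine hval _ 0 C ⟨1, fun v => Real.abs_cos_le_one _⟩ fun x hx hx1 => ?_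
    rw [zero_mul, sub_zero, ← primeSum_eq]
    exact hC x hx hx1
  have hχcos : ∀ u : ℝ, Mn (fun v => χ v * Real.cos (u * Real.log (nm v))) = 0 := by
    intro u
    obtain ⟨C, hC⟩ := chi_sum d6 d7 w6 hd u
    have hb' : Bdd fun v : HeightOneSpectrum (𝓞 K) =>
        chiv d v * Real.cos (u * Real.log (nm v)) := by
      refine ⟨1, fun v => ?_⟩
      rw [abs_mul]
      exact mul_le_one₀ (abs_chiv d v) (abs_nonneg _) (Real.abs_cos_le_one _)
    have hb : Bdd fun v : HeightOneSpectrum (𝓞 K) =>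
        χ v * Real.cos (u * Real.log (nm v)) := by
      refine ⟨1, fun v => ?_⟩
      rw [abs_mul, hχabs, one_mul]
      exact Real.abs_cos_le_one _
    obtain ⟨C', hC'⟩ := fin_mod d6 hS
      (g := fun v => χ v * Real.cos (u * Real.log (nm v)))
      (g' := fun v => chiv d v * Real.cos (u * Real.log (nm v))) hb'
      (fun v hv => by show χ v * _ = _; rw [hχdef, if_neg hv])
    refine hval _ 0 (C + C') hb fun x hx hx1 => ?_
    have h1 := hC x hx hx1
    have h2 := hC' x hx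
    rw [zero_mul, sub_zero]
    rw [abs_le] at *
    constructor <;> linarith [h1.1, h1.2, h2.1, h2.2]
  have h1 := zero_mean d6 w8 iE hF hS hl hl2 hval t ht
  have h2 := zero_mean d6 w8 iE' hF' hS hχl hχl2 hval t' ht'
  by_cases h0 : t = 0
  · subst h0
    have h1' : Mn l ≤ -1 := by
      have e : (fun v : HeightOneSpectrum (𝓞 K) => l v * Real.cos (0 * Real.log (nm v))) = l := by
        funext v
        rw [zero_mul, Real.cos_zero, mul_one]
      rw [e] at h1
      exact h1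
    by_cases h0' : t' = 0
    · subst h0'
      refine l4 K E E' iE iE' d S₀ hd hS₀ htr M M' F F' hF hF' ⟨?_, ?_⟩
      · simpa using ht
      · simpa using ht'
    · refine (l7 _ Mn l χ (fun v => Real.log (nm v)) hMn hl2 hχ hcos hχcos).2 |t'|
        (abs_pos.2 h0') ⟨h1', ?_⟩
      have e : (fun v : HeightOneSpectrum (𝓞 K) =>
          l v * (χ v * Real.cos (|t'| * Real.log (nm v)))) =
          fun v => χ v * l v * Real.cos (t' * Real.log (nm v)) := by
        funext v
        rw [cos_abs_mul]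
        ring
      rw [e]
      exact h2
  · by_cases h0' : t' = 0
    · subst h0'
      refine (l7 _ Mn (fun v => χ v * l v) χ (fun v => Real.log (nm v)) hMn hχl2 hχ hcos
        hχcos).2 |t| (abs_pos.2 h0) ⟨?_, ?_⟩
      · have e : (fun v : HeightOneSpectrum (𝓞 K) =>
            χ v * l v * Real.cos (0 * Real.log (nm v))) = fun v => χ v * l v := by
          funext v
          rw [zero_mul, Real.cos_zero, mul_one]
        rw [e] at h2
        exact h2
      · have e : (fun v : HeightOneSpectrum (𝓞 K) =>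
            χ v * l v * (χ v * Real.cos (|t| * Real.log (nm v)))) =
            fun v => l v * Real.cos (t * Real.log (nm v)) := by
          funext v
          rw [cos_abs_mul]
          rcases hχ v with h | h <;> rw [h] <;> ring
        show Mn (fun v : HeightOneSpectrum (𝓞 K) =>
            χ v * l v * (χ v * Real.cos (|t| * Real.log (nm v)))) ≤ -1
        rw [e]
        exact h1
    · refine (l7 _ Mn l χ (fun v => Real.log (nm v)) hMn hl2 hχ hcos hχcos).1 |t| |t'|
        (abs_pos.2 h0) (abs_pos.2 h0') ⟨?_, ?_⟩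
      · have e : (fun v : HeightOneSpectrum (𝓞 K) =>
            l v * Real.cos (|t| * Real.log (nm v))) =
            fun v => l v * Real.cos (t * Real.log (nm v)) := by
          funext v
          rw [cos_abs_mul]
        rw [e]
        exact h1
      · have e : (fun v : HeightOneSpectrum (𝓞 K) =>
            l v * (χ v * Real.cos (|t'| * Real.log (nm v)))) =
            fun v => χ v * l v * Real.cos (t' * Real.log (nm v)) := by
          funext v
          rw [cos_abs_mul]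
          ring
        rw [e]
        exact h2

end MP7ed9c3.Tw
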