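import Pool.Agent.Lib.MP_7ed9c3_nt.Tw.B1
import Pool.Agent.Lib.MP_7ed9c3_nt.Tw.L9
import Pool.Agent.Lib.MP_7ed9c3_nt.AllZ

/-!
# MP_7ed9c3_nt, part Tw, B2: Bessel's inequality for all curves with a given j-invariant
-/

set_option autoImplicit false

namespace MP7ed9c3.Tw

open NumberField IsDedekindDomain Filter Topology

namespace B2

open L9

variable {K : Type} [Field K] [NumberField K]

/-- the sum of `g` with the weights `nm v ^ (-(1 + x))` -/
noncomputable def Q (K : Type) [Field K] [NumberField K] (x : ℝ)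
    (g : HeightOneSpectrum (𝓞 K) → ℝ) : ℝ := ∑' v, g v * wt K x v

theorem bdd_mul {X : Type} {g h : X → ℝ} (hg : Bdd g) (hh : Bdd h) :
    Bdd fun x => g x * h x := by
  obtain ⟨B, hB⟩ := hg
  obtain ⟨B', hB'⟩ := hh
  refine ⟨B * B', fun x => ?_⟩
  rw [abs_mul]
  exact mul_le_mul (hB x) (hB' x) (abs_nonneg _) ((abs_nonneg _).trans (hB x))

theorem bdd_add {X : Type} {g h : X → ℝ} (hg : Bdd g) (hh : Bdd h) :
    Bdd fun x => g x + h x := by
  obtain ⟨B, hB⟩ := hg
  obtain ⟨B', hB'⟩ := hh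
  exact ⟨B + B', fun x => (abs_add_le _ _).trans (add_le_add (hB x) (hB' x))⟩

theorem bdd_smul {X : Type} {g : X → ℝ} (c : ℝ) (hg : Bdd g) :
    Bdd fun x => c * g x := bdd_mul ⟨|c|, fun _ => le_rfl⟩ hg

theorem bdd_sum {X ι : Type} (T : Finset ι) {g : ι → X → ℝ} (hg : ∀ i ∈ T, Bdd (g i)) :
    Bdd fun x => ∑ i ∈ T, g i x := by
  classical
  induction T using Finset.induction_on with
  | empty => exact ⟨0, fun x => by simp⟩
  | insert i T hi ih =>
    have h1 := bdd_add (hg i (Finset.mem_insert_self i T))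
      (ih fun j hj => hg j (Finset.mem_insert_of_mem hj))
    obtain ⟨B, hB⟩ := h1
    refine ⟨B, fun x => ?_⟩
    beta_reduce
    rw [Finset.sum_insert hi]
    exact hB x

theorem Q_add (d6 : S_ZetaSum) {x : ℝ} (hx : 0 < x) {g h : HeightOneSpectrum (𝓞 K) → ℝ}
    (hg : Bdd g) (hh : Bdd h) : Q K x (fun v => g v + h v) = Q K x g + Q K x h := by
  unfold Q
  rw [← (bdd_summable d6 hx hg).tsum_add (bdd_summable d6 hx hh)]
  exact tsum_congr fun v => by ring

theorem Q_smul {x : ℝ} (c : ℝ) (g : HeightOneSpectrum (𝓞 K) → ℝ) :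
    Q K x (fun v => c * g v) = c * Q K x g := by
  unfold Q
  rw [← tsum_mul_left]
  exact tsum_congr fun v => by ring

theorem Q_sum (d6 : S_ZetaSum) {x : ℝ} (hx : 0 < x) {ι : Type} (T : Finset ι)
    {g : ι → HeightOneSpectrum (𝓞 K) → ℝ} (hg : ∀ i ∈ T, Bdd (g i)) :
    Q K x (fun v => ∑ i ∈ T, g i v) = ∑ i ∈ T, Q K x (g i) := by
  classical
  induction T using Finset.induction_on with
  | empty => simp [Q]
  | insert i T hi ih =>
    rw [Finset.sum_insert hi, ← ih fun j hj => hg j (Finset.mem_insert_of_mem hj),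
      ← Q_add d6 hx (hg i (Finset.mem_insert_self i T))
        (bdd_sum T fun j hj => hg j (Finset.mem_insert_of_mem hj))]
    unfold Q
    exact tsum_congr fun v => by beta_reduce; rw [Finset.sum_insert hi]

theorem Q_mono (d6 : S_ZetaSum) {x : ℝ} (hx : 0 < x) {g h : HeightOneSpectrum (𝓞 K) → ℝ}
    (hg : Bdd g) (hh : Bdd h) (hgh : ∀ v, g v ≤ h v) : Q K x g ≤ Q K x h :=
  (bdd_summable d6 hx hg).tsum_le_tsum
    (fun v => mul_le_mul_of_nonneg_right (hgh v) (wt_nonneg x v)) (bdd_summable d6 hx hh)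

theorem Q_nonneg {x : ℝ} {g : HeightOneSpectrum (𝓞 K) → ℝ} (hg : ∀ v, 0 ≤ g v) :
    0 ≤ Q K x g := tsum_nonneg fun v => mul_nonneg (hg v) (wt_nonneg x v)

/-- the logarithm of the Euler product and the traces -/
theorem log_prod {E : WeierstrassCurve K} (hE : E.IsElliptic)
    {M : HeightOneSpectrum (𝓞 K) → WeierstrassCurve (𝓞 K)} (hM : ∀ v, IsMinAt E v (M v)) :
    ∃ C : ℝ, ∀ x t : ℝ, 0 < x → x ≤ 1 →
      |Real.log ‖∏' v : HeightOneSpectrum (𝓞 K),
          (locDen (M v) v (3 / 2 + x + t * Complex.I))⁻¹‖ -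
        Q K x (fun v => (tr (M v) v : ℝ) / √(nm v) * Real.cos (t * Real.log (nm v)))| ≤ C := by
  classical
  obtain ⟨C, hC⟩ := countPrimes K
  obtain ⟨S, hSfin, hgood, A, hA0, hA⟩ :=
    Z5.trace_const existsModel goodDataAll traceBoundAll hE hM
  obtain ⟨C', hC'⟩ := @eulerCos eulerLog sparseSums (HeightOneSpectrum (𝓞 K))
    (fun v => nm v) (fun v => tr (M v) v)
    (fun v => (M v).Δ ∉ v.asIdeal) (fun v => Classical.propDecidable _) C A hC
    (fun v => (traceBoundAll K (M v) v).1) hA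
  refine ⟨C', fun x t hx hx1 => ?_⟩
  have h1 := hC' x t hx hx1
  have e1 : ∏' v : HeightOneSpectrum (𝓞 K),
      (locDen (M v) v (3 / 2 + x + t * Complex.I))⁻¹ =
      ∏' v : HeightOneSpectrum (𝓞 K), (@eden (nm v) (tr (M v) v) ((M v).Δ ∉ v.asIdeal)
          (Classical.propDecidable _) (3 / 2 + x + t * Complex.I))⁻¹ := by
    refine tprod_congr fun v => ?_
    unfold locDen
    exact congrArg _ (Z5.eden_inst _ _ _)
  have e2 : Q K x (fun v => (tr (M v) v : ℝ) / √(nm v) * Real.cos (t * Real.log (nm v))) =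
      ∑' v : HeightOneSpectrum (𝓞 K), (tr (M v) v : ℝ) * (nm v : ℝ) ^ (-(3 / 2 + x)) *
        Real.cos (t * Real.log (nm v)) := by
    unfold Q
    refine tsum_congr fun v => ?_
    have hpos : (0 : ℝ) < nm v := by
      have := two_le_nm v
      exact_mod_cast (by omega : 0 < nm v)
    have h4 : (nm v : ℝ) ^ (-(3 / 2 + x)) = (√(nm v : ℝ))⁻¹ * wt K x v := by
      unfold wt
      rw [Real.sqrt_eq_rpow, ← Real.rpow_neg hpos.le, ← Real.rpow_add hpos]
      congr 1
      ring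
    rw [h4]
    ring
  rw [e1, e2]
  exact h1

/-- the pointwise identity -/
theorem square_identity {ι : Type} (T : Finset ι) (a c : ι → ℝ) (θ : ι → ℝ) (l : ℝ) :
    (l - ∑ z ∈ T, a z * (c z * Real.cos (θ z))) ^ 2 +
      (∑ z ∈ T, a z * (c z * Real.sin (θ z))) ^ 2 =
    l ^ 2 + (∑ z ∈ T, (-2 * a z) * (l * c z * Real.cos (θ z)) +
      ∑ z ∈ T, ∑ z' ∈ T, (a z * a z') * (c z * c z' * Real.cos (θ z - θ z'))) := by
  have h1 : ∑ z ∈ T, ∑ z' ∈ T, (a z * a z') * (c z * c z' * Real.cos (θ z - θ z')) =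
      (∑ z ∈ T, a z * (c z * Real.cos (θ z))) ^ 2 +
        (∑ z ∈ T, a z * (c z * Real.sin (θ z))) ^ 2 := by
    rw [pow_two, pow_two, Finset.sum_mul_sum, Finset.sum_mul_sum, ← Finset.sum_add_distrib]
    refine Finset.sum_congr rfl fun z _ => ?_
    rw [← Finset.sum_add_distrib]
    refine Finset.sum_congr rfl fun z' _ => ?_
    rw [Real.cos_sub]
    ring
  have h2 : ∑ z ∈ T, (-2 * a z) * (l * c z * Real.cos (θ z)) =
      -2 * l * ∑ z ∈ T, a z * (c z * Real.cos (θ z)) := by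
    rw [Finset.mul_sum]
    exact Finset.sum_congr rfl fun z _ => by ring
  rw [h1, h2]
  ring

end B2

/-- **B2.**  For the curves with a given j-invariant (different from `0` and `1728` if there is more
than one curve), the orders of all zeros and poles on the boundary line have sum of squares at
most 4. -/
def S_AllTwists : Prop :=
  ∀ (K : Type) [Field K] [NumberField K] (ι : Type) (E : ι → WeierstrassCurve K)
    [∀ i, (E i).IsElliptic], (∀ i j, i ≠ j → (E i).j = (E j).j ∧ (E i).j ≠ 0 ∧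
      (E i).j ≠ 1728 ∧ ¬ ∃ C : WeierstrassCurve.VariableChange K, C • E i = E j) →
    ∀ M : ι → HeightOneSpectrum (𝓞 K) → WeierstrassCurve (𝓞 K),
      (∀ i v, IsMinAt (E i) v (M i v)) →
    ∀ (T : Finset (ι × ℝ)) (ε : ι × ℝ → ℝ),
      (∀ z ∈ T, 0 ≤ ε z ∧ ∀ᶠ x : ℝ in 𝓝[>] 0, ε z * Real.log (1 / x) ≤
        |Real.log ‖∏' v : HeightOneSpectrum (𝓞 K),
          (locDen (M z.1 v) v (3 / 2 + x + z.2 * Complex.I))⁻¹‖|) →
      ∑ z ∈ T, ε z ^ 2 ≤ 4

open L9 B2 in
theorem allTwists (d6 : S_ZetaSum) (d7 : S_ZetaCosK) (w4 : S_GoodAlmost) (w6 : S_SplitSum)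
    (b1 : S_Family) : S_AllTwists := by
  classical
  intro K _ _ ι E _ hE M hM T ε hT
  rcases T.eq_empty_or_nonempty with rfl | ⟨z₀, hz₀⟩
  · simp
  obtain ⟨d, hd1, hd2, hd3⟩ := b1 K ι E hE z₀.1
  set i₀ := z₀.1 with hi₀
  obtain ⟨S₁, hS₁, hg₁⟩ := w4 K (E i₀) inferInstance
  -- the characters
  obtain ⟨χ, hχ⟩ : ∃ χ : ι → HeightOneSpectrum (𝓞 K) → ℝ, ∀ i v, χ i v =
      if i = i₀ then 1 else chiv (d i) v := ⟨_, fun i v => rfl⟩
  have hχ0 : ∀ v, χ i₀ v = 1 := fun v => by rw [hχ, if_pos rfl]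
  have hχ1 : ∀ i, i ≠ i₀ → ∀ v, χ i v = chiv (d i) v := fun i hi v => by rw [hχ, if_neg hi]
  have hχb : ∀ i v, |χ i v| ≤ 1 := by
    intro i v
    rw [hχ]
    split_ifs
    · simp
    · exact abs_chiv _ _
  have hχB : ∀ i, Bdd (χ i) := fun i => ⟨1, hχb i⟩
  have hcB : ∀ t : ℝ, Bdd fun v : HeightOneSpectrum (𝓞 K) => Real.cos (t * Real.log (nm v)) :=
    fun t => ⟨1, fun v => Real.abs_cos_le_one _⟩
  -- the normalized traces
  obtain ⟨l, hldef⟩ : ∃ l : HeightOneSpectrum (𝓞 K) → ℝ, ∀ v, l v =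
    if v ∈ S₁ then 0 else (tr (M i₀ v) v : ℝ) / √(nm v) := ⟨_, fun v => rfl⟩
  have hl : ∀ v ∉ S₁, l v = (tr (M i₀ v) v : ℝ) / √(nm v) := fun v hv => by
    rw [hldef, if_neg hv]
  have hl2 : ∀ v, |l v| ≤ 2 := by
    intro v
    by_cases hv : v ∈ S₁
    · rw [hldef, if_pos hv]
      norm_num
    · rw [hl v hv, abs_div, abs_of_nonneg (Real.sqrt_nonneg _)]
      have hpos : (0 : ℝ) < √(nm v) := by
        apply Real.sqrt_pos.2
        have := two_le_nm v
        exact_mod_cast (by omega : 0 < nm v)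
      rw [div_le_iff₀ hpos]
      exact (hg₁ v hv (M i₀ v) (hM i₀ v)).2
  have hlB : Bdd l := ⟨2, hl2⟩
  -- the total mass
  obtain ⟨C₀, hC₀⟩ := (d7 K).1
  have hone : ∀ x : ℝ, 0 < x → x ≤ 1 → Q K x (fun _ => 1) ≤ Real.log (1 / x) + C₀ := by
    intro x hx hx1
    have h1 := hC₀ x hx hx1
    rw [primeSum_zero] at h1
    have h2 : Q K x (fun _ => 1) = ∑' v : HeightOneSpectrum (𝓞 K), wt K x v := by
      unfold Q
      exact tsum_congr fun v => one_mul _
    rw [h2]
    linarith [(abs_le.1 h1).2]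
  -- the traces of the family
  have hG : ∀ z : ι × ℝ, ∃ C : ℝ, ∀ x : ℝ, 0 < x → x ≤ 1 →
      |Real.log ‖∏' v : HeightOneSpectrum (𝓞 K),
          (locDen (M z.1 v) v (3 / 2 + x + z.2 * Complex.I))⁻¹‖ -
        Q K x (fun v => l v * χ z.1 v * Real.cos (z.2 * Real.log (nm v)))| ≤ C := by
    intro z
    obtain ⟨C₁, hC₁⟩ := log_prod (E := E z.1) inferInstance (hM z.1)
    have hS : ∃ S : Set (HeightOneSpectrum (𝓞 K)), S.Finite ∧ ∀ v ∉ S,
        (tr (M z.1 v) v : ℝ) / √(nm v) = l v * χ z.1 v := by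
      by_cases hz : z.1 = i₀
      · refine ⟨S₁, hS₁, fun v hv => ?_⟩
        rw [hz, hχ0, mul_one, hl v hv]
      · obtain ⟨S, hS, h1⟩ := hd3 z.1 hz
        refine ⟨S ∪ S₁, hS.union hS₁, fun v hv => ?_⟩
        have hv1 : v ∉ S := fun h => hv (Or.inl h)
        have hv2 : v ∉ S₁ := fun h => hv (Or.inr h)
        rw [(h1 v hv1).2 (M i₀ v) (M z.1 v) (hM i₀ v) (hM z.1 v), hl v hv2, hχ1 z.1 hz v]
        ring
    obtain ⟨S, hSf, hS⟩ := hS
    obtain ⟨C₂, hC₂⟩ := fin_mod d6 hSf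
      (g := fun v => (tr (M z.1 v) v : ℝ) / √(nm v) * Real.cos (z.2 * Real.log (nm v)))
      (g' := fun v => l v * χ z.1 v * Real.cos (z.2 * Real.log (nm v)))
      (bdd_mul (bdd_mul hlB (hχB _)) (hcB _)) (fun v hv => by
        show _ / _ * _ = _ * _ * _
        rw [hS v hv])
    refine ⟨C₁ + C₂, fun x hx hx1 => ?_⟩
    have h1 := hC₁ x z.2 hx hx1
    have h2 := hC₂ x hx
    unfold Q at *
    rw [abs_le] at *
    constructor <;> linarith [h1.1, h1.2, h2.1, h2.2]
  choose CG hCG using hG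
  -- the Gram matrix
  have hH : ∀ z z' : ι × ℝ, ∃ C : ℝ, 0 ≤ C ∧ ∀ x : ℝ, 0 < x → x ≤ 1 →
      |Q K x (fun v => χ z.1 v * χ z'.1 v *
        Real.cos (z.2 * Real.log (nm v) - z'.2 * Real.log (nm v)))| ≤
        (if z = z' then Real.log (1 / x) else 0) + C := by
    intro z z'
    have hcos : (fun v : HeightOneSpectrum (𝓞 K) => χ z.1 v * χ z'.1 v *
        Real.cos (z.2 * Real.log (nm v) - z'.2 * Real.log (nm v))) =
        fun v => (χ z.1 v * χ z'.1 v) * Real.cos ((z.2 - z'.2) * Real.log (nm v)) := by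
      funext v
      rw [sub_mul]
    rw [hcos]
    by_cases hzz : z = z'
    · refine ⟨|C₀|, abs_nonneg _, fun x hx hx1 => ?_⟩
      rw [if_pos hzz]
      have hb : ∀ v : HeightOneSpectrum (𝓞 K),
          |(χ z.1 v * χ z'.1 v) * Real.cos ((z.2 - z'.2) * Real.log (nm v))| ≤ 1 := by
        intro v
        rw [abs_mul, abs_mul]
        exact mul_le_one₀ (mul_le_one₀ (hχb _ _) (abs_nonneg _) (hχb _ _)) (abs_nonneg _)
          (Real.abs_cos_le_one _)
      have h3 := hone x hx hx1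
      have h4 : |C₀| ≥ C₀ := le_abs_self _
      rw [abs_le]
      constructor
      · have h5 := Q_mono d6 hx (g := fun _ => -1) (h := fun v =>
          (χ z.1 v * χ z'.1 v) * Real.cos ((z.2 - z'.2) * Real.log (nm v)))
          ⟨1, fun _ => by simp⟩ ⟨1, hb⟩ (fun v => (abs_le.1 (hb v)).1)
        have h6 : Q K x (fun _ => (-1 : ℝ)) = -Q K x (fun _ => 1) := by
          have := Q_smul (K := K) (x := x) (-1) (fun _ => (1 : ℝ))
          simpa using this
        rw [h6] at h5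
        linarith
      · have h5 := Q_mono d6 hx (g := fun v =>
          (χ z.1 v * χ z'.1 v) * Real.cos ((z.2 - z'.2) * Real.log (nm v))) (h := fun _ => 1)
          ⟨1, hb⟩ ⟨1, fun _ => by simp⟩ (fun v => (abs_le.1 (hb v)).2)
        linarith
    · -- bounded sums
      suffices h : ∃ C : ℝ, ∀ x : ℝ, 0 < x → x ≤ 1 →
          |Q K x (fun v => (χ z.1 v * χ z'.1 v) *
            Real.cos ((z.2 - z'.2) * Real.log (nm v)))| ≤ C by
        obtain ⟨C, hC⟩ := h
        refine ⟨|C|, abs_nonneg _, fun x hx hx1 => ?_⟩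
        rw [if_neg hzz, zero_add]
        exact (hC x hx hx1).trans (le_abs_self C)
      by_cases h1 : z.1 = z'.1
      · have hu : z.2 - z'.2 ≠ 0 := fun h =>
          hzz (Prod.ext h1 (sub_eq_zero.1 h))
        obtain ⟨C₁, hC₁⟩ := (d7 K).2 (z.2 - z'.2) hu
        have hS : ∃ S : Set (HeightOneSpectrum (𝓞 K)), S.Finite ∧ ∀ v ∉ S,
            χ z.1 v * χ z'.1 v = 1 := by
          by_cases hz : z.1 = i₀
          · refine ⟨∅, Set.finite_empty, fun v _ => ?_⟩
            rw [← h1, hz, hχ0, mul_one]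
          · obtain ⟨S, hS, h2⟩ := hd3 z.1 hz
            refine ⟨S, hS, fun v hv => ?_⟩
            rw [← h1, hχ1 z.1 hz v]
            rcases chiv_pm (h2 v hv).1 with h | h <;> rw [h] <;> norm_num
        obtain ⟨S, hSf, hS⟩ := hS
        obtain ⟨C₂, hC₂⟩ := fin_mod d6 hSf
          (g := fun v => (χ z.1 v * χ z'.1 v) * Real.cos ((z.2 - z'.2) * Real.log (nm v)))
          (g' := fun v => Real.cos ((z.2 - z'.2) * Real.log (nm v))) (hcB _)
          (fun v hv => by show _ * _ * _ = _; rw [hS v hv, one_mul])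
        refine ⟨C₁ + C₂, fun x hx hx1 => ?_⟩
        have h3 := hC₁ x hx hx1
        have h4 := hC₂ x hx
        rw [primeSum_eq] at h3
        unfold Q
        rw [abs_le] at *
        constructor <;> linarith [h3.1, h3.2, h4.1, h4.2]
      · by_cases hz : z.1 = i₀
        · have hz' : z'.1 ≠ i₀ := fun h => h1 (hz.trans h.symm)
          obtain ⟨C, hC⟩ := chi_sum d6 d7 w6 (hd1 z'.1 hz') (z.2 - z'.2)
          refine ⟨C, fun x hx hx1 => ?_⟩
          have h3 := hC x hx hx1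
          unfold Q
          have e : (fun v : HeightOneSpectrum (𝓞 K) => (χ z.1 v * χ z'.1 v) *
              Real.cos ((z.2 - z'.2) * Real.log (nm v)) * wt K x v) = fun v =>
              (chiv (d z'.1) v * Real.cos ((z.2 - z'.2) * Real.log (nm v))) * wt K x v := by
            funext v
            rw [hz, hχ0, hχ1 _ hz', one_mul]
          rw [e]
          exact h3
        · by_cases hz' : z'.1 = i₀
          · obtain ⟨C, hC⟩ := chi_sum d6 d7 w6 (hd1 z.1 hz) (z.2 - z'.2)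
            refine ⟨C, fun x hx hx1 => ?_⟩
            have h3 := hC x hx hx1
            unfold Q
            have e : (fun v : HeightOneSpectrum (𝓞 K) => (χ z.1 v * χ z'.1 v) *
                Real.cos ((z.2 - z'.2) * Real.log (nm v)) * wt K x v) = fun v =>
                (chiv (d z.1) v * Real.cos ((z.2 - z'.2) * Real.log (nm v))) * wt K x v := by
              funext v
              rw [hz', hχ0, hχ1 _ hz, mul_one]
            rw [e]
            exact h3
          · obtain ⟨C, hC⟩ := chi_sum d6 d7 w6 (hd2 z.1 z'.1 h1 hz hz') (z.2 - z'.2)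
            refine ⟨C, fun x hx hx1 => ?_⟩
            have h3 := hC x hx hx1
            unfold Q
            have e : (fun v : HeightOneSpectrum (𝓞 K) => (χ z.1 v * χ z'.1 v) *
                Real.cos ((z.2 - z'.2) * Real.log (nm v)) * wt K x v) = fun v =>
                (chiv (d z.1 * d z'.1) v * Real.cos ((z.2 - z'.2) * Real.log (nm v))) *
                  wt K x v := by
              funext v
              rw [hχ1 _ hz, hχ1 _ hz', B1.chiv_mul]
            rw [e]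
            exact h3
  choose CH hCH0 hCH using hH
  -- the final inequality
  set s : ℝ := ∑ z ∈ T, ε z ^ 2 with hs
  by_contra hcon
  have hcon' : 4 < s := not_le.1 hcon
  set D : ℝ := 4 * C₀ + 2 * ∑ z ∈ T, ε z * CG z + ∑ z ∈ T, ∑ z' ∈ T, ε z * ε z' * CH z z'
    with hD
  have hlog : Tendsto (fun x : ℝ => Real.log (1 / x)) (𝓝[>] 0) atTop := by
    have h1 : Tendsto (fun x : ℝ => x⁻¹) (𝓝[>] 0) atTop := tendsto_inv_nhdsGT_zero
    have h2 := Real.tendsto_log_atTop.comp h1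
    refine h2.congr fun x => ?_
    simp [one_div]
  have hev : ∀ᶠ x : ℝ in 𝓝[>] 0, (∀ z ∈ T, ε z * Real.log (1 / x) ≤
        |Real.log ‖∏' v : HeightOneSpectrum (𝓞 K),
          (locDen (M z.1 v) v (3 / 2 + x + z.2 * Complex.I))⁻¹‖|) ∧
      D / (s - 4) < Real.log (1 / x) ∧ 0 < x ∧ x ≤ 1 := by
    have h1 : Set.Iic (1 : ℝ) ∈ 𝓝[>] (0 : ℝ) :=
      mem_nhdsWithin_of_mem_nhds (Iic_mem_nhds zero_lt_one)
    filter_upwards [(Filter.eventually_all_finset T).2 fun z hz => (hT z hz).2,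
      hlog.eventually_gt_atTop (D / (s - 4)), self_mem_nhdsWithin, h1] with x a1 a2 a3 a4
    exact ⟨a1, a2, a3, a4⟩
  obtain ⟨x, hx1, hx2, hx3, hx4⟩ := hev.exists
  set Λ := Real.log (1 / x) with hΛ
  -- the coefficients
  set G : ι × ℝ → ℝ := fun z =>
    Q K x (fun v => l v * χ z.1 v * Real.cos (z.2 * Real.log (nm v))) with hGdef
  obtain ⟨a, ha⟩ : ∃ a : ι × ℝ → ℝ, ∀ z, a z = if 0 ≤ G z then ε z else -ε z :=
    ⟨_, fun z => rfl⟩
  have haG : ∀ z ∈ T, ε z * (ε z * Λ - CG z) ≤ a z * G z := by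
    intro z hz
    have h1 := hx1 z hz
    have h2 := hCG z x hx3 hx4
    have h3 : ε z * Λ - CG z ≤ |G z| := by
      have h4 : |Real.log ‖∏' v : HeightOneSpectrum (𝓞 K),
          (locDen (M z.1 v) v (3 / 2 + x + z.2 * Complex.I))⁻¹‖| ≤ CG z + |G z| := by
        have h5 := abs_add_le (Real.log ‖∏' v : HeightOneSpectrum (𝓞 K),
          (locDen (M z.1 v) v (3 / 2 + x + z.2 * Complex.I))⁻¹‖ - G z) (G z)
        rw [sub_add_cancel] at h5
        linarith
      linarith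
    have h4 : a z * G z = ε z * |G z| := by
      rw [ha]
      split_ifs with h5
      · rw [abs_of_nonneg h5]
      · rw [abs_of_neg (not_le.1 h5)]
        ring
    rw [h4]
    exact mul_le_mul_of_nonneg_left h3 (hT z hz).1
  have haa : ∀ z ∈ T, |a z| = ε z := by
    intro z hz
    rw [ha]
    split_ifs
    · exact abs_of_nonneg (hT z hz).1
    · rw [abs_neg]
      exact abs_of_nonneg (hT z hz).1
  have hpos := Q_nonneg (K := K) (x := x) (g := fun v =>
      (l v - ∑ z ∈ T, a z * (χ z.1 v * Real.cos (z.2 * Real.log (nm v)))) ^ 2 +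
      (∑ z ∈ T, a z * (χ z.1 v * Real.sin (z.2 * Real.log (nm v)))) ^ 2)
    (fun v => add_nonneg (sq_nonneg _) (sq_nonneg _))
  have hexp : (fun v : HeightOneSpectrum (𝓞 K) =>
      (l v - ∑ z ∈ T, a z * (χ z.1 v * Real.cos (z.2 * Real.log (nm v)))) ^ 2 +
      (∑ z ∈ T, a z * (χ z.1 v * Real.sin (z.2 * Real.log (nm v)))) ^ 2) = fun v =>
      l v ^ 2 + (∑ z ∈ T, (-2 * a z) * (l v * χ z.1 v * Real.cos (z.2 * Real.log (nm v))) +
        ∑ z ∈ T, ∑ z' ∈ T, (a z * a z') * (χ z.1 v * χ z'.1 v *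
          Real.cos (z.2 * Real.log (nm v) - z'.2 * Real.log (nm v)))) := by
    funext v
    exact square_identity T a (fun z => χ z.1 v) (fun z => z.2 * Real.log (nm v)) (l v)
  rw [hexp] at hpos
  have hb1 : ∀ z : ι × ℝ, Bdd fun v : HeightOneSpectrum (𝓞 K) =>
      (-2 * a z) * (l v * χ z.1 v * Real.cos (z.2 * Real.log (nm v))) := fun z =>
    bdd_smul _ (bdd_mul (bdd_mul hlB (hχB _)) (hcB _))
  have hb2 : ∀ z z' : ι × ℝ, Bdd fun v : HeightOneSpectrum (𝓞 K) =>
      (a z * a z') * (χ z.1 v * χ z'.1 v *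
          Real.cos (z.2 * Real.log (nm v) - z'.2 * Real.log (nm v))) := fun z z' =>
    bdd_smul _ (bdd_mul (bdd_mul (hχB _) (hχB _)) ⟨1, fun v => Real.abs_cos_le_one _⟩)
  have hb3 : Bdd fun v : HeightOneSpectrum (𝓞 K) => l v ^ 2 := by
    refine ⟨4, fun v => ?_⟩
    have := hl2 v
    rw [abs_of_nonneg (sq_nonneg _)]
    nlinarith [abs_le.1 this, (abs_le.1 this).1, (abs_le.1 this).2]
  rw [Q_add d6 hx3 hb3 (bdd_add (bdd_sum T fun z _ => hb1 z)
      (bdd_sum T fun z _ => bdd_sum T fun z' _ => hb2 z z')),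
    Q_add d6 hx3 (bdd_sum T fun z _ => hb1 z)
      (bdd_sum T fun z _ => bdd_sum T fun z' _ => hb2 z z'),
    Q_sum d6 hx3 T (fun z _ => hb1 z),
    Q_sum d6 hx3 T (fun z _ => bdd_sum T fun z' _ => hb2 z z')] at hpos
  have e1 : ∑ z ∈ T, Q K x (fun v =>
      (-2 * a z) * (l v * χ z.1 v * Real.cos (z.2 * Real.log (nm v)))) =
      -2 * ∑ z ∈ T, a z * G z := by
    rw [Finset.mul_sum]
    refine Finset.sum_congr rfl fun z _ => ?_
    rw [Q_smul]
    ring
  have e2 : ∑ z ∈ T, Q K x (fun v => ∑ z' ∈ T, (a z * a z') * (χ z.1 v * χ z'.1 v *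
          Real.cos (z.2 * Real.log (nm v) - z'.2 * Real.log (nm v)))) =
      ∑ z ∈ T, ∑ z' ∈ T, (a z * a z') * Q K x (fun v => χ z.1 v * χ z'.1 v *
          Real.cos (z.2 * Real.log (nm v) - z'.2 * Real.log (nm v))) := by
    refine Finset.sum_congr rfl fun z _ => ?_
    rw [Q_sum d6 hx3 T (fun z' _ => hb2 z z')]
    refine Finset.sum_congr rfl fun z' _ => ?_
    rw [Q_smul]
  rw [e1, e2] at hpos
  have f1 : Q K x (fun v => l v ^ 2) ≤ 4 * (Λ + C₀) := by
    have h1 := Q_mono d6 hx3 (h := fun _ => 4 * 1) hb3 ⟨4, fun _ => by norm_num⟩ (fun v => by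
      have := hl2 v
      nlinarith [abs_le.1 this, (abs_le.1 this).1, (abs_le.1 this).2])
    rw [Q_smul] at h1
    have h2 := hone x hx3 hx4
    linarith
  have f2 : ∑ z ∈ T, ε z * (ε z * Λ - CG z) ≤ ∑ z ∈ T, a z * G z := Finset.sum_le_sum haG
  have f2' : ∑ z ∈ T, ε z * (ε z * Λ - CG z) = s * Λ - ∑ z ∈ T, ε z * CG z := by
    rw [hs, Finset.sum_mul, ← Finset.sum_sub_distrib]
    refine Finset.sum_congr rfl fun z _ => ?_
    ring
  have f3 : ∑ z ∈ T, ∑ z' ∈ T, (a z * a z') * Q K x (fun v => χ z.1 v * χ z'.1 v *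
          Real.cos (z.2 * Real.log (nm v) - z'.2 * Real.log (nm v))) ≤
      ∑ z ∈ T, ∑ z' ∈ T, (ε z * ε z') * ((if z = z' then Λ else 0) + CH z z') := by
    refine Finset.sum_le_sum fun z hz => Finset.sum_le_sum fun z' hz' => ?_
    refine (le_abs_self _).trans ?_
    rw [abs_mul, abs_mul, haa z hz, haa z' hz']
    exact mul_le_mul_of_nonneg_left (hCH z z' x hx3 hx4)
      (mul_nonneg (hT z hz).1 (hT z' hz').1)
  have f3' : ∑ z ∈ T, ∑ z' ∈ T, (ε z * ε z') * ((if z = z' then Λ else 0) + CH z z') =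
      s * Λ + ∑ z ∈ T, ∑ z' ∈ T, ε z * ε z' * CH z z' := by
    rw [hs, Finset.sum_mul, ← Finset.sum_add_distrib]
    refine Finset.sum_congr rfl fun z hz => ?_
    have h1 : ∑ z' ∈ T, (ε z * ε z') * (if z = z' then Λ else 0) = ε z ^ 2 * Λ := by
      rw [Finset.sum_eq_single z]
      · rw [if_pos rfl]
        ring
      · intro z' _ hne
        rw [if_neg (Ne.symm hne), mul_zero]
      · intro h
        exact absurd hz h
    rw [← h1, ← Finset.sum_add_distrib]
    exact Finset.sum_congr rfl fun z' _ => by ring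
  have g1 : 0 ≤ 4 * (Λ + C₀) + (-2 * (s * Λ - ∑ z ∈ T, ε z * CG z) +
      (s * Λ + ∑ z ∈ T, ∑ z' ∈ T, ε z * ε z' * CH z z')) := by
    rw [← f2', ← f3']
    linarith
  have g2 : (s - 4) * Λ ≤ D := by
    rw [hD]
    linarith
  have g3 : D < (s - 4) * Λ := by
    rw [div_lt_iff₀ (by linarith : (0:ℝ) < s - 4)] at hx2
    linarith
  linarith

end MP7ed9c3.Tw
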