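import Pool.Agent.Lib.MP_7ed9c3_nt.Tw.All
import Pool.Agent.Lib.MP_7ed9c3_nt.Tw.B2

/-!
# MP_7ed9c3_nt, part Tw: assembly of the Bessel inequality
-/

set_option autoImplicit false

namespace MP7ed9c3.Tw

theorem allTwistsAll : S_AllTwists :=
  allTwists zetaSum zetaCosKAll goodAlmost splitSumAll (family twistForm finTwist)

end MP7ed9c3.Tw
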