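import Pool.Agent.Lib.MP_7ed9c3_nt.Tw.SpecW
import Pool.Agent.Lib.MP_7ed9c3_nt.AllZ

/-!
# MP_7ed9c3_nt, part Tw, W8: the order of vanishing and the sum over primes
-/

set_option autoImplicit false

namespace MP7ed9c3.Tw

open NumberField IsDedekindDomain Filter Topology

namespace W8

/-- The Euler product does not vanish to the right of the boundary line. -/
theorem prod_ne_zero {ι : Type} {N : ι → ℕ} {a : ι → ℤ} (good : ι → Prop)
    [∀ i, Decidable (good i)] {C A : ℝ} (hN : Sparse N C) (haN : ∀ i, |(a i : ℝ)| ≤ N i)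
    (haA : ∀ i, |(a i : ℝ)| ≤ A * √(N i)) (x t : ℝ) (hx : 0 < x) :
    ∏' i, (eden (N i) (a i) (good i) (3 / 2 + x + t * Complex.I))⁻¹ ≠ 0 := by
  have hA' : ∀ i, |(a i : ℝ)| ≤ |A| * √(N i) := fun i =>
    (haA i).trans (mul_le_mul_of_nonneg_right (le_abs_self A) (Real.sqrt_nonneg _))
  set C₁ : ℝ := 12 * (|A| + 1 / 2) ^ 2 + 1 with hC₁
  have hlog : ∀ i (s : ℂ), 3 / 2 ≤ s.re → eden (N i) (a i) (good i) s ≠ 0 ∧
      ‖a9E N a good i s‖ ≤ C₁ / (N i : ℝ) ^ 2 := fun i s hs =>
    (eulerLog (N i) (a i) (good i) |A| (hN.1 i) (haN i) (hA' i)).1 s hs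
  have hsum := a9_summable sparseSums hN C₁
  set s : ℂ := 3 / 2 + x + t * Complex.I with hs
  have hsre : 3 / 2 ≤ s.re := by
    have : s.re = 3 / 2 + x := by simp [hs]
    rw [this]
    linarith
  have hS : Summable fun i => (a i : ℂ) * (N i : ℂ) ^ (-s) :=
    Z2.summable_main sparseSums hN haA x t hx
  have hE : Summable fun i => a9E N a good i s :=
    Summable.of_norm_bounded hsum fun i => (hlog i s hsre).2
  have hhs := hS.hasSum.add hE.hasSum
  have hfun : (fun i => (a i : ℂ) * (N i : ℂ) ^ (-s) + a9E N a good i s) =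
      fun i => -Complex.log (eden (N i) (a i) (good i) s) := by
    funext i
    rw [a9E]
    ring
  rw [hfun] at hhs
  have hprod := hhs.cexp
  have hfun2 : (Complex.exp ∘ fun i => -Complex.log (eden (N i) (a i) (good i) s)) =
      fun i => (eden (N i) (a i) (good i) s)⁻¹ := by
    funext i
    simp only [Function.comp_apply]
    rw [Complex.exp_neg, Complex.exp_log (hlog i s hsre).1]
  rw [hfun2] at hprod
  rw [hprod.tprod_eq]
  exact Complex.exp_ne_zero _

/-- The behaviour of an entire function to the right of a point. -/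
theorem bounded (F : ℂ → ℂ) (hF : Differentiable ℂ F) (s : ℂ)
    (hne : ∀ x : ℝ, 0 < x → F (s + x) ≠ 0) :
    analyticOrderAt F s ≠ ⊤ ∧ ∃ C : ℝ, ∀ x : ℝ, 0 < x → x ≤ 1 →
      |Real.log ‖F (s + x)‖ + (analyticOrderNatAt F s : ℝ) * Real.log (1 / x)| ≤ C := by
  have hcp : Continuous fun x : ℝ => s + (x : ℂ) := by fun_prop
  have hpath : Tendsto (fun x : ℝ => s + (x : ℂ)) (𝓝[>] 0) (𝓝 s) := by
    have h2 := (hcp.tendsto 0).mono_left (nhdsWithin_le_nhds (s := Set.Ioi (0 : ℝ)))
    simpa using h2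
  have hfin : analyticOrderAt F s ≠ ⊤ := by
    intro h
    rw [analyticOrderAt_eq_top] at h
    obtain ⟨x, h1, h2⟩ := ((hpath.eventually h).and self_mem_nhdsWithin).exists
    exact hne x h2 h1
  refine ⟨hfin, ?_⟩
  have han : AnalyticAt ℂ F s := hF.analyticAt s
  obtain ⟨g, hg, hg0, hFg⟩ :=
    han.analyticOrderAt_eq_natCast.1 (Nat.cast_analyticOrderNatAt hfin).symm
  set m : ℕ := analyticOrderNatAt F s with hm
  have hgc : Tendsto (fun x : ℝ => Real.log ‖g (s + (x : ℂ))‖) (𝓝[>] 0)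
      (𝓝 (Real.log ‖g s‖)) := by
    have h2 := (hg.continuousAt.tendsto.comp hpath).norm
    exact h2.log (by simpa using hg0)
  have hbd : ∀ᶠ x : ℝ in 𝓝[>] 0, |Real.log ‖g (s + (x : ℂ))‖| ≤ |Real.log ‖g s‖| + 1 := by
    have h1 := hgc.abs
    have h2 : |Real.log ‖g s‖| < |Real.log ‖g s‖| + 1 := by linarith
    exact (h1.eventually_lt_const h2).mono fun x hx => hx.le
  have hnear : ∀ᶠ x : ℝ in 𝓝[>] 0,
      |Real.log ‖F (s + x)‖ + (m : ℝ) * Real.log (1 / x)| ≤ |Real.log ‖g s‖| + 1 := by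
    filter_upwards [hpath.eventually hFg, hbd, self_mem_nhdsWithin] with x h1 h2 h4
    have hx : (0 : ℝ) < x := h4
    have hFx := hne x hx
    have h7 : s + (x : ℂ) - s = (x : ℂ) := by ring
    rw [h7] at h1
    have hgx : g (s + (x : ℂ)) ≠ 0 := by
      intro h8
      rw [h8, smul_zero] at h1
      exact hFx h1
    have h9 : Real.log ‖F (s + x)‖ + (m : ℝ) * Real.log (1 / x) =
        Real.log ‖g (s + (x : ℂ))‖ := by
      rw [h1, smul_eq_mul, norm_mul, norm_pow, Complex.norm_real, Real.norm_eq_abs,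
        abs_of_pos hx, Real.log_mul (pow_ne_zero _ hx.ne') (norm_ne_zero_iff.2 hgx),
        Real.log_pow, one_div, Real.log_inv]
      ring
    rw [h9]
    exact h2
  obtain ⟨δ, hδ, hnear'⟩ := ((nhdsGT_basis (0 : ℝ)).eventually_iff).1 hnear
  have hcont : ContinuousOn
      (fun x : ℝ => Real.log ‖F (s + x)‖ + (m : ℝ) * Real.log (1 / x)) (Set.Icc δ 1) := by
    apply ContinuousOn.add
    · apply ContinuousOn.log
      · exact ((hF.continuous.comp hcp).norm).continuousOn
      · intro x hx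
        exact norm_ne_zero_iff.2 (hne x (lt_of_lt_of_le hδ hx.1))
    · apply ContinuousOn.mul continuousOn_const
      apply ContinuousOn.log
      · apply ContinuousOn.div continuousOn_const continuousOn_id
        intro x hx
        exact (lt_of_lt_of_le hδ hx.1).ne'
      · intro x hx
        have : 0 < x := lt_of_lt_of_le hδ hx.1
        positivity
  obtain ⟨C, hC⟩ := isCompact_Icc.exists_bound_of_continuousOn hcont
  refine ⟨max C (|Real.log ‖g s‖| + 1), fun x hx hx1 => ?_⟩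
  by_cases hxδ : x < δ
  · exact (hnear' ⟨hx, hxδ⟩).trans (le_max_right _ _)
  · exact (hC x ⟨not_lt.1 hxδ, hx1⟩).trans (le_max_left _ _)

end W8

/-- **W8.** -/
theorem order : S_Order := by
  classical
  intro K _ _ E hE M hM F hFd hF t
  obtain ⟨C, hC⟩ := countPrimes K
  obtain ⟨S, hSfin, hgood, A, hA0, hA⟩ :=
    Z5.trace_const existsModel goodDataAll traceBoundAll hE hM
  obtain ⟨C', hC'⟩ := @eulerCos eulerLog sparseSums (HeightOneSpectrum (𝓞 K))
    (fun v => nm v) (fun v => tr (M v) v)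
    (fun v => (M v).Δ ∉ v.asIdeal) (fun v => Classical.propDecidable _) C A hC
    (fun v => (traceBoundAll K (M v) v).1) hA
  have hprod : ∀ x : ℝ, 0 < x → F (3 / 2 + t * Complex.I + x) =
      ∏' v : HeightOneSpectrum (𝓞 K), (@eden (nm v) (tr (M v) v) ((M v).Δ ∉ v.asIdeal)
          (Classical.propDecidable _) (3 / 2 + x + t * Complex.I))⁻¹ := by
    intro x hx
    have h3 : (3 / 2 + (t : ℂ) * Complex.I + (x : ℂ)) = 3 / 2 + x + t * Complex.I := by ring
    have hre : 3 / 2 < (3 / 2 + (x : ℂ) + t * Complex.I).re := by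
      simp [hx]
    rw [h3, hF _ hre]
    refine tprod_congr fun v => ?_
    unfold locDen
    exact congrArg _ (Z5.eden_inst _ _ _)
  have hne : ∀ x : ℝ, 0 < x → F (3 / 2 + t * Complex.I + x) ≠ 0 := by
    intro x hx
    rw [hprod x hx]
    exact @W8.prod_ne_zero (HeightOneSpectrum (𝓞 K)) (fun v => nm v) (fun v => tr (M v) v)
      (fun v => (M v).Δ ∉ v.asIdeal) (fun v => Classical.propDecidable _) C A hC
      (fun v => (traceBoundAll K (M v) v).1) hA x t hx
  obtain ⟨hfin, C'', hC''⟩ := W8.bounded F hFd (3 / 2 + t * Complex.I) hne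
  refine ⟨hfin, C' + C'', fun x hx hx1 => ?_⟩
  have h1 := hC' x t hx hx1
  have h2 := hC'' x hx hx1
  rw [hprod x hx] at h2
  rw [abs_le] at h1 h2 ⊢
  constructor
  · linarith [h1.2, h2.1]
  · linarith [h1.1, h2.2]

end MP7ed9c3.Tw
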