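import Pool.Agent.Lib.MP_7ed9c3_nt.Tw.SpecW
import Pool.Agent.Lib.MP_7ed9c3_nt.N3
import Pool.Agent.Lib.MP_7ed9c3_nt.N5
import Pool.Agent.Lib.MP_7ed9c3_nt.H1

/-!
# MP_7ed9c3_nt, part Tw: W3, traces of curves with the same j-invariant
-/

set_option autoImplicit false

namespace MP7ed9c3.Tw

open NumberField IsDedekindDomain Filter Topology

namespace W3

theorem affCount_short {F : Type} [CommRing F] (a b : F) :
    affCount (short a b) = Nat.card {p : F × F // p.2 ^ 2 = p.1 ^ 3 + a * p.1 + b} := by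
  unfold affCount
  refine Nat.card_congr (Equiv.subtypeEquivRight fun p => ?_)
  simp [short]

theorem red_short {K : Type} [Field K] [NumberField K] (A B : 𝓞 K)
    (v : HeightOneSpectrum (𝓞 K)) :
    red (short A B) v =
      short (Ideal.Quotient.mk v.asIdeal A) (Ideal.Quotient.mk v.asIdeal B) := by
  unfold red short
  ext <;> simp

theorem Δ_short {R : Type} [CommRing R] (A B : R) :
    (short A B).Δ = -(16 * (4 * A ^ 3 + 27 * B ^ 2)) := by
  simp only [short, WeierstrassCurve.Δ, WeierstrassCurve.b₂, WeierstrassCurve.b₄,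
    WeierstrassCurve.b₆, WeierstrassCurve.b₈]
  ring

theorem Δ_tw {R : Type} [CommRing R] (A B d : R) :
    (short (A * d ^ 2) (B * d ^ 3)).Δ = d ^ 6 * (short A B).Δ := by
  rw [Δ_short, Δ_short]
  ring

theorem square_case {K : Type} [Field K] [NumberField K] (A B d : 𝓞 K) (hd : d ≠ 0)
    (hsq : IsSquare (d : K)) : ∃ C : WeierstrassCurve.VariableChange K,
      C • (short A B).map (algebraMap (𝓞 K) K) =
        (short (A * d ^ 2) (B * d ^ 3)).map (algebraMap (𝓞 K) K) := by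
  obtain ⟨e, he⟩ := hsq
  have hd0 : (d : K) ≠ 0 := by
    intro h
    exact hd (by exact_mod_cast h)
  have he0 : e ≠ 0 := by
    rintro rfl
    exact hd0 (by rw [he, zero_mul])
  have hd' : algebraMap (𝓞 K) K d = e * e := he
  refine ⟨⟨(Units.mk0 e he0)⁻¹, 0, 0, 0⟩, ?_⟩
  rw [WeierstrassCurve.variableChange_def]
  ext
  · simp [short]
  · simp [short]
  · simp [short]
  · simp only [short, WeierstrassCurve.map_a₁, WeierstrassCurve.map_a₂,
      WeierstrassCurve.map_a₃, WeierstrassCurve.map_a₄, map_mul, map_pow, map_zero, hd', inv_inv,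
      Units.val_mk0]
    ring
  · simp only [short, WeierstrassCurve.map_a₁, WeierstrassCurve.map_a₂,
      WeierstrassCurve.map_a₃, WeierstrassCurve.map_a₄, WeierstrassCurve.map_a₆, map_mul, map_pow,
      map_zero, hd', inv_inv, Units.val_mk0]
    ring

theorem tr_tw (h2 : S_FinTwist) {K : Type} [Field K] [NumberField K] (A B d : 𝓞 K)
    (v : HeightOneSpectrum (𝓞 K)) (h : (2 * d : 𝓞 K) ∉ v.asIdeal) :
    (tr (short (A * d ^ 2) (B * d ^ 3)) v : ℝ) = chiv d v * tr (short A B) v := by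
  let _ : Field (𝓞 K ⧸ v.asIdeal) := Ideal.Quotient.field v.asIdeal
  have : Finite (𝓞 K ⧸ v.asIdeal) := Ideal.finiteQuotientOfFreeOfNeBot v.asIdeal v.ne_bot
  have hcard : nm v = Nat.card (𝓞 K ⧸ v.asIdeal) := by
    unfold nm
    rw [Ideal.absNorm_apply, Submodule.cardQuot_apply]
  have hd : d ∉ v.asIdeal := fun hc => h (v.asIdeal.mul_mem_left 2 hc)
  have h2' : (2 : 𝓞 K) ∉ v.asIdeal := fun hc => h (v.asIdeal.mul_mem_right d hc)
  have hd0 : Ideal.Quotient.mk v.asIdeal d ≠ 0 := fun h0 =>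
    hd (Ideal.Quotient.eq_zero_iff_mem.mp h0)
  have h20 : (2 : 𝓞 K ⧸ v.asIdeal) ≠ 0 := by
    intro h0
    refine h2' (Ideal.Quotient.eq_zero_iff_mem.mp ?_)
    rw [map_ofNat]
    exact h0
  have e1 : (tr (short A B) v : ℤ) = -((shortCount (Ideal.Quotient.mk v.asIdeal A)
      (Ideal.Quotient.mk v.asIdeal B) : ℤ) - Nat.card (𝓞 K ⧸ v.asIdeal)) := by
    unfold tr
    rw [red_short, affCount_short, hcard]
    unfold shortCount
    ring
  have e2 : (tr (short (A * d ^ 2) (B * d ^ 3)) v : ℤ) =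
      -((shortCount (Ideal.Quotient.mk v.asIdeal A * Ideal.Quotient.mk v.asIdeal d ^ 2)
      (Ideal.Quotient.mk v.asIdeal B * Ideal.Quotient.mk v.asIdeal d ^ 3) : ℤ) -
        Nat.card (𝓞 K ⧸ v.asIdeal)) := by
    unfold tr
    rw [red_short, affCount_short, hcard, map_mul, map_mul, map_pow, map_pow]
    unfold shortCount
    ring
  obtain ⟨h3, h4⟩ := h2 (𝓞 K ⧸ v.asIdeal) (Ideal.Quotient.mk v.asIdeal A)
    (Ideal.Quotient.mk v.asIdeal B) (Ideal.Quotient.mk v.asIdeal d) h20 hd0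
  unfold chiv
  rw [if_neg hd]
  by_cases hs : IsSquare (Ideal.Quotient.mk v.asIdeal d)
  · rw [if_pos hs, one_mul]
    have h5 := h3 hs
    rw [e1, e2, h5]
  · rw [if_neg hs]
    have h5 := h4 hs
    rw [e1, e2, h5]
    push_cast
    ring

end W3

theorem traceTwist (h1 : S_TwistForm) (h2 : S_FinTwist) : S_TraceTwist := by
  intro K _ _ E E' _ _ hj h0 h1728
  obtain ⟨A, B, d, hA, hB, hd, hΔ, ⟨C₁, hC₁⟩, C₂, hC₂⟩ := h1 K E E' hj h0 h1728
  by_cases hsq : IsSquare (d : K)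
  · left
    obtain ⟨C₃, hC₃⟩ := W3.square_case A B d hd hsq
    refine ⟨C₂⁻¹ * C₃ * C₁, ?_⟩
    rw [mul_smul, mul_smul, hC₁, hC₃, ← hC₂, inv_smul_smul]
  · right
    have h6 : (6 : 𝓞 K) ≠ 0 := by norm_num
    have hne : 6 * d * (short A B).Δ ≠ 0 := mul_ne_zero (mul_ne_zero h6 hd) hΔ
    refine ⟨d, hsq, {v | 6 * d * (short A B).Δ ∈ v.asIdeal}, N5.finite_mem hne, ?_⟩
    intro v hv
    have hv' : 6 * d * (short A B).Δ ∉ v.asIdeal := hv
    have hΔv : (short A B).Δ ∉ v.asIdeal := fun hc => hv' (v.asIdeal.mul_mem_left _ hc)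
    have hdv : d ∉ v.asIdeal := fun hc =>
      hv' (v.asIdeal.mul_mem_right _ (v.asIdeal.mul_mem_left _ hc))
    have h6v : (6 : 𝓞 K) ∉ v.asIdeal := fun hc =>
      hv' (v.asIdeal.mul_mem_right _ (v.asIdeal.mul_mem_right _ hc))
    have h2d : (2 * d : 𝓞 K) ∉ v.asIdeal := by
      intro hc
      have h3 : 3 * (2 * d) * (short A B).Δ ∈ v.asIdeal :=
        v.asIdeal.mul_mem_right _ (v.asIdeal.mul_mem_left _ hc)
      have h4 : 3 * (2 * d) * (short A B).Δ = 6 * d * (short A B).Δ := by ring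
      rw [h4] at h3
      exact hv' h3
    refine ⟨h2d, ?_⟩
    intro M M' hM hM'
    have hg := goodData shortForm
    obtain ⟨-, t1⟩ := hg K E (short A B) ⟨C₁, hC₁⟩ v M hΔv h6v hM
    have hΔv' : (short (A * d ^ 2) (B * d ^ 3)).Δ ∉ v.asIdeal := by
      rw [W3.Δ_tw]
      intro hc
      rcases v.isPrime.mem_or_mem hc with h5 | h5
      · exact hdv (v.isPrime.mem_of_pow_mem 6 h5)
      · exact hΔv h5
    obtain ⟨-, t2⟩ := hg K E' (short (A * d ^ 2) (B * d ^ 3)) ⟨C₂, hC₂⟩ v M' hΔv' h6v hM'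
    rw [t1, t2]
    exact W3.tr_tw h2 A B d v h2d

end MP7ed9c3.Tw
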