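import Pool.Agent.Lib.MP_7ed9c3_nt.Tw.SpecL

/-!
# MP_7ed9c3_nt, part Tw: Landau's lemma (L1)

In the variable `z = 5/4 - s`: `F i z = b i * exp (-(5/4) L i) * exp (L i z)` has nonnegative
Taylor coefficients at `0`, hence so have the sum and its exponential, which is (for `b = c` off the
finite set `A` and `b = 0` on `A`) the function `G(5/4 - z) exp (-∑_{i ∈ A} c_i N_i^(z - 5/4))` near
`0`. The latter is holomorphic on the unit ball, so its value at `z = 3/4` is at least `1`.
-/

set_option autoImplicit false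

namespace MP7ed9c3.Tw

namespace L1

open Filter Topology Complex
open scoped ComplexOrder

/-- iterated derivatives of a locally uniform limit of entire functions -/
theorem tendsto_iter {α : Type} {p : Filter α} [p.NeBot] {F : α → ℂ → ℂ} {f : ℂ → ℂ} {U : Set ℂ}
    (hU : IsOpen U) (hF : ∀ a, Differentiable ℂ (F a)) (h : TendstoLocallyUniformlyOn F f p U)
    (n : ℕ) : TendstoLocallyUniformlyOn (fun a => iteratedDeriv n (F a)) (iteratedDeriv n f) p U := by
  induction n with
  | zero => simpa only [iteratedDeriv_zero] using h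
  | succ n ih =>
    have h1 : ∀ a, Differentiable ℂ (iteratedDeriv n (F a)) := by
      intro a
      exact ((hF a).contDiff (n := ⊤)).differentiable_iteratedDeriv n (by exact_mod_cast WithTop.coe_lt_top _)
    have h2 := ih.deriv (Eventually.of_forall fun a => (h1 a).differentiableOn) hU
    simp only [iteratedDeriv_succ]
    exact h2

/-- the exponential of a function with nonnegative Taylor coefficients -/
theorem exp_nonneg {f : ℂ → ℂ} (hf : AnalyticAt ℂ f 0) (h : ∀ n, 0 ≤ iteratedDeriv n f 0) (n : ℕ) :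
    0 ≤ iteratedDeriv n (fun z => Complex.exp (f z)) 0 := by
  induction n using Nat.strong_induction_on with
  | _ n ih =>
    cases n with
    | zero =>
      have h0 := h 0
      rw [iteratedDeriv_zero] at h0 ⊢
      have h1 := Complex.eq_re_of_ofReal_le h0
      rw [h1, ← Complex.ofReal_exp]
      exact_mod_cast (Real.exp_pos _).le
    | succ n =>
      have hd : deriv (fun z => Complex.exp (f z)) =ᶠ[𝓝 0]
          deriv f * (fun z => Complex.exp (f z)) := by
        filter_upwards [hf.eventually_analyticAt] with z hz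
        rw [Pi.mul_apply, mul_comm]
        exact (hz.differentiableAt.hasDerivAt.cexp).deriv
      have hg : ContDiffAt ℂ n (fun z => Complex.exp (f z)) 0 := hf.cexp.contDiffAt
      rw [iteratedDeriv_succ', (hd.iteratedDeriv n).eq_of_nhds,
        iteratedDeriv_mul (hf.deriv.contDiffAt) hg]
      refine Finset.sum_nonneg fun i hi => ?_
      have hi' : i ≤ n := Nat.lt_succ_iff.1 (Finset.mem_range.1 hi)
      have h1 : 0 ≤ iteratedDeriv i (deriv f) 0 := by
        rw [← iteratedDeriv_succ']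
        exact h (i + 1)
      refine mul_nonneg (mul_nonneg ?_ h1) (ih (n - i) (by omega))
      exact_mod_cast Nat.zero_le _

/-- one term in the variable `z = 5/4 - s` -/
noncomputable def F (b L : ℝ) (z : ℂ) : ℂ :=
  (b : ℂ) * ((Real.exp (-(5 / 4) * L) : ℝ) : ℂ) * Complex.exp ((L : ℂ) * z)

theorem F_eq {b N : ℝ} (hN : 1 ≤ N) (z : ℂ) :
    (b : ℂ) * (N : ℂ) ^ (-(5 / 4 - z)) = F b (Real.log N) z := by
  have h0 : (N : ℂ) ≠ 0 := by
    exact_mod_cast (by linarith : N ≠ 0)
  unfold F
  rw [Complex.cpow_def_of_ne_zero h0, ← Complex.ofReal_log (by linarith), Complex.ofReal_exp,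
    mul_assoc, ← Complex.exp_add]
  congr 2
  push_cast
  ring

theorem F_diff (b L : ℝ) : Differentiable ℂ (F b L) := by
  unfold F
  fun_prop

theorem F_iter (b L : ℝ) (n : ℕ) : iteratedDeriv n (F b L) 0 =
    ((b * Real.exp (-(5 / 4) * L) * L ^ n : ℝ) : ℂ) := by
  unfold F
  have h : (fun z : ℂ => (b : ℂ) * ((Real.exp (-(5 / 4) * L) : ℝ) : ℂ) * Complex.exp ((L : ℂ) * z)) =
      fun z => ((b : ℂ) * ((Real.exp (-(5 / 4) * L) : ℝ) : ℂ)) * (fun s => Complex.exp ((L : ℂ) * s)) z :=
    rfl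
  rw [h, iteratedDeriv_const_mul_field, iteratedDeriv_cexp_const_mul]
  simp

theorem F_iter_nonneg {b L : ℝ} (hb : 0 ≤ b) (hL : 0 ≤ L) (n : ℕ) :
    0 ≤ iteratedDeriv n (F b L) 0 := by
  rw [F_iter]
  exact_mod_cast mul_nonneg (mul_nonneg hb (Real.exp_pos _).le) (pow_nonneg hL n)

theorem F_norm {b N : ℝ} (hb : 0 ≤ b) (hN : 1 ≤ N) {z : ℂ} (hz : z ∈ Metric.ball (0 : ℂ) (1 / 8)) :
    ‖F b (Real.log N) z‖ ≤ b * N ^ (-(9 / 8) : ℝ) := by
  have hz1 : z.re ≤ 1 / 8 := by
    have h1 := Complex.re_le_norm z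
    rw [mem_ball_zero_iff] at hz
    linarith
  unfold F
  rw [norm_mul, norm_mul, Complex.norm_exp, Complex.norm_of_nonneg hb,
    Complex.norm_of_nonneg (Real.exp_pos _).le, mul_assoc, ← Real.exp_add,
    Real.rpow_def_of_pos (by linarith)]
  refine mul_le_mul_of_nonneg_left (Real.exp_le_exp.2 ?_) hb
  rw [Complex.re_ofReal_mul]
  nlinarith [Real.log_nonneg hN]

/-- the sum has nonnegative Taylor coefficients -/
theorem sum_nonneg {ι : Type} (N b : ι → ℝ) (hN : ∀ i, 1 ≤ N i) (hb : ∀ i, 0 ≤ b i)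
    (hs : Summable fun i => b i * N i ^ (-(9 / 8) : ℝ)) :
    AnalyticAt ℂ (fun z => ∑' i, F (b i) (Real.log (N i)) z) 0 ∧
      ∀ n, 0 ≤ iteratedDeriv n (fun z => ∑' i, F (b i) (Real.log (N i)) z) 0 := by
  have h1 : TendstoLocallyUniformlyOn (fun (s : Finset ι) (z : ℂ) =>
      ∑ i ∈ s, F (b i) (Real.log (N i)) z) (fun z => ∑' i, F (b i) (Real.log (N i)) z) atTop
      (Metric.ball (0 : ℂ) (1 / 8)) :=
    (tendstoUniformlyOn_tsum hs fun i z hz => F_norm (hb i) (hN i) hz).tendstoLocallyUniformlyOn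
  have hd : ∀ s : Finset ι, Differentiable ℂ (fun z : ℂ => ∑ i ∈ s, F (b i) (Real.log (N i)) z) :=
    fun s => Differentiable.fun_sum fun i _ => F_diff _ _
  have h0 : (0 : ℂ) ∈ Metric.ball (0 : ℂ) (1 / 8) := Metric.mem_ball_self (by norm_num)
  refine ⟨?_, fun n => ?_⟩
  · have h2 := h1.differentiableOn (Eventually.of_forall fun s => (hd s).differentiableOn)
      Metric.isOpen_ball
    exact h2.analyticAt (Metric.isOpen_ball.mem_nhds h0)
  · have h3 := (tendsto_iter Metric.isOpen_ball hd h1 n).tendsto_at h0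
    refine ge_of_tendsto' h3 fun s => ?_
    have h4 : iteratedDeriv n (fun z : ℂ => ∑ i ∈ s, F (b i) (Real.log (N i)) z) 0 =
        ∑ i ∈ s, iteratedDeriv n (F (b i) (Real.log (N i))) 0 := by
      rw [iteratedDeriv_fun_sum]
      intro i _
      exact (F_diff _ _).contDiff.contDiffAt
    rw [h4]
    exact Finset.sum_nonneg fun i _ => F_iter_nonneg (hb i) (Real.log_nonneg (hN i)) n

/-- Landau's lemma in the variable `z = 5/4 - s` -/
theorem main {g : ℂ → ℂ} (hg : DifferentiableOn ℂ g (Metric.ball 0 1)) {ι : Type} (N b : ι → ℝ)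
    (hN : ∀ i, 1 ≤ N i) (hb : ∀ i, 0 ≤ b i) (hs : Summable fun i => b i * N i ^ (-(9 / 8) : ℝ))
    (h : ∀ z ∈ Metric.ball (0 : ℂ) (1 / 8),
      g z = Complex.exp (∑' i, F (b i) (Real.log (N i)) z)) : 1 ≤ g ((3 / 4 : ℝ) : ℂ) := by
  obtain ⟨ha, hn⟩ := sum_nonneg N b hN hb hs
  have h0 : (0 : ℂ) ∈ Metric.ball (0 : ℂ) (1 / 8) := Metric.mem_ball_self (by norm_num)
  have hev : g =ᶠ[𝓝 0] fun z => Complex.exp (∑' i, F (b i) (Real.log (N i)) z) := by
    filter_upwards [Metric.isOpen_ball.mem_nhds h0] with z hz using h z hz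
  have hgn : ∀ n, 0 ≤ iteratedDeriv n g 0 := by
    intro n
    rw [(hev.iteratedDeriv n).eq_of_nhds]
    exact exp_nonneg ha hn n
  have hg0 : 1 ≤ g 0 := by
    rw [h 0 h0]
    have h1 := hn 0
    rw [iteratedDeriv_zero] at h1
    have h2 := Complex.eq_re_of_ofReal_le h1
    rw [h2, ← Complex.ofReal_exp]
    rw [h2] at h1
    have h3 : 0 ≤ (∑' i, F (b i) (Real.log (N i)) 0).re := by exact_mod_cast h1
    exact_mod_cast Real.one_le_exp h3
  have hk : ∀ n, 0 ≤ iteratedDeriv n (fun z => g z - 1) 0 := by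
    intro n
    cases n with
    | zero =>
      rw [iteratedDeriv_zero]
      exact sub_nonneg.2 hg0
    | succ n =>
      have h1 := hgn (n + 1)
      rw [iteratedDeriv_succ'] at h1 ⊢
      rwa [funext fun x ↦ deriv_sub_const (f := g) (x := x) (1 : ℂ)]
  have hz1 : (0 : ℂ) ≤ ((3 / 4 : ℝ) : ℂ) := by
    exact_mod_cast (by norm_num : (0 : ℝ) ≤ 3 / 4)
  have hz2 : ((3 / 4 : ℝ) : ℂ) ∈ Metric.ball (0 : ℂ) 1 := by
    rw [mem_ball_zero_iff, Complex.norm_of_nonneg (by norm_num)]
    norm_num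
  have := (hg.sub_const 1).nonneg_of_iteratedDeriv_nonneg hk hz1 hz2
  exact sub_nonneg.1 this

end L1

open L1 in
theorem landau : S_Landau := by
  classical
  intro ι N c G hN hc hsum hG hexp
  refine ⟨Real.log ‖G (1 / 2)‖, fun A => ?_⟩
  set b : ι → ℝ := fun i => if i ∈ A then 0 else c i with hbdef
  have hb0 : ∀ i, 0 ≤ b i := by
    intro i
    rw [hbdef]
    dsimp only
    split_ifs
    · exact le_rfl
    · exact hc i
  have hs : Summable fun i => b i * N i ^ (-(9 / 8) : ℝ) := by
    refine Summable.of_nonneg_of_le (fun i => mul_nonneg (hb0 i)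
      (Real.rpow_nonneg (by linarith [hN i]) _)) (fun i => ?_) (hsum (9 / 8) (by norm_num))
    refine mul_le_mul_of_nonneg_right ?_ (Real.rpow_nonneg (by linarith [hN i]) _)
    rw [hbdef]
    dsimp only
    split_ifs
    · exact hc i
    · exact le_rfl
  have hmaps : ∀ z ∈ Metric.ball (0 : ℂ) 1, 5 / 4 - z ∈ Metric.ball (5 / 4 : ℂ) 1 := by
    intro z hz
    rw [mem_ball_zero_iff] at hz
    rw [Metric.mem_ball, Complex.dist_eq]
    simpa using hz
  set g : ℂ → ℂ := fun z => G (5 / 4 - z) *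
    Complex.exp (-∑ i ∈ A, F (c i) (Real.log (N i)) z) with hgdef
  have hg : DifferentiableOn ℂ g (Metric.ball 0 1) := by
    refine DifferentiableOn.mul ?_ ?_
    · exact hG.comp ((differentiable_const _).sub differentiable_id).differentiableOn hmaps
    · refine (Differentiable.cexp ?_).differentiableOn
      exact (Differentiable.fun_sum fun i _ => F_diff _ _).neg
  have hgz : ∀ z ∈ Metric.ball (0 : ℂ) (1 / 8),
      g z = Complex.exp (∑' i, F (b i) (Real.log (N i)) z) := by
    intro z hz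
    have hz1 : z ∈ Metric.ball (0 : ℂ) 1 := Metric.ball_subset_ball (by norm_num) hz
    have hre : 1 < (5 / 4 - z).re := by
      have h1 := Complex.re_le_norm z
      rw [mem_ball_zero_iff] at hz
      rw [Complex.sub_re]
      norm_num
      linarith
    have hsF : Summable fun i => F (b i) (Real.log (N i)) z :=
      Summable.of_norm_bounded hs fun i => F_norm (hb0 i) (hN i) hz
    have hA : ∀ i, F (c i) (Real.log (N i)) z = F (b i) (Real.log (N i)) z +
        (if i ∈ A then F (c i) (Real.log (N i)) z else 0) := by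
      intro i
      rw [hbdef]
      dsimp only
      split_ifs with h
      · unfold F
        simp
      · rw [add_zero]
    have hsA : HasSum (fun i => if i ∈ A then F (c i) (Real.log (N i)) z else 0)
        (∑ i ∈ A, F (c i) (Real.log (N i)) z) := by
      have h1 : HasSum (fun i => if i ∈ A then F (c i) (Real.log (N i)) z else 0)
          (∑ i ∈ A, if i ∈ A then F (c i) (Real.log (N i)) z else 0) :=
        hasSum_sum_of_ne_finset_zero fun i hi => if_neg hi
      rwa [Finset.sum_congr rfl fun i hi => if_pos hi] at h1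
    have hts : ∑' i, (c i : ℂ) * (N i : ℂ) ^ (-(5 / 4 - z)) =
        ∑' i, F (b i) (Real.log (N i)) z + ∑ i ∈ A, F (c i) (Real.log (N i)) z := by
      have h1 : ∀ i, (c i : ℂ) * (N i : ℂ) ^ (-(5 / 4 - z)) = F (c i) (Real.log (N i)) z :=
        fun i => F_eq (hN i) z
      rw [tsum_congr h1, tsum_congr hA, hsF.tsum_add hsA.summable, hsA.tsum_eq]
    rw [hgdef]
    dsimp only
    rw [hexp _ (hmaps z hz1) hre, hts, ← Complex.exp_add]
    congr 1
    ring
  have h1 := main hg N b hN hb0 hs hgz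
  have h2 : g ((3 / 4 : ℝ) : ℂ) = G (1 / 2) *
      ((Real.exp (-∑ i ∈ A, c i * N i ^ (-(1 / 2) : ℝ)) : ℝ) : ℂ) := by
    rw [hgdef]
    dsimp only
    congr 1
    · congr 1
      push_cast
      norm_num
    · rw [Complex.ofReal_exp]
      congr 1
      push_cast
      congr 1
      refine Finset.sum_congr rfl fun i _ => ?_
      rw [← F_eq (hN i), Complex.ofReal_cpow (by linarith [hN i])]
      congr 2
      push_cast
      norm_num
  rw [h2] at h1
  have h3 : 1 ≤ ‖G (1 / 2) * ((Real.exp (-∑ i ∈ A, c i * N i ^ (-(1 / 2) : ℝ)) : ℝ) : ℂ)‖ := by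
    have h4 := (Complex.le_def.1 h1).1
    rw [Complex.one_re] at h4
    exact h4.trans (Complex.re_le_norm _)
  rw [norm_mul, Complex.norm_of_nonneg (Real.exp_pos _).le, Real.exp_neg, ← div_eq_mul_inv,
    le_div_iff₀ (Real.exp_pos _), one_mul] at h3
  rw [Real.le_log_iff_exp_le (lt_of_lt_of_le (Real.exp_pos _) h3)]
  exact h3

end MP7ed9c3.Tw
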