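import Pool.Agent.Lib.MP_7ed9c3_nt.Tw.SpecL

/-!
# MP_7ed9c3_nt, part Tw: the product that cannot be holomorphic (L2)
-/

set_option autoImplicit false

namespace MP7ed9c3.Tw

open NumberField IsDedekindDomain Filter Topology

namespace L2Aux

/-- The coefficient of the `k`-th power in the logarithm of one factor. -/
noncomputable def co (l χ : ℝ) (k : ℕ) : ℝ :=
  (1 + χ ^ k) * (2 + 2 * Real.cos (k * Real.arccos (l / 2))) / k

theorem chi_pow {χ : ℝ} (hχ : χ = 1 ∨ χ = -1) (k : ℕ) : χ ^ k = 1 ∨ χ ^ k = -1 := by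
  rcases hχ with h | h
  · left; rw [h, one_pow]
  · rw [h]; exact neg_one_pow_eq_or ℝ k

theorem co_nonneg {l χ : ℝ} (hχ : χ = 1 ∨ χ = -1) (k : ℕ) : 0 ≤ co l χ k := by
  unfold co
  have h1 : 0 ≤ 1 + χ ^ k := by
    rcases chi_pow hχ k with h | h <;> rw [h] <;> norm_num
  have h2 : 0 ≤ 2 + 2 * Real.cos (k * Real.arccos (l / 2)) := by
    have := Real.neg_one_le_cos (k * Real.arccos (l / 2))
    linarith
  positivity

theorem co_le {l χ : ℝ} (hχ : χ = 1 ∨ χ = -1) (k : ℕ) : co l χ (k + 1) ≤ 8 := by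
  unfold co
  have h1 : 0 ≤ 1 + χ ^ (k + 1) := by
    rcases chi_pow hχ (k + 1) with h | h <;> rw [h] <;> norm_num
  have h1' : 1 + χ ^ (k + 1) ≤ 2 := by
    rcases chi_pow hχ (k + 1) with h | h <;> rw [h] <;> norm_num
  have h2 : 0 ≤ 2 + 2 * Real.cos ((k + 1 : ℕ) * Real.arccos (l / 2)) := by
    have := Real.neg_one_le_cos ((k + 1 : ℕ) * Real.arccos (l / 2))
    linarith
  have h2' : 2 + 2 * Real.cos ((k + 1 : ℕ) * Real.arccos (l / 2)) ≤ 4 := by
    have := Real.cos_le_one ((k + 1 : ℕ) * Real.arccos (l / 2))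
    linarith
  have hk : (1 : ℝ) ≤ ((k + 1 : ℕ) : ℝ) := by
    push_cast
    have : (0 : ℝ) ≤ k := Nat.cast_nonneg k
    linarith
  rw [div_le_iff₀ (by linarith)]
  nlinarith [mul_le_mul h1' h2' h2 (by norm_num : (0 : ℝ) ≤ 2)]

/-- The factor at one place. -/
noncomputable def fac (l χ : ℝ) (w : ℂ) : ℂ :=
  ((1 - w) ^ 2 * (1 - (χ : ℂ) * w) ^ 2 * (1 - (l : ℂ) * w + w ^ 2) *
    (1 - (χ : ℂ) * (l : ℂ) * w + w ^ 2))⁻¹

theorem exp_log {z : ℂ} (hz : ‖z‖ < 1) : Complex.exp (Complex.log (1 - z)) = 1 - z := by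
  apply Complex.exp_log
  intro h
  have : z = 1 := by linear_combination -h
  rw [this] at hz
  simp at hz

/-- The logarithm of one factor. -/
theorem log_fac {l χ : ℝ} (hl : |l| ≤ 2) (hχ : χ = 1 ∨ χ = -1) {w : ℂ} (hw : ‖w‖ < 1) :
    ∃ S : ℂ, HasSum (fun k : ℕ => (co l χ (k + 1) : ℂ) * w ^ (k + 1)) S ∧
      Complex.exp S = fac l χ w := by
  set ψ : ℝ := Real.arccos (l / 2) with hψ
  have hl2 := abs_le.mp hl
  have hcos : 2 * Real.cos ψ = l := by
    rw [hψ, Real.cos_arccos (by linarith [hl2.1]) (by linarith [hl2.2])]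
    ring
  set u : ℂ := Complex.exp ((ψ : ℂ) * Complex.I) with hu
  set v : ℂ := Complex.exp (-(ψ : ℂ) * Complex.I) with hv
  have huv : u * v = 1 := by
    rw [hu, hv, ← Complex.exp_add]
    have : (ψ : ℂ) * Complex.I + -(ψ : ℂ) * Complex.I = 0 := by ring
    rw [this, Complex.exp_zero]
  have hun : ‖u‖ = 1 := by rw [hu]; exact Complex.norm_exp_ofReal_mul_I ψ
  have hvn : ‖v‖ = 1 := by
    have := Complex.norm_exp_ofReal_mul_I (-ψ)
    rw [hv]; push_cast at this; exact this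
  have hpow : ∀ n : ℕ, u ^ n + v ^ n = 2 * (Real.cos (n * ψ) : ℂ) := by
    intro n
    rw [Complex.ofReal_cos, Complex.two_cos, hu, hv, ← Complex.exp_nat_mul, ← Complex.exp_nat_mul]
    push_cast
    congr 2 <;> ring
  have hsum : u + v = (l : ℂ) := by
    have := hpow 1
    simp only [pow_one, Nat.cast_one, one_mul] at this
    rw [this, ← hcos]; push_cast; ring
  have hχn : ‖(χ : ℂ)‖ = 1 := by
    rcases hχ with h | h <;> rw [h] <;> simp
  have hχ2 : (χ : ℂ) ^ 2 = 1 := by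
    rcases hχ with h | h <;> rw [h] <;> simp
  have n1 : ‖w‖ < 1 := hw
  have n2 : ‖(χ : ℂ) * w‖ < 1 := by rw [norm_mul, hχn, one_mul]; exact hw
  have n3 : ‖u * w‖ < 1 := by rw [norm_mul, hun, one_mul]; exact hw
  have n4 : ‖v * w‖ < 1 := by rw [norm_mul, hvn, one_mul]; exact hw
  have n5 : ‖(χ : ℂ) * u * w‖ < 1 := by rw [norm_mul, norm_mul, hχn, hun, one_mul, one_mul]; exact hw
  have n6 : ‖(χ : ℂ) * v * w‖ < 1 := by rw [norm_mul, norm_mul, hχn, hvn, one_mul, one_mul]; exact hw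
  have s1 := (Complex.hasSum_taylorSeries_neg_log' n1).mul_left 2
  have s2 := (Complex.hasSum_taylorSeries_neg_log' n2).mul_left 2
  have s3 := Complex.hasSum_taylorSeries_neg_log' n3
  have s4 := Complex.hasSum_taylorSeries_neg_log' n4
  have s5 := Complex.hasSum_taylorSeries_neg_log' n5
  have s6 := Complex.hasSum_taylorSeries_neg_log' n6
  have s := ((((s1.add s2).add s3).add s4).add s5).add s6
  have key : ∀ k : ℕ, 2 * (w ^ (k + 1) / ((k : ℂ) + 1)) +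
      2 * (((χ : ℂ) * w) ^ (k + 1) / ((k : ℂ) + 1)) + (u * w) ^ (k + 1) / ((k : ℂ) + 1) +
      (v * w) ^ (k + 1) / ((k : ℂ) + 1) + ((χ : ℂ) * u * w) ^ (k + 1) / ((k : ℂ) + 1) +
      ((χ : ℂ) * v * w) ^ (k + 1) / ((k : ℂ) + 1) = (co l χ (k + 1) : ℂ) * w ^ (k + 1) := by
    intro k
    have hk : ((k : ℂ) + 1) ≠ 0 := by exact_mod_cast Nat.succ_ne_zero k
    have hp := hpow (k + 1)
    unfold co
    rw [← hψ]
    push_cast at hp ⊢
    have e3 : (u * w) ^ (k + 1) = u ^ (k + 1) * w ^ (k + 1) := mul_pow _ _ _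
    have e4 : (v * w) ^ (k + 1) = v ^ (k + 1) * w ^ (k + 1) := mul_pow _ _ _
    have e5 : ((χ : ℂ) * u * w) ^ (k + 1) = (χ : ℂ) ^ (k + 1) * u ^ (k + 1) * w ^ (k + 1) := by
      rw [mul_pow, mul_pow]
    have e6 : ((χ : ℂ) * v * w) ^ (k + 1) = (χ : ℂ) ^ (k + 1) * v ^ (k + 1) * w ^ (k + 1) := by
      rw [mul_pow, mul_pow]
    have e2 : ((χ : ℂ) * w) ^ (k + 1) = (χ : ℂ) ^ (k + 1) * w ^ (k + 1) := mul_pow _ _ _
    rw [e2, e3, e4, e5, e6]
    field_simp
    linear_combination (1 + (χ : ℂ) ^ (k + 1)) * w ^ (k + 1) * hp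
  rw [funext key] at s
  refine ⟨_, s, ?_⟩
  · have E1 := exp_log n1
    have E2 := exp_log n2
    have E3 := exp_log n3
    have E4 := exp_log n4
    have E5 := exp_log n5
    have E6 := exp_log n6
    rw [Complex.exp_add, Complex.exp_add, Complex.exp_add, Complex.exp_add, Complex.exp_add]
    have f1 : Complex.exp (2 * -Complex.log (1 - w)) = ((1 - w) ^ 2)⁻¹ := by
      rw [mul_neg, Complex.exp_neg, two_mul, Complex.exp_add, E1, sq]
    have f2 : Complex.exp (2 * -Complex.log (1 - (χ : ℂ) * w)) = ((1 - (χ : ℂ) * w) ^ 2)⁻¹ := by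
      rw [mul_neg, Complex.exp_neg, two_mul, Complex.exp_add, E2, sq]
    rw [f1, f2, Complex.exp_neg, Complex.exp_neg, Complex.exp_neg, Complex.exp_neg, E3, E4, E5, E6]
    unfold fac
    simp only [← mul_inv]
    congr 1
    have g1 : (1 - u * w) * (1 - v * w) = 1 - (l : ℂ) * w + w ^ 2 := by
      linear_combination (-w) * hsum + w ^ 2 * huv
    have g2 : (1 - (χ : ℂ) * u * w) * (1 - (χ : ℂ) * v * w) = 1 - (χ : ℂ) * (l : ℂ) * w + w ^ 2 := by
      linear_combination (-(χ : ℂ) * w) * hsum + w ^ 2 * (χ : ℂ) ^ 2 * huv + w ^ 2 * hχ2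
    rw [← g1, ← g2]
    ring

/-- Each factor is the exponential of its logarithm. -/
theorem exp_tsum {l χ : ℝ} (hl : |l| ≤ 2) (hχ : χ = 1 ∨ χ = -1) {w : ℂ} (hw : ‖w‖ < 1) :
    Complex.exp (∑' k : ℕ, (co l χ (k + 1) : ℂ) * w ^ (k + 1)) = fac l χ w := by
  obtain ⟨S, h1, h2⟩ := log_fac hl hχ hw
  rw [h1.tsum_eq, h2]

/-- Summability over all pairs. -/
theorem summable_pairs {X : Type} (r : X → ℝ) (l χ : X → ℝ) (hr0 : ∀ x, 0 ≤ r x)
    (hr : ∀ x, r x ≤ 1 / 2) (hs : Summable r) (hχ : ∀ x, χ x = 1 ∨ χ x = -1) :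
    Summable fun i : X × ℕ => co (l i.1) (χ i.1) (i.2 + 1) * r i.1 ^ (i.2 + 1) := by
  have hb : ∀ (x : X) (k : ℕ), co (l x) (χ x) (k + 1) * r x ^ (k + 1) ≤ 8 * r x * r x ^ k := by
    intro x k
    have h1 := co_le (l := l x) (hχ x) k
    have h2 : 0 ≤ r x ^ (k + 1) := pow_nonneg (hr0 x) _
    calc co (l x) (χ x) (k + 1) * r x ^ (k + 1) ≤ 8 * r x ^ (k + 1) :=
          mul_le_mul_of_nonneg_right h1 h2
      _ = 8 * r x * r x ^ k := by ring
  have hn : ∀ (x : X) (k : ℕ), 0 ≤ co (l x) (χ x) (k + 1) * r x ^ (k + 1) := fun x k =>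
    mul_nonneg (co_nonneg (hχ x) _) (pow_nonneg (hr0 x) _)
  have hg : ∀ x, Summable fun k : ℕ => 8 * r x * r x ^ k := fun x =>
    (summable_geometric_of_lt_one (hr0 x) (lt_of_le_of_lt (hr x) (by norm_num))).mul_left _
  have hs1 : ∀ x, Summable fun k : ℕ => co (l x) (χ x) (k + 1) * r x ^ (k + 1) := fun x =>
    Summable.of_nonneg_of_le (hn x) (hb x) (hg x)
  rw [summable_prod_of_nonneg (fun i => hn i.1 i.2)]
  refine ⟨hs1, ?_⟩
  refine Summable.of_nonneg_of_le (fun x => tsum_nonneg (hn x)) (fun x => ?_) (hs.mul_left 16)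
  have h1 := (hs1 x).tsum_le_tsum (hb x) (hg x)
  rw [tsum_mul_left, tsum_geometric_of_lt_one (hr0 x) (lt_of_le_of_lt (hr x) (by norm_num))] at h1
  have h2 : (1 - r x)⁻¹ ≤ 2 := by
    rw [inv_le_comm₀ (by linarith [hr x]) (by norm_num)]
    linarith [hr x]
  have h3 : 8 * r x * (1 - r x)⁻¹ ≤ 8 * r x * 2 :=
    mul_le_mul_of_nonneg_left h2 (by linarith [hr0 x])
  linarith

end L2Aux

open L2Aux in
/-- **L2.** -/
theorem noDouble (h1 : S_Landau) : S_NoDouble := by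
  intro X q l χ G hq hsum hl hχ hG hprod
  have hq0 : ∀ x, (0 : ℝ) < q x := fun x => by exact_mod_cast lt_of_lt_of_le (by norm_num) (hq x)
  have hq1 : ∀ x, (1 : ℝ) ≤ q x := fun x => by exact_mod_cast le_trans (by norm_num) (hq x)
  have hq2 : ∀ x, (2 : ℝ) ≤ q x := fun x => by exact_mod_cast hq x
  -- the small quantities
  have hr : ∀ (σ : ℝ), 1 < σ → ∀ x, (q x : ℝ) ^ (-σ) ≤ 1 / 2 := by
    intro σ hσ x
    calc (q x : ℝ) ^ (-σ) ≤ (q x : ℝ) ^ (-1 : ℝ) :=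
          Real.rpow_le_rpow_of_exponent_le (hq1 x) (by linarith)
      _ = (q x : ℝ)⁻¹ := by rw [Real.rpow_neg_one]
      _ ≤ (2 : ℝ)⁻¹ := inv_anti₀ (by norm_num) (hq2 x)
      _ = 1 / 2 := by norm_num
  have hr0 : ∀ (σ : ℝ) x, 0 ≤ (q x : ℝ) ^ (-σ) := fun σ x => Real.rpow_nonneg (hq0 x).le _
  have hpowr : ∀ (x : X) (k : ℕ) (y : ℝ), ((q x : ℝ) ^ k) ^ y = ((q x : ℝ) ^ y) ^ k := by
    intro x k y
    rw [← Real.rpow_natCast, ← Real.rpow_natCast, ← Real.rpow_mul (hq0 x).le,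
      ← Real.rpow_mul (hq0 x).le, mul_comm]
  have hsR : ∀ σ : ℝ, 1 < σ → Summable fun i : X × ℕ =>
      co (l i.1) (χ i.1) (i.2 + 1) * ((q i.1 : ℝ) ^ (-σ)) ^ (i.2 + 1) := fun σ hσ =>
    summable_pairs (fun x => (q x : ℝ) ^ (-σ)) l χ (hr0 σ) (hr σ hσ) (hsum σ hσ) hχ
  obtain ⟨B, hB⟩ := h1 (X × ℕ) (fun i => (q i.1 : ℝ) ^ (i.2 + 1))
    (fun i => co (l i.1) (χ i.1) (i.2 + 1)) G (fun i => one_le_pow₀ (hq1 i.1))
    (fun i => co_nonneg (hχ i.1) _)
    (fun σ hσ => by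
      simp only [hpowr]
      exact hsR σ hσ) hG
    (by
      intro s hs hs1
      rw [hprod s hs hs1]
      have hnorm : ∀ x, ‖(q x : ℂ) ^ (-s)‖ = (q x : ℝ) ^ (-s.re) := by
        intro x
        have := Complex.norm_cpow_eq_rpow_re_of_pos (hq0 x) (-s)
        simpa using this
      have hw : ∀ x, ‖(q x : ℂ) ^ (-s)‖ < 1 := by
        intro x
        rw [hnorm x]
        exact lt_of_le_of_lt (hr s.re hs1 x) (by norm_num)
      have hcp : ∀ (x : X) (k : ℕ), (((q x : ℝ) ^ k : ℝ) : ℂ) ^ (-s) = ((q x : ℂ) ^ (-s)) ^ k := by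
        intro x k
        rw [← Complex.cpow_nat_mul, Complex.natCast_cpow_natCast_mul]
        push_cast
        rfl
      have hsC : Summable fun i : X × ℕ =>
          (co (l i.1) (χ i.1) (i.2 + 1) : ℂ) * ((q i.1 : ℂ) ^ (-s)) ^ (i.2 + 1) := by
        refine Summable.of_norm_bounded (hsR s.re hs1) (fun i => ?_)
        rw [norm_mul, norm_pow, hnorm, Complex.norm_real, Real.norm_of_nonneg (co_nonneg (hχ i.1) _)]
      have hq' : ∀ x : X, (q x : ℂ) ^ (-(2 * s)) = ((q x : ℂ) ^ (-s)) ^ 2 := by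
        intro x
        rw [← Complex.cpow_nat_mul]
        push_cast
        congr 1
        ring
      have hH := (hsC.hasSum.prod_fiberwise (fun x => (hsC.prod_factor x).hasSum)).cexp
      have hP : (∏' x : X, fac (l x) (χ x) ((q x : ℂ) ^ (-s))) =
          Complex.exp (∑' i : X × ℕ,
            (co (l i.1) (χ i.1) (i.2 + 1) : ℂ) * ((q i.1 : ℂ) ^ (-s)) ^ (i.2 + 1)) := by
        rw [← hH.tprod_eq]
        refine tprod_congr fun x => ?_
        exact (exp_tsum (hl x) (hχ x) (hw x)).symm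
      simp only [hcp]
      rw [← hP]
      refine tprod_congr fun x => ?_
      unfold fac
      rw [hq' x])
  refine ⟨B, fun A hA => ?_⟩
  refine le_trans ?_ (hB (A ×ˢ (Finset.range 2)))
  rw [Finset.sum_product]
  refine Finset.sum_le_sum fun x hx => ?_
  rw [Finset.sum_range_succ, Finset.sum_range_one]
  simp only [hpowr]
  have hχ1 := hA x hx
  set r : ℝ := (q x : ℝ) ^ (-(1 / 2) : ℝ) with hrdef
  have hr00 : 0 ≤ r := Real.rpow_nonneg (hq0 x).le _
  have hr11 : r ≤ 1 := Real.rpow_le_one_of_one_le_of_nonpos (hq1 x) (by norm_num)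
  have hrr : r ^ 2 = 1 / (q x : ℝ) := by
    rw [hrdef, ← Real.rpow_natCast, ← Real.rpow_mul (hq0 x).le]
    norm_num
    rw [Real.rpow_neg_one]
  have hl2 := abs_le.mp (hl x)
  have hcos : 2 * Real.cos (Real.arccos (l x / 2)) = l x := by
    rw [Real.cos_arccos (by linarith [hl2.1]) (by linarith [hl2.2])]
    ring
  have c1 : co (l x) (χ x) (0 + 1) = 2 * (2 + l x) := by
    unfold co
    rw [hχ1]
    push_cast
    simp only [one_mul, pow_one, div_one]
    rw [hcos]; ring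
  have c2 : co (l x) (χ x) (1 + 1) = l x ^ 2 := by
    unfold co
    rw [hχ1]
    push_cast
    rw [Real.cos_two_mul]
    linear_combination (2 * Real.cos (Real.arccos (l x / 2)) + l x) * hcos
  rw [c1, c2, ← hrr]
  simp only [zero_add, pow_one]
  norm_num
  rcases le_or_gt (-1) (l x) with h | h
  · nlinarith [mul_nonneg (sq_nonneg (l x)) (sq_nonneg r), mul_nonneg hr00 (by linarith : (0:ℝ) ≤ l x + 1)]
  · nlinarith [mul_nonneg hr00 (by linarith [hl2.1] : (0:ℝ) ≤ l x + 2),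
      mul_nonneg (sq_nonneg r) (by nlinarith : (0:ℝ) ≤ l x ^ 2 - 1)]

end MP7ed9c3.Tw
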