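import Pool.Agent.Lib.MP_7ed9c3_nt.Tw.SpecL
import Pool.Agent.Lib.MP_7ed9c3_nt.N1

/-!
# MP_7ed9c3_nt, part Tw, L3: a zero at `3/2` is simple
-/

set_option autoImplicit false

namespace MP7ed9c3.Tw

open NumberField IsDedekindDomain Filter Topology

namespace L3N

theorem factor (F : ℂ → ℂ) (hF : Differentiable ℂ F) (h : ¬ analyticOrderNatAt F (3 / 2) ≤ 1) :
    ∃ g : ℂ → ℂ, Differentiable ℂ g ∧ ∀ s : ℂ, F (s + 1 / 2) = (s - 1) ^ 2 * g s := by
  have hA : AnalyticAt ℂ F (3 / 2) := hF.analyticAt _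
  have h2 : ((2 : ℕ) : ℕ∞) ≤ analyticOrderAt F (3 / 2) := by
    by_contra hlt
    have hne : analyticOrderAt F (3 / 2) ≠ ⊤ := by
      intro htop
      exact hlt (htop ▸ le_top)
    rw [← Nat.cast_analyticOrderNatAt hne, Nat.cast_le] at hlt
    omega
  rw [natCast_le_analyticOrderAt_iff_iteratedDeriv_eq_zero hA] at h2
  have h0 : F (3 / 2) = 0 := by
    have := h2 0 (by norm_num)
    simpa using this
  have h1 : deriv F (3 / 2) = 0 := by
    have := h2 1 (by norm_num)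
    simpa [iteratedDeriv_one] using this
  have hF₁ : Differentiable ℂ (fun s : ℂ => F (s + 1 / 2)) :=
    hF.comp (differentiable_id.add_const _)
  set F₁ : ℂ → ℂ := fun s => F (s + 1 / 2) with hdef
  have e0 : F₁ 1 = 0 := by
    rw [hdef]
    show F (1 + 1 / 2) = 0
    rw [show (1 : ℂ) + 1 / 2 = 3 / 2 by norm_num]
    exact h0
  have e1 : deriv F₁ 1 = 0 := by
    have hd : HasDerivAt F (deriv F (3 / 2)) (1 + 1 / 2 : ℂ) := by
      have := (hF (3 / 2)).hasDerivAt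
      rwa [show (1 : ℂ) + 1 / 2 = 3 / 2 by norm_num]
    have := hd.comp_add_const 1 (1 / 2)
    rw [h1] at this
    exact this.deriv
  have d1 : Differentiable ℂ (dslope F₁ 1) := by
    rw [← differentiableOn_univ, Complex.differentiableOn_dslope univ_mem, differentiableOn_univ]
    exact hF₁
  have d2 : Differentiable ℂ (dslope (dslope F₁ 1) 1) := by
    rw [← differentiableOn_univ, Complex.differentiableOn_dslope univ_mem, differentiableOn_univ]
    exact d1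
  refine ⟨_, d2, fun s => ?_⟩
  have a1 := sub_smul_dslope F₁ 1 s
  have a2 := sub_smul_dslope (dslope F₁ 1) 1 s
  rw [dslope_same, e1, sub_zero, smul_eq_mul] at a2
  rw [e0, sub_zero, smul_eq_mul] at a1
  show F₁ s = _
  rw [← a1, ← a2]
  ring

theorem quad_lb (l : ℝ) (hl : |l| ≤ 2) (z : ℂ) (hz : ‖z‖ ≤ 1 / 2) :
    1 / 4 ≤ ‖1 - (l : ℂ) * z + z ^ 2‖ := by
  obtain ⟨hl1, hl2⟩ := abs_le.mp hl
  have hb : 0 ≤ 1 - (l / 2) ^ 2 := by nlinarith
  set b : ℝ := √(1 - (l / 2) ^ 2) with hbdef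
  have hb2 : b ^ 2 = 1 - (l / 2) ^ 2 := Real.sq_sqrt hb
  set a : ℂ := ⟨l / 2, b⟩ with ha
  set a' : ℂ := ⟨l / 2, -b⟩ with ha'
  have hn : ‖a‖ = 1 := by
    rw [Complex.norm_def, Complex.normSq_mk, Real.sqrt_eq_one]
    nlinarith
  have hn' : ‖a'‖ = 1 := by
    rw [Complex.norm_def, Complex.normSq_mk, Real.sqrt_eq_one]
    nlinarith
  have hsum : a + a' = (l : ℂ) := by
    apply Complex.ext <;> simp [ha, ha']
  have hprod : a * a' = 1 := by
    apply Complex.ext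
    · simp only [ha, ha', Complex.mul_re, Complex.one_re]
      nlinarith
    · simp only [ha, ha', Complex.mul_im, Complex.one_im]
      ring
  have hfac : 1 - (l : ℂ) * z + z ^ 2 = (1 - a * z) * (1 - a' * z) := by
    rw [← hsum]
    linear_combination (-z ^ 2) * hprod
  rw [hfac, norm_mul]
  have k1 : 1 / 2 ≤ ‖1 - a * z‖ := by
    have := norm_sub_norm_le (1 : ℂ) (a * z)
    rw [norm_one, norm_mul, hn] at this
    linarith
  have k2 : 1 / 2 ≤ ‖1 - a' * z‖ := by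
    have := norm_sub_norm_le (1 : ℂ) (a' * z)
    rw [norm_one, norm_mul, hn'] at this
    linarith
  nlinarith

theorem inv_eq (w : ℂ) (hw : 1 + w ≠ 0) : (1 + w)⁻¹ = 1 + -w / (1 + w) := by
  field_simp
  ring

theorem mult_inv {X : Type} (f : X → ℂ) (hf : Summable f) (hlb : ∀ x, 1 / 4 ≤ ‖1 + f x‖) :
    Multipliable fun x => (1 + f x)⁻¹ := by
  have h0 : ∀ x, 1 + f x ≠ 0 := by
    intro x h
    have := hlb x
    rw [h, norm_zero] at this
    linarith
  have : (fun x => (1 + f x)⁻¹) = fun x => 1 + -f x / (1 + f x) := by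
    funext x
    exact inv_eq _ (h0 x)
  rw [this]
  refine multipliable_one_add_of_summable ?_
  refine Summable.of_nonneg_of_le (fun _ => norm_nonneg _) (fun x => ?_) (hf.norm.mul_left 4)
  rw [norm_div, norm_neg, div_le_iff₀ (by have := hlb x; linarith)]
  have := hlb x
  nlinarith [norm_nonneg (f x)]

theorem q_norm (q : ℕ) (hq : 2 ≤ q) (s : ℂ) (hs : 1 < s.re) :
    ‖(q : ℂ) ^ (-s)‖ = (q : ℝ) ^ (-s.re) ∧ ‖(q : ℂ) ^ (-s)‖ ≤ 1 / 2 := by
  have hq0 : 0 < (q : ℝ) := by positivity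
  have h1 : ‖(q : ℂ) ^ (-s)‖ = (q : ℝ) ^ (-s.re) := by
    rw [← Complex.ofReal_natCast, Complex.norm_cpow_eq_rpow_re_of_pos hq0, Complex.neg_re]
  refine ⟨h1, ?_⟩
  rw [h1]
  have hq2 : (2 : ℝ) ≤ q := by exact_mod_cast hq
  calc (q : ℝ) ^ (-s.re) ≤ (q : ℝ) ^ (-1 : ℝ) :=
        Real.rpow_le_rpow_of_exponent_le (by linarith) (by linarith)
    _ = (q : ℝ)⁻¹ := Real.rpow_neg_one _
    _ ≤ 1 / 2 := by
        rw [one_div]
        exact inv_anti₀ (by norm_num) hq2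

theorem q_sq (q : ℕ) (s : ℂ) : (q : ℂ) ^ (-(2 * s)) = ((q : ℂ) ^ (-s)) ^ 2 := by
  rw [show -(2 * s) = (2 : ℕ) * (-s) by push_cast; ring, Complex.cpow_nat_mul]

/-- The product of L2 with `χ = 1` in terms of the two simpler products. -/
theorem prod_eq {X : Type} (q : X → ℕ) (l : X → ℝ) (hq : ∀ x, 2 ≤ q x) (hl : ∀ x, |l x| ≤ 2)
    (s : ℂ) (hs : 1 < s.re) (hsum : Summable fun x => (q x : ℝ) ^ (-s.re)) :
    ((∏' x, (1 - (q x : ℂ) ^ (-s))⁻¹) ^ 2 *
        ∏' x, (1 - (l x : ℂ) * (q x : ℂ) ^ (-s) + (q x : ℂ) ^ (-(2 * s)))⁻¹) ^ 2 =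
      ∏' x, ((1 - (q x : ℂ) ^ (-s)) ^ 2 * (1 - ((1 : ℝ) : ℂ) * (q x : ℂ) ^ (-s)) ^ 2 *
        (1 - (l x : ℂ) * (q x : ℂ) ^ (-s) + (q x : ℂ) ^ (-(2 * s))) *
        (1 - ((1 : ℝ) : ℂ) * (l x : ℂ) * (q x : ℂ) ^ (-s) + (q x : ℂ) ^ (-(2 * s))))⁻¹ := by
  have hz : Summable fun x => ‖(q x : ℂ) ^ (-s)‖ := by
    refine hsum.congr fun x => ?_
    exact (q_norm (q x) (hq x) s hs).1.symm
  have m1 : Multipliable fun x => (1 - (q x : ℂ) ^ (-s))⁻¹ := by
    have := mult_inv (fun x => -(q x : ℂ) ^ (-s)) (hz.of_norm.neg) (fun x => by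
      have h := (q_norm (q x) (hq x) s hs).2
      have := norm_sub_norm_le (1 : ℂ) ((q x : ℂ) ^ (-s))
      rw [norm_one] at this
      rw [← sub_eq_add_neg]
      linarith)
    simpa only [← sub_eq_add_neg] using this
  have m2 : Multipliable fun x =>
      (1 - (l x : ℂ) * (q x : ℂ) ^ (-s) + (q x : ℂ) ^ (-(2 * s)))⁻¹ := by
    have e : ∀ x, 1 - (l x : ℂ) * (q x : ℂ) ^ (-s) + (q x : ℂ) ^ (-(2 * s)) =
        1 + (-((l x : ℂ) * (q x : ℂ) ^ (-s)) + ((q x : ℂ) ^ (-s)) ^ 2) := by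
      intro x
      rw [q_sq]
      ring
    have hs2 : Summable fun x => -((l x : ℂ) * (q x : ℂ) ^ (-s)) + ((q x : ℂ) ^ (-s)) ^ 2 := by
      refine Summable.of_norm_bounded (hz.mul_left 3) fun x => ?_
      refine (norm_add_le _ _).trans ?_
      rw [norm_neg, norm_mul, norm_pow, Complex.norm_real, Real.norm_eq_abs]
      have h := (q_norm (q x) (hq x) s hs).2
      have h' := norm_nonneg ((q x : ℂ) ^ (-s))
      have := hl x
      nlinarith
    have := mult_inv _ hs2 (fun x => by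
      rw [← e x, q_sq]
      exact quad_lb (l x) (hl x) _ (q_norm (q x) (hq x) s hs).2)
    refine this.congr fun x => ?_
    rw [e x]
  rw [← m1.tprod_pow, ← (m1.pow 2).tprod_mul m2, ← ((m1.pow 2).mul m2).tprod_pow]
  refine tprod_congr fun x => ?_
  push_cast
  simp only [one_mul]
  rw [inv_pow (1 - (q x : ℂ) ^ (-s)) 2, ← mul_inv, inv_pow]
  congr 1
  ring

end L3N

theorem simple (l2 : S_NoDouble) (d6 : S_ZetaSum) (d6b : S_Cont) (d7 : S_ZetaCosK)
    (w4 : S_GoodAlmost) (w7 : S_FinProd) : S_Simple := by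
  intro K _ _ E hE M F hc
  by_contra hord
  obtain ⟨hmin, hdiff, hprod⟩ := hc
  obtain ⟨g, hg, hFg⟩ := L3N.factor F hdiff hord
  obtain ⟨S, hS, hSgood⟩ := w4 K E hE
  obtain ⟨⟨e₁, he₁, hζ⟩, hcurve⟩ := w7 K S hS
  obtain ⟨e₂, he₂, hL⟩ := hcurve E hE M hmin (fun v hv => (hSgood v hv (M v) (hmin v)).1)
  obtain ⟨Z, hZ, hZeq⟩ := d6b K 0 2
  have hsumv : ∀ σ : ℝ, 1 < σ → Summable fun v : HeightOneSpectrum (𝓞 K) => (nm v : ℝ) ^ (-σ) :=
    (d6 K).2.1
  have hsumX : ∀ σ : ℝ, 1 < σ →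
      Summable fun x : {v : HeightOneSpectrum (𝓞 K) // v ∉ S} => (nm x.1 : ℝ) ^ (-σ) :=
    fun σ hσ => (hsumv σ hσ).subtype _
  have hq : ∀ x : {v : HeightOneSpectrum (𝓞 K) // v ∉ S}, 2 ≤ nm x.1 :=
    fun x => (N1.exists_prime x.1).1
  have hl : ∀ x : {v : HeightOneSpectrum (𝓞 K) // v ∉ S},
      |((tr (M x.1) x.1 : ℝ) / √(nm x.1) : ℝ)| ≤ 2 := by
    intro x
    have h1 := (hSgood x.1 x.2 (M x.1) (hmin x.1)).2
    have h2 : (0 : ℝ) < nm x.1 := by
      have := hq x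
      exact_mod_cast (by omega : 0 < nm x.1)
    have h3 : 0 < √(nm x.1 : ℝ) := Real.sqrt_pos.mpr h2
    rw [abs_div, abs_of_pos h3, div_le_iff₀ h3]
    exact h1
  have hball : ∀ s ∈ Metric.ball (5 / 4 : ℂ) 1, 0 < s.re ∧ |s.im| < 1 := by
    intro s hs
    rw [Metric.mem_ball, dist_eq_norm] at hs
    have h1 := Complex.abs_re_le_norm (s - 5 / 4)
    have h2 := Complex.abs_im_le_norm (s - 5 / 4)
    have h3 : (s - 5 / 4).re = s.re - 5 / 4 := by
      rw [Complex.sub_re]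
      norm_num
    have h4 : (s - 5 / 4).im = s.im := by
      rw [Complex.sub_im]
      norm_num
    rw [h3] at h1
    rw [h4] at h2
    have h5 := abs_lt.mp (lt_of_le_of_lt h1 hs)
    exact ⟨by linarith [h5.1], lt_of_le_of_lt h2 hs⟩
  obtain ⟨B, hB⟩ := l2 {v : HeightOneSpectrum (𝓞 K) // v ∉ S} (fun x => nm x.1)
    (fun x => (tr (M x.1) x.1 : ℝ) / √(nm x.1)) (fun _ => 1)
    (fun s => (Z s ^ 2 * e₁ s ^ 2 * g s * e₂ s) ^ 2) hq hsumX hl (fun _ => Or.inl rfl)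
    (by
      have hZb : DifferentiableOn ℂ Z (Metric.ball (5 / 4) 1) :=
        hZ.mono fun s hs => ⟨by have := (hball s hs).1; linarith,
          by have := (hball s hs).2; linarith⟩
      exact ((((hZb.pow 2).mul (he₁.differentiableOn.pow 2)).mul hg.differentiableOn).mul
        he₂.differentiableOn).pow 2)
    (by
      intro s hs hre
      have him := (hball s hs).2
      rw [← L3N.prod_eq (fun x : {v : HeightOneSpectrum (𝓞 K) // v ∉ S} => nm x.1)
        (fun x => (tr (M x.1) x.1 : ℝ) / √(nm x.1)) hq hl s hre (hsumX s.re hre)]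
      rw [← hζ s hre, ← hL s hre]
      have hF := hprod (s + 1 / 2) (by
        rw [Complex.add_re]
        norm_num
        linarith)
      rw [← hF, hFg s, hZeq s hre (by linarith)]
      ring)
  have hsumS : Summable fun x : {v : HeightOneSpectrum (𝓞 K) // v ∉ S} => 1 / (nm x.1 : ℝ) :=
    summable_of_sum_le (fun x => by positivity) (fun A => hB A (fun _ _ => rfl))
  have hsum1 : Summable fun v : HeightOneSpectrum (𝓞 K) => 1 / (nm v : ℝ) :=
    (hS.summable_compl_iff (f := fun v : HeightOneSpectrum (𝓞 K) => 1 / (nm v : ℝ))).mp hsumS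
  obtain ⟨C, hC⟩ := (d7 K).1
  set T : ℝ := ∑' v : HeightOneSpectrum (𝓞 K), 1 / (nm v : ℝ) with hT
  have hle : ∀ x : ℝ, 0 < x → primeSum K x 0 ≤ T := by
    intro x hx
    rw [primeSum, hT]
    refine Summable.tsum_le_tsum (fun v => ?_) ?_ hsum1
    · have h2 : 2 ≤ nm v := (N1.exists_prime v).1
      have h2' : (1 : ℝ) ≤ (nm v : ℝ) := by exact_mod_cast (by omega : 1 ≤ nm v)
      rw [zero_mul, Real.cos_zero, mul_one]
      show (nm v : ℝ) ^ (-(1 + x)) ≤ 1 / (nm v : ℝ)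
      calc (nm v : ℝ) ^ (-(1 + x)) ≤ (nm v : ℝ) ^ (-1 : ℝ) :=
            Real.rpow_le_rpow_of_exponent_le h2' (by linarith)
        _ = 1 / (nm v : ℝ) := by rw [Real.rpow_neg_one, one_div]
    · refine (hsumv (1 + x) (by linarith)).congr fun v => ?_
      rw [zero_mul, Real.cos_zero, mul_one]
      rfl
  set y : ℝ := |T| + |C| + 1 with hy
  have hy0 : 0 < y := by positivity
  have hx0 : 0 < Real.exp (-y) := Real.exp_pos _
  have hx1 : Real.exp (-y) ≤ 1 := Real.exp_le_one_iff.mpr (by linarith)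
  have h1 := hC (Real.exp (-y)) hx0 hx1
  have h2 := hle (Real.exp (-y)) hx0
  have h3 : Real.log (1 / Real.exp (-y)) = y := by
    rw [one_div, Real.log_inv, Real.log_exp, neg_neg]
  rw [h3] at h1
  have h4 := (abs_le.mp h1).1
  have h5 := le_abs_self T
  have h6 := le_abs_self C
  linarith

end MP7ed9c3.Tw
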