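import Pool.Agent.Lib.MP_7ed9c3_nt.Tw.SpecL

/-!
# MP_7ed9c3_nt, part Tw, L4: two twists cannot both vanish at `3/2`
-/

set_option autoImplicit false

namespace MP7ed9c3.Tw

open NumberField IsDedekindDomain Filter Topology

namespace L4

/-- a product of inverses `(1 + g x)⁻¹` with `g` absolutely summable converges -/
theorem mult_inv {X : Type} (g : X → ℂ) (hg : Summable fun x => ‖g x‖) :
    Multipliable fun x => (1 + g x)⁻¹ := by
  have h : Summable fun x => (1 + g x)⁻¹ - 1 := by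
    refine (hg.mul_left 2).of_norm_bounded_eventually ?_
    filter_upwards [hg.tendsto_cofinite_zero.eventually_le_const one_half_pos] with x hx
    have h1 : 1 / 2 ≤ ‖1 + g x‖ := by
      have h2 := norm_sub_norm_le (1 : ℂ) (-g x)
      rw [norm_one, norm_neg, sub_neg_eq_add] at h2
      linarith
    have h0 : 1 + g x ≠ 0 := by
      intro h
      rw [h, norm_zero] at h1
      norm_num at h1
    have e : (1 + g x)⁻¹ - 1 = (1 + g x)⁻¹ * -g x := by
      field_simp
      ring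
    rw [e, norm_mul, norm_neg, norm_inv]
    refine mul_le_mul_of_nonneg_right ?_ (norm_nonneg _)
    have h3 : (‖1 + g x‖)⁻¹ ≤ (1 / 2 : ℝ)⁻¹ := inv_anti₀ (by norm_num) h1
    simpa using h3
  have h2 := Complex.multipliable_one_add_of_summable h
  simpa using h2

theorem mult_quad {X : Type} (q : X → ℕ) (hq : ∀ x, 2 ≤ q x) (s : ℂ) (hs : 1 < s.re)
    (hsum : Summable fun x => (q x : ℝ) ^ (-s.re)) (a b : X → ℂ) (ha : ∀ x, ‖a x‖ ≤ 2)
    (hb : ∀ x, ‖b x‖ ≤ 1) :
    Multipliable fun x => (1 + (-a x * (q x : ℂ) ^ (-s) + b x * ((q x : ℂ) ^ (-s)) ^ 2))⁻¹ := by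
  refine mult_inv _ (Summable.of_nonneg_of_le (fun x => norm_nonneg _) (fun x => ?_)
    (hsum.mul_left 3))
  have hq0 : 0 < q x := by have := hq x; omega
  have hz : ‖(q x : ℂ) ^ (-s)‖ = (q x : ℝ) ^ (-s.re) := by
    rw [Complex.norm_natCast_cpow_of_pos hq0, Complex.neg_re]
  have hz1 : (q x : ℝ) ^ (-s.re) ≤ 1 :=
    Real.rpow_le_one_of_one_le_of_nonpos (by exact_mod_cast hq0) (by linarith)
  have hz0 : 0 ≤ (q x : ℝ) ^ (-s.re) := Real.rpow_nonneg (Nat.cast_nonneg _) _
  calc ‖-a x * (q x : ℂ) ^ (-s) + b x * ((q x : ℂ) ^ (-s)) ^ 2‖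
      ≤ ‖-a x * (q x : ℂ) ^ (-s)‖ + ‖b x * ((q x : ℂ) ^ (-s)) ^ 2‖ := norm_add_le _ _
    _ = ‖a x‖ * (q x : ℝ) ^ (-s.re) + ‖b x‖ * ((q x : ℝ) ^ (-s.re)) ^ 2 := by
        rw [norm_mul, norm_mul, norm_neg, norm_pow, hz]
    _ ≤ 2 * (q x : ℝ) ^ (-s.re) + 1 * ((q x : ℝ) ^ (-s.re)) ^ 2 :=
        add_le_add (mul_le_mul_of_nonneg_right (ha x) hz0)
          (mul_le_mul_of_nonneg_right (hb x) (sq_nonneg _))
    _ ≤ 3 * (q x : ℝ) ^ (-s.re) := by nlinarith

theorem cpow_two (q : ℕ) (s : ℂ) : (q : ℂ) ^ (-(2 * s)) = ((q : ℂ) ^ (-s)) ^ 2 := by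
  rw [← Complex.cpow_nat_mul]
  congr 1
  push_cast
  ring

theorem two_le_nm {K : Type} [Field K] [NumberField K] (v : HeightOneSpectrum (𝓞 K)) :
    2 ≤ nm v := by
  have h0 : nm v ≠ 0 := by
    rw [nm, Ne, Ideal.absNorm_eq_zero_iff]
    exact v.ne_bot
  have h1 : nm v ≠ 1 := by
    rw [nm, Ne, Ideal.absNorm_eq_one_iff]
    exact v.isPrime.ne_top
  omega

theorem chiv_sq {K : Type} [Field K] [NumberField K] (d : 𝓞 K) (v : HeightOneSpectrum (𝓞 K))
    (hd : (2 * d : 𝓞 K) ∉ v.asIdeal) : chiv d v = 1 ∨ chiv d v = -1 := by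
  have h : d ∉ v.asIdeal := fun h => hd (v.asIdeal.mul_mem_left 2 h)
  unfold chiv
  rw [if_neg h]
  split_ifs
  · exact Or.inl rfl
  · exact Or.inr rfl

theorem chiv_le {K : Type} [Field K] [NumberField K] (d : 𝓞 K) (v : HeightOneSpectrum (𝓞 K)) :
    -1 ≤ chiv d v ∧ chiv d v ≤ 1 := by
  unfold chiv
  split_ifs <;> constructor <;> norm_num

/-- a zero at `3/2` divides out -/
theorem div_out (F : ℂ → ℂ) (h0 : F (3 / 2) = 0) (s : ℂ) :
    F (s + 1 / 2) = (s - 1) * dslope F (3 / 2) (s + 1 / 2) := by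
  have h := sub_smul_dslope F (3 / 2) (s + 1 / 2)
  rw [h0, sub_zero, smul_eq_mul] at h
  rw [← h]
  congr 1
  ring

theorem diff_out (F : ℂ → ℂ) (hF : Differentiable ℂ F) :
    Differentiable ℂ fun s => dslope F (3 / 2) (s + 1 / 2) := by
  have h : Differentiable ℂ (dslope F (3 / 2)) := by
    rw [← differentiableOn_univ, Complex.differentiableOn_dslope Filter.univ_mem]
    exact hF.differentiableOn
  exact h.comp (differentiable_id.add_const _)

/-- the sum over the primes with `χ = 1` is unbounded -/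
theorem unbounded (d7 : S_ZetaCosK) {K L : Type} [Field K] [NumberField K] [Field L]
    [NumberField L] (d : 𝓞 K) (S : Set (HeightOneSpectrum (𝓞 K))) (hS : S.Finite) (C₁ : ℝ)
    (hC₁ : ∀ x u : ℝ, 0 < x → x ≤ 1 →
      |primeSum L x u - ∑' v : HeightOneSpectrum (𝓞 K), (1 + chiv d v) *
        ((nm v : ℝ) ^ (-(1 + x)) * Real.cos (u * Real.log (nm v)))| ≤ C₁)
    (hχ : ∀ v ∉ S, chiv d v = 1 ∨ chiv d v = -1) (B : ℝ)
    (hB : ∀ A : Finset {v : HeightOneSpectrum (𝓞 K) // v ∉ S}, (∀ x ∈ A, chiv d x.1 = 1) →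
      ∑ x ∈ A, 1 / (nm x.1 : ℝ) ≤ B) : False := by
  classical
  obtain ⟨C, hC⟩ := (d7 L).1
  have hB0 : 0 ≤ B := by
    have := hB ∅ (fun x hx => absurd hx (Finset.notMem_empty x))
    simpa using this
  set D : ℝ := 2 * (hS.toFinset.card : ℝ) + 2 * B with hD
  have hD0 : 0 ≤ D := by positivity
  -- the bound for the finite sums
  have hfin : ∀ x : ℝ, 0 < x → ∀ T : Finset (HeightOneSpectrum (𝓞 K)),
      ∑ v ∈ T, (1 + chiv d v) * ((nm v : ℝ) ^ (-(1 + x)) * Real.cos (0 * Real.log (nm v))) ≤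
        D := by
    intro x hx T
    have hterm : ∀ v : HeightOneSpectrum (𝓞 K),
        0 ≤ (nm v : ℝ) ^ (-(1 + x)) ∧ (nm v : ℝ) ^ (-(1 + x)) ≤ 1 / (nm v : ℝ) ∧
          (nm v : ℝ) ^ (-(1 + x)) ≤ 1 := by
      intro v
      have h2 := two_le_nm v
      have h2' : (2 : ℝ) ≤ nm v := by exact_mod_cast h2
      refine ⟨Real.rpow_nonneg (Nat.cast_nonneg _) _, ?_, ?_⟩
      · rw [one_div, ← Real.rpow_neg_one]
        exact Real.rpow_le_rpow_of_exponent_le (by linarith) (by linarith)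
      · exact Real.rpow_le_one_of_one_le_of_nonpos (by linarith) (by linarith)
    rw [← Finset.sum_filter_add_sum_filter_not T (fun v => v ∈ S)]
    refine add_le_add ?_ ?_
    · -- the primes in S
      have h1 : ∑ v ∈ T.filter (fun v => v ∈ S), (1 + chiv d v) *
          ((nm v : ℝ) ^ (-(1 + x)) * Real.cos (0 * Real.log (nm v))) ≤
          ∑ v ∈ T.filter (fun v => v ∈ S), (2 : ℝ) := by
        refine Finset.sum_le_sum fun v _ => ?_
        rw [zero_mul, Real.cos_zero, mul_one]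
        obtain ⟨ha, -, hc⟩ := hterm v
        have hb := chiv_le d v
        nlinarith
      refine h1.trans ?_
      rw [Finset.sum_const, nsmul_eq_mul, mul_comm]
      refine mul_le_mul_of_nonneg_left ?_ (by norm_num)
      have h2 : T.filter (fun v => v ∈ S) ⊆ hS.toFinset := by
        intro v hv
        rw [Set.Finite.mem_toFinset]
        exact (Finset.mem_filter.1 hv).2
      exact_mod_cast Finset.card_le_card h2
    · -- the primes outside S
      set T' := T.filter (fun v => v ∉ S) with hT'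
      have h1 : ∑ v ∈ T', (1 + chiv d v) *
          ((nm v : ℝ) ^ (-(1 + x)) * Real.cos (0 * Real.log (nm v))) ≤
          ∑ v ∈ T', if chiv d v = 1 then 2 * (1 / (nm v : ℝ)) else 0 := by
        refine Finset.sum_le_sum fun v hv => ?_
        rw [zero_mul, Real.cos_zero, mul_one]
        obtain ⟨ha, hb, -⟩ := hterm v
        rcases hχ v (Finset.mem_filter.1 hv).2 with h | h
        · rw [if_pos h, h]
          linarith
        · rw [h]
          norm_num
      refine h1.trans ?_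
      rw [← Finset.sum_filter, ← Finset.mul_sum]
      refine mul_le_mul_of_nonneg_left ?_ (by norm_num)
      -- transfer to the subtype
      have h2 := hB ((T'.filter (fun v => chiv d v = 1)).subtype (fun v => v ∉ S)) (by
        intro x hx
        rw [Finset.mem_subtype, Finset.mem_filter] at hx
        exact hx.2)
      rw [Finset.sum_subtype_of_mem (fun v : HeightOneSpectrum (𝓞 K) => 1 / (nm v : ℝ))] at h2
      · exact h2
      · intro v hv
        exact (Finset.mem_filter.1 (Finset.mem_filter.1 hv).1).2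
  have hts : ∀ x : ℝ, 0 < x → ∑' v : HeightOneSpectrum (𝓞 K), (1 + chiv d v) *
      ((nm v : ℝ) ^ (-(1 + x)) * Real.cos (0 * Real.log (nm v))) ≤ D := fun x hx =>
    tsum_le_of_sum_le' hD0 (hfin x hx)
  have hlog : ∀ x : ℝ, 0 < x → x ≤ 1 → Real.log (1 / x) ≤ D + C₁ + C := by
    intro x hx hx1
    have h1 := (abs_le.1 (hC₁ x 0 hx hx1)).2
    have h2 := (abs_le.1 (hC x hx hx1)).1
    have h3 := hts x hx
    linarith
  set E : ℝ := |D + C₁ + C| + 1 with hE
  have hE0 : 0 ≤ |D + C₁ + C| := abs_nonneg _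
  have h := hlog (Real.exp (-E)) (Real.exp_pos _) (Real.exp_le_one_iff.2 (by linarith))
  rw [one_div, Real.log_inv, Real.log_exp, neg_neg] at h
  have := le_abs_self (D + C₁ + C)
  linarith

end L4

open L4 in
/-- **L4.** -/
theorem notBoth (l2 : S_NoDouble) (d6 : S_ZetaSum) (d6b : S_Cont) (d7 : S_ZetaCosK)
    (w4 : S_GoodAlmost) (w6 : S_SplitSum) (w7 : S_FinProd) : S_NotBoth := by
  classical
  intro K _ _ E E' hE hE' d S₀ hd hS₀ hS M M' F F' hF hF' hzero
  obtain ⟨h0, h0'⟩ := hzero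
  obtain ⟨L, iF, iN, ⟨C₁, hC₁⟩, S₁, hS₁, hP⟩ := w6 K d hd
  obtain ⟨SE, hSE, hE1⟩ := w4 K E hE
  obtain ⟨SE', hSE', hE1'⟩ := w4 K E' hE'
  set S : Set (HeightOneSpectrum (𝓞 K)) := S₀ ∪ S₁ ∪ SE ∪ SE' with hSdef
  have hfin : S.Finite := ((hS₀.union hS₁).union hSE).union hSE'
  have hn0 : ∀ v ∉ S, v ∉ S₀ := fun v hv h => hv (Or.inl (Or.inl (Or.inl h)))
  have hn2 : ∀ v ∉ S, v ∉ SE := fun v hv h => hv (Or.inl (Or.inr h))
  have hn3 : ∀ v ∉ S, v ∉ SE' := fun v hv h => hv (Or.inr h)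
  obtain ⟨e, he, heq⟩ := hP S hfin (fun v h => Or.inl (Or.inl (Or.inr h)))
  obtain ⟨e₂, he₂, heq₂⟩ := (w7 K S hfin).2 E hE M hF.1
    (fun v hv => (hE1 v (hn2 v hv) (M v) (hF.1 v)).1)
  obtain ⟨e₃, he₃, heq₃⟩ := (w7 K S hfin).2 E' hE' M' hF'.1
    (fun v hv => (hE1' v (hn3 v hv) (M' v) (hF'.1 v)).1)
  obtain ⟨Z, hZ, hZeq⟩ := d6b L 0 2
  have hχ : ∀ v ∉ S, chiv d v = 1 ∨ chiv d v = -1 := fun v hv =>
    chiv_sq d v (hS v (hn0 v hv)).1
  have hl : ∀ x : {v : HeightOneSpectrum (𝓞 K) // v ∉ S},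
      |(tr (M x.1) x.1 : ℝ) / √(nm x.1)| ≤ 2 := by
    intro x
    have h1 := (hE1 x.1 (hn2 x.1 x.2) (M x.1) (hF.1 x.1)).2
    have h2 : (0 : ℝ) < √(nm x.1) := by
      apply Real.sqrt_pos.2
      have := two_le_nm x.1
      exact_mod_cast (by omega : 0 < nm x.1)
    rw [abs_div, abs_of_pos h2, div_le_iff₀ h2]
    exact h1
  have hsum : ∀ σ : ℝ, 1 < σ → Summable fun x : {v : HeightOneSpectrum (𝓞 K) // v ∉ S} =>
      (nm x.1 : ℝ) ^ (-σ) := fun σ hσ =>
    ((d6 K).2.1 σ hσ).comp_injective Subtype.val_injective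
  set G : ℂ → ℂ := fun s => Z s ^ 2 * e s ^ 2 * (dslope F (3 / 2) (s + 1 / 2) *
    dslope F' (3 / 2) (s + 1 / 2)) * e₂ s * e₃ s with hG
  have hball : ∀ s ∈ Metric.ball (5 / 4 : ℂ) 1, 0 < s.re ∧ |s.im| < 2 := by
    intro s hs
    rw [Metric.mem_ball, Complex.dist_eq] at hs
    have h1 := Complex.abs_re_le_norm (s - 5 / 4)
    have h2 := Complex.abs_im_le_norm (s - 5 / 4)
    have e1 : (s - 5 / 4).re = s.re - 5 / 4 := by
      rw [Complex.sub_re]
      norm_num
    have e2 : (s - 5 / 4).im = s.im := by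
      rw [Complex.sub_im]
      norm_num
    rw [e1] at h1
    rw [e2] at h2
    have h3 := (abs_le.1 (h1.trans hs.le)).1
    constructor
    · linarith
    · linarith
  have hGd : DifferentiableOn ℂ G (Metric.ball (5 / 4) 1) := by
    have hZ' : DifferentiableOn ℂ Z (Metric.ball (5 / 4) 1) := hZ.mono fun s hs => by
      have := hball s hs
      rw [Set.mem_ofPred_eq, neg_zero]
      exact this
    exact ((((hZ'.pow 2).mul (he.differentiableOn.pow 2)).mul
      ((diff_out F hF.2.1).differentiableOn.mul (diff_out F' hF'.2.1).differentiableOn)).mul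
        he₂.differentiableOn).mul he₃.differentiableOn
  obtain ⟨B, hB⟩ := l2 {v : HeightOneSpectrum (𝓞 K) // v ∉ S} (fun x => nm x.1)
    (fun x => (tr (M x.1) x.1 : ℝ) / √(nm x.1)) (fun x => chiv d x.1) G
    (fun x => two_le_nm x.1) hsum hl (fun x => hχ x.1 x.2) hGd (by
      intro s hs hs1
      have hb := hball s hs
      have hZs := hZeq s hs1 hb.2
      have hre : 3 / 2 < (s + 1 / 2).re := by
        rw [Complex.add_re]
        norm_num
        linarith
      have hFs := hF.2.2 (s + 1 / 2) hre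
      have hFs' := hF'.2.2 (s + 1 / 2) hre
      have k1 := heq s hs1
      have k2 := heq₂ s hs1
      have k3 := heq₃ s hs1
      rw [← hFs, div_out F h0] at k2
      rw [← hFs', div_out F' h0'] at k3
      have hGs : G s = (dedekindZeta L s * e s) * (dedekindZeta L s * e s) *
          ((s - 1) * dslope F (3 / 2) (s + 1 / 2) * e₂ s) *
          ((s - 1) * dslope F' (3 / 2) (s + 1 / 2) * e₃ s) := by
        rw [hG]
        simp only
        rw [hZs]
        ring
      have hsum' := hsum s.re hs1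
      have hm1 : Multipliable fun v : {v : HeightOneSpectrum (𝓞 K) // v ∉ S} =>
          ((1 - (nm v.1 : ℂ) ^ (-s)) * (1 - (chiv d v.1 : ℂ) * (nm v.1 : ℂ) ^ (-s)))⁻¹ := by
        have := mult_quad (fun v : {v : HeightOneSpectrum (𝓞 K) // v ∉ S} => nm v.1)
          (fun v => two_le_nm v.1) s hs1 hsum' (fun v => 1 + (chiv d v.1 : ℂ))
          (fun v => (chiv d v.1 : ℂ)) (fun v => by
            rcases hχ v.1 v.2 with h | h <;> rw [h] <;> norm_num) (fun v => by
            rcases hχ v.1 v.2 with h | h <;> rw [h] <;> norm_num)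
        refine this.congr fun v => ?_
        congr 1
        ring
      have hm2 : Multipliable fun v : {v : HeightOneSpectrum (𝓞 K) // v ∉ S} =>
          (1 - (((tr (M v.1) v.1 : ℝ) / √(nm v.1) : ℝ) : ℂ) * (nm v.1 : ℂ) ^ (-s) +
              (nm v.1 : ℂ) ^ (-(2 * s)))⁻¹ := by
        have := mult_quad (fun v : {v : HeightOneSpectrum (𝓞 K) // v ∉ S} => nm v.1)
          (fun v => two_le_nm v.1) s hs1 hsum'
          (fun v => (((tr (M v.1) v.1 : ℝ) / √(nm v.1) : ℝ) : ℂ))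
          (fun v => 1) (fun v => by
            rw [Complex.norm_real]
            exact hl v) (fun v => by norm_num)
        refine this.congr fun v => ?_
        rw [cpow_two]
        congr 1
        ring
      have htr : ∀ v : {v : HeightOneSpectrum (𝓞 K) // v ∉ S},
          (((tr (M' v.1) v.1 : ℝ) / √(nm v.1) : ℝ) : ℂ) =
            (chiv d v.1 : ℂ) * (((tr (M v.1) v.1 : ℝ) / √(nm v.1) : ℝ) : ℂ) := by
        intro v
        rw [(hS v.1 (hn0 v.1 v.2)).2 (M v.1) (M' v.1) (hF.1 v.1) (hF'.1 v.1)]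
        push_cast
        ring
      have hm3 : Multipliable fun v : {v : HeightOneSpectrum (𝓞 K) // v ∉ S} =>
          (1 - (((tr (M' v.1) v.1 : ℝ) / √(nm v.1) : ℝ) : ℂ) * (nm v.1 : ℂ) ^ (-s) +
              (nm v.1 : ℂ) ^ (-(2 * s)))⁻¹ := by
        have := mult_quad (fun v : {v : HeightOneSpectrum (𝓞 K) // v ∉ S} => nm v.1)
          (fun v => two_le_nm v.1) s hs1 hsum'
          (fun v => (((tr (M' v.1) v.1 : ℝ) / √(nm v.1) : ℝ) : ℂ))
          (fun v => 1) (fun v => by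
            rw [htr v, norm_mul, Complex.norm_real, Complex.norm_real]
            have h1 := hl v
            rw [← Real.norm_eq_abs] at h1
            have h2 : ‖chiv d v.1‖ = 1 := by
              rcases hχ v.1 v.2 with h | h <;> rw [h] <;> norm_num
            rw [h2, one_mul]
            exact h1) (fun v => by norm_num)
        refine this.congr fun v => ?_
        rw [cpow_two]
        congr 1
        ring
      rw [hGs, k1, k2, k3, ← hm1.tprod_mul hm1, ← (hm1.mul hm1).tprod_mul hm2,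
        ← ((hm1.mul hm1).mul hm2).tprod_mul hm3]
      refine tprod_congr fun v => ?_
      rw [htr v, ← mul_inv, ← mul_inv, ← mul_inv]
      congr 1
      ring)
  exact unbounded d7 (L := L) d S hfin C₁ hC₁ hχ B hB

end MP7ed9c3.Tw
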