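import Pool.Agent.Lib.MP_7ed9c3_nt.Tw.SpecL

/-!
# MP_7ed9c3_nt, part Tw, L5: existence of the mean
-/

set_option autoImplicit false

namespace MP7ed9c3.Tw

open Filter Topology

namespace L5

/-- an ultrafilter of positive reals tending to zero -/
noncomputable def U : Ultrafilter ℝ := Ultrafilter.of (𝓝[>] (0 : ℝ))

theorem U_le : (U : Filter ℝ) ≤ 𝓝[>] (0 : ℝ) := Ultrafilter.of_le _

theorem log_tend : Tendsto (fun x : ℝ => Real.log (1 / x)) (𝓝[>] (0 : ℝ)) atTop := by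
  have h := tendsto_neg_atBot_atTop.comp Real.tendsto_log_nhdsGT_zero
  refine h.congr fun x => ?_
  simp [Function.comp, Real.log_inv]

theorem ev_pos : ∀ᶠ x in (𝓝[>] (0 : ℝ)), 0 < x ∧ x ≤ 1 ∧ 1 ≤ Real.log (1 / x) := by
  have h1 : ∀ᶠ x in (𝓝[>] (0 : ℝ)), x ∈ Set.Ioc (0 : ℝ) 1 :=
    Ioc_mem_nhdsGT (by norm_num)
  filter_upwards [h1, log_tend.eventually_ge_atTop 1] with x hx hl
  exact ⟨hx.1, hx.2, hl⟩

/-- the quotients -/
noncomputable def quo {X : Type} (w : ℝ → X → ℝ) (g : X → ℝ) (x : ℝ) : ℝ :=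
  (∑' v, g v * w x v) / Real.log (1 / x)

/-- the mean -/
noncomputable def mn {X : Type} (w : ℝ → X → ℝ) (g : X → ℝ) : ℝ :=
  limUnder (U : Filter ℝ) (quo w g)

section

variable {X : Type} (w : ℝ → X → ℝ) (hw : ∀ x v, 0 ≤ w x v)
  (hs : ∀ x, 0 < x → x ≤ 1 → Summable (w x))

include hw hs

theorem summ (g : X → ℝ) (hg : Bdd g) (x : ℝ) (h0 : 0 < x) (h1 : x ≤ 1) :
    Summable fun v => g v * w x v := by
  obtain ⟨B, hB⟩ := hg
  refine Summable.of_norm_bounded ((hs x h0 h1).mul_left B) fun v => ?_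
  rw [Real.norm_eq_abs, abs_mul, abs_of_nonneg (hw x v)]
  exact mul_le_mul_of_nonneg_right (hB v) (hw x v)

theorem lim_ex (C : ℝ) (hC : ∀ x, 0 < x → x ≤ 1 → |∑' v, w x v - Real.log (1 / x)| ≤ C)
    (g : X → ℝ) (hg : Bdd g) : ∃ l, Tendsto (quo w g) (U : Filter ℝ) (𝓝 l) := by
  have hg' := hg
  obtain ⟨B, hB⟩ := hg'
  have key : ∀ᶠ x in (U : Filter ℝ), quo w g x ∈ Set.Icc (-(|B| * (1 + |C|))) (|B| * (1 + |C|)) := by
    filter_upwards [U_le ev_pos] with x hx
    obtain ⟨h0, h1, hl⟩ := hx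
    have hlp : 0 < Real.log (1 / x) := by linarith
    rw [Set.mem_Icc, ← abs_le]
    unfold quo
    rw [abs_div, abs_of_pos hlp, div_le_iff₀ hlp]
    have hsum := summ w hw hs g hg x h0 h1
    have h2 : |∑' v, g v * w x v| ≤ ∑' v, |B| * w x v := by
      have h3 : ‖∑' v, g v * w x v‖ ≤ ∑' v, ‖g v * w x v‖ := norm_tsum_le_tsum_norm hsum.norm
      refine h3.trans ?_
      refine hsum.norm.tsum_le_tsum (fun v => ?_) ((hs x h0 h1).mul_left |B|)
      rw [Real.norm_eq_abs, abs_mul, abs_of_nonneg (hw x v)]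
      exact mul_le_mul_of_nonneg_right ((hB v).trans (le_abs_self B)) (hw x v)
    rw [tsum_mul_left] at h2
    have h4 := (abs_le.1 (hC x h0 h1)).2
    have h5 : ∑' v, w x v ≤ (1 + |C|) * Real.log (1 / x) := by
      have : C ≤ |C| := le_abs_self C
      have h6 : 0 ≤ |C| := abs_nonneg C
      nlinarith
    calc |∑' v, g v * w x v| ≤ |B| * ∑' v, w x v := h2
      _ ≤ |B| * ((1 + |C|) * Real.log (1 / x)) := mul_le_mul_of_nonneg_left h5 (abs_nonneg B)
      _ = |B| * (1 + |C|) * Real.log (1 / x) := by ring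
  have hcpt : IsCompact (Set.Icc (-(|B| * (1 + |C|))) (|B| * (1 + |C|))) := isCompact_Icc
  obtain ⟨l, -, hl⟩ := hcpt.ultrafilter_le_nhds (U.map (quo w g)) (by
    rw [le_principal_iff]
    exact key)
  exact ⟨l, hl⟩

theorem tend_mn (C : ℝ) (hC : ∀ x, 0 < x → x ≤ 1 → |∑' v, w x v - Real.log (1 / x)| ≤ C)
    (g : X → ℝ) (hg : Bdd g) : Tendsto (quo w g) (U : Filter ℝ) (𝓝 (mn w g)) :=
  tendsto_nhds_limUnder (lim_ex w hw hs C hC g hg)

end

theorem mn_eq {X : Type} (w : ℝ → X → ℝ) (g : X → ℝ) (L C : ℝ)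
    (h : ∀ x, 0 < x → x ≤ 1 → |∑' v, g v * w x v - L * Real.log (1 / x)| ≤ C) :
    Tendsto (quo w g) (U : Filter ℝ) (𝓝 L) := by
  refine Tendsto.mono_left ?_ U_le
  rw [tendsto_iff_norm_sub_tendsto_zero]
  have h0 : Tendsto (fun x : ℝ => C / Real.log (1 / x)) (𝓝[>] (0 : ℝ)) (𝓝 0) :=
    log_tend.const_div_atTop C
  refine squeeze_zero' (Eventually.of_forall fun x => norm_nonneg _) ?_ h0
  filter_upwards [ev_pos] with x hx
  obtain ⟨hx0, hx1, hl⟩ := hx
  have hlp : 0 < Real.log (1 / x) := by linarith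
  have e : quo w g x - L = (∑' v, g v * w x v - L * Real.log (1 / x)) / Real.log (1 / x) := by
    unfold quo
    field_simp
  rw [e, Real.norm_eq_abs, abs_div, abs_of_pos hlp]
  exact div_le_div_of_nonneg_right (h x hx0 hx1) hlp.le

end L5

open L5 in
theorem mean : S_Mean := by
  intro X w hw hs hC
  obtain ⟨C, hC⟩ := hC
  have T := tend_mn w hw hs C hC
  have hev : ∀ᶠ x in (U : Filter ℝ), 0 < x ∧ x ≤ 1 ∧ 1 ≤ Real.log (1 / x) := U_le ev_pos
  refine ⟨mn w, ⟨?_, ?_, ?_, ?_⟩, ?_⟩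
  · intro g h hg hh
    have hgh : Bdd fun x => g x + h x := by
      obtain ⟨B, hB⟩ := hg
      obtain ⟨B', hB'⟩ := hh
      exact ⟨B + B', fun x => (abs_add_le _ _).trans (add_le_add (hB x) (hB' x))⟩
    refine tendsto_nhds_unique (T _ hgh) (((T g hg).add (T h hh)).congr' ?_)
    filter_upwards [hev] with x hx
    unfold quo
    rw [← add_div, ← (summ w hw hs g hg x hx.1 hx.2.1).tsum_add (summ w hw hs h hh x hx.1 hx.2.1)]
    congr 1
    exact tsum_congr fun v => (add_mul _ _ _).symm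
  · intro c g hg
    have hcg : Bdd fun x => c * g x := by
      obtain ⟨B, hB⟩ := hg
      refine ⟨|c| * B, fun x => ?_⟩
      rw [abs_mul]
      exact mul_le_mul_of_nonneg_left (hB x) (abs_nonneg c)
    refine tendsto_nhds_unique (T _ hcg) (((T g hg).const_mul c).congr' ?_)
    filter_upwards with x
    unfold quo
    rw [← mul_div_assoc, ← tsum_mul_left]
    congr 1
    exact tsum_congr fun v => (mul_assoc _ _ _).symm
  · intro g hg h0
    refine ge_of_tendsto (T g hg) ?_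
    filter_upwards [hev] with x hx
    unfold quo
    exact div_nonneg (tsum_nonneg fun v => mul_nonneg (h0 v) (hw x v)) (by linarith [hx.2.2])
  · have h1 : Bdd fun _ : X => (1 : ℝ) := ⟨1, fun _ => by simp⟩
    refine tendsto_nhds_unique (T _ h1) (mn_eq w _ 1 C ?_)
    intro x hx0 hx1
    simpa using hC x hx0 hx1
  · intro g L C' hg h
    exact tendsto_nhds_unique (T g hg) (mn_eq w g L C' h)

end MP7ed9c3.Tw
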