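import Pool.Agent.Lib.MP_7ed9c3_nt.Tw.SpecL

/-!
# MP_7ed9c3_nt, part Tw, L7: the means of the zeros, a curve and a twist
-/

set_option autoImplicit false

namespace MP7ed9c3.Tw

namespace L7

section

variable {X : Type} {M : (X → ℝ) → ℝ} (hM : IsMean M)

include hM

theorem M_zero : M (fun _ => 0) = 0 := by
  have h := hM.smul 0 (fun _ => 1) ⟨1, fun _ => by simp⟩
  simpa using h

theorem lin (L : List (ℝ × (X → ℝ))) (hL : ∀ p ∈ L, Bdd p.2) :
    Bdd (fun x => (L.map fun p => p.1 * p.2 x).sum) ∧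
      M (fun x => (L.map fun p => p.1 * p.2 x).sum) = (L.map fun p => p.1 * M p.2).sum := by
  induction L with
  | nil =>
    refine ⟨⟨0, fun _ => by simp⟩, ?_⟩
    simpa using M_zero hM
  | cons p L ih =>
    obtain ⟨h1, h2⟩ := ih fun q hq => hL q (List.mem_cons_of_mem _ hq)
    have hp : Bdd p.2 := hL p List.mem_cons_self
    have hcp : Bdd fun x => p.1 * p.2 x := by
      obtain ⟨B, hB⟩ := hp
      refine ⟨|p.1| * B, fun x => ?_⟩
      rw [abs_mul]
      exact mul_le_mul_of_nonneg_left (hB x) (abs_nonneg _)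
    simp only [List.map_cons, List.sum_cons]
    refine ⟨?_, ?_⟩
    · obtain ⟨B, hB⟩ := hcp
      obtain ⟨B', hB'⟩ := h1
      exact ⟨B + B', fun x => (abs_add_le _ _).trans (add_le_add (hB x) (hB' x))⟩
    · rw [hM.add _ _ hcp h1, hM.smul _ _ hp, h2]

theorem lin_nonneg (L : List (ℝ × (X → ℝ))) (hL : ∀ p ∈ L, Bdd p.2)
    (h0 : ∀ x, 0 ≤ (L.map fun p => p.1 * p.2 x).sum) :
    0 ≤ (L.map fun p => p.1 * M p.2).sum := by
  rw [← (lin hM L hL).2]
  exact hM.nonneg _ (lin hM L hL).1 h0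

end

theorem bdd_cos {X : Type} (ℓ : X → ℝ) (u : ℝ) : Bdd fun x => Real.cos (u * ℓ x) :=
  ⟨1, fun _ => Real.abs_cos_le_one _⟩

theorem bdd_chi {X : Type} (χ ℓ : X → ℝ) (hχ : ∀ x, χ x = 1 ∨ χ x = -1) (u : ℝ) :
    Bdd fun x => χ x * Real.cos (u * ℓ x) := by
  refine ⟨1, fun x => ?_⟩
  rw [abs_mul]
  have h1 : |χ x| = 1 := by rcases hχ x with h | h <;> rw [h] <;> simp
  rw [h1, one_mul]
  exact Real.abs_cos_le_one _

theorem bdd_mul {X : Type} (f g : X → ℝ) (hf : Bdd f) (hg : Bdd g) : Bdd fun x => f x * g x := by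
  obtain ⟨B, hB⟩ := hf
  obtain ⟨B', hB'⟩ := hg
  refine ⟨B * B', fun x => ?_⟩
  rw [abs_mul]
  exact mul_le_mul (hB x) (hB' x) (abs_nonneg _) ((abs_nonneg _).trans (hB x))

/-- the pointwise inequality of part 1 -/
theorem ineq1 (l h : ℝ) (hl : |l| ≤ 2) (hh : |h| ≤ 4) :
    0 ≤ 484 * h ^ 2 + 9624 / 5 + 960 * (l * h) - h ^ 4 := by
  obtain ⟨l1, l2⟩ := abs_le.1 hl
  obtain ⟨h1, h2⟩ := abs_le.1 hh
  have hl2 : l ^ 2 ≤ 4 := by nlinarith
  have hh2 : h ^ 2 ≤ 16 := by nlinarith
  have hy : h ^ 2 * (h - l) * (h + l) ≤ 96 * |h + l| := by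
    have e1 : |h ^ 2 * (h - l)| ≤ 96 := by
      rw [abs_mul, abs_of_nonneg (sq_nonneg h)]
      have e2 : |h - l| ≤ 6 := by
        rw [abs_le]
        constructor <;> linarith
      calc h ^ 2 * |h - l| ≤ 16 * 6 := mul_le_mul hh2 e2 (abs_nonneg _) (by norm_num)
        _ = 96 := by norm_num
    calc h ^ 2 * (h - l) * (h + l) ≤ |h ^ 2 * (h - l) * (h + l)| := le_abs_self _
      _ = |h ^ 2 * (h - l)| * |h + l| := abs_mul _ _
      _ ≤ 96 * |h + l| := mul_le_mul_of_nonneg_right e1 (abs_nonneg _)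
  have hs : 96 * |h + l| ≤ 24 / 5 + 480 * (h + l) ^ 2 := by
    have e3 := sq_nonneg (|h + l| - 1 / 10)
    have e4 : |h + l| ^ 2 = (h + l) ^ 2 := sq_abs _
    nlinarith
  have hlh : l ^ 2 * h ^ 2 ≤ 4 * h ^ 2 := mul_le_mul_of_nonneg_right hl2 (sq_nonneg h)
  nlinarith

theorem poly1 (z : ℝ) :
    0 ≤ (103 / 100 + 159 / 100 * z + 1 / 20 * z ^ 2 - 59 / 100 * z ^ 3 + 23 / 50 * z ^ 4)
      - (1 + 3 / 2 * z) := by
  nlinarith [sq_nonneg (z ^ 2 - 59 / 92 * z - 17 / 100), sq_nonneg (z - 3 / 10), sq_nonneg z]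

theorem poly2 (z : ℝ) :
    0 ≤ (103 / 100 + 159 / 100 * z + 1 / 20 * z ^ 2 - 59 / 100 * z ^ 3 + 23 / 50 * z ^ 4)
      + (1 + 3 / 2 * z) := by
  nlinarith [sq_nonneg (z ^ 2 - 59 / 92 * z - 29 / 20), sq_nonneg (z + 187 / 200), sq_nonneg z]

/-- the pointwise inequality of part 2 -/
theorem ineq2 (l z : ℝ) (hl : |l| ≤ 2) :
    0 ≤ 2 * (103 / 100 + 159 / 100 * z + 1 / 20 * z ^ 2 - 59 / 100 * z ^ 3 + 23 / 50 * z ^ 4)
      + l * (1 + 3 / 2 * z) := by
  obtain ⟨l1, l2⟩ := abs_le.1 hl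
  have h1 := mul_nonneg (by linarith : (0 : ℝ) ≤ 2 - l) (poly1 z)
  have h2 := mul_nonneg (by linarith : (0 : ℝ) ≤ 2 + l) (poly2 z)
  nlinarith

end L7

open L7 in
theorem coreTwo : S_CoreTwo := by
  intro X M l χ ℓ hM hl hχ hcos hchi
  have hlB : Bdd l := ⟨2, hl⟩
  have hone : Bdd fun _ : X => (1 : ℝ) := ⟨1, fun _ => by simp⟩
  have hcos0 : ∀ u : ℝ, 0 ≤ M (fun x => Real.cos (u * ℓ x)) := by
    intro u
    by_cases hu : u = 0
    · subst hu
      have : (fun x => Real.cos (0 * ℓ x)) = fun _ => (1 : ℝ) := by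
        funext x
        simp
      rw [this, hM.one]
      norm_num
    · exact (hcos u hu).ge
  constructor
  · rintro t t' ht ht' ⟨h1, h2⟩
    have key := lin_nonneg hM
      [(9624 / 5 + 484 * 4 - 36, fun _ => (1 : ℝ)),
       (936, fun x => Real.cos ((2 * t) * ℓ x)),
       (936, fun x => Real.cos ((2 * t') * ℓ x)),
       (-2, fun x => Real.cos ((4 * t) * ℓ x)),
       (-2, fun x => Real.cos ((4 * t') * ℓ x)),
       (-12, fun x => Real.cos ((2 * (t + t')) * ℓ x)),
       (-12, fun x => Real.cos ((2 * (t - t')) * ℓ x)),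
       (484 * 4 - 48, fun x => χ x * Real.cos ((t + t') * ℓ x)),
       (484 * 4 - 48, fun x => χ x * Real.cos ((t - t') * ℓ x)),
       (-8, fun x => χ x * Real.cos ((3 * t + t') * ℓ x)),
       (-8, fun x => χ x * Real.cos ((3 * t - t') * ℓ x)),
       (-8, fun x => χ x * Real.cos ((t + 3 * t') * ℓ x)),
       (-8, fun x => χ x * Real.cos ((t - 3 * t') * ℓ x)),
       (1920, fun x => l x * Real.cos (t * ℓ x)),
       (1920, fun x => l x * (χ x * Real.cos (t' * ℓ x)))] ?_ ?_
    · simp only [List.map_cons, List.map_nil, List.sum_cons, List.sum_nil] at key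
      rw [hM.one, hcos (2 * t) (by positivity), hcos (2 * t') (by positivity),
        hcos (4 * t) (by positivity), hcos (4 * t') (by positivity),
        hcos (2 * (t + t')) (by positivity), hchi, hchi, hchi, hchi, hchi, hchi] at key
      have h3 := hcos0 (2 * (t - t'))
      linarith
    · intro p hp
      simp only [List.mem_cons, List.not_mem_nil, or_false] at hp
      rcases hp with rfl | rfl | rfl | rfl | rfl | rfl | rfl | rfl | rfl | rfl | rfl | rfl | rfl |
        rfl | rfl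
      · exact hone
      · exact bdd_cos ℓ _
      · exact bdd_cos ℓ _
      · exact bdd_cos ℓ _
      · exact bdd_cos ℓ _
      · exact bdd_cos ℓ _
      · exact bdd_cos ℓ _
      · exact bdd_chi χ ℓ hχ _
      · exact bdd_chi χ ℓ hχ _
      · exact bdd_chi χ ℓ hχ _
      · exact bdd_chi χ ℓ hχ _
      · exact bdd_chi χ ℓ hχ _
      · exact bdd_chi χ ℓ hχ _
      · exact bdd_mul _ _ hlB (bdd_cos ℓ _)
      · exact bdd_mul _ _ hlB (bdd_chi χ ℓ hχ _)
    · intro x
      simp only [List.map_cons, List.map_nil, List.sum_cons, List.sum_nil]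
      set p := t * ℓ x with hp
      set q := t' * ℓ x with hq
      have e1 : Real.cos ((2 * t) * ℓ x) = 2 * Real.cos p ^ 2 - 1 := by
        rw [← Real.cos_two_mul, hp]
        ring_nf
      have e2 : Real.cos ((2 * t') * ℓ x) = 2 * Real.cos q ^ 2 - 1 := by
        rw [← Real.cos_two_mul, hq]
        ring_nf
      have e3 : Real.cos ((4 * t) * ℓ x) = 2 * (2 * Real.cos p ^ 2 - 1) ^ 2 - 1 := by
        rw [← Real.cos_two_mul, ← Real.cos_two_mul, hp]
        ring_nf
      have e4 : Real.cos ((4 * t') * ℓ x) = 2 * (2 * Real.cos q ^ 2 - 1) ^ 2 - 1 := by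
        rw [← Real.cos_two_mul, ← Real.cos_two_mul, hq]
        ring_nf
      have e5 : Real.cos ((2 * (t + t')) * ℓ x) = (2 * Real.cos p ^ 2 - 1) *
          (2 * Real.cos q ^ 2 - 1) - Real.sin (2 * p) * Real.sin (2 * q) := by
        rw [← Real.cos_two_mul, ← Real.cos_two_mul, ← Real.cos_add, hp, hq]
        ring_nf
      have e6 : Real.cos ((2 * (t - t')) * ℓ x) = (2 * Real.cos p ^ 2 - 1) *
          (2 * Real.cos q ^ 2 - 1) + Real.sin (2 * p) * Real.sin (2 * q) := by
        rw [← Real.cos_two_mul, ← Real.cos_two_mul, ← Real.cos_sub, hp, hq]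
        ring_nf
      have e7 : Real.cos ((t + t') * ℓ x) = Real.cos p * Real.cos q -
          Real.sin p * Real.sin q := by
        rw [← Real.cos_add, hp, hq]
        ring_nf
      have e8 : Real.cos ((t - t') * ℓ x) = Real.cos p * Real.cos q +
          Real.sin p * Real.sin q := by
        rw [← Real.cos_sub, hp, hq]
        ring_nf
      have e9 : Real.cos ((3 * t + t') * ℓ x) = (4 * Real.cos p ^ 3 - 3 * Real.cos p) *
          Real.cos q - Real.sin (3 * p) * Real.sin q := by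
        rw [← Real.cos_three_mul, ← Real.cos_add, hp, hq]
        ring_nf
      have e10 : Real.cos ((3 * t - t') * ℓ x) = (4 * Real.cos p ^ 3 - 3 * Real.cos p) *
          Real.cos q + Real.sin (3 * p) * Real.sin q := by
        rw [← Real.cos_three_mul, ← Real.cos_sub, hp, hq]
        ring_nf
      have e11 : Real.cos ((t + 3 * t') * ℓ x) = Real.cos p *
          (4 * Real.cos q ^ 3 - 3 * Real.cos q) - Real.sin p * Real.sin (3 * q) := by
        rw [← Real.cos_three_mul, ← Real.cos_add, hp, hq]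
        ring_nf
      have e12 : Real.cos ((t - 3 * t') * ℓ x) = Real.cos p *
          (4 * Real.cos q ^ 3 - 3 * Real.cos q) + Real.sin p * Real.sin (3 * q) := by
        rw [← Real.cos_three_mul, ← Real.cos_sub, hp, hq]
        ring_nf
      rw [e1, e2, e3, e4, e5, e6, e7, e8, e9, e10, e11, e12]
      have hb : |2 * Real.cos p + 2 * (χ x * Real.cos q)| ≤ 4 := by
        have a1 := abs_le.1 (Real.abs_cos_le_one p)
        have a2 := abs_le.1 (Real.abs_cos_le_one q)
        rw [abs_le]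
        rcases hχ x with h | h <;> rw [h] <;> constructor <;> linarith [a1.1, a1.2, a2.1, a2.2]
      have h0 := ineq1 (l x) _ (hl x) hb
      rcases hχ x with h | h
      · rw [h] at h0 ⊢
        exact h0.trans_eq (by ring)
      · rw [h] at h0 ⊢
        exact h0.trans_eq (by ring)
  · rintro t' ht' ⟨h1, h2⟩
    have key := lin_nonneg hM
      [(491 / 200, fun _ => (1 : ℝ)),
       (459 / 200, fun x => χ x * Real.cos (t' * ℓ x)),
       (-59 / 200, fun x => χ x * Real.cos ((3 * t') * ℓ x)),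
       (51 / 100, fun x => Real.cos ((2 * t') * ℓ x)),
       (23 / 200, fun x => Real.cos ((4 * t') * ℓ x)),
       (1, l),
       (3 / 2, fun x => l x * (χ x * Real.cos (t' * ℓ x)))] ?_ ?_
    · simp only [List.map_cons, List.map_nil, List.sum_cons, List.sum_nil] at key
      rw [hM.one, hcos (2 * t') (by positivity), hcos (4 * t') (by positivity), hchi, hchi] at key
      linarith
    · intro p hp
      simp only [List.mem_cons, List.not_mem_nil, or_false] at hp
      rcases hp with rfl | rfl | rfl | rfl | rfl | rfl | rfl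
      · exact hone
      · exact bdd_chi χ ℓ hχ _
      · exact bdd_chi χ ℓ hχ _
      · exact bdd_cos ℓ _
      · exact bdd_cos ℓ _
      · exact hlB
      · exact bdd_mul _ _ hlB (bdd_chi χ ℓ hχ _)
    · intro x
      simp only [List.map_cons, List.map_nil, List.sum_cons, List.sum_nil]
      set q := t' * ℓ x with hq
      have e2 : Real.cos ((2 * t') * ℓ x) = 2 * Real.cos q ^ 2 - 1 := by
        rw [← Real.cos_two_mul, hq]
        ring_nf
      have e3 : Real.cos ((3 * t') * ℓ x) = 4 * Real.cos q ^ 3 - 3 * Real.cos q := by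
        rw [← Real.cos_three_mul, hq]
        ring_nf
      have e4 : Real.cos ((4 * t') * ℓ x) = 2 * (2 * Real.cos q ^ 2 - 1) ^ 2 - 1 := by
        rw [← Real.cos_two_mul, ← Real.cos_two_mul, hq]
        ring_nf
      rw [e2, e3, e4]
      have h0 := ineq2 (l x) (χ x * Real.cos q) (hl x)
      rcases hχ x with h | h
      · rw [h] at h0 ⊢
        exact h0.trans_eq (by ring)
      · rw [h] at h0 ⊢
        exact h0.trans_eq (by ring)

end MP7ed9c3.Tw
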