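import Pool.Agent.Lib.MP_7ed9c3_nt.Tw.SpecL

/-!
# MP_7ed9c3_nt, part Tw: L8, one curve (assembly)
-/

set_option autoImplicit false

namespace MP7ed9c3.Tw.L8

open NumberField IsDedekindDomain Filter Topology

theorem nm_ge_one {K : Type} [Field K] [NumberField K] (v : HeightOneSpectrum (𝓞 K)) :
    (1 : ℝ) ≤ (nm v : ℝ) := by
  have h0 : nm v ≠ 0 := by
    rw [nm, Ne, Ideal.absNorm_eq_zero_iff]
    exact v.ne_bot
  exact_mod_cast Nat.one_le_iff_ne_zero.2 h0

/-- change of finitely many terms of a sum -/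
theorem tsum_change {X : Type} (S : Set X) (hS : S.Finite) (f g : X → ℝ) (hg : Summable g)
    (h0 : ∀ v ∈ S, g v = 0) (h1 : ∀ v ∉ S, f v = g v) (B : X → ℝ) (hB : ∀ v, |f v| ≤ B v) :
    |∑' v, g v - ∑' v, f v| ≤ ∑ v ∈ hS.toFinset, B v := by
  classical
  have h2 : ∀ v ∉ hS.toFinset, (fun v => if v ∈ S then f v else 0) v = 0 := by
    intro v hv
    have hv' : v ∉ S := fun h => hv (hS.mem_toFinset.2 h)
    exact if_neg hv'
  have hs : Summable (fun v => if v ∈ S then f v else 0) := summable_of_ne_finset_zero h2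
  have h3 : f = fun v => g v + (if v ∈ S then f v else 0) := by
    funext v
    by_cases hv : v ∈ S
    · rw [if_pos hv, h0 v hv, zero_add]
    · rw [if_neg hv, h1 v hv, add_zero]
  have h4 : ∑' v, f v = ∑' v, g v + ∑' v, (if v ∈ S then f v else 0) := by
    rw [← hg.tsum_add hs]
    exact congrArg (fun k : X → ℝ => ∑' v, k v) h3
  have h5 : ∑' v, (if v ∈ S then f v else 0) = ∑ v ∈ hS.toFinset, f v := by
    rw [tsum_eq_sum h2]
    refine Finset.sum_congr rfl fun v hv => ?_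
    exact if_pos (hS.mem_toFinset.1 hv)
  rw [h4, h5, sub_add_cancel_left, abs_neg]
  exact (Finset.abs_sum_le_sum_abs _ _).trans (Finset.sum_le_sum fun v _ => hB v)

/-- the normalized trace, zero on the exceptional set -/
noncomputable def ll {K : Type} [Field K] [NumberField K] (S : Set (HeightOneSpectrum (𝓞 K)))
    (M : HeightOneSpectrum (𝓞 K) → WeierstrassCurve (𝓞 K)) (v : HeightOneSpectrum (𝓞 K)) : ℝ :=
  open Classical in if v ∈ S then 0 else (tr (M v) v : ℝ) / √(nm v)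

theorem ll_abs {K : Type} [Field K] [NumberField K] (S : Set (HeightOneSpectrum (𝓞 K)))
    (M : HeightOneSpectrum (𝓞 K) → WeierstrassCurve (𝓞 K))
    (h : ∀ v ∉ S, |(tr (M v) v : ℝ)| ≤ 2 * √(nm v)) (v : HeightOneSpectrum (𝓞 K)) :
    |ll S M v| ≤ 2 := by
  unfold ll
  split_ifs with hv
  · simp
  · have h1 : 0 < √(nm v : ℝ) := Real.sqrt_pos.2 (lt_of_lt_of_le one_pos (nm_ge_one v))
    rw [abs_div, abs_of_pos h1, div_le_iff₀ h1]
    exact h v hv

theorem pow_split (q x : ℝ) (hq : 1 ≤ q) :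
    q ^ (-(3 / 2 + x)) = q ^ (-(1 + x)) / √q := by
  have hq0 : 0 < q := lt_of_lt_of_le one_pos hq
  rw [Real.sqrt_eq_rpow, ← Real.rpow_sub hq0]
  congr 1
  ring

/-- the statement about the mean, for one value of `t` -/
theorem mean_bound {K : Type} [Field K] [NumberField K] (S : Set (HeightOneSpectrum (𝓞 K)))
    (hS : S.Finite) (M : HeightOneSpectrum (𝓞 K) → WeierstrassCurve (𝓞 K))
    (h : ∀ v ∉ S, |(tr (M v) v : ℝ)| ≤ 2 * √(nm v))
    (hsumm : ∀ σ : ℝ, 1 < σ → Summable fun v : HeightOneSpectrum (𝓞 K) => (nm v : ℝ) ^ (-σ))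
    (t m C : ℝ) (hC : ∀ x : ℝ, 0 < x → x ≤ 1 →
      |(∑' v : HeightOneSpectrum (𝓞 K), (tr (M v) v : ℝ) * (nm v : ℝ) ^ (-(3 / 2 + x)) *
        Real.cos (t * Real.log (nm v))) + m * Real.log (1 / x)| ≤ C) (x : ℝ) (hx : 0 < x)
    (hx1 : x ≤ 1) :
    |∑' v : HeightOneSpectrum (𝓞 K), (ll S M v * Real.cos (t * Real.log (nm v))) *
      (nm v : ℝ) ^ (-(1 + x)) - (-m) * Real.log (1 / x)| ≤
      C + ∑ v ∈ hS.toFinset, |(tr (M v) v : ℝ)| := by
  have hw := hsumm (1 + x) (by linarith)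
  have hg : Summable fun v : HeightOneSpectrum (𝓞 K) =>
      (ll S M v * Real.cos (t * Real.log (nm v))) * (nm v : ℝ) ^ (-(1 + x)) := by
    refine Summable.of_norm_bounded (hw.mul_left 2) fun v => ?_
    rw [Real.norm_eq_abs, abs_mul, abs_mul]
    have h1 : 0 ≤ (nm v : ℝ) ^ (-(1 + x)) := Real.rpow_nonneg (Nat.cast_nonneg _) _
    rw [abs_of_nonneg h1]
    refine mul_le_mul_of_nonneg_right ?_ h1
    calc |ll S M v| * |Real.cos (t * Real.log (nm v))| ≤ 2 * 1 :=
          mul_le_mul (ll_abs S M h v) (Real.abs_cos_le_one _) (abs_nonneg _) (by norm_num)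
      _ = 2 := by norm_num
  have hch := tsum_change S hS
    (fun v => (tr (M v) v : ℝ) * (nm v : ℝ) ^ (-(3 / 2 + x)) * Real.cos (t * Real.log (nm v)))
    (fun v => (ll S M v * Real.cos (t * Real.log (nm v))) * (nm v : ℝ) ^ (-(1 + x))) hg
    (fun v hv => by
      change (ll S M v * _) * _ = 0
      rw [ll, if_pos hv, zero_mul, zero_mul])
    (fun v hv => by
      change (tr (M v) v : ℝ) * (nm v : ℝ) ^ (-(3 / 2 + x)) * Real.cos (t * Real.log (nm v)) =
        (ll S M v * Real.cos (t * Real.log (nm v))) * (nm v : ℝ) ^ (-(1 + x))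
      rw [ll, if_neg hv, pow_split _ _ (nm_ge_one v)]
      ring)
    (fun v => |(tr (M v) v : ℝ)|)
    (fun v => by
      rw [abs_mul, abs_mul]
      have h1 : |(nm v : ℝ) ^ (-(3 / 2 + x))| ≤ 1 := by
        rw [abs_of_nonneg (Real.rpow_nonneg (Nat.cast_nonneg _) _)]
        exact Real.rpow_le_one_of_one_le_of_nonpos (nm_ge_one v) (by linarith)
      calc |(tr (M v) v : ℝ)| * |(nm v : ℝ) ^ (-(3 / 2 + x))| *
            |Real.cos (t * Real.log (nm v))| ≤ |(tr (M v) v : ℝ)| * 1 * 1 := by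
            gcongr
            exact Real.abs_cos_le_one _
        _ = |(tr (M v) v : ℝ)| := by ring)
  have h2 := hC x hx hx1
  rw [abs_le] at h2 hch ⊢
  constructor <;> linarith [h2.1, h2.2, hch.1, hch.2]

/-- the order is even -/
theorem mean_even {X : Type} (Mn : (X → ℝ) → ℝ) (l e : X → ℝ) (t : ℝ) :
    Mn (fun x => l x * Real.cos (|t| * e x)) = Mn (fun x => l x * Real.cos (t * e x)) := by
  congr 1
  funext x
  rcases abs_choice t with h | h
  · rw [h]
  · rw [h, neg_mul, Real.cos_neg]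

theorem deriv_ne (F : ℂ → ℂ) (s : ℂ) (hF : Differentiable ℂ F) (h0 : F s = 0)
    (ht : analyticOrderAt F s ≠ ⊤) (h1 : analyticOrderNatAt F s ≤ 1) : deriv F s ≠ 0 := by
  have hA : AnalyticAt ℂ F s := hF.analyticAt s
  have h2 := hA.analyticOrderAt_deriv_add_one
  have h3 : (fun z => F z - F s) = F := by
    funext z
    rw [h0, sub_zero]
  rw [h3, ← Nat.cast_analyticOrderNatAt ht] at h2
  have h4 : analyticOrderAt (deriv F) s = 0 := by
    have h5 : analyticOrderAt (deriv F) s + 1 ≤ 0 + 1 := by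
      rw [h2, zero_add]
      exact_mod_cast h1
    have h6 := (ENat.add_le_add_iff_right (by simp)).1 h5
    exact nonpos_iff_eq_zero.1 h6
  intro h5
  have hA' : AnalyticAt ℂ (deriv F) s := hA.deriv
  exact (hA'.analyticOrderAt_ne_zero.2 h5) h4

end MP7ed9c3.Tw.L8

namespace MP7ed9c3.Tw

open NumberField IsDedekindDomain Filter Topology

theorem oneCurve (d6 : S_ZetaSum) (d7 : S_ZetaCosK) (w4 : S_GoodAlmost) (w8 : S_Order)
    (l3 : S_Simple) (l5 : S_Mean) (l6 : S_CoreOne) : S_OneCurve := by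
  intro K _ _ E hE M F hF t t' h0 h0'
  obtain ⟨hMin, hdiff, hprod⟩ := id hF
  have hsumm : ∀ σ : ℝ, 1 < σ → Summable fun v : HeightOneSpectrum (𝓞 K) =>
    (nm v : ℝ) ^ (-σ) := (d6 K).2.1
  obtain ⟨⟨C0, hC0⟩, hcos⟩ := d7 K
  obtain ⟨S, hS, hgood⟩ := w4 K E hE
  have hb : ∀ v ∉ S, |(tr (M v) v : ℝ)| ≤ 2 * √(nm v) := fun v hv =>
    (hgood v hv (M v) (hMin v)).2
  obtain ⟨Mn, hMn, hL⟩ := l5 (HeightOneSpectrum (𝓞 K)) (fun x v => (nm v : ℝ) ^ (-(1 + x)))
    (fun x v => Real.rpow_nonneg (Nat.cast_nonneg _) _)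
    (fun x hx _ => hsumm (1 + x) (by linarith))
    ⟨C0, fun x hx hx1 => by
      have h := hC0 x hx hx1
      have h2 : primeSum K x 0 = ∑' v : HeightOneSpectrum (𝓞 K), (nm v : ℝ) ^ (-(1 + x)) := by
        unfold primeSum
        refine tsum_congr fun v => ?_
        rw [zero_mul, Real.cos_zero, mul_one]
        rfl
      rwa [h2] at h⟩
  have hcos0 : ∀ u : ℝ, u ≠ 0 →
      Mn (fun v => Real.cos (u * Real.log (nm v))) = 0 := by
    intro u hu
    obtain ⟨C, hC⟩ := hcos u hu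
    refine hL _ 0 C ⟨1, fun v => Real.abs_cos_le_one _⟩ fun x hx hx1 => ?_
    have h := hC x hx hx1
    have h2 : primeSum K x u = ∑' v : HeightOneSpectrum (𝓞 K),
        Real.cos (u * Real.log (nm v)) * (nm v : ℝ) ^ (-(1 + x)) := by
      unfold primeSum
      refine tsum_congr fun v => ?_
      rw [mul_comm]
      rfl
    rw [zero_mul, sub_zero, ← h2]
    exact h
  have hord : ∀ r : ℝ, analyticOrderAt F (3 / 2 + r * Complex.I) ≠ ⊤ ∧
      Mn (fun v => L8.ll S M v * Real.cos (r * Real.log (nm v))) =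
        -(analyticOrderNatAt F (3 / 2 + r * Complex.I) : ℝ) := by
    intro r
    obtain ⟨ht, C, hC⟩ := w8 K E hE M hMin F hdiff hprod r
    refine ⟨ht, hL _ _ (C + ∑ v ∈ hS.toFinset, |(tr (M v) v : ℝ)|) ⟨2, fun v => ?_⟩
      fun x hx hx1 => ?_⟩
    · rw [abs_mul]
      calc |L8.ll S M v| * |Real.cos (r * Real.log (nm v))| ≤ 2 * 1 :=
            mul_le_mul (L8.ll_abs S M hb v) (Real.abs_cos_le_one _) (abs_nonneg _) (by norm_num)
        _ = 2 := by norm_num
    · exact L8.mean_bound S hS M hb hsumm r _ C hC x hx hx1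
  obtain ⟨A1, A2, A3⟩ := l6 (HeightOneSpectrum (𝓞 K)) Mn (L8.ll S M)
    (fun v => Real.log (nm v)) hMn (L8.ll_abs S M hb) hcos0
  have hge : ∀ r : ℝ, F (3 / 2 + r * Complex.I) = 0 →
      1 ≤ analyticOrderNatAt F (3 / 2 + r * Complex.I) := by
    intro r hr
    have h1 := (hdiff.analyticAt (3 / 2 + r * Complex.I)).analyticOrderAt_ne_zero.2 hr
    rw [← Nat.cast_analyticOrderNatAt (hord r).1] at h1
    have h2 : analyticOrderNatAt F (3 / 2 + r * Complex.I) ≠ 0 := by exact_mod_cast h1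
    omega
  have hle : ∀ r : ℝ, analyticOrderNatAt F (3 / 2 + r * Complex.I) ≤ 1 := by
    intro r
    by_cases hr : r = 0
    · have h1 := l3 K E hE M F hF
      rw [hr]
      simpa using h1
    · have h1 := A1 r _ hr (hord r).2
      by_contra h2
      have h3 : (2 : ℝ) ≤ (analyticOrderNatAt F (3 / 2 + r * Complex.I) : ℝ) := by
        exact_mod_cast (by omega : 2 ≤ analyticOrderNatAt F (3 / 2 + r * Complex.I))
      nlinarith
  have hneg : ∀ r : ℝ, F (3 / 2 + r * Complex.I) = 0 →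
      Mn (fun v => L8.ll S M v * Real.cos (|r| * Real.log (nm v))) ≤ -1 := by
    intro r hr
    rw [L8.mean_even Mn (L8.ll S M) (fun v => Real.log (nm v)) r, (hord r).2]
    have : (1 : ℝ) ≤ (analyticOrderNatAt F (3 / 2 + r * Complex.I) : ℝ) := by
      exact_mod_cast hge r hr
    linarith
  have hz : Mn (fun v => L8.ll S M v * Real.cos (|(0 : ℝ)| * Real.log (nm v))) =
      Mn (L8.ll S M) := by
    congr 1
    funext v
    rw [abs_zero, zero_mul, Real.cos_zero, mul_one]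
  refine ⟨?_, L8.deriv_ne F _ hdiff h0 (hord t).1 (hle t)⟩
  by_contra hne
  by_cases ht : t = 0
  · have ht' : 0 < |t'| := by
      refine abs_pos.2 fun h => hne ?_
      rw [ht, h]
    subst ht
    have h1 := hneg 0 h0
    rw [hz] at h1
    exact A3 |t'| ht' ⟨h1, hneg t' h0'⟩
  · by_cases ht' : t' = 0
    · subst ht'
      have h1 := hneg 0 h0'
      rw [hz] at h1
      exact A3 |t| (abs_pos.2 ht) ⟨h1, hneg t h0⟩
    · exact A2 |t| |t'| (abs_pos.2 ht) (abs_pos.2 ht') hne ⟨hneg t h0, hneg t' h0'⟩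

end MP7ed9c3.Tw
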