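import Pool.Agent.Lib.MP_7ed9c3_nt.Tw.SpecW

/-!
# MP_7ed9c3_nt, part Tw: W1, curves with the same j-invariant
-/

set_option autoImplicit false

namespace MP7ed9c3.Tw

open NumberField IsDedekindDomain Filter Topology

namespace W1N

/-- a short elliptic curve with `j ≠ 0, 1728` -/
theorem shortForm {K : Type} [Field K] [CharZero K] (E : WeierstrassCurve K) [E.IsElliptic]
    (h0 : E.j ≠ 0) (h1 : E.j ≠ 1728) :
    ∃ (C : WeierstrassCurve.VariableChange K) (a b : K), C • E = short a b ∧ a ≠ 0 ∧ b ≠ 0 ∧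
      4 * a ^ 3 + 27 * b ^ 2 ≠ 0 ∧ E.j = 6912 * a ^ 3 / (4 * a ^ 3 + 27 * b ^ 2) := by
  have : Invertible (2 : K) := invertibleOfNonzero two_ne_zero
  have : Invertible (3 : K) := invertibleOfNonzero three_ne_zero
  let C := E.toShortNF
  have hs : (C • E).IsShortNF := E.toShortNF_spec
  have hj : (C • E).j = E.j := WeierstrassCurve.variableChange_j E C
  have hj2 := (C • E).j_of_isShortNF
  have hΔ : (C • E).Δ ≠ 0 := (WeierstrassCurve.isUnit_Δ (C • E)).ne_zero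
  rw [WeierstrassCurve.Δ_of_isShortNF] at hΔ
  have hD : 4 * (C • E).a₄ ^ 3 + 27 * (C • E).a₆ ^ 2 ≠ 0 := right_ne_zero_of_mul hΔ
  rw [hj] at hj2
  refine ⟨C, (C • E).a₄, (C • E).a₆, ?_, ?_, ?_, hD, hj2⟩
  · apply WeierstrassCurve.ext
    · exact hs.a₁
    · exact hs.a₂
    · exact hs.a₃
    · rfl
    · rfl
  · intro h
    apply h0
    rw [hj2, h]
    simp
  · intro h
    apply h1
    rw [hj2, h]
    rw [h] at hD
    have hD2 : 4 * (C • E).a₄ ^ 3 ≠ 0 := by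
      intro h2
      apply hD
      rw [h2]
      ring
    have e : (4 * (C • E).a₄ ^ 3 + 27 * (0 : K) ^ 2) = 4 * (C • E).a₄ ^ 3 := by ring
    rw [e, div_eq_iff hD2]
    ring

/-- scaling -/
theorem scale {K : Type} [Field K] (a b : K) (u : Kˣ) :
    (⟨u⁻¹, 0, 0, 0⟩ : WeierstrassCurve.VariableChange K) • short a b =
      short ((u : K) ^ 4 * a) ((u : K) ^ 6 * b) := by
  apply WeierstrassCurve.ext
  · rw [WeierstrassCurve.variableChange_a₁]
    simp [short]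
  · rw [WeierstrassCurve.variableChange_a₂]
    simp [short]
  · rw [WeierstrassCurve.variableChange_a₃]
    simp [short]
  · rw [WeierstrassCurve.variableChange_a₄]
    simp [short]
  · rw [WeierstrassCurve.variableChange_a₆]
    simp [short]

theorem map_short {K : Type} [Field K] [NumberField K] (A B : 𝓞 K) :
    (short A B).map (algebraMap (𝓞 K) K) =
      short (algebraMap (𝓞 K) K A) (algebraMap (𝓞 K) K B) := by
  apply WeierstrassCurve.ext <;> simp [short]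

end W1N

theorem twistForm : S_TwistForm := by
  intro K _ _ E E' _ _ hjj h0 h1
  obtain ⟨C, a, b, hC, ha, hb, hD, hj⟩ := W1N.shortForm E h0 h1
  obtain ⟨C', a', b', hC', ha', hb', hD', hj'⟩ :=
    W1N.shortForm E' (hjj ▸ h0) (hjj ▸ h1)
  have hrel : a ^ 3 * b' ^ 2 = a' ^ 3 * b ^ 2 := by
    have h2 : 6912 * a ^ 3 / (4 * a ^ 3 + 27 * b ^ 2) =
        6912 * a' ^ 3 / (4 * a' ^ 3 + 27 * b' ^ 2) := by rw [← hj, ← hj', hjj]
    rw [div_eq_div_iff hD hD'] at h2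
    have h3 : (6912 * 27 : K) * (a ^ 3 * b' ^ 2) = (6912 * 27 : K) * (a' ^ 3 * b ^ 2) := by
      linear_combination h2
    exact mul_left_cancel₀ (by norm_num) h3
  classical
  obtain ⟨m, hm⟩ := IsLocalization.exist_integer_multiples_of_finset
    (nonZeroDivisors (𝓞 K)) ({a, b, b' * a / (a' * b)} : Finset K)
  obtain ⟨α, hα⟩ := hm a (by simp)
  obtain ⟨β, hβ⟩ := hm b (by simp)
  obtain ⟨δ, hδ⟩ := hm (b' * a / (a' * b)) (by simp)
  have hm0 : algebraMap (𝓞 K) K (m : 𝓞 K) ≠ 0 := by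
    intro h
    exact nonZeroDivisors.coe_ne_zero m ((map_eq_zero_iff _
      (FaithfulSMul.algebraMap_injective (𝓞 K) K)).mp h)
  have hsm : ∀ x : K, (m : 𝓞 K) • x = algebraMap (𝓞 K) K (m : 𝓞 K) * x := fun x =>
    Algebra.smul_def _ _
  rw [hsm] at hα hβ hδ
  set M := algebraMap (𝓞 K) K (m : 𝓞 K) with hM
  let u : Kˣ := Units.mk0 M hm0
  have hu : (u : K) = M := rfl
  have hA : algebraMap (𝓞 K) K ((m : 𝓞 K) ^ 3 * α) = M ^ 4 * a := by
    rw [map_mul, map_pow, hα]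
    ring
  have hB : algebraMap (𝓞 K) K ((m : 𝓞 K) ^ 5 * β) = M ^ 6 * b := by
    rw [map_mul, map_pow, hβ]
    ring
  have hd : algebraMap (𝓞 K) K ((m : 𝓞 K) * δ) = M ^ 2 * (b' * a / (a' * b)) := by
    rw [map_mul, hδ]
    ring
  have hne : ∀ x : 𝓞 K, algebraMap (𝓞 K) K x ≠ 0 → x ≠ 0 := by
    intro x hx h
    apply hx
    rw [h, map_zero]
  have hA0 : algebraMap (𝓞 K) K ((m : 𝓞 K) ^ 3 * α) ≠ 0 := by
    rw [hA]
    exact mul_ne_zero (pow_ne_zero _ hm0) ha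
  have hB0 : algebraMap (𝓞 K) K ((m : 𝓞 K) ^ 5 * β) ≠ 0 := by
    rw [hB]
    exact mul_ne_zero (pow_ne_zero _ hm0) hb
  have hd0 : algebraMap (𝓞 K) K ((m : 𝓞 K) * δ) ≠ 0 := by
    rw [hd]
    exact mul_ne_zero (pow_ne_zero _ hm0)
      (div_ne_zero (mul_ne_zero hb' ha) (mul_ne_zero ha' hb))
  have hE : ((⟨u⁻¹, 0, 0, 0⟩ : WeierstrassCurve.VariableChange K) * C) • E =
      (short ((m : 𝓞 K) ^ 3 * α) ((m : 𝓞 K) ^ 5 * β)).map (algebraMap (𝓞 K) K) := by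
    rw [mul_smul, hC, W1N.scale, W1N.map_short, hA, hB, hu]
  refine ⟨(m : 𝓞 K) ^ 3 * α, (m : 𝓞 K) ^ 5 * β, (m : 𝓞 K) * δ, hne _ hA0, hne _ hB0,
    hne _ hd0, ?_, ⟨_, hE⟩, ?_⟩
  · intro h
    have h2 : ((short ((m : 𝓞 K) ^ 3 * α) ((m : 𝓞 K) ^ 5 * β)).map
        (algebraMap (𝓞 K) K)).Δ = 0 := by
      rw [WeierstrassCurve.map_Δ, h, map_zero]
    rw [← hE] at h2
    exact (WeierstrassCurve.isUnit_Δ
      (((⟨u⁻¹, 0, 0, 0⟩ : WeierstrassCurve.VariableChange K) * C) • E)).ne_zero h2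
  · refine ⟨(⟨(u ^ 2)⁻¹, 0, 0, 0⟩ : WeierstrassCurve.VariableChange K) * C', ?_⟩
    rw [mul_smul, hC', W1N.scale, W1N.map_short, map_mul, map_mul _ _ (((m : 𝓞 K) * δ) ^ 3),
      map_pow, map_pow, hA, hB, hd]
    have e1 : ((u ^ 2 : Kˣ) : K) ^ 4 * a' = M ^ 4 * a * (M ^ 2 * (b' * a / (a' * b))) ^ 2 := by
      rw [Units.val_pow_eq_pow_val, hu]
      field_simp
      linear_combination (-1 : K) * hrel
    have e2 : ((u ^ 2 : Kˣ) : K) ^ 6 * b' = M ^ 6 * b * (M ^ 2 * (b' * a / (a' * b))) ^ 3 := by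
      rw [Units.val_pow_eq_pow_val, hu]
      field_simp
      linear_combination (-1 : K) * hrel
    rw [e1, e2]

end MP7ed9c3.Tw
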