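import Pool.Agent.Lib.MP_7ed9c3_nt.Tw.SpecW
import Pool.Agent.Lib.MP_7ed9c3_nt.AllN

/-!
# MP_7ed9c3_nt, part Tw, W4: good reduction and Hasse's bound outside a finite set
-/

set_option autoImplicit false

namespace MP7ed9c3.Tw

open NumberField IsDedekindDomain Filter Topology

/-- **W4, good reduction and Hasse's bound outside a finite set.** -/
theorem goodAlmost : S_GoodAlmost := by
  intro K _ _ E hE
  obtain ⟨W₀, hΔ, hW₀⟩ := existsModel K E hE
  have h6 : (6 : 𝓞 K) ≠ 0 := by norm_num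
  refine ⟨{v | W₀.Δ ∈ v.asIdeal} ∪ {v | (6 : 𝓞 K) ∈ v.asIdeal},
    (N5.finite_mem hΔ).union (N5.finite_mem h6), fun v hv M hM => ?_⟩
  have h1 : W₀.Δ ∉ v.asIdeal := fun h => hv (Or.inl h)
  have h2 : (6 : 𝓞 K) ∉ v.asIdeal := fun h => hv (Or.inr h)
  have h3 := (goodDataAll K E W₀ hW₀ v M h1 h2 hM).1
  exact ⟨h3, (traceBoundAll K M v).2 h3 h2⟩

end MP7ed9c3.Tw
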