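import Pool.Agent.Lib.MP_7ed9c3_nt.Tw.SpecW

/-!
# MP_7ed9c3_nt, W5: decomposition of primes in a quadratic extension
-/

set_option autoImplicit false

namespace MP7ed9c3.Tw.W5

open NumberField IsDedekindDomain

/-- counting: a sum of positive numbers equal to two -/
theorem sum_two_a {ι : Type} [Fintype ι] (g : ι → ℕ) (hs : ∑ i, g i = 2) (h1 : ∀ i, 1 ≤ g i)
    (i j : ι) (hij : i ≠ j) : (∀ k, k = i ∨ k = j) ∧ g i = 1 ∧ g j = 1 := by
  classical
  have h2 : g i + g j ≤ ∑ k, g k := by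
    rw [← Finset.sum_pair hij]
    exact Finset.sum_le_sum_of_subset (Finset.subset_univ _)
  have hi := h1 i
  have hj := h1 j
  refine ⟨fun k => ?_, by omega, by omega⟩
  by_contra hk
  push Not at hk
  have h3 : g k + (g i + g j) ≤ ∑ k, g k := by
    rw [← Finset.sum_pair hij, ← Finset.sum_insert (by
      simp only [Finset.mem_insert, Finset.mem_singleton, not_or]
      exact hk)]
    exact Finset.sum_le_sum_of_subset (Finset.subset_univ _)
  have hk := h1 k
  omega

theorem sum_two_b {ι : Type} [Fintype ι] (g : ι → ℕ) (hs : ∑ i, g i = 2) (h2 : ∀ i, 2 ≤ g i) :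
    ∃ i, (∀ k, k = i) ∧ g i = 2 := by
  classical
  have hne : Nonempty ι := by
    by_contra hne
    rw [not_nonempty_iff] at hne
    rw [Finset.univ_eq_empty, Finset.sum_empty] at hs
    omega
  obtain ⟨i⟩ := hne
  have hle : g i ≤ ∑ k, g k :=
    Finset.single_le_sum (f := g) (fun _ _ => Nat.zero_le _) (Finset.mem_univ i)
  have hi := h2 i
  refine ⟨i, fun k => ?_, by omega⟩
  by_contra hk
  have h3 : g k + g i ≤ ∑ k, g k := by
    rw [← Finset.sum_pair hk]
    exact Finset.sum_le_sum_of_subset (Finset.subset_univ _)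
  have hk := h2 k
  omega

/-- the nontrivial automorphism -/
theorem exists_aut {K L : Type} [Field K] [Field L] [Algebra K L] (a : K) (δ : L)
    (h2 : Module.finrank K L = 2) (hδ : δ ^ 2 = algebraMap K L a) (ha : ¬ IsSquare a) :
    ∃ σ : L ≃ₐ[K] L, σ δ = -δ := by
  have hq : Algebra.IsQuadraticExtension K L := ⟨h2⟩
  have hirr : Irreducible (Polynomial.X ^ 2 - Polynomial.C a : Polynomial K) := by
    refine (Polynomial.irreducible_iff_roots_eq_zero_of_degree_le_three ?_ ?_).2 ?_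
    · rw [Polynomial.natDegree_X_pow_sub_C]
    · rw [Polynomial.natDegree_X_pow_sub_C]
      norm_num
    · rw [Multiset.eq_zero_iff_forall_notMem]
      intro b hb
      rw [Polynomial.mem_roots (Polynomial.X_pow_sub_C_ne_zero (by norm_num) a),
        Polynomial.IsRoot.def] at hb
      simp only [Polynomial.eval_sub, Polynomial.eval_pow, Polynomial.eval_X,
        Polynomial.eval_C] at hb
      exact ha ⟨b, by rw [← pow_two]; exact (sub_eq_zero.1 hb).symm⟩
  have hm : (Polynomial.X ^ 2 - Polynomial.C a : Polynomial K).Monic :=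
    Polynomial.monic_X_pow_sub_C a (by norm_num)
  have e1 : minpoly K δ = Polynomial.X ^ 2 - Polynomial.C a :=
    (minpoly.eq_of_irreducible_of_monic hirr (by simp [hδ]) hm).symm
  have e2 : minpoly K (-δ) = Polynomial.X ^ 2 - Polynomial.C a :=
    (minpoly.eq_of_irreducible_of_monic hirr (by simp [hδ]) hm).symm
  have hc : IsConjRoot K (-δ) δ := by
    unfold IsConjRoot
    rw [e1, e2]
  obtain ⟨σ, hσ⟩ := isConjRoot_iff_exists_algEquiv.1 hc
  exact ⟨σ, hσ⟩

end W5

open NumberField IsDedekindDomain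

theorem splitLocal : S_SplitLocal := by
  classical
  intro K L _ _ _ _ _ d δ h2 hδ hd v
  set p : Ideal (𝓞 K) := v.asIdeal with hp
  have hpm : p.IsMaximal := v.isMaximal
  have hp0 : p ≠ ⊥ := v.ne_bot
  have hpp : p.IsPrime := v.isPrime
  have hfin : (p.primesOver (𝓞 L)).Finite := IsDedekindDomain.primesOver_finite p (𝓞 L)
  -- primes over `p` and elements of the height one spectrum
  have hcomp : ∀ w : HeightOneSpectrum (𝓞 L), w.asIdeal.comap (algebraMap (𝓞 K) (𝓞 L)) = p →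
      w.asIdeal ∈ p.primesOver (𝓞 L) := fun w hw => ⟨w.isPrime, ⟨hw.symm⟩⟩
  let mk : p.primesOver (𝓞 L) → HeightOneSpectrum (𝓞 L) := fun q =>
    ⟨q.1, q.2.1, by
      have := q.2.2
      exact Ideal.ne_bot_of_liesOver_of_ne_bot hp0 q.1⟩
  have hmk : ∀ q : p.primesOver (𝓞 L), (mk q).asIdeal.comap (algebraMap (𝓞 K) (𝓞 L)) = p :=
    fun q => q.2.2.over.symm
  have hmk' : ∀ w : HeightOneSpectrum (𝓞 L),
      ∀ hw : w.asIdeal.comap (algebraMap (𝓞 K) (𝓞 L)) = p, w = mk ⟨w.asIdeal, hcomp w hw⟩ :=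
    fun w hw => rfl
  have hset : {w : HeightOneSpectrum (𝓞 L) |
      w.asIdeal.comap (algebraMap (𝓞 K) (𝓞 L)) = p} = Set.range mk := by
    ext w
    constructor
    · intro hw
      exact ⟨⟨w.asIdeal, hcomp w hw⟩, rfl⟩
    · rintro ⟨q, rfl⟩
      exact hmk q
  have hfin' : Finite (p.primesOver (𝓞 L)) := hfin
  refine ⟨by rw [hset]; exact Set.finite_range mk, fun h2d => ?_⟩
  have hd' : d ∉ p := fun h => h2d (p.mul_mem_left 2 h)
  have h2' : (2 : 𝓞 K) ∉ p := fun h => h2d (p.mul_mem_right d h)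
  have hsum := Ideal.sum_ramification_inertia_eq_finrank p (𝓞 L)
  rw [← IsFractionRing.finrank_eq (𝓞 K) K (𝓞 L) L, h2] at hsum
  have hnm : ∀ q : p.primesOver (𝓞 L), nm (mk q) = nm v ^ (q.1.inertiaDeg (𝓞 K)) := by
    intro q
    have := q.2.1
    have := q.2.2
    exact (Ideal.absNorm_pow_inertiaDeg p q.1).symm
  have hint : IsIntegral ℤ δ := by
    refine IsIntegral.of_pow (n := 2) (by norm_num) ?_
    rw [hδ]
    exact map_isIntegral_int (algebraMap K L) d.2
  set δ' : 𝓞 L := ⟨δ, hint⟩ with hδ'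
  have hsq : δ' ^ 2 = algebraMap (𝓞 K) (𝓞 L) d := by
    apply RingOfIntegers.ext
    exact hδ
  have hpos : ∀ q : p.primesOver (𝓞 L), 1 ≤ q.1.ramificationIdx (𝓞 K) ∧
      1 ≤ q.1.inertiaDeg (𝓞 K) := by
    intro q
    have := q.2.1
    exact ⟨Ideal.ramificationIdx_pos q.1 (𝓞 K), Ideal.inertiaDeg_pos q.1 (𝓞 K)⟩
  constructor
  · intro hchi
    have hs : IsSquare (Ideal.Quotient.mk p d) := by
      by_contra hns
      unfold chiv at hchi
      rw [if_neg hd', if_neg hns] at hchi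
      norm_num at hchi
    obtain ⟨y, hy⟩ := hs
    obtain ⟨r, rfl⟩ := Ideal.Quotient.mk_surjective y
    rw [← map_mul, Ideal.Quotient.eq] at hy
    have key : ∀ q : p.primesOver (𝓞 L), δ' - algebraMap (𝓞 K) (𝓞 L) r ∈ q.1 ∨
        δ' + algebraMap (𝓞 K) (𝓞 L) r ∈ q.1 := by
      intro q
      refine q.2.1.mem_or_mem ?_
      have e : (δ' - algebraMap (𝓞 K) (𝓞 L) r) * (δ' + algebraMap (𝓞 K) (𝓞 L) r) =
          algebraMap (𝓞 K) (𝓞 L) (d - r * r) := by
        rw [map_sub, map_mul, ← hsq]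
        ring
      rw [e]
      have h3 := hmk q
      have h4 : d - r * r ∈ (mk q).asIdeal.comap (algebraMap (𝓞 K) (𝓞 L)) := by
        rw [h3]
        exact hy
      exact h4
    have key2 : ∀ q : p.primesOver (𝓞 L), ¬ (δ' - algebraMap (𝓞 K) (𝓞 L) r ∈ q.1 ∧
        δ' + algebraMap (𝓞 K) (𝓞 L) r ∈ q.1) := by
      rintro q ⟨ha, hb⟩
      have h3 : algebraMap (𝓞 K) (𝓞 L) (2 * r) ∈ q.1 := by
        have h4 := q.1.sub_mem hb ha
        have e : δ' + algebraMap (𝓞 K) (𝓞 L) r - (δ' - algebraMap (𝓞 K) (𝓞 L) r) =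
            algebraMap (𝓞 K) (𝓞 L) (2 * r) := by
          rw [map_mul, map_ofNat]
          ring
        rwa [e] at h4
      have h4 : 2 * r ∈ p := by
        have h5 : 2 * r ∈ (mk q).asIdeal.comap (algebraMap (𝓞 K) (𝓞 L)) := h3
        rwa [hmk q] at h5
      rcases hpp.mem_or_mem h4 with h5 | h5
      · exact h2' h5
      · apply hd'
        have h6 := p.add_mem hy (p.mul_mem_left r h5)
        rwa [sub_add_cancel] at h6
    obtain ⟨σ, hσ⟩ := W5.exists_aut (d : K) δ h2 hδ hd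
    let τ : 𝓞 L ≃+* 𝓞 L := RingOfIntegers.mapRingEquiv (σ : L ≃+* L)
    have hτδ : τ δ' = -δ' := by
      apply RingOfIntegers.ext
      exact hσ
    have hτr : ∀ x : 𝓞 K, τ (algebraMap (𝓞 K) (𝓞 L) x) = algebraMap (𝓞 K) (𝓞 L) x := by
      intro x
      apply RingOfIntegers.ext
      exact σ.commutes (x : K)
    have hex : ∀ q : p.primesOver (𝓞 L), ∃ q' : p.primesOver (𝓞 L),
        q'.1 = q.1.comap (τ : 𝓞 L →+* 𝓞 L) := by
      intro q
      have := q.2.1
      refine ⟨⟨q.1.comap (τ : 𝓞 L →+* 𝓞 L), Ideal.comap_isPrime _ _, ⟨?_⟩⟩, rfl⟩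
      have h3 := hmk q
      show p = (q.1.comap (τ : 𝓞 L →+* 𝓞 L)).comap (algebraMap (𝓞 K) (𝓞 L))
      rw [Ideal.comap_comap]
      have e : (τ : 𝓞 L →+* 𝓞 L).comp (algebraMap (𝓞 K) (𝓞 L)) = algebraMap (𝓞 K) (𝓞 L) := by
        ext x
        exact congrArg (fun z : 𝓞 L => (z : L)) (hτr x)
      rw [e]
      exact h3.symm
    have hne : Nonempty (p.primesOver (𝓞 L)) := by
      by_contra hne
      rw [not_nonempty_iff] at hne
      rw [Finset.univ_eq_empty, Finset.sum_empty] at hsum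
      omega
    obtain ⟨q₁⟩ := hne
    obtain ⟨q₂, hq₂⟩ := hex q₁
    have hmem : ∀ x, x ∈ q₂.1 ↔ τ x ∈ q₁.1 := fun x => by
      rw [hq₂]
      rfl
    have hq : q₁ ≠ q₂ := by
      intro he
      have e1 : τ (δ' + algebraMap (𝓞 K) (𝓞 L) r) = -(δ' - algebraMap (𝓞 K) (𝓞 L) r) := by
        rw [map_add, hτδ, hτr]
        ring
      have e2 : τ (δ' - algebraMap (𝓞 K) (𝓞 L) r) = -(δ' + algebraMap (𝓞 K) (𝓞 L) r) := by
        rw [map_sub, hτδ, hτr]
        ring
      rcases key q₁ with h3 | h3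
      · refine key2 q₁ ⟨h3, ?_⟩
        rw [he, hmem, e1]
        exact q₁.1.neg_mem h3
      · refine key2 q₁ ⟨?_, h3⟩
        rw [he, hmem, e2]
        exact q₁.1.neg_mem h3
    obtain ⟨hall, g1, g2⟩ := W5.sum_two_a _ hsum (fun q => Nat.one_le_iff_ne_zero.2
      (Nat.mul_ne_zero (Nat.one_le_iff_ne_zero.1 (hpos q).1)
        (Nat.one_le_iff_ne_zero.1 (hpos q).2))) q₁ q₂ hq
    refine ⟨mk q₁, mk q₂, fun he => hq (Subtype.ext (congrArg (fun w => w.asIdeal) he)), ?_, ?_,
      ?_⟩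
    · rw [hset]
      ext w
      simp only [Set.mem_range, Set.mem_insert_iff, Set.mem_singleton_iff]
      constructor
      · rintro ⟨q, rfl⟩
        rcases hall q with h3 | h3
        · exact Or.inl (by rw [h3])
        · exact Or.inr (by rw [h3])
      · rintro (h3 | h3)
        · exact ⟨q₁, h3.symm⟩
        · exact ⟨q₂, h3.symm⟩
    · rw [hnm, Nat.eq_one_of_mul_eq_one_left g1, pow_one]
    · rw [hnm, Nat.eq_one_of_mul_eq_one_left g2, pow_one]
  · intro hchi
    have hs : ¬ IsSquare (Ideal.Quotient.mk p d) := by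
      intro hns
      unfold chiv at hchi
      rw [if_neg hd', if_pos hns] at hchi
      norm_num at hchi
    have hf : ∀ q : p.primesOver (𝓞 L), 2 ≤ q.1.inertiaDeg (𝓞 K) := by
      intro q
      have hq1 := q.2.1
      have hq2 := q.2.2
      have hq3 : q.1.IsMaximal := hq1.isMaximal (Ideal.ne_bot_of_liesOver_of_ne_bot hp0 q.1)
      by_contra hlt
      have h3 : q.1.inertiaDeg (𝓞 K) = 1 := by
        have := (hpos q).2
        omega
      rw [Ideal.inertiaDeg_eq_of_isMaximal p q.1] at h3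
      letI : Field (𝓞 K ⧸ p) := Ideal.Quotient.field p
      letI : Field (𝓞 L ⧸ q.1) := Ideal.Quotient.field q.1
      obtain ⟨c, hc⟩ := (finrank_eq_one_iff_of_nonzero' (1 : 𝓞 L ⧸ q.1) one_ne_zero).1 h3
        (Ideal.Quotient.mk q.1 δ')
      obtain ⟨r, rfl⟩ := Ideal.Quotient.mk_surjective c
      have h4 : Ideal.Quotient.mk q.1 (algebraMap (𝓞 K) (𝓞 L) r) = Ideal.Quotient.mk q.1 δ' := by
        rw [← hc, Algebra.smul_def, mul_one]
        rfl
      rw [Ideal.Quotient.eq] at h4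
      apply hs
      refine ⟨Ideal.Quotient.mk p r, ?_⟩
      rw [← map_mul, Ideal.Quotient.eq]
      have h5 : d - r * r ∈ (mk q).asIdeal.comap (algebraMap (𝓞 K) (𝓞 L)) := by
        show algebraMap (𝓞 K) (𝓞 L) (d - r * r) ∈ q.1
        have e : algebraMap (𝓞 K) (𝓞 L) (d - r * r) =
            -(algebraMap (𝓞 K) (𝓞 L) r + δ') * (algebraMap (𝓞 K) (𝓞 L) r - δ') := by
          rw [map_sub, map_mul, ← hsq]
          ring
        rw [e]
        exact q.1.mul_mem_left _ h4
      rwa [hmk q] at h5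
    obtain ⟨q, hall, hg⟩ := W5.sum_two_b _ hsum (fun q => by
      have h3 := (hpos q).1
      have h4 := hf q
      nlinarith)
    refine ⟨mk q, ?_, ?_⟩
    · rw [hset]
      ext w
      simp only [Set.mem_range, Set.mem_singleton_iff]
      constructor
      · rintro ⟨q', rfl⟩
        rw [hall q']
      · intro h3
        exact ⟨q, h3.symm⟩
    · have h3 := (hpos q).1
      have h4 := hf q
      have h5 : q.1.inertiaDeg (𝓞 K) = 2 := by
        have h6 : q.1.inertiaDeg (𝓞 K) ≤ q.1.ramificationIdx (𝓞 K) * q.1.inertiaDeg (𝓞 K) :=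
          Nat.le_mul_of_pos_left _ h3
        have h7 : q.1.ramificationIdx (𝓞 K) * q.1.inertiaDeg (𝓞 K) = 2 := hg
        omega
      rw [hnm, h5]

end MP7ed9c3.Tw
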