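import Pool.Agent.Lib.MP_7ed9c3_nt.Tw.SpecW
import Pool.Agent.Lib.MP_7ed9c3_nt.N5

/-!
# MP_7ed9c3_nt, part Tw, W6: the zeta function of a quadratic extension
-/

set_option autoImplicit false

namespace MP7ed9c3.Tw

namespace W6

open NumberField IsDedekindDomain Filter Topology Polynomial

/-- sums over fibres -/
theorem hasSum_fiber {W V A : Type} [NormedAddCommGroup A] [CompleteSpace A] (π : W → V)
    (F : V → Finset W) (hF : ∀ v w, w ∈ F v ↔ π w = v) (f : W → A) (hf : Summable f) :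
    HasSum (fun v => ∑ w ∈ F v, f w) (∑' w, f w) := by
  have h1 : HasSum (f ∘ Equiv.sigmaFiberEquiv π) (∑' w, f w) :=
    (Equiv.sigmaFiberEquiv π).hasSum_iff.2 hf.hasSum
  refine h1.sigma (fun v => ?_)
  have h2 : HasSum (f ∘ ((↑) : {w // w ∈ F v} → W)) (∑ w ∈ F v, f w) := (F v).hasSum f
  let e : {w // w ∈ F v} ≃ {w // π w = v} := Equiv.subtypeEquivRight (fun w => hF v w)
  refine e.hasSum_iff.1 ?_
  exact h2

theorem compare {W V : Type} (π : W → V) (F : V → Finset W) (hF : ∀ v w, w ∈ F v ↔ π w = v)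
    (f : W → ℝ) (hf : Summable f) (g B : V → ℝ) (hB : Summable B)
    (h : ∀ v, |(∑ w ∈ F v, f w) - g v| ≤ B v) :
    |∑' w, f w - ∑' v, g v| ≤ ∑' v, B v := by
  have h1 := hasSum_fiber π F hF f hf
  have hr : Summable (fun v => (∑ w ∈ F v, f w) - g v) := Summable.of_norm_bounded hB h
  have hg : Summable g := by
    have := h1.summable.sub hr
    simpa using this
  have h2 : ∑' w, f w - ∑' v, g v = ∑' v, ((∑ w ∈ F v, f w) - g v) := by
    rw [h1.summable.tsum_sub hg, h1.tsum_eq]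
  rw [h2, ← Real.norm_eq_abs]
  exact tsum_of_norm_bounded hB.hasSum h

theorem prodFiber {W V : Type} (π : W → V) (F : V → Finset W) (hF : ∀ v w, w ∈ F v ↔ π w = v)
    (z : W → ℂ) (hz : ∀ w, ‖z w‖ ≤ 1 / 2) (hs : Summable fun w => ‖z w‖) (S : Finset V) :
    HasProd (fun v : {v // v ∉ S} => (∏ w ∈ F v, (1 - z w))⁻¹)
      (Complex.exp (∑' w, -Complex.log (1 - z w)) * ∏ v ∈ S, ∏ w ∈ F v, (1 - z w)) := by
  have hne : ∀ w, 1 - z w ≠ 0 := by
    intro w h0
    have h1 : z w = 1 := (sub_eq_zero.1 h0).symm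
    have h2 := hz w
    rw [h1, norm_one] at h2
    norm_num at h2
  have hl : Summable (fun w => -Complex.log (1 - z w)) := by
    refine Summable.of_norm_bounded (hs.mul_left (3 / 2)) (fun w => ?_)
    rw [norm_neg, sub_eq_add_neg]
    have := Complex.norm_log_one_add_half_le_self (z := -z w) (by rw [norm_neg]; exact hz w)
    rwa [norm_neg] at this
  have h1 := hasSum_fiber π F hF _ hl
  have hexp : ∀ v, Complex.exp (∑ w ∈ F v, -Complex.log (1 - z w)) =
      (∏ w ∈ F v, (1 - z w))⁻¹ := by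
    intro v
    rw [Complex.exp_sum, ← Finset.prod_inv_distrib]
    refine Finset.prod_congr rfl (fun w _ => ?_)
    rw [Complex.exp_neg, Complex.exp_log (hne w)]
  set T := ∑' w, -Complex.log (1 - z w) with hT
  have h2 : HasSum (fun v : {v // v ∉ S} => ∑ w ∈ F v.1, -Complex.log (1 - z w))
      (T - ∑ v ∈ S, ∑ w ∈ F v, -Complex.log (1 - z w)) := by
    refine (Finset.hasSum_compl_iff (f := fun v => ∑ w ∈ F v, -Complex.log (1 - z w)) S).2 ?_
    rw [sub_add_cancel]
    exact h1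
  have h3 := h2.cexp
  have h4 : Complex.exp (T - ∑ v ∈ S, ∑ w ∈ F v, -Complex.log (1 - z w)) =
      Complex.exp T * ∏ v ∈ S, ∏ w ∈ F v, (1 - z w) := by
    rw [Complex.exp_sub, Complex.exp_sum, div_eq_mul_inv, ← Finset.prod_inv_distrib]
    congr 1
    refine Finset.prod_congr rfl (fun v _ => ?_)
    rw [hexp, inv_inv]
  rw [h4] at h3
  refine h3.congr_fun ?_
  intro v
  exact (hexp v).symm

theorem one_lt_nm {K : Type} [Field K] [NumberField K] (v : HeightOneSpectrum (𝓞 K)) :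
    2 ≤ nm v := by
  have : 1 < Ideal.absNorm v.asIdeal := HeightOneSpectrum.one_lt_absNorm v
  exact this

theorem chiv_cases {K : Type} [Field K] [NumberField K] (d : 𝓞 K) (v : HeightOneSpectrum (𝓞 K))
    (h : (2 * d : 𝓞 K) ∉ v.asIdeal) : chiv d v = 1 ∨ chiv d v = -1 := by
  have hd : d ∉ v.asIdeal := fun hd => h (Ideal.mul_mem_left _ _ hd)
  unfold chiv
  rw [if_neg hd]
  split_ifs
  · exact Or.inl rfl
  · exact Or.inr rfl

theorem chiv_abs {K : Type} [Field K] [NumberField K] (d : 𝓞 K) (v : HeightOneSpectrum (𝓞 K)) :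
    |1 + chiv d v| ≤ 2 := by
  unfold chiv
  split_ifs <;> norm_num

theorem term_le_one {K : Type} [Field K] [NumberField K] (v : HeightOneSpectrum (𝓞 K)) (x u : ℝ)
    (hx : 0 < x) : |(nm v : ℝ) ^ (-(1 + x)) * Real.cos (u * Real.log (nm v))| ≤
      (nm v : ℝ) ^ (-(1 + x)) ∧ (nm v : ℝ) ^ (-(1 + x)) ≤ 1 := by
  have hn : (2 : ℝ) ≤ nm v := by exact_mod_cast one_lt_nm v
  have h0 : 0 ≤ (nm v : ℝ) ^ (-(1 + x)) := by positivity
  refine ⟨?_, ?_⟩
  · rw [abs_mul, abs_of_nonneg h0]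
    exact mul_le_of_le_one_right h0 (Real.abs_cos_le_one _)
  · exact Real.rpow_le_one_of_one_le_of_nonpos (by linarith) (by linarith)

end W6

open NumberField IsDedekindDomain Filter Topology Polynomial W6

theorem splitSum (h5 : S_SplitLocal) (h6 : S_ZetaSum) : S_SplitSum := by
  classical
  intro K _ _ d hd
  have hirr : Irreducible (X ^ 2 - C (d : K) : K[X]) :=
    X_pow_sub_C_irreducible_of_prime Nat.prime_two (fun b hb => hd ⟨b, by rw [← hb, sq]⟩)
  have hfact : Fact (Irreducible (X ^ 2 - C (d : K) : K[X])) := ⟨hirr⟩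
  have hfinite : Module.Finite K (AdjoinRoot (X ^ 2 - C (d : K) : K[X])) :=
    (AdjoinRoot.powerBasis hirr.ne_zero).finite
  have hNF : NumberField (AdjoinRoot (X ^ 2 - C (d : K) : K[X])) :=
    NumberField.of_module_finite K _
  set L := AdjoinRoot (X ^ 2 - C (d : K) : K[X]) with hL
  have hrank : Module.finrank K L = 2 := by
    rw [(AdjoinRoot.powerBasis hirr.ne_zero).finrank, AdjoinRoot.powerBasis_dim,
      natDegree_X_pow_sub_C]
  have hδ : (AdjoinRoot.root (X ^ 2 - C (d : K) : K[X])) ^ 2 = algebraMap K L (d : K) := by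
    have h := AdjoinRoot.eval₂_root (X ^ 2 - C (d : K) : K[X])
    rw [eval₂_sub, eval₂_pow, eval₂_X, eval₂_C, sub_eq_zero] at h
    exact h
  have hloc := h5 K L d _ hrank hδ hd
  let F : HeightOneSpectrum (𝓞 K) → Finset (HeightOneSpectrum (𝓞 L)) :=
    fun v => (hloc v).1.toFinset
  let π : HeightOneSpectrum (𝓞 L) → HeightOneSpectrum (𝓞 K) := fun w => w.under (𝓞 K)
  have hF : ∀ v w, w ∈ F v ↔ π w = v := by
    intro v w
    show w ∈ (hloc v).1.toFinset ↔ π w = v
    rw [Set.Finite.mem_toFinset, HeightOneSpectrum.ext_iff]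
    rfl
  have hset : ∀ v, (F v : Set (HeightOneSpectrum (𝓞 L))) = {w : HeightOneSpectrum (𝓞 L) |
        w.asIdeal.comap (algebraMap (𝓞 K) (𝓞 L)) = v.asIdeal} := fun v =>
    (hloc v).1.coe_toFinset
  have hsplit : ∀ v : HeightOneSpectrum (𝓞 K), (2 * d : 𝓞 K) ∉ v.asIdeal → chiv d v = 1 →
      ∃ w₁ w₂ : HeightOneSpectrum (𝓞 L), w₁ ≠ w₂ ∧ F v = {w₁, w₂} ∧ nm w₁ = nm v ∧
        nm w₂ = nm v := by
    intro v hv hc
    obtain ⟨w₁, w₂, h1, h2, h3, h4⟩ := ((hloc v).2 hv).1 hc
    refine ⟨w₁, w₂, h1, ?_, h3, h4⟩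
    rw [← Finset.coe_inj, hset v, h2]
    simp
  have hinert : ∀ v : HeightOneSpectrum (𝓞 K), (2 * d : 𝓞 K) ∉ v.asIdeal → chiv d v = -1 →
      ∃ w₁ : HeightOneSpectrum (𝓞 L), F v = {w₁} ∧ nm w₁ = nm v ^ 2 := by
    intro v hv hc
    obtain ⟨w₁, h2, h3⟩ := ((hloc v).2 hv).2 hc
    refine ⟨w₁, ?_, h3⟩
    rw [← Finset.coe_inj, hset v, h2]
    simp
  have h2d : (2 * d : 𝓞 K) ≠ 0 := by
    refine mul_ne_zero two_ne_zero ?_
    rintro rfl
    exact hd ⟨0, by simp⟩
  have hS₁ : {v : HeightOneSpectrum (𝓞 K) | (2 * d : 𝓞 K) ∈ v.asIdeal}.Finite :=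
    N5.finite_mem h2d
  refine ⟨L, inferInstance, hNF, ?_, {v | (2 * d : 𝓞 K) ∈ v.asIdeal}, hS₁, ?_⟩
  · -- the sums over primes
    let B : HeightOneSpectrum (𝓞 K) → ℝ := fun v =>
      (if v ∈ hS₁.toFinset then ((F v).card + 2 : ℝ) else 0) + (nm v : ℝ) ^ (-2 : ℝ)
    have hB : Summable B := by
      refine Summable.add ?_ ((h6 K).2.1 2 (by norm_num))
      refine summable_of_ne_finset_zero (s := hS₁.toFinset) (fun v hv => ?_)
      rw [if_neg hv]
    refine ⟨∑' v, B v, fun x u hx _ => ?_⟩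
    have hf : Summable (fun w : HeightOneSpectrum (𝓞 L) =>
        (nm w : ℝ) ^ (-(1 + x)) * Real.cos (u * Real.log (nm w))) := by
      refine Summable.of_norm_bounded ((h6 L).2.1 (1 + x) (by linarith)) (fun w => ?_)
      exact (term_le_one w x u hx).1
    refine compare π F hF _ hf _ B hB (fun v => ?_)
    have hn : (2 : ℝ) ≤ nm v := by exact_mod_cast one_lt_nm v
    have hq : 0 ≤ (nm v : ℝ) ^ (-2 : ℝ) := by positivity
    have hterm := term_le_one v x u hx
    by_cases hv : v ∈ hS₁.toFinset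
    · have h1 : |∑ w ∈ F v, (nm w : ℝ) ^ (-(1 + x)) * Real.cos (u * Real.log (nm w))| ≤
          (F v).card := by
        refine (Finset.abs_sum_le_sum_abs _ _).trans ?_
        refine (Finset.sum_le_card_nsmul (F v) _ 1 (fun w _ => ?_)).trans ?_
        · have := term_le_one w x u hx
          exact this.1.trans this.2
        · rw [nsmul_eq_mul, mul_one]
      have h2 : |(1 + chiv d v) * ((nm v : ℝ) ^ (-(1 + x)) * Real.cos (u * Real.log (nm v)))| ≤
          2 := by
        rw [abs_mul]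
        have h3 := chiv_abs d v
        have h4 := hterm.1.trans hterm.2
        calc _ ≤ 2 * 1 := mul_le_mul h3 h4 (abs_nonneg _) (by norm_num)
          _ = 2 := by norm_num
      show _ ≤ (if v ∈ hS₁.toFinset then ((F v).card + 2 : ℝ) else 0) + (nm v : ℝ) ^ (-2 : ℝ)
      rw [if_pos hv]
      refine (abs_sub _ _).trans ?_
      linarith
    · have hv' : (2 * d : 𝓞 K) ∉ v.asIdeal := by
        rw [Set.Finite.mem_toFinset] at hv
        exact hv
      show _ ≤ (if v ∈ hS₁.toFinset then ((F v).card + 2 : ℝ) else 0) + (nm v : ℝ) ^ (-2 : ℝ)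
      rw [if_neg hv, zero_add]
      rcases chiv_cases d v hv' with hc | hc
      · obtain ⟨w₁, w₂, h1, h2, h3, h4⟩ := hsplit v hv' hc
        rw [h2, Finset.sum_pair h1, h3, h4, hc]
        have : (nm v : ℝ) ^ (-(1 + x)) * Real.cos (u * Real.log (nm v)) +
          (nm v : ℝ) ^ (-(1 + x)) * Real.cos (u * Real.log (nm v)) -
          (1 + 1) * ((nm v : ℝ) ^ (-(1 + x)) * Real.cos (u * Real.log (nm v))) = 0 := by ring
        rw [this, abs_zero]
        exact hq
      · obtain ⟨w₁, h2, h3⟩ := hinert v hv' hc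
        rw [h2, Finset.sum_singleton, hc]
        have h4 : (1 + -1 : ℝ) * ((nm v : ℝ) ^ (-(1 + x)) * Real.cos (u * Real.log (nm v))) = 0 := by
          ring
        rw [h4, sub_zero]
        refine (term_le_one w₁ x u hx).1.trans ?_
        rw [h3]
        push_cast
        have h5 : ((nm v : ℝ) ^ 2) ^ (-(1 + x)) ≤ ((nm v : ℝ) ^ 2) ^ (-1 : ℝ) :=
          Real.rpow_le_rpow_of_exponent_le (by nlinarith) (by linarith)
        refine h5.trans (le_of_eq ?_)
        rw [← Real.rpow_natCast, ← Real.rpow_mul (by positivity)]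
        norm_num
  · -- the Euler products
    intro S hS hSS
    obtain ⟨S', rfl⟩ := hS.exists_finset_coe
    refine ⟨fun s => ∏ v ∈ S', ∏ w ∈ F v, (1 - (nm w : ℂ) ^ (-s)), ?_, fun s hs => ?_⟩
    · have hne : ∀ w : HeightOneSpectrum (𝓞 L), (nm w : ℂ) ≠ 0 := by
        intro w
        have := one_lt_nm w
        exact_mod_cast (by omega : nm w ≠ 0)
      refine Differentiable.fun_finset_prod (fun v _ => ?_)
      refine Differentiable.fun_finset_prod (fun w _ => ?_)
      exact (differentiable_const _).sub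
        ((differentiable_id.neg).const_cpow (Or.inl (hne w)))
    · have hnorm : ∀ w : HeightOneSpectrum (𝓞 L), ‖(nm w : ℂ) ^ (-s)‖ = (nm w : ℝ) ^ (-s.re) := by
        intro w
        have := one_lt_nm w
        rw [Complex.norm_natCast_cpow_of_pos (by omega), Complex.neg_re]
      have hz : ∀ w : HeightOneSpectrum (𝓞 L), ‖(nm w : ℂ) ^ (-s)‖ ≤ 1 / 2 := by
        intro w
        rw [hnorm]
        have hn : (2 : ℝ) ≤ nm w := by exact_mod_cast one_lt_nm w
        have h1 : (nm w : ℝ) ^ (-s.re) ≤ (nm w : ℝ) ^ (-1 : ℝ) :=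
          Real.rpow_le_rpow_of_exponent_le (by linarith) (by linarith)
        refine h1.trans ?_
        rw [Real.rpow_neg_one, one_div]
        exact inv_anti₀ (by norm_num) hn
      have hsum : Summable fun w : HeightOneSpectrum (𝓞 L) => ‖(nm w : ℂ) ^ (-s)‖ := by
        simp_rw [hnorm]
        exact (h6 L).2.1 s.re hs
      have hP := prodFiber π F hF (fun w => (nm w : ℂ) ^ (-s)) hz hsum S'
      have hzeta : dedekindZeta L s =
          Complex.exp (∑' w : HeightOneSpectrum (𝓞 L), -Complex.log (1 - (nm w : ℂ) ^ (-s))) :=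
        ((h6 L).2.2 s hs).2
      rw [← hzeta] at hP
      have hloc2 : ∀ v : HeightOneSpectrum (𝓞 K), v ∉ S' →
          ∏ w ∈ F v, (1 - (nm w : ℂ) ^ (-s)) =
            (1 - (nm v : ℂ) ^ (-s)) * (1 - (chiv d v : ℂ) * (nm v : ℂ) ^ (-s)) := by
        intro v hv
        have hv' : (2 * d : 𝓞 K) ∉ v.asIdeal := fun h => hv (hSS h)
        rcases chiv_cases d v hv' with hc | hc
        · obtain ⟨w₁, w₂, h1, h2, h3, h4⟩ := hsplit v hv' hc
          rw [h2, Finset.prod_pair h1, h3, h4, hc]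
          simp
        · obtain ⟨w₁, h2, h3⟩ := hinert v hv' hc
          rw [h2, Finset.prod_singleton, h3, hc, sq, Nat.cast_mul,
            Complex.natCast_mul_natCast_cpow]
          push_cast
          ring
      refine (HasProd.tprod_eq (hP.congr_fun ?_)).symm
      intro v
      rw [hloc2 v.1 v.2]

end MP7ed9c3.Tw
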