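import Pool.Agent.Lib.MP_7ed9c3_nt.Tw.SpecW
import Pool.Agent.Lib.MP_7ed9c3_nt.AllZ

/-!
# MP_7ed9c3_nt, part Tw, W7: finite modifications of the Euler products
-/

set_option autoImplicit false

namespace MP7ed9c3.Tw

open NumberField IsDedekindDomain Filter Topology

namespace W7

theorem prod_split {ι : Type} {S : Set ι} (hS : S.Finite) {f : ι → ℂ} (h0 : ∀ i, f i ≠ 0)
    (hs : Summable fun i => -Complex.log (f i)) :
    Complex.exp (∑' i, -Complex.log (f i)) * ∏ i ∈ hS.toFinset, f i =
      ∏' i : {i // i ∉ S}, (f i.1)⁻¹ := by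
  have h1 : ∏' i : {i // i ∉ S}, (f i.1)⁻¹ =
      Complex.exp (∑' i : {i // i ∉ S}, -Complex.log (f i.1)) := by
    have h2 : Summable fun i : {i // i ∉ S} => -Complex.log (f i.1) :=
      hs.comp_injective Subtype.val_injective
    have h3 := h2.hasSum.cexp
    have h4 : (Complex.exp ∘ fun i : {i // i ∉ S} => -Complex.log (f i.1)) =
        fun i : {i // i ∉ S} => (f i.1)⁻¹ := by
      funext i
      simp only [Function.comp_apply]
      rw [Complex.exp_neg, Complex.exp_log (h0 i.1)]
    rw [h4] at h3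
    exact h3.tprod_eq
  have h2 := hs.sum_add_tsum_subtype_compl hS.toFinset
  have h3 : ∑' i : {i // i ∉ hS.toFinset}, -Complex.log (f i.1) =
      ∑' i : {i // i ∉ S}, -Complex.log (f i.1) :=
    (Equiv.subtypeEquivRight (fun i => by simp)).tsum_eq
      (fun i : {i // i ∉ S} => -Complex.log (f i.1))
  rw [h1, ← h2, h3, Complex.exp_add, Complex.exp_sum]
  have h4 : ∏ i ∈ hS.toFinset, Complex.exp (-Complex.log (f i)) =
      (∏ i ∈ hS.toFinset, f i)⁻¹ := by
    rw [← Finset.prod_inv_distrib]
    refine Finset.prod_congr rfl fun i _ => ?_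
    rw [Complex.exp_neg, Complex.exp_log (h0 i)]
  rw [h4]
  have h5 : ∏ i ∈ hS.toFinset, f i ≠ 0 := Finset.prod_ne_zero_iff.2 fun i _ => h0 i
  field_simp

theorem cpow_half (N : ℕ) : (N : ℂ) ^ (-(1 / 2) : ℂ) = ((√(N : ℝ) : ℝ) : ℂ)⁻¹ := by
  rw [Complex.cpow_neg, Real.sqrt_eq_rpow, Complex.ofReal_cpow (Nat.cast_nonneg _)]
  push_cast
  rfl

theorem diff_eden (N : ℕ) (hN : 2 ≤ N) (a : ℤ) (good : Prop) [Decidable good] :
    Differentiable ℂ fun s : ℂ => eden N a good (s + 1 / 2) := by
  have hN0 : (N : ℂ) ≠ 0 := by exact_mod_cast (by omega : N ≠ 0)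
  unfold eden
  refine ((differentiable_const _).sub ((differentiable_const _).mul ?_)).add
    ((differentiable_const _).mul ?_)
  · exact Differentiable.const_cpow (by fun_prop) (Or.inl hN0)
  · exact Differentiable.const_cpow (by fun_prop) (Or.inl hN0)

end W7

theorem finProd (h6 : S_ZetaSum) : S_FinProd := by
  classical
  intro K _ _ S hS
  obtain ⟨C, hC⟩ := countPrimes K
  have hN2 : ∀ v : HeightOneSpectrum (𝓞 K), 2 ≤ nm v := fun v => hC.1 v
  have hN0 : ∀ v : HeightOneSpectrum (𝓞 K), (nm v : ℂ) ≠ 0 := fun v => by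
    exact_mod_cast (by have := hN2 v; omega : nm v ≠ 0)
  refine ⟨⟨fun s => ∏ v ∈ hS.toFinset, (1 - (nm v : ℂ) ^ (-s)), ?_, fun s hs => ?_⟩, ?_⟩
  · refine Differentiable.fun_finsetProd fun v _ => ?_
    exact (differentiable_const _).sub
      (Differentiable.const_cpow (by fun_prop) (Or.inl (hN0 v)))
  · obtain ⟨-, h2, h3⟩ := h6 K
    have hnorm : ∀ v : HeightOneSpectrum (𝓞 K), ‖(nm v : ℂ) ^ (-s)‖ = (nm v : ℝ) ^ (-s.re) := by
      intro v
      rw [Complex.norm_natCast_cpow_of_pos (by have := hN2 v; omega), Complex.neg_re]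
    have hsum : Summable fun v : HeightOneSpectrum (𝓞 K) => -(nm v : ℂ) ^ (-s) := by
      refine Summable.of_norm ?_
      refine (h2 s.re hs).congr fun v => ?_
      rw [norm_neg, hnorm v]
      rfl
    have hlog : Summable fun v : HeightOneSpectrum (𝓞 K) =>
        -Complex.log (1 - (nm v : ℂ) ^ (-s)) := by
      have h4 := (Complex.summable_log_one_add_of_summable hsum).neg
      refine h4.congr fun v => ?_
      rw [sub_eq_add_neg]
    have h0 : ∀ v : HeightOneSpectrum (𝓞 K), (1 - (nm v : ℂ) ^ (-s)) ≠ 0 := by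
      intro v h
      have h5 : (nm v : ℂ) ^ (-s) = 1 := (sub_eq_zero.1 h).symm
      have h6 := hnorm v
      rw [h5, norm_one] at h6
      have h7 : (nm v : ℝ) ^ (-s.re) < 1 :=
        Real.rpow_lt_one_of_one_lt_of_neg (by
          have := hN2 v
          exact_mod_cast (by omega : 1 < nm v)) (by linarith)
      linarith
    rw [(h3 s hs).2]
    exact W7.prod_split hS h0 hlog
  · intro E hE M hM hgood
    obtain ⟨-, -, -, A, -, hA⟩ := Z5.trace_const existsModel goodDataAll traceBoundAll hE hM
    have hA' : ∀ v, |(tr (M v) v : ℝ)| ≤ |A| * √(nm v) := fun v =>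
      (hA v).trans (mul_le_mul_of_nonneg_right (le_abs_self A) (Real.sqrt_nonneg _))
    have haN : ∀ v, |(tr (M v) v : ℝ)| ≤ nm v := fun v => (traceBoundAll K (M v) v).1
    refine ⟨fun s => ∏ v ∈ hS.toFinset, locDen (M v) v (s + 1 / 2), ?_, fun s hs => ?_⟩
    · refine Differentiable.fun_finsetProd fun v _ => ?_
      exact W7.diff_eden (nm v) (hN2 v) (tr (M v) v) ((M v).Δ ∉ v.asIdeal)
    · set s' : ℂ := s + 1 / 2 with hs'
      have hre : s'.re = s.re + 1 / 2 := by
        rw [hs', Complex.add_re]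
        norm_num
      have hsre : 3 / 2 ≤ s'.re := by
        rw [hre]
        linarith
      have hlog : ∀ v, locDen (M v) v s' ≠ 0 ∧
          ‖-Complex.log (locDen (M v) v s') - (tr (M v) v : ℂ) * (nm v : ℂ) ^ (-s')‖ ≤
            (12 * (|A| + 1 / 2) ^ 2 + 1) / (nm v : ℝ) ^ 2 := fun v =>
        (eulerLog (nm v) (tr (M v) v) ((M v).Δ ∉ v.asIdeal) |A| (hN2 v) (haN v) (hA' v)).1 s' hsre
      have hsum := a9_summable sparseSums hC (12 * (|A| + 1 / 2) ^ 2 + 1)
      have hmain : Summable fun v => (tr (M v) v : ℂ) * (nm v : ℂ) ^ (-s') := by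
        have h1 := Z2.summable_main sparseSums hC hA (s.re - 1) s.im (by linarith)
        refine h1.congr fun v => ?_
        have h2 : (3 / 2 + ((s.re - 1 : ℝ) : ℂ) + (s.im : ℂ) * Complex.I) = s' := by
          apply Complex.ext
          · rw [hre]
            simp
            ring
          · rw [hs']
            simp
        rw [h2]
      have hE' : Summable fun v =>
          -Complex.log (locDen (M v) v s') - (tr (M v) v : ℂ) * (nm v : ℂ) ^ (-s') :=
        Summable.of_norm_bounded hsum fun v => (hlog v).2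
      have hg : Summable fun v => -Complex.log (locDen (M v) v s') := by
        refine (hmain.add hE').congr fun v => ?_
        ring
      have h1 := W7.prod_split hS (fun v => (hlog v).1) hg
      have h2 : ∏' v, (locDen (M v) v s')⁻¹ =
          Complex.exp (∑' v, -Complex.log (locDen (M v) v s')) := by
        have h3 := hg.hasSum.cexp
        have h4 : (Complex.exp ∘ fun v => -Complex.log (locDen (M v) v s')) =
            fun v => (locDen (M v) v s')⁻¹ := by
          funext v
          simp only [Function.comp_apply]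
          rw [Complex.exp_neg, Complex.exp_log (hlog v).1]
        rw [h4] at h3
        exact h3.tprod_eq
      rw [h2, h1]
      refine tprod_congr fun v => ?_
      have h3 : (nm v.1 : ℂ) ^ (-s') = (nm v.1 : ℂ) ^ (-s) * ((√(nm v.1 : ℝ) : ℝ) : ℂ)⁻¹ := by
        rw [← W7.cpow_half, ← Complex.cpow_add _ _ (hN0 v.1), hs']
        congr 1
        ring
      have h4 : (nm v.1 : ℂ) ^ (1 - 2 * s') = (nm v.1 : ℂ) ^ (-(2 * s)) := by
        rw [hs']
        congr 1
        ring
      congr 1
      unfold locDen eden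
      rw [if_pos (hgood v.1 v.2), h3, h4]
      push_cast
      ring

end MP7ed9c3.Tw
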