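import Pool.Agent.Lib.MP_7ed9c3_nt.Tw.D1
import Pool.Agent.Lib.MP_7ed9c3_nt.Tw.D2
import Pool.Agent.Lib.MP_7ed9c3_nt.Tw.D3
import Pool.Agent.Lib.MP_7ed9c3_nt.Tw.D4
import Pool.Agent.Lib.MP_7ed9c3_nt.Tw.D5a
import Pool.Agent.Lib.MP_7ed9c3_nt.Tw.D5b
import Pool.Agent.Lib.MP_7ed9c3_nt.Tw.D6a
import Pool.Agent.Lib.MP_7ed9c3_nt.Tw.D6b
import Pool.Agent.Lib.MP_7ed9c3_nt.Tw.D7
import Pool.Agent.Lib.MP_7ed9c3_nt.Tw.W1
import Pool.Agent.Lib.MP_7ed9c3_nt.Tw.W2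
import Pool.Agent.Lib.MP_7ed9c3_nt.Tw.W3
import Pool.Agent.Lib.MP_7ed9c3_nt.Tw.W4
import Pool.Agent.Lib.MP_7ed9c3_nt.Tw.W5
import Pool.Agent.Lib.MP_7ed9c3_nt.Tw.W6
import Pool.Agent.Lib.MP_7ed9c3_nt.Tw.W7
import Pool.Agent.Lib.MP_7ed9c3_nt.Tw.W8
import Pool.Agent.Lib.MP_7ed9c3_nt.Tw.L1
import Pool.Agent.Lib.MP_7ed9c3_nt.Tw.L2
import Pool.Agent.Lib.MP_7ed9c3_nt.Tw.L3
import Pool.Agent.Lib.MP_7ed9c3_nt.Tw.L4
import Pool.Agent.Lib.MP_7ed9c3_nt.Tw.L5
import Pool.Agent.Lib.MP_7ed9c3_nt.Tw.L6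
import Pool.Agent.Lib.MP_7ed9c3_nt.Tw.L7
import Pool.Agent.Lib.MP_7ed9c3_nt.Tw.L8
import Pool.Agent.Lib.MP_7ed9c3_nt.Tw.L9

/-!
# MP_7ed9c3_nt, part Tw: assembly
-/

set_option autoImplicit false

namespace MP7ed9c3.Tw

/-- Smoothed counting of ideals with an error smaller than every power. -/
theorem smoothCountAll : S_SmoothCount :=
  smoothCount idealSum (coneSum latticeSum famSmooth unfold)

/-- Analytic continuation of `(s - 1) ζ_K(s)` to arbitrarily large regions. -/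
theorem contAll : S_Cont := cont smoothCountAll zetaSum

theorem zetaCosKAll : S_ZetaCosK := zetaCosK zetaSum contAll

theorem traceTwistAll : S_TraceTwist := traceTwist twistForm finTwist

theorem splitSumAll : S_SplitSum := splitSum splitLocal zetaSum

theorem noDoubleAll : S_NoDouble := noDouble landau

theorem simpleAll : S_Simple :=
  simple noDoubleAll zetaSum contAll zetaCosKAll goodAlmost (finProd zetaSum)

theorem notBothAll : S_NotBoth :=
  notBoth noDoubleAll zetaSum contAll zetaCosKAll goodAlmost splitSumAll (finProd zetaSum)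

theorem oneCurveAll : S_OneCurve :=
  oneCurve zetaSum zetaCosKAll goodAlmost order simpleAll mean coreOne

theorem twoCurvesAll : S_TwoCurves :=
  twoCurves zetaSum zetaCosKAll traceTwistAll goodAlmost splitSumAll order notBothAll mean coreTwo

end MP7ed9c3.Tw
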