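import Pool.Agent.Lib.MP_7ed9c3_nt.Tw.W1
import Pool.Agent.Lib.MP_7ed9c3_nt.Tw.W2
import Pool.Agent.Lib.MP_7ed9c3_nt.Tw.W3

/-!
# MP_7ed9c3_nt, part Tw, B1: families of curves with the same j-invariant
-/

set_option autoImplicit false

namespace MP7ed9c3.Tw

open NumberField IsDedekindDomain Filter Topology

namespace B1

/-- isomorphic short forms are related by scaling -/
theorem short_iso {K : Type} [Field K] [CharZero K] {a b a' b' : K}
    {C : WeierstrassCurve.VariableChange K} (h : C • short a b = short a' b') :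
    ∃ u : Kˣ, a' = (u : K) ^ 4 * a ∧ b' = (u : K) ^ 6 * b := by
  obtain ⟨u, r, s, t⟩ := C
  have h1 := congrArg WeierstrassCurve.a₁ h
  have h2 := congrArg WeierstrassCurve.a₂ h
  have h3 := congrArg WeierstrassCurve.a₃ h
  have h4 := congrArg WeierstrassCurve.a₄ h
  have h6 := congrArg WeierstrassCurve.a₆ h
  rw [WeierstrassCurve.variableChange_a₁] at h1
  rw [WeierstrassCurve.variableChange_a₂] at h2
  rw [WeierstrassCurve.variableChange_a₃] at h3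
  rw [WeierstrassCurve.variableChange_a₄] at h4
  rw [WeierstrassCurve.variableChange_a₆] at h6
  simp only [short] at h1 h2 h3 h4 h6
  have hu : ((u⁻¹ : Kˣ) : K) ≠ 0 := Units.ne_zero _
  have hs : s = 0 := by
    have := mul_left_cancel₀ hu (h1.trans (mul_zero _).symm)
    have h5 : (2 : K) * s = 0 := by linear_combination this
    exact (mul_eq_zero.1 h5).resolve_left two_ne_zero
  subst hs
  have hr : r = 0 := by
    have := mul_left_cancel₀ (pow_ne_zero 2 hu) (h2.trans (mul_zero _).symm)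
    have h5 : (3 : K) * r = 0 := by linear_combination this
    exact (mul_eq_zero.1 h5).resolve_left three_ne_zero
  subst hr
  have ht : t = 0 := by
    have := mul_left_cancel₀ (pow_ne_zero 3 hu) (h3.trans (mul_zero _).symm)
    have h5 : (2 : K) * t = 0 := by linear_combination this
    exact (mul_eq_zero.1 h5).resolve_left two_ne_zero
  subst ht
  refine ⟨u⁻¹, ?_, ?_⟩
  · rw [← h4]
    ring
  · rw [← h6]
    ring

/-- two twists by `d₁`, `d₂` with `d₁ d₂` a square are isomorphic -/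
theorem iso_of_square {K : Type} [Field K] [NumberField K] {E E₁ E₂ : WeierstrassCurve K}
    {A₁ B₁ d₁ A₂ B₂ d₂ : 𝓞 K} (hd₁ : d₁ ≠ 0) (hd₂ : d₂ ≠ 0)
    (h₁ : ∃ C : WeierstrassCurve.VariableChange K,
      C • E = (short A₁ B₁).map (algebraMap (𝓞 K) K))
    (h₁' : ∃ C : WeierstrassCurve.VariableChange K,
      C • E₁ = (short (A₁ * d₁ ^ 2) (B₁ * d₁ ^ 3)).map (algebraMap (𝓞 K) K))
    (h₂ : ∃ C : WeierstrassCurve.VariableChange K,
      C • E = (short A₂ B₂).map (algebraMap (𝓞 K) K))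
    (h₂' : ∃ C : WeierstrassCurve.VariableChange K,
      C • E₂ = (short (A₂ * d₂ ^ 2) (B₂ * d₂ ^ 3)).map (algebraMap (𝓞 K) K))
    (hsq : IsSquare ((d₁ * d₂ : 𝓞 K) : K)) :
    ∃ C : WeierstrassCurve.VariableChange K, C • E₁ = E₂ := by
  obtain ⟨C₁, hC₁⟩ := h₁
  obtain ⟨C₁', hC₁'⟩ := h₁'
  obtain ⟨C₂, hC₂⟩ := h₂
  obtain ⟨C₂', hC₂'⟩ := h₂'
  obtain ⟨e, he⟩ := hsq
  rw [W1N.map_short] at hC₁ hC₂ hC₁' hC₂'
  have h12 : (C₂ * C₁⁻¹) • short (algebraMap (𝓞 K) K A₁) (algebraMap (𝓞 K) K B₁) =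
      short (algebraMap (𝓞 K) K A₂) (algebraMap (𝓞 K) K B₂) := by
    rw [← hC₁, ← hC₂, mul_smul, inv_smul_smul]
  obtain ⟨u, hA, hB⟩ := short_iso h12
  have hd1 : (algebraMap (𝓞 K) K d₁) ≠ 0 := by
    intro h
    exact hd₁ ((map_eq_zero_iff _ (FaithfulSMul.algebraMap_injective (𝓞 K) K)).mp h)
  have hd2 : (algebraMap (𝓞 K) K d₂) ≠ 0 := by
    intro h
    exact hd₂ ((map_eq_zero_iff _ (FaithfulSMul.algebraMap_injective (𝓞 K) K)).mp h)
  have he' : algebraMap (𝓞 K) K d₁ * algebraMap (𝓞 K) K d₂ = e * e := by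
    rw [← map_mul]
    exact he
  have he0 : e ≠ 0 := by
    rintro rfl
    rw [mul_zero] at he'
    exact (mul_ne_zero hd1 hd2) he'
  set x := algebraMap (𝓞 K) K d₁ with hx
  set y := algebraMap (𝓞 K) K d₂ with hy
  let w : Kˣ := u * Units.mk0 (y / e) (div_ne_zero hd2 he0)
  have hw : (w : K) = u * (y / e) := rfl
  have hxy : x = e * e / y := by
    rw [eq_div_iff hd2]
    exact he'
  refine ⟨C₂'⁻¹ * ⟨w⁻¹, 0, 0, 0⟩ * C₁', ?_⟩
  rw [mul_smul, mul_smul, hC₁', W1N.scale, map_mul, map_mul, map_pow, map_pow]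
  have e1 : (w : K) ^ 4 * (algebraMap (𝓞 K) K A₁ * x ^ 2) =
      algebraMap (𝓞 K) K (A₂ * d₂ ^ 2) := by
    rw [map_mul, map_pow, hA, hw, hxy, ← hy]
    field_simp
  have e2 : (w : K) ^ 6 * (algebraMap (𝓞 K) K B₁ * x ^ 3) =
      algebraMap (𝓞 K) K (B₂ * d₂ ^ 3) := by
    rw [map_mul, map_pow, hB, hw, hxy, ← hy]
    field_simp
  rw [e1, e2, ← hC₂', inv_smul_smul]

/-- the trace relation outside a finite set -/
theorem tr_rel (h2 : S_FinTwist) {K : Type} [Field K] [NumberField K]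
    {E E' : WeierstrassCurve K} {A B d : 𝓞 K} (hd : d ≠ 0) (hΔ : (short A B).Δ ≠ 0)
    (hC : ∃ C : WeierstrassCurve.VariableChange K,
      C • E = (short A B).map (algebraMap (𝓞 K) K))
    (hC' : ∃ C : WeierstrassCurve.VariableChange K,
      C • E' = (short (A * d ^ 2) (B * d ^ 3)).map (algebraMap (𝓞 K) K)) :
    ∃ S : Set (HeightOneSpectrum (𝓞 K)), S.Finite ∧
      ∀ v ∉ S, (2 * d : 𝓞 K) ∉ v.asIdeal ∧ ∀ M M' : WeierstrassCurve (𝓞 K),
        IsMinAt E v M → IsMinAt E' v M' → (tr M' v : ℝ) = chiv d v * tr M v := by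
  have h6 : (6 : 𝓞 K) ≠ 0 := by norm_num
  have hne : 6 * d * (short A B).Δ ≠ 0 := mul_ne_zero (mul_ne_zero h6 hd) hΔ
  refine ⟨{v | 6 * d * (short A B).Δ ∈ v.asIdeal}, N5.finite_mem hne, ?_⟩
  intro v hv
  have hv' : 6 * d * (short A B).Δ ∉ v.asIdeal := hv
  have hΔv : (short A B).Δ ∉ v.asIdeal := fun hc => hv' (v.asIdeal.mul_mem_left _ hc)
  have hdv : d ∉ v.asIdeal := fun hc =>
    hv' (v.asIdeal.mul_mem_right _ (v.asIdeal.mul_mem_left _ hc))
  have h6v : (6 : 𝓞 K) ∉ v.asIdeal := fun hc =>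
    hv' (v.asIdeal.mul_mem_right _ (v.asIdeal.mul_mem_right _ hc))
  have h2d : (2 * d : 𝓞 K) ∉ v.asIdeal := by
    intro hc
    have h3 : 3 * (2 * d) * (short A B).Δ ∈ v.asIdeal :=
      v.asIdeal.mul_mem_right _ (v.asIdeal.mul_mem_left _ hc)
    have h4 : 3 * (2 * d) * (short A B).Δ = 6 * d * (short A B).Δ := by ring
    rw [h4] at h3
    exact hv' h3
  refine ⟨h2d, ?_⟩
  intro M M' hM hM'
  have hg := goodData shortForm
  obtain ⟨-, t1⟩ := hg K E (short A B) hC v M hΔv h6v hM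
  have hΔv' : (short (A * d ^ 2) (B * d ^ 3)).Δ ∉ v.asIdeal := by
    rw [W3.Δ_tw]
    intro hc
    rcases v.isPrime.mem_or_mem hc with h5 | h5
    · exact hdv (v.isPrime.mem_of_pow_mem 6 h5)
    · exact hΔv h5
  obtain ⟨-, t2⟩ := hg K E' (short (A * d ^ 2) (B * d ^ 3)) hC' v M' hΔv' h6v hM'
  rw [t1, t2]
  exact W3.tr_tw h2 A B d v h2d

/-- multiplicativity of the quadratic character -/
theorem chiv_mul {K : Type} [Field K] [NumberField K] (a b : 𝓞 K)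
    (v : HeightOneSpectrum (𝓞 K)) : chiv (a * b) v = chiv a v * chiv b v := by
  classical
  let _ : Field (𝓞 K ⧸ v.asIdeal) := Ideal.Quotient.field v.asIdeal
  have : Finite (𝓞 K ⧸ v.asIdeal) := Ideal.finiteQuotientOfFreeOfNeBot v.asIdeal v.ne_bot
  have := Fintype.ofFinite (𝓞 K ⧸ v.asIdeal)
  have key : ∀ c : 𝓞 K, chiv c v =
      ((quadraticChar (𝓞 K ⧸ v.asIdeal) (Ideal.Quotient.mk v.asIdeal c) : ℤ) : ℝ) := by
    intro c
    unfold chiv
    rw [quadraticChar_apply, quadraticCharFun]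
    by_cases hc : c ∈ v.asIdeal
    · rw [if_pos hc, if_pos (Ideal.Quotient.eq_zero_iff_mem.2 hc)]
      norm_num
    · rw [if_neg hc, if_neg (fun h => hc (Ideal.Quotient.eq_zero_iff_mem.1 h))]
      split_ifs <;> norm_num
  rw [key, key, key, map_mul, map_mul]
  push_cast
  ring

end B1

/-- **B1.**  A family of pairwise non-isomorphic curves with the same j-invariant. -/
def S_Family : Prop :=
  ∀ (K : Type) [Field K] [NumberField K] (ι : Type) (E : ι → WeierstrassCurve K)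
    [∀ i, (E i).IsElliptic], (∀ i j, i ≠ j → (E i).j = (E j).j ∧ (E i).j ≠ 0 ∧
      (E i).j ≠ 1728 ∧ ¬ ∃ C : WeierstrassCurve.VariableChange K, C • E i = E j) →
    ∀ i₀ : ι, ∃ d : ι → 𝓞 K,
      (∀ i, i ≠ i₀ → ¬ IsSquare ((d i : 𝓞 K) : K)) ∧
      (∀ i j, i ≠ j → i ≠ i₀ → j ≠ i₀ → ¬ IsSquare ((d i * d j : 𝓞 K) : K)) ∧
      ∀ i, i ≠ i₀ → ∃ S : Set (HeightOneSpectrum (𝓞 K)), S.Finite ∧
        ∀ v ∉ S, (2 * d i : 𝓞 K) ∉ v.asIdeal ∧ ∀ M M' : WeierstrassCurve (𝓞 K),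
          IsMinAt (E i₀) v M → IsMinAt (E i) v M' → (tr M' v : ℝ) = chiv (d i) v * tr M v

theorem family (h1 : S_TwistForm) (h2 : S_FinTwist) : S_Family := by
  classical
  intro K _ _ ι E _ hE i₀
  have key : ∀ i, i ≠ i₀ → ∃ A B d : 𝓞 K, A ≠ 0 ∧ B ≠ 0 ∧ d ≠ 0 ∧ (short A B).Δ ≠ 0 ∧
      (∃ C : WeierstrassCurve.VariableChange K,
        C • E i₀ = (short A B).map (algebraMap (𝓞 K) K)) ∧
      ∃ C : WeierstrassCurve.VariableChange K,
        C • E i = (short (A * d ^ 2) (B * d ^ 3)).map (algebraMap (𝓞 K) K) := by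
    intro i hi
    obtain ⟨hj, h0, h3, -⟩ := hE i₀ i (Ne.symm hi)
    exact h1 K (E i₀) (E i) hj h0 h3
  choose! A B d hA hB hd hΔ hC hC' using key
  refine ⟨d, ?_, ?_, ?_⟩
  · intro i hi hsq
    refine (hE i₀ i (Ne.symm hi)).2.2.2 ?_
    obtain ⟨C₁, hC₁⟩ := hC i hi
    obtain ⟨C₂, hC₂⟩ := hC' i hi
    obtain ⟨C₃, hC₃⟩ := W3.square_case (A i) (B i) (d i) (hd i hi) hsq
    refine ⟨C₂⁻¹ * C₃ * C₁, ?_⟩
    rw [mul_smul, mul_smul, hC₁, hC₃, ← hC₂, inv_smul_smul]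
  · intro i j hij hi hj hsq
    exact (hE i j hij).2.2.2
      (B1.iso_of_square (hd i hi) (hd j hj) (hC i hi) (hC' i hi) (hC j hj) (hC' j hj) hsq)
  · intro i hi
    exact B1.tr_rel h2 (hd i hi) (hΔ i hi) (hC i hi) (hC' i hi)

end MP7ed9c3.Tw
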