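import Pool.Agent.Lib.MP_7ed9c3_nt.Tw.L5
import Pool.Agent.Lib.MP_7ed9c3_nt.Tw.L7

/-!
# MP_7ed9c3_nt, part Tw, C1: the mean with lower bounds, and the core inequality for both signs
-/

set_option autoImplicit false

namespace MP7ed9c3.Tw

open Filter Topology

open L5 in
/-- The mean of L5 also sees lower bounds for absolute values. -/
theorem mean2 {X : Type} (w : ℝ → X → ℝ) (hw : ∀ x v, 0 ≤ w x v)
    (hs : ∀ x, 0 < x → x ≤ 1 → Summable (w x))
    (hC : ∃ C : ℝ, ∀ x, 0 < x → x ≤ 1 → |∑' v, w x v - Real.log (1 / x)| ≤ C) :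
    ∃ M : (X → ℝ) → ℝ, IsMean M ∧ (∀ (g : X → ℝ) (L C : ℝ), Bdd g →
      (∀ x, 0 < x → x ≤ 1 → |∑' v, g v * w x v - L * Real.log (1 / x)| ≤ C) → M g = L) ∧
      ∀ (g : X → ℝ) (a C : ℝ), Bdd g →
        (∀ᶠ x in 𝓝[>] (0 : ℝ), a * Real.log (1 / x) - C ≤ |∑' v, g v * w x v|) → a ≤ |M g| := by
  obtain ⟨C, hC⟩ := hC
  have T := tend_mn w hw hs C hC
  have hev : ∀ᶠ x in (U : Filter ℝ), 0 < x ∧ x ≤ 1 ∧ 1 ≤ Real.log (1 / x) := U_le ev_pos
  refine ⟨mn w, ⟨?_, ?_, ?_, ?_⟩, ?_, ?_⟩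
  · intro g h hg hh
    have hgh : Bdd fun x => g x + h x := by
      obtain ⟨B, hB⟩ := hg
      obtain ⟨B', hB'⟩ := hh
      exact ⟨B + B', fun x => (abs_add_le _ _).trans (add_le_add (hB x) (hB' x))⟩
    refine tendsto_nhds_unique (T _ hgh) (((T g hg).add (T h hh)).congr' ?_)
    filter_upwards [hev] with x hx
    unfold quo
    rw [← add_div, ← (summ w hw hs g hg x hx.1 hx.2.1).tsum_add (summ w hw hs h hh x hx.1 hx.2.1)]
    congr 1
    exact tsum_congr fun v => (add_mul _ _ _).symm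
  · intro c g hg
    have hcg : Bdd fun x => c * g x := by
      obtain ⟨B, hB⟩ := hg
      refine ⟨|c| * B, fun x => ?_⟩
      rw [abs_mul]
      exact mul_le_mul_of_nonneg_left (hB x) (abs_nonneg c)
    refine tendsto_nhds_unique (T _ hcg) (((T g hg).const_mul c).congr' ?_)
    filter_upwards with x
    unfold quo
    rw [← mul_div_assoc, ← tsum_mul_left]
    congr 1
    exact tsum_congr fun v => (mul_assoc _ _ _).symm
  · intro g hg h0
    refine ge_of_tendsto (T g hg) ?_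
    filter_upwards [hev] with x hx
    unfold quo
    exact div_nonneg (tsum_nonneg fun v => mul_nonneg (h0 v) (hw x v)) (by linarith [hx.2.2])
  · have h1 : Bdd fun _ : X => (1 : ℝ) := ⟨1, fun _ => by simp⟩
    refine tendsto_nhds_unique (T _ h1) (mn_eq w _ 1 C ?_)
    intro x hx0 hx1
    simpa using hC x hx0 hx1
  · intro g L C' hg h
    exact tendsto_nhds_unique (T g hg) (mn_eq w g L C' h)
  · intro g a C' hg h
    have h1 : Tendsto (fun x => |quo w g x|) (U : Filter ℝ) (𝓝 |mn w g|) := (T g hg).abs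
    have h2 : Tendsto (fun x : ℝ => a - C' / Real.log (1 / x)) (U : Filter ℝ) (𝓝 a) := by
      have h3 : Tendsto (fun x : ℝ => C' / Real.log (1 / x)) (𝓝[>] (0 : ℝ)) (𝓝 0) :=
        log_tend.const_div_atTop C'
      have h4 := (tendsto_const_nhds (x := a)).sub (h3.mono_left U_le)
      simpa using h4
    refine le_of_tendsto_of_tendsto h2 h1 ?_
    filter_upwards [hev, U_le h] with x hx hx2
    obtain ⟨-, -, hl⟩ := hx
    have hlp : 0 < Real.log (1 / x) := by linarith
    unfold quo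
    rw [abs_div, abs_of_pos hlp, le_div_iff₀ hlp, sub_mul, div_mul_cancel₀ _ hlp.ne']
    exact hx2

/-- a sign making a real number negative -/
theorem exists_sign (y : ℝ) : ∃ s : ℝ, (s = 1 ∨ s = -1) ∧ s * y = -|y| := by
  rcases le_total y 0 with h | h
  · exact ⟨1, Or.inl rfl, by rw [abs_of_nonpos h]; ring⟩
  · exact ⟨-1, Or.inr rfl, by rw [abs_of_nonneg h]; ring⟩

/-- the pointwise inequality for two points, a polynomial majorant of `2 |h|` on `[-4, 4]` -/
theorem ineqBoth (l h : ℝ) (hl : |l| ≤ 2) (hh : |h| ≤ 4) :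
    0 ≤ 1576 / 1000 + 683 / 1000 * h ^ 2 - 175 / 10000 * h ^ 4 + l * h := by
  obtain ⟨l1, l2⟩ := abs_le.1 hl
  obtain ⟨h1, h2⟩ := abs_le.1 hh
  have key : ∀ y : ℝ, 0 ≤ y → y ≤ 4 →
      0 ≤ 1576 / 1000 + 683 / 1000 * y ^ 2 - 175 / 10000 * y ^ 4 - 2 * y := by
    intro y hy0 hy4
    have a1 : 0 ≤ (4 - y) * (y + 746 / 100) * (y - 173 / 100) ^ 2 :=
      mul_nonneg (mul_nonneg (by linarith) (by linarith)) (sq_nonneg _)
    nlinarith [sq_nonneg (y - 163 / 100)]
  rcases le_total 0 h with h0 | h0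
  · have := key h h0 h2
    nlinarith
  · have := key (-h) (by linarith) (by linarith)
    nlinarith

open L7 in
/-- **Core inequality, two points outside the real axis.** -/
theorem coreBoth {X : Type} {M : (X → ℝ) → ℝ} {l χ ℓ : X → ℝ} (hM : IsMean M)
    (hl : ∀ x, |l x| ≤ 2) (hχ : ∀ x, χ x = 1 ∨ χ x = -1)
    (hcos : ∀ u : ℝ, u ≠ 0 → M (fun x => Real.cos (u * ℓ x)) = 0) {t t' : ℝ} (ht : 0 < t)
    (ht' : 0 < t') (h₁ : M (fun x => χ x * Real.cos ((t + t') * ℓ x)) = 0)
    (h₂ : M (fun x => χ x * Real.cos ((t - t') * ℓ x)) = 0)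
    (h₃ : M (fun x => χ x * Real.cos ((3 * t + t') * ℓ x)) = 0)
    (h₄ : M (fun x => χ x * Real.cos ((t + 3 * t') * ℓ x)) = 0)
    (h₅ : |M (fun x => χ x * Real.cos ((3 * t - t') * ℓ x)) +
      M (fun x => χ x * Real.cos ((t - 3 * t') * ℓ x))| ≤ 1) :
    ¬ (99 / 100 ≤ |M (fun x => l x * Real.cos (t * ℓ x))| ∧
      99 / 100 ≤ |M (fun x => l x * (χ x * Real.cos (t' * ℓ x)))|) := by
  rintro ⟨g1, g2⟩
  obtain ⟨s, hs, hs1⟩ := exists_sign (M (fun x => l x * Real.cos (t * ℓ x)))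
  obtain ⟨s', hs', hs1'⟩ := exists_sign (M (fun x => l x * (χ x * Real.cos (t' * ℓ x))))
  have hlB : Bdd l := ⟨2, hl⟩
  have hone : Bdd fun _ : X => (1 : ℝ) := ⟨1, fun _ => by simp⟩
  have hcos0 : ∀ u : ℝ, 0 ≤ M (fun x => Real.cos (u * ℓ x)) := by
    intro u
    by_cases hu : u = 0
    · subst hu
      have : (fun x => Real.cos (0 * ℓ x)) = fun _ => (1 : ℝ) := by
        funext x
        simp
      rw [this, hM.one]
      norm_num
    · exact (hcos u hu).ge
  have key := lin_nonneg hM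
    [(3678 / 1000, fun _ => (1 : ℝ)),
     (806 / 1000, fun x => Real.cos ((2 * t) * ℓ x)),
     (806 / 1000, fun x => Real.cos ((2 * t') * ℓ x)),
     (-35 / 1000, fun x => Real.cos ((4 * t) * ℓ x)),
     (-35 / 1000, fun x => Real.cos ((4 * t') * ℓ x)),
     (-21 / 100, fun x => Real.cos ((2 * (t + t')) * ℓ x)),
     (-21 / 100, fun x => Real.cos ((2 * (t - t')) * ℓ x)),
     (s * s' * (1892 / 1000), fun x => χ x * Real.cos ((t + t') * ℓ x)),
     (s * s' * (1892 / 1000), fun x => χ x * Real.cos ((t - t') * ℓ x)),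
     (s * s' * (-14 / 100), fun x => χ x * Real.cos ((3 * t + t') * ℓ x)),
     (s * s' * (-14 / 100), fun x => χ x * Real.cos ((3 * t - t') * ℓ x)),
     (s * s' * (-14 / 100), fun x => χ x * Real.cos ((t + 3 * t') * ℓ x)),
     (s * s' * (-14 / 100), fun x => χ x * Real.cos ((t - 3 * t') * ℓ x)),
     (2 * s, fun x => l x * Real.cos (t * ℓ x)),
     (2 * s', fun x => l x * (χ x * Real.cos (t' * ℓ x)))] ?_ ?_
  · simp only [List.map_cons, List.map_nil, List.sum_cons, List.sum_nil] at key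
    rw [hM.one, hcos (2 * t) (by positivity), hcos (2 * t') (by positivity),
      hcos (4 * t) (by positivity), hcos (4 * t') (by positivity),
      hcos (2 * (t + t')) (by positivity), h₁, h₂, h₃, h₄] at key
    have h3 := hcos0 (2 * (t - t'))
    have e1 : 2 * s * M (fun x => l x * Real.cos (t * ℓ x)) ≤ -(198 / 100) := by
      rw [mul_assoc, hs1]
      linarith
    have e2 : 2 * s' * M (fun x => l x * (χ x * Real.cos (t' * ℓ x))) ≤ -(198 / 100) := by
      rw [mul_assoc, hs1']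
      linarith
    have e3 := abs_le.1 h₅
    rcases hs with rfl | rfl <;> rcases hs' with rfl | rfl <;> linarith [e3.1, e3.2]
  · intro p hp
    simp only [List.mem_cons, List.not_mem_nil, or_false] at hp
    rcases hp with rfl | rfl | rfl | rfl | rfl | rfl | rfl | rfl | rfl | rfl | rfl | rfl | rfl |
      rfl | rfl
    · exact hone
    · exact bdd_cos ℓ _
    · exact bdd_cos ℓ _
    · exact bdd_cos ℓ _
    · exact bdd_cos ℓ _
    · exact bdd_cos ℓ _
    · exact bdd_cos ℓ _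
    · exact bdd_chi χ ℓ hχ _
    · exact bdd_chi χ ℓ hχ _
    · exact bdd_chi χ ℓ hχ _
    · exact bdd_chi χ ℓ hχ _
    · exact bdd_chi χ ℓ hχ _
    · exact bdd_chi χ ℓ hχ _
    · exact bdd_mul _ _ hlB (bdd_cos ℓ _)
    · exact bdd_mul _ _ hlB (bdd_chi χ ℓ hχ _)
  · intro x
    simp only [List.map_cons, List.map_nil, List.sum_cons, List.sum_nil]
    set p := t * ℓ x with hp
    set q := t' * ℓ x with hq
    have e1 : Real.cos ((2 * t) * ℓ x) = 2 * Real.cos p ^ 2 - 1 := by
      rw [← Real.cos_two_mul, hp]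
      ring_nf
    have e2 : Real.cos ((2 * t') * ℓ x) = 2 * Real.cos q ^ 2 - 1 := by
      rw [← Real.cos_two_mul, hq]
      ring_nf
    have e3 : Real.cos ((4 * t) * ℓ x) = 2 * (2 * Real.cos p ^ 2 - 1) ^ 2 - 1 := by
      rw [← Real.cos_two_mul, ← Real.cos_two_mul, hp]
      ring_nf
    have e4 : Real.cos ((4 * t') * ℓ x) = 2 * (2 * Real.cos q ^ 2 - 1) ^ 2 - 1 := by
      rw [← Real.cos_two_mul, ← Real.cos_two_mul, hq]
      ring_nf
    have e5 : Real.cos ((2 * (t + t')) * ℓ x) = (2 * Real.cos p ^ 2 - 1) *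
        (2 * Real.cos q ^ 2 - 1) - Real.sin (2 * p) * Real.sin (2 * q) := by
      rw [← Real.cos_two_mul, ← Real.cos_two_mul, ← Real.cos_add, hp, hq]
      ring_nf
    have e6 : Real.cos ((2 * (t - t')) * ℓ x) = (2 * Real.cos p ^ 2 - 1) *
        (2 * Real.cos q ^ 2 - 1) + Real.sin (2 * p) * Real.sin (2 * q) := by
      rw [← Real.cos_two_mul, ← Real.cos_two_mul, ← Real.cos_sub, hp, hq]
      ring_nf
    have e7 : Real.cos ((t + t') * ℓ x) = Real.cos p * Real.cos q -
        Real.sin p * Real.sin q := by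
      rw [← Real.cos_add, hp, hq]
      ring_nf
    have e8 : Real.cos ((t - t') * ℓ x) = Real.cos p * Real.cos q +
        Real.sin p * Real.sin q := by
      rw [← Real.cos_sub, hp, hq]
      ring_nf
    have e9 : Real.cos ((3 * t + t') * ℓ x) = (4 * Real.cos p ^ 3 - 3 * Real.cos p) *
        Real.cos q - Real.sin (3 * p) * Real.sin q := by
      rw [← Real.cos_three_mul, ← Real.cos_add, hp, hq]
      ring_nf
    have e10 : Real.cos ((3 * t - t') * ℓ x) = (4 * Real.cos p ^ 3 - 3 * Real.cos p) *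
        Real.cos q + Real.sin (3 * p) * Real.sin q := by
      rw [← Real.cos_three_mul, ← Real.cos_sub, hp, hq]
      ring_nf
    have e11 : Real.cos ((t + 3 * t') * ℓ x) = Real.cos p *
        (4 * Real.cos q ^ 3 - 3 * Real.cos q) - Real.sin p * Real.sin (3 * q) := by
      rw [← Real.cos_three_mul, ← Real.cos_add, hp, hq]
      ring_nf
    have e12 : Real.cos ((t - 3 * t') * ℓ x) = Real.cos p *
        (4 * Real.cos q ^ 3 - 3 * Real.cos q) + Real.sin p * Real.sin (3 * q) := by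
      rw [← Real.cos_three_mul, ← Real.cos_sub, hp, hq]
      ring_nf
    rw [e1, e2, e3, e4, e5, e6, e7, e8, e9, e10, e11, e12]
    have hb : |2 * (s * Real.cos p) + 2 * (s' * (χ x * Real.cos q))| ≤ 4 := by
      have a1 := abs_le.1 (Real.abs_cos_le_one p)
      have a2 := abs_le.1 (Real.abs_cos_le_one q)
      rw [abs_le]
      rcases hs with rfl | rfl <;> rcases hs' with rfl | rfl <;>
        rcases hχ x with h | h <;> rw [h] <;> constructor <;> linarith [a1.1, a1.2, a2.1, a2.2]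
    have h0 := ineqBoth (l x) _ (hl x) hb
    rcases hs with rfl | rfl <;> rcases hs' with rfl | rfl <;> rcases hχ x with h | h
    all_goals
      rw [h] at h0 ⊢
      exact h0.trans_eq (by ring)

open L7 in
/-- **Core inequality, one point on the real axis.** -/
theorem coreZero {X : Type} {M : (X → ℝ) → ℝ} {l χ ℓ : X → ℝ} (hM : IsMean M)
    (hl : ∀ x, |l x| ≤ 2) (hχ : ∀ x, χ x = 1 ∨ χ x = -1)
    (hcos : ∀ u : ℝ, u ≠ 0 → M (fun x => Real.cos (u * ℓ x)) = 0) {t' : ℝ} (ht' : 0 < t')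
    (h₁ : M (fun x => χ x * Real.cos (t' * ℓ x)) = 0)
    (h₂ : M (fun x => χ x * Real.cos ((3 * t') * ℓ x)) = 0) :
    ¬ (99 / 100 ≤ |M l| ∧ 99 / 100 ≤ |M (fun x => l x * (χ x * Real.cos (t' * ℓ x)))|) := by
  rintro ⟨g1, g2⟩
  obtain ⟨s, hs, hs1⟩ := exists_sign (M l)
  obtain ⟨s', hs', hs1'⟩ := exists_sign (M (fun x => l x * (χ x * Real.cos (t' * ℓ x))))
  have hlB : Bdd l := ⟨2, hl⟩
  have hone : Bdd fun _ : X => (1 : ℝ) := ⟨1, fun _ => by simp⟩
  have key := lin_nonneg hM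
    [(491 / 200, fun _ => (1 : ℝ)),
     (s * s' * (459 / 200), fun x => χ x * Real.cos (t' * ℓ x)),
     (s * s' * (-59 / 200), fun x => χ x * Real.cos ((3 * t') * ℓ x)),
     (51 / 100, fun x => Real.cos ((2 * t') * ℓ x)),
     (23 / 200, fun x => Real.cos ((4 * t') * ℓ x)),
     (s, l),
     (3 / 2 * s', fun x => l x * (χ x * Real.cos (t' * ℓ x)))] ?_ ?_
  · simp only [List.map_cons, List.map_nil, List.sum_cons, List.sum_nil] at key
    rw [hM.one, hcos (2 * t') (by positivity), hcos (4 * t') (by positivity), h₁, h₂] at key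
    have e2 : 3 / 2 * s' * M (fun x => l x * (χ x * Real.cos (t' * ℓ x))) ≤ -(297 / 200) := by
      rw [mul_assoc, hs1']
      linarith
    linarith
  · intro p hp
    simp only [List.mem_cons, List.not_mem_nil, or_false] at hp
    rcases hp with rfl | rfl | rfl | rfl | rfl | rfl | rfl
    · exact hone
    · exact bdd_chi χ ℓ hχ _
    · exact bdd_chi χ ℓ hχ _
    · exact bdd_cos ℓ _
    · exact bdd_cos ℓ _
    · exact hlB
    · exact bdd_mul _ _ hlB (bdd_chi χ ℓ hχ _)
  · intro x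
    simp only [List.map_cons, List.map_nil, List.sum_cons, List.sum_nil]
    set q := t' * ℓ x with hq
    have e2 : Real.cos ((2 * t') * ℓ x) = 2 * Real.cos q ^ 2 - 1 := by
      rw [← Real.cos_two_mul, hq]
      ring_nf
    have e3 : Real.cos ((3 * t') * ℓ x) = 4 * Real.cos q ^ 3 - 3 * Real.cos q := by
      rw [← Real.cos_three_mul, hq]
      ring_nf
    have e4 : Real.cos ((4 * t') * ℓ x) = 2 * (2 * Real.cos q ^ 2 - 1) ^ 2 - 1 := by
      rw [← Real.cos_two_mul, ← Real.cos_two_mul, hq]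
      ring_nf
    rw [e2, e3, e4]
    have hsl : |s * l x| ≤ 2 := by
      rw [abs_mul]
      rcases hs with rfl | rfl <;> simpa using hl x
    have h0 := ineq2 (s * l x) (s * s' * (χ x * Real.cos q)) hsl
    rcases hs with rfl | rfl <;> rcases hs' with rfl | rfl <;> rcases hχ x with h | h
    all_goals
      rw [h] at h0 ⊢
      exact h0.trans_eq (by ring)

end MP7ed9c3.Tw
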