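import Pool.Agent.Lib.MP_7ed9c3_nt.Tw.All2
import Pool.Agent.Lib.MP_7ed9c3_nt.Tw.C1

/-!
# MP_7ed9c3_nt, part Tw, C2: at most one exceptional pair
-/

set_option autoImplicit false

namespace MP7ed9c3.Tw

open NumberField IsDedekindDomain Filter Topology

/-- The point `3/2 + i t` is exceptional for the Euler product `L` of the local factors of the models
`M v`: `L` has an entire continuation that vanishes at `3/2 + i t`, or `t ≠ 0` and
`|log |L(3/2 + x + i t)|| ≥ (99/100) log(1/x)` for all small `x > 0`. -/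
def Exceptional {K : Type} [Field K] [NumberField K]
    (M : HeightOneSpectrum (𝓞 K) → WeierstrassCurve (𝓞 K)) (t : ℝ) : Prop :=
  (∃ F : ℂ → ℂ, Differentiable ℂ F ∧
    (∀ s : ℂ, 3 / 2 < s.re → F s = ∏' v : HeightOneSpectrum (𝓞 K), (locDen (M v) v s)⁻¹) ∧
    F (3 / 2 + t * Complex.I) = 0) ∨
  (t ≠ 0 ∧ ∀ᶠ x : ℝ in 𝓝[>] 0, 99 / 100 * Real.log (1 / x) ≤
    |Real.log ‖∏' v : HeightOneSpectrum (𝓞 K),
      (locDen (M v) v (3 / 2 + x + t * Complex.I))⁻¹‖|)

namespace C2

open L9 B2

/-- the core inequality for arbitrary ordinates -/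
theorem core {X : Type} {M : (X → ℝ) → ℝ} {l χ ℓ : X → ℝ} (hM : IsMean M)
    (hl : ∀ x, |l x| ≤ 2) (hχ : ∀ x, χ x = 1 ∨ χ x = -1)
    (hcos : ∀ u : ℝ, u ≠ 0 → M (fun x => Real.cos (u * ℓ x)) = 0)
    (hχcos : ∀ u : ℝ, u ≠ 0 → M (fun x => χ x * Real.cos (u * ℓ x)) = 0) {t t' : ℝ}
    (h0 : ¬ (t = 0 ∧ t' = 0)) (hd : M χ = 0 ∨ |t| ≠ |t'|) :
    ¬ (99 / 100 ≤ |M (fun x => l x * Real.cos (t * ℓ x))| ∧
      99 / 100 ≤ |M (fun x => l x * (χ x * Real.cos (t' * ℓ x)))|) := by
  rintro ⟨g1, g2⟩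
  have hχabs : ∀ x, |χ x| = 1 := by
    intro x
    rcases hχ x with h | h <;> rw [h] <;> norm_num
  by_cases ht : t = 0
  · subst ht
    have ht' : t' ≠ 0 := fun h => h0 ⟨rfl, h⟩
    refine coreZero hM hl hχ hcos (abs_pos.2 ht') (hχcos _ (abs_pos.2 ht').ne')
      (hχcos _ (mul_pos three_pos (abs_pos.2 ht')).ne') ⟨?_, ?_⟩
    · have e : (fun x => l x * Real.cos (0 * ℓ x)) = l := by
        funext x
        rw [zero_mul, Real.cos_zero, mul_one]
      rw [e] at g1
      exact g1
    · have e : (fun x => l x * (χ x * Real.cos (|t'| * ℓ x))) =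
          fun x => l x * (χ x * Real.cos (t' * ℓ x)) := by
        funext x
        rw [cos_abs_mul]
      rw [e]
      exact g2
  · by_cases ht' : t' = 0
    · subst ht'
      have hl2 : ∀ x, |l x * χ x| ≤ 2 := fun x => by
        rw [abs_mul, hχabs, mul_one]
        exact hl x
      refine coreZero (l := fun x => l x * χ x) hM hl2 hχ hcos (abs_pos.2 ht)
        (hχcos _ (abs_pos.2 ht).ne') (hχcos _ (mul_pos three_pos (abs_pos.2 ht)).ne') ⟨?_, ?_⟩
      · have e : (fun x => l x * (χ x * Real.cos (0 * ℓ x))) = fun x => l x * χ x := by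
          funext x
          rw [zero_mul, Real.cos_zero, mul_one]
        rw [e] at g2
        exact g2
      · have e : (fun x => l x * χ x * (χ x * Real.cos (|t| * ℓ x))) =
            fun x => l x * Real.cos (t * ℓ x) := by
          funext x
          rw [cos_abs_mul]
          rcases hχ x with h | h <;> rw [h] <;> ring
        show 99 / 100 ≤ |M (fun x => l x * χ x * (χ x * Real.cos (|t| * ℓ x)))|
        rw [e]
        exact g1
    · have p : 0 < |t| := abs_pos.2 ht
      have p' : 0 < |t'| := abs_pos.2 ht'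
      have hχ0 : (fun x => χ x * Real.cos (0 * ℓ x)) = χ := by
        funext x
        rw [zero_mul, Real.cos_zero, mul_one]
      have hMχ : |M χ| ≤ 1 := by
        have hb : Bdd χ := ⟨1, fun x => (hχabs x).le⟩
        have hb1 : Bdd fun _ : X => (1 : ℝ) := ⟨1, fun _ => by simp⟩
        have k1 := L7.lin_nonneg hM [(1, fun _ => (1 : ℝ)), (1, χ)] (by
          intro q hq
          simp only [List.mem_cons, List.not_mem_nil, or_false] at hq
          rcases hq with rfl | rfl
          · exact hb1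
          · exact hb) (by
          intro x
          simp only [List.map_cons, List.map_nil, List.sum_cons, List.sum_nil]
          rcases hχ x with h | h <;> rw [h] <;> norm_num)
        have k2 := L7.lin_nonneg hM [(1, fun _ => (1 : ℝ)), (-1, χ)] (by
          intro q hq
          simp only [List.mem_cons, List.not_mem_nil, or_false] at hq
          rcases hq with rfl | rfl
          · exact hb1
          · exact hb) (by
          intro x
          simp only [List.map_cons, List.map_nil, List.sum_cons, List.sum_nil]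
          rcases hχ x with h | h <;> rw [h] <;> norm_num)
        simp only [List.map_cons, List.map_nil, List.sum_cons, List.sum_nil] at k1 k2
        rw [hM.one] at k1 k2
        rw [abs_le]
        constructor <;> linarith
      refine coreBoth hM hl hχ hcos p p' (hχcos _ (by positivity)) ?_
        (hχcos _ (by positivity)) (hχcos _ (by positivity)) ?_ ⟨?_, ?_⟩
      · by_cases he : |t| = |t'|
        · rw [he, sub_self, hχ0]
          exact hd.resolve_right (fun h => h he)
        · exact hχcos _ (sub_ne_zero.2 he)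
      · by_cases h1 : 3 * |t| - |t'| = 0
        · have h2 : |t| - 3 * |t'| ≠ 0 := by
            intro h3
            linarith
          rw [h1, hχ0, hχcos _ h2, add_zero]
          exact hMχ
        · rw [hχcos _ h1, zero_add]
          by_cases h2 : |t| - 3 * |t'| = 0
          · rw [h2, hχ0]
            exact hMχ
          · rw [hχcos _ h2]
            norm_num
      · have e : (fun x => l x * Real.cos (|t| * ℓ x)) = fun x => l x * Real.cos (t * ℓ x) := by
          funext x
          rw [cos_abs_mul]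
        rw [e]
        exact g1
      · have e : (fun x => l x * (χ x * Real.cos (|t'| * ℓ x))) =
            fun x => l x * (χ x * Real.cos (t' * ℓ x)) := by
          funext x
          rw [cos_abs_mul]
        rw [e]
        exact g2

/-- an exceptional point gives a mean of absolute value at least 99/100 -/
theorem exc_mean {K : Type} [Field K] [NumberField K] (d6 : S_ZetaSum) (w8 : S_Order)
    {E : WeierstrassCurve K} (hE : E.IsElliptic)
    {M : HeightOneSpectrum (𝓞 K) → WeierstrassCurve (𝓞 K)} (hM : ∀ v, IsMinAt E v (M v))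
    {S : Set (HeightOneSpectrum (𝓞 K))} (hS : S.Finite)
    {l : HeightOneSpectrum (𝓞 K) → ℝ} (hl : ∀ v ∉ S, l v = (tr (M v) v : ℝ) / √(nm v))
    (hl2 : ∀ v, |l v| ≤ 2) {Mn : (HeightOneSpectrum (𝓞 K) → ℝ) → ℝ}
    (hval : ∀ (g : HeightOneSpectrum (𝓞 K) → ℝ) (L C : ℝ), Bdd g →
      (∀ x, 0 < x → x ≤ 1 → |∑' v, g v * wt K x v - L * Real.log (1 / x)| ≤ C) → Mn g = L)
    (hlow : ∀ (g : HeightOneSpectrum (𝓞 K) → ℝ) (a C : ℝ), Bdd g →
        (∀ᶠ x in 𝓝[>] (0 : ℝ), a * Real.log (1 / x) - C ≤ |∑' v, g v * wt K x v|) →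
        a ≤ |Mn g|)
    {t : ℝ} (ht : Exceptional M t) :
    99 / 100 ≤ |Mn (fun v => l v * Real.cos (t * Real.log (nm v)))| := by
  rcases ht with ⟨F, hF1, hF2, hF3⟩ | ⟨-, ht⟩
  · have h := zero_mean d6 w8 hE ⟨hM, hF1, hF2⟩ hS hl hl2 hval t hF3
    have h1 := neg_le_abs (Mn (fun v => l v * Real.cos (t * Real.log (nm v))))
    linarith
  · have hb : Bdd fun v : HeightOneSpectrum (𝓞 K) => l v * Real.cos (t * Real.log (nm v)) :=
      bdd_mul ⟨2, hl2⟩ ⟨1, fun v => Real.abs_cos_le_one _⟩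
    obtain ⟨C₁, hC₁⟩ := log_prod hE hM
    obtain ⟨C₂, hC₂⟩ := fin_mod d6 hS
      (g := fun v => (tr (M v) v : ℝ) / √(nm v) * Real.cos (t * Real.log (nm v)))
      (g' := fun v => l v * Real.cos (t * Real.log (nm v))) hb
      (fun v hv => by show _ = l v * _; rw [hl v hv])
    refine hlow _ (99 / 100) (C₁ + C₂) hb ?_
    have h1 : Set.Iic (1 : ℝ) ∈ 𝓝[>] (0 : ℝ) :=
      mem_nhdsWithin_of_mem_nhds (Iic_mem_nhds zero_lt_one)
    filter_upwards [ht, self_mem_nhdsWithin, h1] with x a1 a2 a3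
    have b1 := hC₁ x t a2 a3
    have b2 := hC₂ x a2
    unfold Q at b1
    set A := Real.log ‖∏' v : HeightOneSpectrum (𝓞 K),
        (locDen (M v) v (3 / 2 + x + t * Complex.I))⁻¹‖
    set B := ∑' v : HeightOneSpectrum (𝓞 K),
      (tr (M v) v : ℝ) / √(nm v) * Real.cos (t * Real.log (nm v)) * wt K x v
    set D := ∑' v : HeightOneSpectrum (𝓞 K),
      l v * Real.cos (t * Real.log (nm v)) * wt K x v
    have c1 : |A| ≤ |A - B| + |B - D| + |D| := by
      have c2 := abs_add_le ((A - B) + (B - D)) D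
      have c3 := abs_add_le (A - B) (B - D)
      have c4 : (A - B) + (B - D) + D = A := by ring
      rw [c4] at c2
      linarith
    linarith

/-- squares are squares modulo all primes -/
theorem chiv_square {K : Type} [Field K] [NumberField K] {d : 𝓞 K} (hd : IsSquare (d : K))
    {v : HeightOneSpectrum (𝓞 K)} (h : (2 * d : 𝓞 K) ∉ v.asIdeal) : chiv d v = 1 := by
  obtain ⟨e, he⟩ := hd
  have hint : IsIntegral ℤ e := by
    have h1 : IsIntegral ℤ (e ^ 2) := by
      rw [pow_two, ← he]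
      exact d.isIntegral_coe
    exact IsIntegral.of_pow two_pos h1
  obtain ⟨e', he'⟩ : ∃ e' : 𝓞 K, (e' : K) = e := ⟨⟨e, hint⟩, rfl⟩
  have hde : d = e' * e' := by
    apply RingOfIntegers.coe_injective
    rw [map_mul]
    change (d : K) = (e' : K) * (e' : K)
    rw [he, he']
  have h1 : d ∉ v.asIdeal := fun h2 => h (v.asIdeal.mul_mem_left 2 h2)
  unfold chiv
  rw [if_neg h1, if_pos]
  exact ⟨Ideal.Quotient.mk v.asIdeal e', by rw [← map_mul, ← hde]⟩

end C2

/-- **C2.** -/
def S_AtMostOne : Prop :=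
  ∀ (K : Type) [Field K] [NumberField K] (E E' : WeierstrassCurve K) [E.IsElliptic]
    [E'.IsElliptic], E.j = E'.j → E.j ≠ 0 → E.j ≠ 1728 →
    ∀ M M' : HeightOneSpectrum (𝓞 K) → WeierstrassCurve (𝓞 K), (∀ v, IsMinAt E v (M v)) →
      (∀ v, IsMinAt E' v (M' v)) →
      ∀ t t' : ℝ, Exceptional M t → Exceptional M' t' →
        (∃ C : WeierstrassCurve.VariableChange K, C • E = E') ∧ |t| = |t'|

open L9 B2 C2 in
theorem atMostOne (d6 : S_ZetaSum) (d7 : S_ZetaCosK) (w1 : S_TwistForm) (w2 : S_FinTwist)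
    (w4 : S_GoodAlmost) (w6 : S_SplitSum) (w8 : S_Order) (l4 : S_NotBoth) :
    S_AtMostOne := by
  classical
  intro K _ _ E E' iE iE' hj hj0 hj1 M M' hM hM' t t' ht ht'
  obtain ⟨A, B, d, hA, hB, hd, hΔ, hC, hC'⟩ := w1 K E E' hj hj0 hj1
  obtain ⟨S₀, hS₀, htr⟩ := B1.tr_rel w2 hd hΔ hC hC'
  obtain ⟨S₁, hS₁, hg₁⟩ := w4 K E iE
  set S : Set (HeightOneSpectrum (𝓞 K)) := S₀ ∪ S₁ with hSdef
  have hS : S.Finite := hS₀.union hS₁
  -- the functions
  obtain ⟨l, hldef⟩ : ∃ l : HeightOneSpectrum (𝓞 K) → ℝ, ∀ v, l v =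
    if v ∈ S then 0 else (tr (M v) v : ℝ) / √(nm v) := ⟨_, fun v => rfl⟩
  obtain ⟨χ, hχdef⟩ : ∃ χ : HeightOneSpectrum (𝓞 K) → ℝ, ∀ v, χ v =
    if v ∈ S then 1 else chiv d v := ⟨_, fun v => rfl⟩
  have hl : ∀ v ∉ S, l v = (tr (M v) v : ℝ) / √(nm v) := fun v hv => by rw [hldef, if_neg hv]
  have hl2 : ∀ v, |l v| ≤ 2 := by
    intro v
    by_cases hv : v ∈ S
    · rw [hldef, if_pos hv]
      norm_num
    · rw [hl v hv, abs_div, abs_of_nonneg (Real.sqrt_nonneg _)]
      have hpos : (0 : ℝ) < √(nm v) := by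
        apply Real.sqrt_pos.2
        have := two_le_nm v
        exact_mod_cast (by omega : 0 < nm v)
      rw [div_le_iff₀ hpos]
      exact (hg₁ v (fun h => hv (Or.inr h)) (M v) (hM v)).2
  have hχ : ∀ v, χ v = 1 ∨ χ v = -1 := by
    intro v
    by_cases hv : v ∈ S
    · rw [hχdef, if_pos hv]
      exact Or.inl rfl
    · rw [hχdef, if_neg hv]
      exact chiv_pm (htr v (fun h => hv (Or.inl h))).1
  have hχabs : ∀ v, |χ v| = 1 := by
    intro v
    rcases hχ v with h | h <;> rw [h] <;> norm_num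
  have hχl : ∀ v ∉ S, l v * χ v = (tr (M' v) v : ℝ) / √(nm v) := by
    intro v hv
    rw [(htr v (fun h => hv (Or.inl h))).2 (M v) (M' v) (hM v) (hM' v), hl v hv, hχdef,
      if_neg hv]
    ring
  have hχl2 : ∀ v, |l v * χ v| ≤ 2 := by
    intro v
    rw [abs_mul, hχabs, mul_one]
    exact hl2 v
  -- the mean
  obtain ⟨C₀, hC₀⟩ := (d7 K).1
  obtain ⟨Mn, hMn, hval, hlow⟩ := mean2 (X := HeightOneSpectrum (𝓞 K)) (wt K) wt_nonneg
    (fun x hx _ => wt_summable d6 hx) ⟨C₀, fun x hx hx1 => by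
      rw [← primeSum_zero]
      exact hC₀ x hx hx1⟩
  have hcos : ∀ u : ℝ, u ≠ 0 → Mn (fun v => Real.cos (u * Real.log (nm v))) = 0 := by
    intro u hu
    obtain ⟨C, hC⟩ := (d7 K).2 u hu
    refine hval _ 0 C ⟨1, fun v => Real.abs_cos_le_one _⟩ fun x hx hx1 => ?_
    rw [zero_mul, sub_zero, ← primeSum_eq]
    exact hC x hx hx1
  have m1 := exc_mean d6 w8 iE hM hS hl hl2 hval hlow ht
  have m2 := exc_mean d6 w8 iE' hM' hS hχl hχl2 hval hlow ht'
  have m2' : 99 / 100 ≤ |Mn (fun v => l v * (χ v * Real.cos (t' * Real.log (nm v))))| := by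
    have e : (fun v : HeightOneSpectrum (𝓞 K) =>
        l v * (χ v * Real.cos (t' * Real.log (nm v)))) =
        fun v => l v * χ v * Real.cos (t' * Real.log (nm v)) := by
      funext v
      ring
    rw [e]
    exact m2
  by_cases hsq : IsSquare (d : K)
  · -- isomorphic curves
    obtain ⟨C₁, hC₁⟩ := hC
    obtain ⟨C₂, hC₂⟩ := hC'
    obtain ⟨C₃, hC₃⟩ := W3.square_case A B d hd hsq
    refine ⟨⟨C₂⁻¹ * C₃ * C₁, ?_⟩, ?_⟩
    · rw [mul_smul, mul_smul, hC₁, hC₃, ← hC₂, inv_smul_smul]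
    · by_contra hne
      have hχ1 : ∀ v, χ v = 1 := by
        intro v
        by_cases hv : v ∈ S
        · rw [hχdef, if_pos hv]
        · rw [hχdef, if_neg hv]
          exact chiv_square hsq (htr v (fun h => hv (Or.inl h))).1
      have hχcos : ∀ u : ℝ, u ≠ 0 → Mn (fun v => χ v * Real.cos (u * Real.log (nm v))) = 0 := by
        intro u hu
        have e : (fun v : HeightOneSpectrum (𝓞 K) => χ v * Real.cos (u * Real.log (nm v))) =
            fun v => Real.cos (u * Real.log (nm v)) := by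
          funext v
          rw [hχ1, one_mul]
        rw [e]
        exact hcos u hu
      refine C2.core hMn hl2 hχ hcos hχcos ?_ (Or.inr hne) ⟨m1, m2'⟩
      rintro ⟨rfl, rfl⟩
      exact hne rfl
  · -- twists
    exfalso
    have hχcos : ∀ u : ℝ, Mn (fun v => χ v * Real.cos (u * Real.log (nm v))) = 0 := by
      intro u
      obtain ⟨C, hC⟩ := chi_sum d6 d7 w6 hsq u
      have hb' : Bdd fun v : HeightOneSpectrum (𝓞 K) =>
          chiv d v * Real.cos (u * Real.log (nm v)) := by
        refine ⟨1, fun v => ?_⟩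
        rw [abs_mul]
        exact mul_le_one₀ (abs_chiv d v) (abs_nonneg _) (Real.abs_cos_le_one _)
      have hb : Bdd fun v : HeightOneSpectrum (𝓞 K) =>
          χ v * Real.cos (u * Real.log (nm v)) := by
        refine ⟨1, fun v => ?_⟩
        rw [abs_mul, hχabs, one_mul]
        exact Real.abs_cos_le_one _
      obtain ⟨C', hC'⟩ := fin_mod d6 hS
        (g := fun v => χ v * Real.cos (u * Real.log (nm v)))
        (g' := fun v => chiv d v * Real.cos (u * Real.log (nm v))) hb'
        (fun v hv => by show χ v * _ = _; rw [hχdef, if_neg hv])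
      refine hval _ 0 (C + C') hb fun x hx hx1 => ?_
      have h1 := hC x hx hx1
      have h2 := hC' x hx
      rw [zero_mul, sub_zero]
      rw [abs_le] at *
      constructor <;> linarith [h1.1, h1.2, h2.1, h2.2]
    have hMχ : Mn χ = 0 := by
      have h := hχcos 0
      have e : (fun v : HeightOneSpectrum (𝓞 K) => χ v * Real.cos (0 * Real.log (nm v))) = χ := by
        funext v
        rw [zero_mul, Real.cos_zero, mul_one]
      rw [e] at h
      exact h
    by_cases h0 : t = 0 ∧ t' = 0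
    · obtain ⟨rfl, rfl⟩ := h0
      rcases ht with ⟨F, hF1, hF2, hF3⟩ | ⟨h, -⟩
      · rcases ht' with ⟨F', hF1', hF2', hF3'⟩ | ⟨h, -⟩
        · refine l4 K E E' iE iE' d S₀ hsq hS₀ htr M M' F F' ⟨hM, hF1, hF2⟩ ⟨hM', hF1', hF2'⟩
            ⟨?_, ?_⟩
          · simpa using hF3
          · simpa using hF3'
        · exact h rfl
      · exact h rfl
    · exact C2.core hMn hl2 hχ hcos (fun u _ => hχcos u) h0 (Or.inl hMχ) ⟨m1, m2'⟩

theorem atMostOneAll : S_AtMostOne :=
  atMostOne zetaSum zetaCosKAll twistForm finTwist goodAlmost splitSumAll order notBothAll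

end MP7ed9c3.Tw
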