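import Pool.Agent.Lib.MP_7ed9c3_nt.Tw.SpecL

/-!
# MP_7ed9c3_nt, part Tw: L6, the means of the zeros (one curve)
-/

set_option autoImplicit false

namespace MP7ed9c3.Tw

namespace L6

variable {X : Type} {M : (X → ℝ) → ℝ}

lemma bdd_add {g h : X → ℝ} (hg : Bdd g) (hh : Bdd h) : Bdd fun x => g x + h x := by
  obtain ⟨A, hA⟩ := hg
  obtain ⟨B, hB⟩ := hh
  exact ⟨A + B, fun x => (abs_add_le _ _).trans (add_le_add (hA x) (hB x))⟩

lemma bdd_mul {g h : X → ℝ} (hg : Bdd g) (hh : Bdd h) : Bdd fun x => g x * h x := by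
  obtain ⟨A, hA⟩ := hg
  obtain ⟨B, hB⟩ := hh
  refine ⟨A * B, fun x => ?_⟩
  rw [abs_mul]
  exact mul_le_mul (hA x) (hB x) (abs_nonneg _) ((abs_nonneg _).trans (hA x))

lemma bdd_const (c : ℝ) : Bdd fun _ : X => c := ⟨|c|, fun _ => le_rfl⟩

lemma bdd_smul {g : X → ℝ} (c : ℝ) (hg : Bdd g) : Bdd fun x => c * g x :=
  bdd_mul (bdd_const c) hg

lemma bdd_sub {g h : X → ℝ} (hg : Bdd g) (hh : Bdd h) : Bdd fun x => g x - h x := by
  have h1 := bdd_add hg (bdd_smul (-1) hh)
  have h2 : (fun x => g x - h x) = fun x => g x + -1 * h x := by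
    funext x
    ring
  rw [h2]
  exact h1

lemma bdd_pow {g : X → ℝ} (hg : Bdd g) (n : ℕ) : Bdd fun x => g x ^ n := by
  induction n with
  | zero => simpa using bdd_const (X := X) 1
  | succ n ih =>
    simp only [pow_succ]
    exact bdd_mul ih hg

lemma bdd_cos (u : ℝ) (ℓ : X → ℝ) : Bdd fun x => Real.cos (u * ℓ x) :=
  ⟨1, fun _ => Real.abs_cos_le_one _⟩

lemma mono (hM : IsMean M) {g h : X → ℝ} (hg : Bdd g) (hh : Bdd h) (hgh : ∀ x, g x ≤ h x) :
    M g ≤ M h := by
  have h1 := hM.add g (fun x => h x - g x) hg (bdd_sub hh hg)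
  have h2 := hM.nonneg (fun x => h x - g x) (bdd_sub hh hg) fun x => sub_nonneg.2 (hgh x)
  have h3 : (fun x => g x + (h x - g x)) = h := by
    funext x
    ring
  rw [h3] at h1
  linarith

lemma const (hM : IsMean M) (c : ℝ) : M (fun _ => c) = c := by
  have h1 := hM.smul c (fun _ => 1) (bdd_const 1)
  rw [hM.one] at h1
  simpa using h1

/-- linear combinations -/
lemma comb (hM : IsMean M) {n : ℕ} (c : Fin n → ℝ) (g : Fin n → X → ℝ) (hg : ∀ i, Bdd (g i)) :
    M (fun x => ∑ i, c i * g i x) = ∑ i, c i * M (g i) ∧ Bdd fun x => ∑ i, c i * g i x := by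
  induction n with
  | zero =>
    simp only [Finset.univ_eq_empty, Finset.sum_empty]
    exact ⟨const hM 0, bdd_const 0⟩
  | succ n ih =>
    obtain ⟨h1, h2⟩ := ih (fun i => c i.succ) (fun i => g i.succ) fun i => hg _
    simp only [Fin.sum_univ_succ]
    refine ⟨?_, bdd_add (bdd_smul _ (hg 0)) h2⟩
    rw [hM.add _ _ (bdd_smul _ (hg 0)) h2, hM.smul _ _ (hg 0), h1]

end L6

open L6 in
theorem coreOne : S_CoreOne := by
  intro X M l ℓ hM hl hcos
  have hlb : Bdd l := ⟨2, hl⟩
  have hl2 : ∀ x, l x ^ 2 ≤ 4 := by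
    intro x
    have h1 := abs_le.1 (hl x)
    nlinarith [h1.1, h1.2]
  have hMl2 : M (fun x => l x ^ 2) ≤ 4 := by
    have h1 := mono hM (bdd_pow hlb 2) (bdd_const 4) hl2
    rwa [const hM 4] at h1
  have hcb : ∀ u : ℝ, Bdd fun x => Real.cos (u * ℓ x) := fun u => bdd_cos u ℓ
  -- powers of a cosine
  have hc2 : ∀ t : ℝ, t ≠ 0 → M (fun x => Real.cos (t * ℓ x) ^ 2) = 1 / 2 := by
    intro t ht
    have h1 := (comb hM ![1 / 2, 1 / 2] ![fun _ => 1, fun x => Real.cos (2 * t * ℓ x)] (by
      intro i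
      fin_cases i
      · exact bdd_const 1
      · exact hcb _)).1
    simp only [Fin.sum_univ_two, Matrix.cons_val_zero, Matrix.cons_val_one] at h1
    rw [hM.one, hcos (2 * t) (by simpa using ht)] at h1
    have h2 : (fun x => Real.cos (t * ℓ x) ^ 2) =
        fun x => 1 / 2 * 1 + 1 / 2 * Real.cos (2 * t * ℓ x) := by
      funext x
      have h3 := Real.cos_two_mul (t * ℓ x)
      rw [show 2 * (t * ℓ x) = 2 * t * ℓ x by ring] at h3
      linarith
    rw [h2, h1]
    norm_num
  have hprod : ∀ s t : ℝ, ∀ x, Real.cos (s * ℓ x) * Real.cos (t * ℓ x) =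
      1 / 2 * Real.cos ((s + t) * ℓ x) + 1 / 2 * Real.cos ((s - t) * ℓ x) := by
    intro s t x
    rw [add_mul, sub_mul, Real.cos_add, Real.cos_sub]
    ring
  have hc3id : ∀ t x, Real.cos (t * ℓ x) ^ 3 =
      3 / 4 * Real.cos (t * ℓ x) + 1 / 4 * Real.cos (3 * t * ℓ x) := by
    intro t x
    have h3 := Real.cos_three_mul (t * ℓ x)
    rw [show 3 * (t * ℓ x) = 3 * t * ℓ x by ring] at h3
    linarith
  have hc4id : ∀ t x, Real.cos (t * ℓ x) ^ 4 =
      3 / 8 * 1 + 1 / 2 * Real.cos (2 * t * ℓ x) + 1 / 8 * Real.cos (4 * t * ℓ x) := by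
    intro t x
    have h3 := Real.cos_two_mul (t * ℓ x)
    rw [show 2 * (t * ℓ x) = 2 * t * ℓ x by ring] at h3
    have h4 := Real.cos_two_mul (2 * t * ℓ x)
    rw [show 2 * (2 * t * ℓ x) = 4 * t * ℓ x by ring] at h4
    rw [h4, h3]
    ring
  have hc3 : ∀ t : ℝ, t ≠ 0 → M (fun x => Real.cos (t * ℓ x) ^ 3) = 0 := by
    intro t ht
    have h1 := (comb hM ![3 / 4, 1 / 4] ![fun x => Real.cos (t * ℓ x),
      fun x => Real.cos (3 * t * ℓ x)] (by
      intro i
      fin_cases i
      · exact hcb _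
      · exact hcb _)).1
    simp only [Fin.sum_univ_two, Matrix.cons_val_zero, Matrix.cons_val_one] at h1
    rw [hcos t ht, hcos (3 * t) (by simpa using ht)] at h1
    rw [funext (hc3id t), h1]
    norm_num
  have hc4 : ∀ t : ℝ, t ≠ 0 → M (fun x => Real.cos (t * ℓ x) ^ 4) = 3 / 8 := by
    intro t ht
    have h1 := (comb hM ![3 / 8, 1 / 2, 1 / 8] ![fun _ => 1, fun x => Real.cos (2 * t * ℓ x),
      fun x => Real.cos (4 * t * ℓ x)] (by
      intro i
      fin_cases i
      · exact bdd_const 1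
      · exact hcb _
      · exact hcb _)).1
    simp only [Fin.sum_univ_three, Matrix.cons_val_zero, Matrix.cons_val_one,
      Matrix.cons_val_two, Matrix.head_cons, Matrix.tail_cons] at h1
    rw [hM.one, hcos (2 * t) (by simpa using ht), hcos (4 * t) (by simpa using ht)] at h1
    rw [funext (hc4id t), h1]
    norm_num
  refine ⟨?_, ?_, ?_⟩
  · intro t m ht hm
    have hb := bdd_mul hlb (hcb t)
    have h1 := (comb hM ![1, 2 * (2 * m), (2 * m) ^ 2] ![fun x => l x ^ 2,
      fun x => l x * Real.cos (t * ℓ x), fun x => Real.cos (t * ℓ x) ^ 2] (by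
      intro i
      fin_cases i
      · exact bdd_pow hlb 2
      · exact hb
      · exact bdd_pow (hcb t) 2)).1
    simp only [Fin.sum_univ_three, Matrix.cons_val_zero, Matrix.cons_val_one,
      Matrix.cons_val_two, Matrix.head_cons, Matrix.tail_cons] at h1
    have h2 : (fun x => (l x + 2 * m * Real.cos (t * ℓ x)) ^ 2) = fun x =>
        1 * l x ^ 2 + 2 * (2 * m) * (l x * Real.cos (t * ℓ x)) +
          (2 * m) ^ 2 * Real.cos (t * ℓ x) ^ 2 := by
      funext x
      ring
    have h3 := hM.nonneg (fun x => (l x + 2 * m * Real.cos (t * ℓ x)) ^ 2)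
      (bdd_pow (bdd_add hlb (bdd_smul _ (hcb t))) 2) fun x => sq_nonneg _
    rw [h2, h1, hm, hc2 t ht] at h3
    nlinarith
  · rintro t t' ht ht' hne ⟨h1, h2⟩
    have htt : t + t' ≠ 0 := by positivity
    have htm : t - t' ≠ 0 := sub_ne_zero.2 hne
    -- notation
    have hab : M (fun x => Real.cos (t * ℓ x) * Real.cos (t' * ℓ x)) = 0 := by
      have h3 := (comb hM ![1 / 2, 1 / 2] ![fun x => Real.cos ((t + t') * ℓ x),
        fun x => Real.cos ((t - t') * ℓ x)] (by
        intro i
        fin_cases i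
        · exact hcb _
        · exact hcb _)).1
      simp only [Fin.sum_univ_two, Matrix.cons_val_zero, Matrix.cons_val_one] at h3
      rw [hcos _ htt, hcos _ htm] at h3
      rw [funext (hprod t t'), h3]
      norm_num
    have hMc : ∀ u : ℝ, 0 ≤ M (fun x => Real.cos (u * ℓ x)) := by
      intro u
      by_cases hu : u = 0
      · subst hu
        simp only [zero_mul, Real.cos_zero]
        rw [hM.one]
        norm_num
      · rw [hcos u hu]
    have ha3b : ∀ s r : ℝ, s + r ≠ 0 → s - r ≠ 0 →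
        0 ≤ M (fun x => Real.cos (s * ℓ x) ^ 3 * Real.cos (r * ℓ x)) := by
      intro s r hs hr
      have h3 := (comb hM ![3 / 8, 3 / 8, 1 / 8, 1 / 8] ![fun x => Real.cos ((s + r) * ℓ x),
        fun x => Real.cos ((s - r) * ℓ x), fun x => Real.cos ((3 * s + r) * ℓ x),
        fun x => Real.cos ((3 * s - r) * ℓ x)] (by
        intro i
        fin_cases i
        · exact hcb _
        · exact hcb _
        · exact hcb _
        · exact hcb _)).1
      simp only [Fin.sum_univ_four, Matrix.cons_val_zero, Matrix.cons_val_one,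
        Matrix.cons_val_two, Matrix.cons_val_three, Matrix.head_cons, Matrix.tail_cons] at h3
      have h4 : (fun x => Real.cos (s * ℓ x) ^ 3 * Real.cos (r * ℓ x)) = fun x =>
          3 / 8 * Real.cos ((s + r) * ℓ x) + 3 / 8 * Real.cos ((s - r) * ℓ x) +
            1 / 8 * Real.cos ((3 * s + r) * ℓ x) + 1 / 8 * Real.cos ((3 * s - r) * ℓ x) := by
        funext x
        rw [hc3id s x]
        have e1 := hprod s r x
        have e2 := hprod (3 * s) r x
        linear_combination 3 / 4 * e1 + 1 / 4 * e2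
      rw [h4, h3, hcos _ hs, hcos _ hr]
      have e1 := hMc (3 * s + r)
      have e2 := hMc (3 * s - r)
      linarith
    have ha2b2 : M (fun x => Real.cos (t * ℓ x) ^ 2 * Real.cos (t' * ℓ x) ^ 2) = 1 / 4 := by
      have h3 := (comb hM ![1 / 4, 1 / 4, 1 / 4, 1 / 8, 1 / 8] ![fun _ => 1,
        fun x => Real.cos (2 * t * ℓ x), fun x => Real.cos (2 * t' * ℓ x),
        fun x => Real.cos ((2 * t + 2 * t') * ℓ x), fun x => Real.cos ((2 * t - 2 * t') * ℓ x)] (by
        intro i
        fin_cases i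
        · exact bdd_const 1
        · exact hcb _
        · exact hcb _
        · exact hcb _
        · exact hcb _)).1
      simp only [Fin.sum_univ_five, Matrix.cons_val_zero, Matrix.cons_val_one,
        Matrix.cons_val_two, Matrix.cons_val_three, Matrix.cons_val_four, Matrix.head_cons,
        Matrix.tail_cons] at h3
      have h4 : (fun x => Real.cos (t * ℓ x) ^ 2 * Real.cos (t' * ℓ x) ^ 2) = fun x =>
          1 / 4 * 1 + 1 / 4 * Real.cos (2 * t * ℓ x) + 1 / 4 * Real.cos (2 * t' * ℓ x) +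
            1 / 8 * Real.cos ((2 * t + 2 * t') * ℓ x) +
              1 / 8 * Real.cos ((2 * t - 2 * t') * ℓ x) := by
        funext x
        have e1 := hprod (2 * t) (2 * t') x
        have e2 := Real.cos_two_mul (t * ℓ x)
        rw [show 2 * (t * ℓ x) = 2 * t * ℓ x by ring] at e2
        have e3 := Real.cos_two_mul (t' * ℓ x)
        rw [show 2 * (t' * ℓ x) = 2 * t' * ℓ x by ring] at e3
        rw [e2, e3] at e1
        rw [e2, e3]
        linear_combination 1 / 4 * e1
      rw [h4, h3, hM.one, hcos (2 * t) (by positivity), hcos (2 * t') (by positivity),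
        hcos (2 * t + 2 * t') (by positivity), hcos (2 * t - 2 * t') (by
          intro h
          apply htm
          linarith)]
      norm_num
    -- the function `h = 2 a + 2 b`
    have hab' : Bdd fun x => 2 * Real.cos (t * ℓ x) + 2 * Real.cos (t' * ℓ x) :=
      bdd_add (bdd_smul _ (hcb t)) (bdd_smul _ (hcb t'))
    have hh2 : M (fun x => (2 * Real.cos (t * ℓ x) + 2 * Real.cos (t' * ℓ x)) ^ 2) = 4 := by
      have h3 := (comb hM ![4, 8, 4] ![fun x => Real.cos (t * ℓ x) ^ 2,
        fun x => Real.cos (t * ℓ x) * Real.cos (t' * ℓ x),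
        fun x => Real.cos (t' * ℓ x) ^ 2] (by
        intro i
        fin_cases i
        · exact bdd_pow (hcb _) 2
        · exact bdd_mul (hcb _) (hcb _)
        · exact bdd_pow (hcb _) 2)).1
      simp only [Fin.sum_univ_three, Matrix.cons_val_zero, Matrix.cons_val_one,
        Matrix.cons_val_two, Matrix.head_cons, Matrix.tail_cons] at h3
      have h4 : (fun x => (2 * Real.cos (t * ℓ x) + 2 * Real.cos (t' * ℓ x)) ^ 2) = fun x =>
          4 * Real.cos (t * ℓ x) ^ 2 + 8 * (Real.cos (t * ℓ x) * Real.cos (t' * ℓ x)) +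
            4 * Real.cos (t' * ℓ x) ^ 2 := by
        funext x
        ring
      rw [h4, h3, hc2 t ht.ne', hab, hc2 t' ht'.ne']
      norm_num
    have hh4 : 36 ≤ M (fun x => (2 * Real.cos (t * ℓ x) + 2 * Real.cos (t' * ℓ x)) ^ 4) := by
      have h3 := (comb hM ![16, 64, 96, 64, 16] ![fun x => Real.cos (t * ℓ x) ^ 4,
        fun x => Real.cos (t * ℓ x) ^ 3 * Real.cos (t' * ℓ x),
        fun x => Real.cos (t * ℓ x) ^ 2 * Real.cos (t' * ℓ x) ^ 2,
        fun x => Real.cos (t' * ℓ x) ^ 3 * Real.cos (t * ℓ x),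
        fun x => Real.cos (t' * ℓ x) ^ 4] (by
        intro i
        fin_cases i
        · exact bdd_pow (hcb _) 4
        · exact bdd_mul (bdd_pow (hcb _) 3) (hcb _)
        · exact bdd_mul (bdd_pow (hcb _) 2) (bdd_pow (hcb _) 2)
        · exact bdd_mul (bdd_pow (hcb _) 3) (hcb _)
        · exact bdd_pow (hcb _) 4)).1
      simp only [Fin.sum_univ_five, Matrix.cons_val_zero, Matrix.cons_val_one,
        Matrix.cons_val_two, Matrix.cons_val_three, Matrix.cons_val_four, Matrix.head_cons,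
        Matrix.tail_cons] at h3
      have h4 : (fun x => (2 * Real.cos (t * ℓ x) + 2 * Real.cos (t' * ℓ x)) ^ 4) = fun x =>
          16 * Real.cos (t * ℓ x) ^ 4 + 64 * (Real.cos (t * ℓ x) ^ 3 * Real.cos (t' * ℓ x)) +
            96 * (Real.cos (t * ℓ x) ^ 2 * Real.cos (t' * ℓ x) ^ 2) +
              64 * (Real.cos (t' * ℓ x) ^ 3 * Real.cos (t * ℓ x)) +
                16 * Real.cos (t' * ℓ x) ^ 4 := by
        funext x
        ring
      rw [h4, h3, hc4 t ht.ne', hc4 t' ht'.ne', ha2b2]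
      have e1 := ha3b t t' htt htm
      have e2 := ha3b t' t (by rwa [add_comm]) (by
        intro h
        apply htm
        linarith)
      linarith
    have hlh : M (fun x => (l x + (2 * Real.cos (t * ℓ x) + 2 * Real.cos (t' * ℓ x))) ^ 2) ≤ 0 := by
      have h3 := (comb hM ![1, 4, 4, 1] ![fun x => l x ^ 2, fun x => l x * Real.cos (t * ℓ x),
        fun x => l x * Real.cos (t' * ℓ x),
        fun x => (2 * Real.cos (t * ℓ x) + 2 * Real.cos (t' * ℓ x)) ^ 2] (by
        intro i
        fin_cases i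
        · exact bdd_pow hlb 2
        · exact bdd_mul hlb (hcb _)
        · exact bdd_mul hlb (hcb _)
        · exact bdd_pow hab' 2)).1
      simp only [Fin.sum_univ_four, Matrix.cons_val_zero, Matrix.cons_val_one,
        Matrix.cons_val_two, Matrix.cons_val_three, Matrix.head_cons, Matrix.tail_cons] at h3
      have h4 : (fun x => (l x + (2 * Real.cos (t * ℓ x) + 2 * Real.cos (t' * ℓ x))) ^ 2) =
          fun x => 1 * l x ^ 2 + 4 * (l x * Real.cos (t * ℓ x)) +
            4 * (l x * Real.cos (t' * ℓ x)) +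
              1 * (2 * Real.cos (t * ℓ x) + 2 * Real.cos (t' * ℓ x)) ^ 2 := by
        funext x
        ring
      rw [h4, h3, hh2]
      linarith
    have hfin : M (fun x => (2 * Real.cos (t * ℓ x) + 2 * Real.cos (t' * ℓ x)) ^ 4) ≤
        4 * 4 + 12 * 1 + 192 *
          M (fun x => (l x + (2 * Real.cos (t * ℓ x) + 2 * Real.cos (t' * ℓ x))) ^ 2) := by
      have h3 := comb hM ![4, 12, 192] ![fun x =>
          (2 * Real.cos (t * ℓ x) + 2 * Real.cos (t' * ℓ x)) ^ 2, fun _ => 1,
        fun x => (l x + (2 * Real.cos (t * ℓ x) + 2 * Real.cos (t' * ℓ x))) ^ 2] (by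
        intro i
        fin_cases i
        · exact bdd_pow hab' 2
        · exact bdd_const 1
        · exact bdd_pow (bdd_add hlb hab') 2)
      simp only [Fin.sum_univ_three, Matrix.cons_val_zero, Matrix.cons_val_one,
        Matrix.cons_val_two, Matrix.head_cons, Matrix.tail_cons] at h3
      obtain ⟨h3, h3b⟩ := h3
      rw [hh2, hM.one] at h3
      rw [← h3]
      apply mono hM (bdd_pow hab' 4) h3b
      intro x
      have c1 := abs_le.1 (Real.abs_cos_le_one (t * ℓ x))
      have c2 := abs_le.1 (Real.abs_cos_le_one (t' * ℓ x))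
      have c3 := abs_le.1 (hl x)
      set h := 2 * Real.cos (t * ℓ x) + 2 * Real.cos (t' * ℓ x) with hh
      have hA : -4 ≤ h := by linarith
      have hB : h ≤ 4 := by linarith
      have hsq : h ^ 2 ≤ 16 := by nlinarith
      have hy : h ^ 2 * ((h - l x) * (l x + h)) ≤ 96 * |l x + h| := by
        have e1 : |h ^ 2 * (h - l x)| ≤ 96 := by
          rw [abs_mul, abs_of_nonneg (sq_nonneg h)]
          have e2 : |h - l x| ≤ 6 := by
            rw [abs_le]
            constructor <;> linarith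
          nlinarith [abs_nonneg (h - l x), sq_nonneg h]
        calc h ^ 2 * ((h - l x) * (l x + h)) = (h ^ 2 * (h - l x)) * (l x + h) := by ring
          _ ≤ |(h ^ 2 * (h - l x)) * (l x + h)| := le_abs_self _
          _ = |h ^ 2 * (h - l x)| * |l x + h| := abs_mul _ _
          _ ≤ 96 * |l x + h| := mul_le_mul_of_nonneg_right e1 (abs_nonneg _)
      have hz : 96 * |l x + h| ≤ 12 + 192 * (l x + h) ^ 2 := by
        have e1 : (l x + h) ^ 2 = |l x + h| ^ 2 := (sq_abs _).symm
        rw [e1]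
        nlinarith [sq_nonneg (4 * |l x + h| - 1)]
      have hw : l x ^ 2 * h ^ 2 ≤ 4 * h ^ 2 := mul_le_mul_of_nonneg_right (hl2 x) (sq_nonneg h)
      have hid : h ^ 4 = l x ^ 2 * h ^ 2 + h ^ 2 * ((h - l x) * (l x + h)) := by ring
      linarith
    linarith
  · rintro t' ht' ⟨h1, h2⟩
    have hb1 : Bdd fun x => l x * Real.cos (t' * ℓ x) := bdd_mul hlb (hcb t')
    have h3 := comb hM ![-1, -(3 / 2)] ![l, fun x => l x * Real.cos (t' * ℓ x)] (by
      intro i
      fin_cases i
      · exact hlb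
      · exact hb1)
    simp only [Fin.sum_univ_two, Matrix.cons_val_zero, Matrix.cons_val_one] at h3
    have h4 := comb hM ![2 * (103 / 100), 2 * (159 / 100), 2 * (1 / 20), -(2 * (59 / 100)),
      2 * (23 / 50)] ![fun _ => 1, fun x => Real.cos (t' * ℓ x),
        fun x => Real.cos (t' * ℓ x) ^ 2, fun x => Real.cos (t' * ℓ x) ^ 3,
        fun x => Real.cos (t' * ℓ x) ^ 4] (by
      intro i
      fin_cases i
      · exact bdd_const 1
      · exact hcb _
      · exact bdd_pow (hcb _) 2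
      · exact bdd_pow (hcb _) 3
      · exact bdd_pow (hcb _) 4)
    simp only [Fin.sum_univ_five, Matrix.cons_val_zero, Matrix.cons_val_one,
      Matrix.cons_val_two, Matrix.cons_val_three, Matrix.cons_val_four, Matrix.head_cons,
      Matrix.tail_cons] at h4
    obtain ⟨h3, h3b⟩ := h3
    obtain ⟨h4, h4b⟩ := h4
    rw [hM.one, hcos t' ht'.ne', hc2 t' ht'.ne', hc3 t' ht'.ne', hc4 t' ht'.ne'] at h4
    have h5 := mono hM h3b h4b (by
      intro x
      have c1 := abs_le.1 (Real.abs_cos_le_one (t' * ℓ x))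
      have c3 := hl x
      set z := Real.cos (t' * ℓ x) with hz
      have hP1 : 1 + 3 / 2 * z ≤ 103 / 100 + 159 / 100 * z + 1 / 20 * z ^ 2 - 59 / 100 * z ^ 3 +
          23 / 50 * z ^ 4 := by
        nlinarith [sq_nonneg (z ^ 2 - 59 / 92 * z - 1 / 5), sq_nonneg (z - 3 / 10), sq_nonneg z]
      have hP2 : -(1 + 3 / 2 * z) ≤ 103 / 100 + 159 / 100 * z + 1 / 20 * z ^ 2 -
          59 / 100 * z ^ 3 + 23 / 50 * z ^ 4 := by
        nlinarith [sq_nonneg (z ^ 2 - 59 / 92 * z - 29 / 20), sq_nonneg (z + 187 / 200),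
          sq_nonneg z]
      have hP3 : |1 + 3 / 2 * z| ≤ 103 / 100 + 159 / 100 * z + 1 / 20 * z ^ 2 -
          59 / 100 * z ^ 3 + 23 / 50 * z ^ 4 := abs_le'.2 ⟨hP1, hP2⟩
      have e1 : -1 * l x + -(3 / 2) * (l x * z) ≤ 2 * |1 + 3 / 2 * z| := by
        calc -1 * l x + -(3 / 2) * (l x * z) = -(l x * (1 + 3 / 2 * z)) := by ring
          _ ≤ |l x * (1 + 3 / 2 * z)| := neg_le_abs _
          _ = |l x| * |1 + 3 / 2 * z| := abs_mul _ _
          _ ≤ 2 * |1 + 3 / 2 * z| := mul_le_mul_of_nonneg_right c3 (abs_nonneg _)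
      linarith)
    rw [h3, h4] at h5
    norm_num at h5
    linarith

end MP7ed9c3.Tw
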