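import Pool.Agent.Lib.MP_7ed9c3_nt.Tw.SpecW

/-!
# MP_7ed9c3_nt, part Tw: Landau's lemma, mean values over primes, assembly (statements L)
-/

set_option autoImplicit false

namespace MP7ed9c3.Tw

open NumberField IsDedekindDomain Filter Topology

/-- **L1, Landau's lemma for exponentials of positive Dirichlet series.**

Proof.  Let `c₀ = 5/4`, `U` the ball.  Let `f` be holomorphic on `U`; call `f` good if
`0 ≤ (-1)^j iteratedDeriv j f c₀` (a real number) for all `j`.  If `f` is good then for real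
`x ∈ U`, `x ≤ c₀`, `f x` is real and `≥ 0`, by the Taylor series at `c₀` (see
`Mathlib/Analysis/Complex/Positivity.lean`, e.g. `DifferentiableOn.nonneg_of_iteratedDeriv_nonneg`
applied to `z ↦ f(2 c₀ - z)`, and `Mathlib/NumberTheory/LSeries/Positivity.lean`).
For a finite set `A` let `H_A(s) = ∑_{i ∈ A} c_i N_i^(-s)` (entire) and
`H(s) = ∑'_i c_i N_i^(-s)` (holomorphic for `Re s > 1`; all derivatives termwise).  `G - exp(H_A)` is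
holomorphic on `U` and near `c₀` it is `exp(H_A) (exp(H - H_A) - 1)`.  The functions `c N^(-s)`,
`c ≥ 0`, `N ≥ 1` are good (`j`-th derivative `(-log N)^j c N^(-s)`), locally uniform sums, products
(Leibniz) and exponentials `exp(f)` and `exp(f) - 1` (power series) of good functions are good.  (Only
the Taylor coefficients at `c₀` are needed; one may also work with power series in `z = c₀ - s`:
`N^(-s) = N^(-c₀) ∑ (log N)^j z^j / j!`.)  So `exp(H_A(1/2)) ≤ Re G(1/2)` for every finite `A`, and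
`H_A(1/2) ≤ log (Re G(1/2)) =: B`. -/
def S_Landau : Prop :=
  ∀ (ι : Type) (N c : ι → ℝ) (G : ℂ → ℂ), (∀ i, 1 ≤ N i) → (∀ i, 0 ≤ c i) →
    (∀ σ : ℝ, 1 < σ → Summable fun i => c i * N i ^ (-σ)) →
    DifferentiableOn ℂ G (Metric.ball (5 / 4) 1) →
    (∀ s ∈ Metric.ball (5 / 4 : ℂ) 1, 1 < s.re →
      G s = Complex.exp (∑' i, (c i : ℂ) * (N i : ℂ) ^ (-s))) →
    ∃ B : ℝ, ∀ A : Finset ι, ∑ i ∈ A, c i * N i ^ (-(1 / 2) : ℝ) ≤ B

/-- **L2, the product that cannot be holomorphic** (from L1).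

Proof.  Write `l x = 2 cos ψ_x` (`|l x| ≤ 2`).  For `|z| < 1`:
`1 - 2 cos ψ z + z² = (1 - e^(iψ) z)(1 - e^(-iψ) z)`, `-log` of it is `∑_{k ≥ 1} 2 cos(kψ) z^k / k`, and
for `χ = ±1` the same with `χ cos ψ`: `1 - χ 2cos ψ z + z² = (1 - e^(iψ) χz)(1 - e^(-iψ) χz)`.  So the
`x`-factor is `exp(∑_{k≥1} c_{x,k} q_x^(-ks))` with
`c_{x,k} = (2 + 2 χ^k + 2 cos kψ + 2 χ^k cos kψ)/k = (1 + χ^k)(2 + 2 cos kψ)/k ≥ 0`, `≤ 8/k`.
The double sum converges absolutely for `Re s > 1` (`∑ q_x^(-σ) < ∞`, `q_x ≥ 2`), so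
`G s = exp(∑' c_{x,k} (q_x^k)^(-s))` and L1 applies with index set `X × ℕ` (`k = j + 1`),
`N = q_x^k`.  For `χ x = 1`: `c_{x,1} = 2 (2 + l x)`, `c_{x,2} = 2 + 2 cos 2ψ = (l x)²`, so
`c_{x,1} q^(-1/2) + c_{x,2} q^(-1) ≥ q^(-1)`: if `l x ≥ -1` the first term is at least
`2 q^(-1/2) ≥ q^(-1)`, if `l x < -1` the second one is at least `q^(-1)`. -/
def S_NoDouble : Prop :=
  ∀ (X : Type) (q : X → ℕ) (l χ : X → ℝ) (G : ℂ → ℂ), (∀ x, 2 ≤ q x) →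
    (∀ σ : ℝ, 1 < σ → Summable fun x => (q x : ℝ) ^ (-σ)) → (∀ x, |l x| ≤ 2) →
    (∀ x, χ x = 1 ∨ χ x = -1) → DifferentiableOn ℂ G (Metric.ball (5 / 4) 1) →
    (∀ s ∈ Metric.ball (5 / 4 : ℂ) 1, 1 < s.re → G s = ∏' x : X,
      ((1 - (q x : ℂ) ^ (-s)) ^ 2 * (1 - (χ x : ℂ) * (q x : ℂ) ^ (-s)) ^ 2 *
        (1 - (l x : ℂ) * (q x : ℂ) ^ (-s) + (q x : ℂ) ^ (-(2 * s))) *
        (1 - (χ x : ℂ) * (l x : ℂ) * (q x : ℂ) ^ (-s) + (q x : ℂ) ^ (-(2 * s))))⁻¹) →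
    ∃ B : ℝ, ∀ A : Finset X, (∀ x ∈ A, χ x = 1) → ∑ x ∈ A, 1 / (q x : ℝ) ≤ B

/-- `F` is an entire function continuing the L-series of `E`. -/
def Continues {K : Type} [Field K] [NumberField K] (E : WeierstrassCurve K)
    (M : HeightOneSpectrum (𝓞 K) → WeierstrassCurve (𝓞 K)) (F : ℂ → ℂ) : Prop :=
  (∀ v, IsMinAt E v (M v)) ∧ Differentiable ℂ F ∧
    ∀ s : ℂ, 3 / 2 < s.re → F s = ∏' v : HeightOneSpectrum (𝓞 K), (locDen (M v) v s)⁻¹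

/-- **L3, at `3/2` a zero is simple** (from L2, D6b, D6a, D7, W4, W7).

Proof.  Suppose that `F` vanishes to order at least 2 at `3/2`.  Let `S` be from W4, and `e₁, e₂` from W7
for `K, S` and for `E, M, S`; `Z` from D6b with `A = 0`, `R = 2`, so `ζ_K(s) = Z(s)/(s-1)` for
`Re s > 1`, and `F(s + 1/2) = (s - 1)² h(s)` with `h` entire.
`G₁(s) = Z(s)² e₁(s)² h(s) e₂(s)` is holomorphic on the ball `|s - 5/4| < 1` (there `Re s > 1/4`,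
`|Im s| < 1`), and for `Re s > 1`
`G₁(s) = (ζ_K(s) e₁(s))² F(s+1/2) e₂(s) = ∏'_{v ∉ S} ((1 - q^(-s))² (1 - l q^(-s) + q^(-2s)))⁻¹`,
`l v = tr (M v) v / √q`, `|l v| ≤ 2`.  Products of unconditionally convergent products (they are
exponentials of absolutely convergent sums, D6a, Z2) may be multiplied factor by factor.  Apply L2 with
`X = {v // v ∉ S}`, `χ = 1`, `G = G₁²`: so `∑_{v ∈ A} 1/nm v ≤ B` for all finite `A` outside `S`.  But by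
D7 `primeSum K x 0 → ∞` as `x → 0+`, and `primeSum K x 0 ≤ ∑' 1/nm v` if the latter converges:
contradiction. -/
def S_Simple : Prop :=
  ∀ (K : Type) [Field K] [NumberField K] (E : WeierstrassCurve K), E.IsElliptic →
    ∀ (M : HeightOneSpectrum (𝓞 K) → WeierstrassCurve (𝓞 K)) (F : ℂ → ℂ), Continues E M F →
      analyticOrderNatAt F (3 / 2) ≤ 1

/-- **L4, two twists cannot both vanish at `3/2`** (from L2, D6b, D6a, D7, W3, W4, W6, W7).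

Proof.  Suppose `F(3/2) = F'(3/2) = 0`.  Let `d, S₀` be the data (as in W3), `L, S₁` from W6, `S` the
union of `S₀`, `S₁`, the sets of W4 for `E` and `E'` (finite).  `e` from W6 for `S`, `e₂, e₂'` from W7 for
`E`, `E'`.  `Z` from D6b for `L`, `A = 0`, `R = 2`.  `F(s+1/2) F'(s+1/2) = (s-1)² h(s)`, `h` entire.
`G(s) = Z(s)² e(s)² h(s) e₂(s) e₂'(s)` is holomorphic on the ball and for `Re s > 1` it is
`∏'_{v ∉ S} ((1-q^(-s))² (1-χ q^(-s))² (1 - l q^(-s) + q^(-2s)) (1 - χ l q^(-s) + q^(-2s)))⁻¹` with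
`χ v = chiv d v` (which is `±1` because `2d ∉ v`), `l v = tr (M v) v/√q`, `tr (M' v) v = χ v tr (M v) v`.
By L2 the sums of `1/nm v` over finite sets of `v ∉ S` with `χ v = 1` are bounded.  But by W6 (1) with
`u = 0` and D7 for `L`: `∑'_v (1 + χ v) nm v^(-(1+x)) ≥ log(1/x) - C`, so
`∑_{v ∉ S, χ v = 1} 2 nm v^(-(1+x)) → ∞` as `x → 0+`: contradiction. -/
def S_NotBoth : Prop :=
  ∀ (K : Type) [Field K] [NumberField K] (E E' : WeierstrassCurve K), E.IsElliptic →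
    E'.IsElliptic → ∀ (d : 𝓞 K) (S : Set (HeightOneSpectrum (𝓞 K))), ¬ IsSquare (d : K) →
    S.Finite → (∀ v ∉ S, (2 * d : 𝓞 K) ∉ v.asIdeal ∧ ∀ M M' : WeierstrassCurve (𝓞 K),
        IsMinAt E v M → IsMinAt E' v M' → (tr M' v : ℝ) = chiv d v * tr M v) →
    ∀ (M M' : HeightOneSpectrum (𝓞 K) → WeierstrassCurve (𝓞 K)) (F F' : ℂ → ℂ),
      Continues E M F → Continues E' M' F' → ¬ (F (3 / 2) = 0 ∧ F' (3 / 2) = 0)

/-- Bounded functions. -/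
def Bdd {X : Type} (g : X → ℝ) : Prop := ∃ B : ℝ, ∀ x, |g x| ≤ B

/-- `M` is a mean on bounded functions on `X`: positive, linear, normalized. -/
structure IsMean {X : Type} (M : (X → ℝ) → ℝ) : Prop where
  add : ∀ g h : X → ℝ, Bdd g → Bdd h → M (fun x => g x + h x) = M g + M h
  smul : ∀ (c : ℝ) (g : X → ℝ), Bdd g → M (fun x => c * g x) = c * M g
  nonneg : ∀ g : X → ℝ, Bdd g → (∀ x, 0 ≤ g x) → 0 ≤ M g
  one : M (fun _ => 1) = 1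

/-- **L5, existence of the mean.**

Proof.  Let `𝒰` be an ultrafilter on `ℝ` with `𝒰 ≤ 𝓝[>] 0`, and
`M g = lim_𝒰 (∑'_v g v * w x v) / log(1/x)` for bounded `g` (the limit exists, because the quotients are
bounded for small `x`: `|∑' g w| ≤ B ∑' w ≤ B (log(1/x) + C)`; `Ultrafilter`, compactness of
`[-B', B']`), `M g = 0` otherwise (or any junk value; e.g. define `M g` by `limUnder`).  Linearity:
limits of sums; positivity clear; `M 1 = 1`; if `|∑' g w - L log(1/x)| ≤ C` then the quotient tends to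
`L`. -/
def S_Mean : Prop :=
  ∀ (X : Type) (w : ℝ → X → ℝ), (∀ x v, 0 ≤ w x v) → (∀ x, 0 < x → x ≤ 1 → Summable (w x)) →
    (∃ C : ℝ, ∀ x, 0 < x → x ≤ 1 → |∑' v, w x v - Real.log (1 / x)| ≤ C) →
    ∃ M : (X → ℝ) → ℝ, IsMean M ∧ ∀ (g : X → ℝ) (L C : ℝ), Bdd g →
      (∀ x, 0 < x → x ≤ 1 → |∑' v, g v * w x v - L * Real.log (1 / x)| ≤ C) → M g = L

/-- **L6, the means of the zeros: one curve.**

Proof.  All functions below are bounded.  Monotone: `g ≤ h → M g ≤ M h`.  Products to sums: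
`cos a cos b = (cos(a+b) + cos(a-b))/2`.  For `t ≠ 0`: `M(cos²(tℓ)) = 1/2`, `M(cos⁴(tℓ)) = 3/8`,
`M(cos(tℓ)) = M(cos³(tℓ)) = 0`.
(1) `0 ≤ M((l + c cos(tℓ))²) = M(l²) + 2c M(l cos) + c²/2 ≤ 4 - 2 c m + c²/2`; `c = 2m` gives `m² ≤ 2`.
(2) `a = cos(tℓ)`, `b = cos(t'ℓ)`, `t ≠ t'` positive, `h = 2a + 2b`: `M(a²) = M(b²) = 1/2`,
`M(ab) = 0`, `M((l + h)²) ≤ 4 + 4 M(l a) + 4 M(l b) + 4 · 1 ≤ 0`, so `M((l+h)²) = 0`.  Now
`h⁴ - l² h² = h² (h - l)(h + l)`, `|h² (h - l)| ≤ 16 · 6 = 96`, and for every `ε > 0`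
`|96 (h + l)| ≤ 48 (ε + (h + l)²/ε)`; so `M(h⁴) ≤ M(l² h²) + 48 ε ≤ 4 M(h²) + 48 ε = 16 + 48 ε`, i.e.
`M(h⁴) ≤ 16`.  But `M(h⁴) = 16 (M a⁴ + 4 M a³b + 6 M a²b² + 4 M ab³ + M b⁴) ≥ 16 (3/8 + 6/4 + 3/8) = 36`,
since `M(a²b²) = 1/4 + (1/4) M(cos 2tℓ cos 2t'ℓ) = 1/4` and `M(a³ b) = (1/4) M(cos 3tℓ cos t'ℓ) + (3/4)·0`
is `1/8` or `0`, similarly `M(a b³) ≥ 0`.
(3) `b = cos(t'ℓ)`, `t' > 0`: `M(l) ≤ -1`, `M(l b) ≤ -1`.  For `|z| ≤ 1`:
`|1 + 3z/2| ≤ P(z) := 103/100 + 159/100 z + 1/20 z² - 59/100 z³ + 23/50 z⁴` (both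
`P(z) - 1 - 3z/2` and `P(z) + 1 + 3z/2` are positive on `[-1, 1]`, minimum about `0.018`).  So
`5/2 ≤ -M(l (1 + 3b/2)) ≤ 2 M(|1 + 3b/2|) ≤ 2 M(P(b)) = 2 (103/100 + 1/40 + 69/400) = 2 · 1.2275 < 5/2`,
contradiction (`M b = M b³ = 0`, `M b² = 1/2`, `M b⁴ = 3/8`). -/
def S_CoreOne : Prop :=
  ∀ (X : Type) (M : (X → ℝ) → ℝ) (l ℓ : X → ℝ), IsMean M → (∀ x, |l x| ≤ 2) →
    (∀ u : ℝ, u ≠ 0 → M (fun x => Real.cos (u * ℓ x)) = 0) →
    (∀ t m : ℝ, t ≠ 0 → M (fun x => l x * Real.cos (t * ℓ x)) = -m → m ^ 2 ≤ 2) ∧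
    (∀ t t' : ℝ, 0 < t → 0 < t' → t ≠ t' → ¬ (M (fun x => l x * Real.cos (t * ℓ x)) ≤ -1 ∧
      M (fun x => l x * Real.cos (t' * ℓ x)) ≤ -1)) ∧
    (∀ t' : ℝ, 0 < t' → ¬ (M l ≤ -1 ∧ M (fun x => l x * Real.cos (t' * ℓ x)) ≤ -1))

/-- **L7, the means of the zeros: a curve and a twist.**

Proof.  As in L6.  (1) `a = cos(tℓ)`, `b = χ cos(t'ℓ)`, `h = 2a + 2b`: `M(a²) = M(b²) = 1/2`
(`χ² = 1`), `M(ab) = M(χ cos cos) = 0`.  `M((l+h)²) ≤ 0` as before, `M(h⁴) ≤ 16`.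
`M(a³b) = M(ab³) = 0` (`χ` times products of cosines), `M(a²b²) = M(cos²(tℓ) cos²(t'ℓ)) =
1/4 + (1/4) M(cos 2tℓ cos 2t'ℓ) ≥ 1/4` (`= 3/8` if `t = t'`), `M a⁴ = M b⁴ = 3/8`: `M(h⁴) ≥ 36`.
(2) `z = χ cos(t'ℓ)`: `M(z) = M(z³) = 0`, `M(z²) = 1/2`, `M(z⁴) = 3/8`; the same polynomial `P` gives
`5/2 ≤ -M(l(1 + 3z/2)) ≤ 2 M(P(z)) < 5/2`. -/
def S_CoreTwo : Prop :=
  ∀ (X : Type) (M : (X → ℝ) → ℝ) (l χ ℓ : X → ℝ), IsMean M → (∀ x, |l x| ≤ 2) →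
    (∀ x, χ x = 1 ∨ χ x = -1) → (∀ u : ℝ, u ≠ 0 → M (fun x => Real.cos (u * ℓ x)) = 0) →
    (∀ u : ℝ, M (fun x => χ x * Real.cos (u * ℓ x)) = 0) →
    (∀ t t' : ℝ, 0 < t → 0 < t' → ¬ (M (fun x => l x * Real.cos (t * ℓ x)) ≤ -1 ∧
      M (fun x => l x * (χ x * Real.cos (t' * ℓ x))) ≤ -1)) ∧
    (∀ t' : ℝ, 0 < t' → ¬ (M l ≤ -1 ∧ M (fun x => l x * (χ x * Real.cos (t' * ℓ x))) ≤ -1))

/-- **L8, one curve** (from D7, W4, W8, L3, L5, L6).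

Proof.  `X` = primes of `K`, `w x v = nm v^(-(1+x))`, `ℓ v = log nm v`; D7 with `u = 0` gives the
hypothesis of L5, and D7 gives `M(cos(uℓ)) = 0` for `u ≠ 0`.  Let `S` be from W4 and
`l v = tr (M v) v / √(nm v)` for `v ∉ S`, `l v = 0` for `v ∈ S`; `|l v| ≤ 2`.  By W8 and since the `v ∈ S`
contribute `O(1)`: `M(l cos(tℓ)) = -m_t`, `m_t` the order of `F` at `3/2 + it`.  If `t ≠ 0` then
`m_t² ≤ 2` (L6 (1)), so `m_t ≤ 1`; for `t = 0` use L3.  Note `m_t = m_{-t}` (the cosine is even).  If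
`F` vanishes at `3/2 + it` and at `3/2 + it'` with `|t| ≠ |t'|`: both nonzero contradicts L6 (2) (for
`|t|, |t'|`), one of them zero contradicts L6 (3).  A zero of order 1 has nonzero derivative. -/
def S_OneCurve : Prop :=
  ∀ (K : Type) [Field K] [NumberField K] (E : WeierstrassCurve K), E.IsElliptic →
    ∀ (M : HeightOneSpectrum (𝓞 K) → WeierstrassCurve (𝓞 K)) (F : ℂ → ℂ), Continues E M F →
      ∀ t t' : ℝ, F (3 / 2 + t * Complex.I) = 0 → F (3 / 2 + t' * Complex.I) = 0 →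
        |t| = |t'| ∧ deriv F (3 / 2 + t * Complex.I) ≠ 0

/-- **L9, two curves with the same j-invariant** (from D7, W3, W4, W6, W8, L4, L5, L7).

Proof.  Suppose that `E` and `E'` are not isomorphic; take `d, S₀` from W3.  `X`, `w`, `ℓ`, `M` as in
L8; `l` for `E` as in L8 but zero also on `S₀` and on the exceptional set for `E'`; `χ v = chiv d v` for
`v ∉ S₀`, `χ v = 1` for `v ∈ S₀` (so `χ = ±1`).  By W6 (1) and D7 for `K` and `L`: for every `u`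
`∑' χ v w x v cos(u ℓ v) = primeSum L x u - primeSum K x u + O(1) = O(1)` (for `u = 0` both are
`log(1/x) + O(1)`), so `M(χ cos(uℓ)) = 0` for all `u`.  By W8 for `E'`: `M(χ l cos(tℓ)) = -m'_t`.
If `F(3/2 + it) = 0 = F'(3/2 + it')`: `m_t, m'_{t'} ≥ 1`.  Both `t, t' ≠ 0`: L7 (1) for `|t|, |t'|`.
`t = 0 ≠ t'`: L7 (2).  `t ≠ 0 = t'`: L7 (2) for `χ l` in place of `l` (`χ l χ = l`).  `t = t' = 0`: L4. -/
def S_TwoCurves : Prop :=
  ∀ (K : Type) [Field K] [NumberField K] (E E' : WeierstrassCurve K) [E.IsElliptic]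
    [E'.IsElliptic], E.j = E'.j → E.j ≠ 0 → E.j ≠ 1728 →
    ∀ (M M' : HeightOneSpectrum (𝓞 K) → WeierstrassCurve (𝓞 K)) (F F' : ℂ → ℂ),
      Continues E M F → Continues E' M' F' →
      ∀ t t' : ℝ, F (3 / 2 + t * Complex.I) = 0 → F' (3 / 2 + t' * Complex.I) = 0 →
        ∃ C : WeierstrassCurve.VariableChange K, C • E = E'

end MP7ed9c3.Tw
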